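import Pool.Agent.LibTC2.BA1

/-!
[TC1 BA2] torsion values and diagonal changes of basis. Plan: as in `tor_place` (LibPK60/Tor.lean), the computation of `e3`: with `P = diag p`, `Q = diag p⁻¹`, `S = rm σ`, `D' = P D Q`,
`H' = P H Q` is a square-zero homotopy for `D'`, and `D' + H' = P (D + H) Q`, so `S (D' + H') = (S P S) (S (D + H)) Q`, all three factors even;
`de_mul`, `de_conj` (`de false (S P S) = de true P`), `de_diag`. The product over all `t`: `Finset.prod_filter_mul_prod_filter_not`.
-/

open scoped Classical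
open MvPolynomial

set_option linter.unusedSectionVars false

namespace Pool.Agent.LibTC2.KW

open Pool.Agent.LibPK60 Pool.Agent.LibBH2 Pool.Agent.LibQC8

variable {I L : Type} [Fintype I] [Field L] {pr : I → Bool} {σ : Equiv.Perm I}

theorem TV_scale (h : Sw pr σ) {D : Matrix I I L} (hD : IsOdd pr D) (hDD : D * D = 0) {z : L}
    (hz : TV pr σ D z) (p : I → L) (hp : ∀ i, p i ≠ 0) {D' : Matrix I I L}
    (hD' : ∀ s t, D' s t = p s * D s t * (p t)⁻¹) :
    TV pr σ D' (z * ∏ t, if pr t = true then p t else (p t)⁻¹) := by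
  obtain ⟨H, hH, hzH⟩ := hz
  set P' : Matrix I I L := Matrix.diagonal p with hP
  set Q' : Matrix I I L := Matrix.diagonal (fun i => (p i)⁻¹) with hQ
  have hPQ : P' * Q' = 1 := by
    rw [hP, hQ, Matrix.diagonal_mul_diagonal, ← Matrix.diagonal_one]
    congr 1
    funext i
    exact mul_inv_cancel₀ (hp i)
  have hQP : Q' * P' = 1 := by
    rw [hP, hQ, Matrix.diagonal_mul_diagonal, ← Matrix.diagonal_one]
    congr 1
    funext i
    exact inv_mul_cancel₀ (hp i)
  have hDe : D' = P' * D * Q' := by
    ext i j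
    rw [hP, hQ, Matrix.mul_diagonal, Matrix.diagonal_mul]
    exact hD' i j
  have evP : Tor.IsEv pr P' := Tor.ev_diag pr _
  have evQ : Tor.IsEv pr Q' := Tor.ev_diag pr _
  have hH' : Tor.Hom pr D' (P' * H * Q') := by
    refine ⟨Tor.od_mul_ev (Tor.ev_mul_od evP hH.od) evQ, ?_, ?_⟩
    · calc P' * H * Q' * (P' * H * Q') = P' * H * (Q' * P') * H * Q' := by
            simp only [Matrix.mul_assoc]
        _ = P' * (H * H) * Q' := by rw [hQP]; simp only [Matrix.mul_assoc, Matrix.mul_one]
        _ = 0 := by rw [hH.sq, Matrix.mul_zero, Matrix.zero_mul]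
    · rw [hDe]
      calc P' * D * Q' * (P' * H * Q') + P' * H * Q' * (P' * D * Q')
          = P' * D * (Q' * P') * H * Q' + P' * H * (Q' * P') * D * Q' := by
            simp only [Matrix.mul_assoc]
        _ = P' * (D * H + H * D) * Q' := by
            rw [hQP, Matrix.mul_add, Matrix.add_mul]
            simp only [Matrix.mul_assoc, Matrix.mul_one, Matrix.one_mul]
        _ = 1 := by rw [hH.ht, Matrix.mul_one, hPQ]
  refine ⟨P' * H * Q', hH', ?_⟩
  have hSod : Tor.IsOd pr (rm L σ) := rm_od h
  have hSS : rm L σ * rm L σ = 1 := rm_sq h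
  have e2 : rm L σ * (D' + P' * H * Q') =
      (rm L σ * P' * rm L σ) * (rm L σ * (D + H)) * Q' := by
    rw [hDe]
    calc rm L σ * (P' * D * Q' + P' * H * Q') = rm L σ * P' * 1 * (D + H) * Q' := by
          rw [Matrix.mul_one, Matrix.mul_add, Matrix.mul_add, Matrix.add_mul]
          simp only [Matrix.mul_assoc]
      _ = _ := by
          rw [← hSS]
          simp only [Matrix.mul_assoc]
  have ev1 : Tor.IsEv pr (rm L σ * P' * rm L σ) := Tor.od_mul (Tor.od_mul_ev hSod evP) hSod
  have hDod : Tor.IsOd pr D := hD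
  have ev2 : Tor.IsEv pr (rm L σ * (D + H)) := Tor.od_mul hSod (Tor.od_add hDod hH.od)
  rw [e2, Tor.de_mul false (Tor.ev_mul ev1 ev2), Tor.de_mul false ev1,
    Tor.de_conj hSod hSS evP, ← hzH, hP, hQ, Tor.de_diag, Tor.de_diag,
    ← Finset.prod_filter_mul_prod_filter_not Finset.univ (fun t => pr t = true)
      (fun t => if pr t = true then p t else (p t)⁻¹)]
  have e4 : ∏ t ∈ Finset.univ.filter (fun t => pr t = true),
      (if pr t = true then p t else (p t)⁻¹) =
      ∏ i ∈ Finset.univ.filter (fun i => pr i = true), p i :=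
    Finset.prod_congr rfl fun i hi => if_pos (Finset.mem_filter.1 hi).2
  have e5 : ∏ t ∈ Finset.univ.filter (fun t => ¬ pr t = true),
      (if pr t = true then p t else (p t)⁻¹) =
      ∏ i ∈ Finset.univ.filter (fun i => pr i = false), (p i)⁻¹ := by
    refine Finset.prod_congr (by ext i; simp) fun i hi => ?_
    have h1 : pr i = false := (Finset.mem_filter.1 hi).2
    rw [if_neg (by rw [h1]; simp)]
  rw [e4, e5]
  ring

end Pool.Agent.LibTC2.KW
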