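import Pool.Agent.LibTC2.BA1

/-!
[TC1 BA4] exact complexes have equally many even and odd basis elements. Plan: `U = D + H` is odd with `U * U = 1` (`Tor.Hom.inv`). With the blocks `A = blk pr false true U`, `B = blk pr true false U`
(LibPK60/T1: `blk_mul`, `blk_od`, `blk_one`): `A * B = 1`, `B * A = 1`, so the two index types `{i // pr i = false}`, `{i // pr i = true}` have the same cardinality
(`Matrix.square_of_invertible` or `Matrix.toLin'` and `LinearEquiv.finrank_eq`). Choose an equivalence `e` between them; `σ` maps `t` even to `e t`, `t` odd to `e.symm t`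
(e.g. through `Equiv.sumCompl` for `fun t => pr t = false`, or `Function.Involutive.toPerm`). `sum_of_sw`: reindex with `σ` (`Equiv.sum_comp`): the sum equals its negative.
-/

open scoped Classical
open MvPolynomial

set_option linter.unusedSectionVars false

namespace Pool.Agent.LibTC2.KW

open Pool.Agent.LibPK60 Pool.Agent.LibBH2 Pool.Agent.LibQC8

theorem exists_sw {κ I : Type} [Field κ] [Fintype I] {pr : I → Bool} {D H : Matrix I I κ}
    (hD : IsOdd pr D) (hDD : D * D = 0) (h : Tor.Hom pr D H) : ∃ σ : Equiv.Perm I, Sw pr σ := by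
  have hUU : (D + H) * (D + H) = 1 := h.inv hDD
  have hU : Tor.IsOd pr (D + H) := Tor.od_add hD h.od
  have h00 := congrArg (Tor.blk pr false false) hUU
  have h11 := congrArg (Tor.blk pr true true) hUU
  rw [Tor.blk_mul, Tor.blk_od hU false, Tor.blk_one, Matrix.zero_mul, zero_add] at h00
  rw [Tor.blk_mul, Tor.blk_od hU true, Tor.blk_one, Matrix.zero_mul, add_zero] at h11
  have hcard : Fintype.card {i // pr i = false} = Fintype.card {i // pr i = true} :=
    Matrix.square_of_invertible _ _ h00 h11
  let e : {i // pr i = false} ≃ {i // pr i = true} := Fintype.equivOfCardEq hcard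
  have htrue : ∀ {t : I}, ¬ pr t = false → pr t = true := by
    intro t ht
    cases h' : pr t
    · exact absurd h' ht
    · rfl
  let f : I → I := fun t => if ht : pr t = false then (e ⟨t, ht⟩).1
    else (e.symm ⟨t, htrue ht⟩).1
  have f0 : ∀ t (ht : pr t = false), f t = (e ⟨t, ht⟩).1 := fun t ht => dif_pos ht
  have f1 : ∀ t (ht : pr t = true), f t = (e.symm ⟨t, ht⟩).1 := fun t ht =>
    dif_neg (by rw [ht]; simp)
  have hf : Function.Involutive f := by
    intro t
    cases ht : pr t
    · rw [f0 t ht, f1 _ (e ⟨t, ht⟩).2]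
      simp
    · rw [f1 t ht, f0 _ (e.symm ⟨t, ht⟩).2]
      simp
  refine ⟨hf.toPerm f, fun t => ⟨?_, ?_⟩⟩
  · show pr (f t) ≠ pr t
    cases ht : pr t
    · rw [f0 t ht, (e ⟨t, ht⟩).2]
      simp
    · rw [f1 t ht, (e.symm ⟨t, ht⟩).2]
      simp
  · exact hf t

theorem sum_of_sw {I : Type} [Fintype I] {pr : I → Bool} {σ : Equiv.Perm I} (h : Sw pr σ) :
    ∑ t, (if pr t = true then (-1 : ℤ) else 1) = 0 := by
  have h1 : ∑ t, (if pr (σ t) = true then (-1 : ℤ) else 1) =
      ∑ t, (if pr t = true then (-1 : ℤ) else 1) :=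
    Equiv.sum_comp σ (fun t => if pr t = true then (-1 : ℤ) else 1)
  have h2 : ∑ t, (if pr (σ t) = true then (-1 : ℤ) else 1) =
      - ∑ t, (if pr t = true then (-1 : ℤ) else 1) := by
    rw [← Finset.sum_neg_distrib]
    refine Finset.sum_congr rfl fun t _ => ?_
    have h3 := (h t).1
    revert h3
    cases pr (σ t) <;> cases pr t <;> simp
  omega

end Pool.Agent.LibTC2.KW
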