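import Pool.Agent.LibTC2.B0

/-!
[TC1 BB1] extension of the base field. Plan: `aeval_bc`: `MvPolynomial.aeval_map_algebraMap`. `cmp_bc`: the same with values in polynomials (the instance `IsScalarTower k L (Polynomial R)` exists).
`gs_bc`: `gs`, `kap` are coefficients of `cmp X (gen ε x)`, `gen` does not depend on the base field; `cmp_bc` with `R = MvPolynomial (Fin n) K`. `bc_bc`: the structure is determined by `F`
(`map_map`, `IsScalarTower.algebraMap_eq`), e.g. `Hyp` extensionality by cases. `sol_bc_self`: `Sol` depends on `X` only through `cmp`.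
-/

open scoped Classical
open MvPolynomial

set_option linter.unusedSectionVars false

namespace Pool.Agent.LibTC2

open Pool.Agent.LibBH2 Pool.Agent.LibQC8

variable {ι : Type} [Fintype ι] {r : ℕ} {k : Type} [Field k] {P : Tor ι r}

private theorem BB1_ext {Y Z : Hyp k P} (h : Y.F = Z.F) : Y = Z := by
  obtain ⟨F, _, _⟩ := Y
  obtain ⟨F', _, _⟩ := Z
  have h' : F = F' := h
  subst h'
  rfl

theorem aeval_bc (X : Hyp k P) (L : Type) [Field L] [Algebra k L] {A : Type} [CommRing A]
    [Algebra k A] [Algebra L A] [IsScalarTower k L A] (x : ι → A) :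
    aeval x (bc X L).F = aeval x X.F := by
  exact MvPolynomial.aeval_map_algebraMap L x X.F

theorem cmp_bc (X : Hyp k P) (L : Type) [Field L] [Algebra k L] {R : Type} [CommRing R]
    [Algebra k R] [Algebra L R] [IsScalarTower k L R] (f : ι → Polynomial R) :
    cmp (bc X L) f = cmp X f := by
  exact MvPolynomial.aeval_map_algebraMap L f X.F

theorem bc_bc (X : Hyp k P) (L L' : Type) [Field L] [Algebra k L] [Field L'] [Algebra k L']
    [Algebra L L'] [IsScalarTower k L L'] : bc (bc X L) L' = bc X L' := by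
  refine BB1_ext ?_
  show MvPolynomial.map (algebraMap L L') (MvPolynomial.map (algebraMap k L) X.F) =
    MvPolynomial.map (algebraMap k L') X.F
  rw [MvPolynomial.map_map, ← IsScalarTower.algebraMap_eq k L L']

theorem sol_bc_self (X : Hyp k P) (a : ι → ℤ) (x : ι → k) (f : ι → Polynomial k) :
    Sol (bc X k) a x f ↔ Sol X a x f := by
  have h : bc X k = X := by
    refine BB1_ext ?_
    show MvPolynomial.map (algebraMap k k) X.F = X.F
    rw [Algebra.algebraMap_self, MvPolynomial.map_id]
  rw [h]

namespace KW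

theorem gs_bc (X : Hyp k P) {n : ℕ} {a : ι → ℤ} (ε : Fin n ≃ Un a) (M : ℕ) (L : Type) [Field L]
    [Algebra k L] {K : Type} [Field K] [Algebra k K] [Algebra L K] [IsScalarTower k L K] (x : ι → K) :
    gs (bc X L) ε M x = gs X ε M x := by
  funext j
  show (cmp (bc X L) (gen ε x)).coeff (j.val + 1) = (cmp X (gen ε x)).coeff (j.val + 1)
  rw [cmp_bc]

theorem CM_bc (X : Hyp k P) {a : ι → ℤ} {M : ℕ} (ε : Fin (M + 1) ≃ Un a) (m : ℕ) (L : Type) [Field L]
    [Algebra k L] {K : Type} [Field K] [Algebra k K] [Algebra L K] [IsScalarTower k L K] (x : ι → K) :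
    CM (bc X L) ε m x = CM X ε m x := by
  show CMW (wt ε) (ds M) m (gs (bc X L) ε M x) (th ε x) (as M) =
    CMW (wt ε) (ds M) m (gs X ε M x) (th ε x) (as M)
  rw [gs_bc]

end KW

end Pool.Agent.LibTC2
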