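import Pool.Agent.LibTC2.B0

/-!
[TC1 BB3] exactness at a point without solutions. Plan: this is the first part of the proof of `good_at` (KM.lean) with `p.z`, `p.cone`, `p.hF` replaced by `p`, `hc`, `hF`:
up to `exists_homotopy` (copy).
-/

open scoped Classical
open MvPolynomial

set_option linter.unusedSectionVars false

namespace Pool.Agent.LibTC2.KW

open Pool.Agent.LibPK60 Pool.Agent.LibBH2 Pool.Agent.LibQC8

variable {ι : Type} [Fintype ι] {r : ℕ} {k : Type} [Field k] {P : Tor ι r}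

theorem ex_at [IsAlgClosed k] [CharZero k] (X : Hyp k P) (a : ι → ℤ) (ha : a ∈ Rel P)
    (h0 : ∀ i, 0 ≤ a i) (hne : a ≠ 0) {M : ℕ} (ε : Fin (M + 1) ≃ Un a)
    (hM : (dk P a).toNat = M + 1) (p : ι → k) (hF : aeval p X.F = 0) (hc : zs p ∈ P.C)
    (hp : ¬ ∃ f, Sol X a p f) (m : ℕ) (hm : ∑ j, ds M j + 1 ≤ m) :
    ∃ H, IsOdd parW H ∧ CM X ε m p * H + H * CM X ε m p = 1 := by
  have hc' := hc
  have hF' := hF
  obtain ⟨i₀, hai, hi₀⟩ := exists_i0 a ha h0 hne p hc'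
  have hpos : 0 < (a i₀).toNat := by omega
  set m₀ : Fin (a i₀).toNat := ⟨0, hpos⟩ with hm₀
  set i₁ : Fin (M + 1) := ε.symm ⟨i₀, m₀⟩ with hi₁
  have hεi : ε i₁ = ⟨i₀, m₀⟩ := by rw [hi₁, Equiv.apply_symm_apply]
  have hs₀ : SysW (gs X ε M p) (wt ε) (ds M) (th ε p) (as M) :=
    sys_gs X a ha h0 ε M hM p hF'
  have hc0 : (((a i₀).toNat : k) * p i₀) ≠ 0 :=
    mul_ne_zero (Nat.cast_ne_zero.2 hpos.ne') hi₀
  set c : k := (a i₀).toNat * p i₀ with hcdef
  have hth : th ε p i₁ = C c := by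
    unfold th
    have e1 : (ε i₁).2.val = 0 := by rw [hεi]
    have e2 : (ε i₁).1 = i₀ := by rw [hεi]
    rw [if_pos e1, e1, e2, Nat.sub_zero, hcdef, C_mul, map_natCast]
  have hwt : wt ε i₁ = 0 := by
    unfold wt
    rw [hεi]
  let h₀ : MvPolynomial (Fin (M + 1)) k := C c⁻¹ * MvPolynomial.X i₁
  have hh₀ : dv (th ε p) h₀ = 1 := by
    unfold dv
    rw [Finset.sum_eq_single i₁]
    · change th ε p i₁ * pderiv i₁ (C c⁻¹ * MvPolynomial.X i₁) = 1
      rw [pderiv_C_mul, pderiv_X_self, mul_one, hth, ← C_mul, mul_inv_cancel₀ hc0, C_1]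
    · intro b _ hb
      change th ε p b * pderiv b (C c⁻¹ * MvPolynomial.X i₁) = 0
      rw [pderiv_C_mul, pderiv_X_of_ne (Ne.symm hb), mul_zero, mul_zero]
    · intro hb
      exact absurd (Finset.mem_univ _) hb
  have hh₀' : ∀ α, coeff α h₀ ≠ 0 → wm (wt ε) α = 1 := by
    intro α hα
    change coeff α (C c⁻¹ * MvPolynomial.X i₁) ≠ 0 at hα
    rw [coeff_C_mul, coeff_X] at hα
    have e1 : Finsupp.single i₁ 1 = α := by
      by_contra hcon
      rw [if_neg hcon, mul_zero] at hα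
      exact hα rfl
    rw [← e1, wm_single, hwt]
  -- no common zero
  have hz : ∀ y : Fin (M + 1) → k, (∀ j, eval y ((Fin.cons h₀ (gs X ε M p) :
      Fin (M + 1) → MvPolynomial (Fin (M + 1)) k) j) = 0) → y = 0 := by
    intro y hy
    have h1 := hy 0
    rw [Fin.cons_zero] at h1
    change eval y (C c⁻¹ * MvPolynomial.X i₁) = 0 at h1
    rw [map_mul, eval_C, eval_X, mul_eq_zero] at h1
    have h2 : y i₁ = 0 := by
      rcases h1 with h1 | h1
      · exact absurd h1 (inv_ne_zero hc0)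
      · exact h1
    refine gs_zero X a ha h0 ε M hM p hF' hp i₀ m₀ rfl hi₀ y ?_ h2
    intro j
    have h3 := hy j.succ
    rwa [Fin.cons_succ] at h3
  have hacy := acy_forms _ hz
  have htop : ∀ f : MvPolynomial (Fin (M + 1)) k, (∀ α, coeff α f ≠ 0 → wm (wt ε) α = m) →
      f ∈ Ideal.span (Set.range (Fin.cons h₀ (gs X ε M p) :
        Fin (M + 1) → MvPolynomial (Fin (M + 1)) k)) := by
    intro f hf
    refine top_memW (wt ε) _ (Fin.cons 1 (ds M) : Fin (M + 1) → ℕ) ?_ hz m ?_ f hf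
    · intro j
      refine Fin.cases ?_ (fun q => ?_) j
      · rw [Fin.cons_zero, Fin.cons_zero]
        exact hh₀'
      · rw [Fin.cons_succ, Fin.cons_succ]
        exact hs₀.hom q
    · rw [Fin.sum_univ_succ, Fin.cons_zero]
      simp only [Fin.cons_succ]
      omega
  have hdec := ker_decompW (wt ε) (gs X ε M p) h₀ (ds M) m hacy htop
  have hex := cone_exactW (gs X ε M p) (wt ε) (ds M) (th ε p) (as M) hs₀ h₀ hh₀ m hdec
  have hodd : IsOdd parW (CMW (wt ε) (ds M) m (gs X ε M p) (th ε p) (as M)) :=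
    CMW_odd _ _ _ _ _ _
  obtain ⟨H, hH, hH2⟩ := exists_homotopy parW (CMW (wt ε) (ds M) m (gs X ε M p) (th ε p) (as M))
    hodd (CMW_sq _ _ _ _ _ hs₀ m) (CMW_ker _ _ _ _ _ hs₀ m hex)
  exact ⟨H, hH, hH2⟩

end Pool.Agent.LibTC2.KW
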