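import Pool.Agent.LibTC2.B0

/-!
[TC1 BB5b] with a slice every polynomial of weight `m` lies in the ideal. Plan for `mem_slice`: `dv θ` is nilpotent on `f` (`DW_nilp` for the chain `f e_∅`, or directly: it lowers the weight, `coeff_dv_ne`).
Induction on `N` with `(dv θ)^[N] f = 0`, for all `f` of weight `m`: `N = 0`: `f = 0`; `N = 1`: `hker`. `N + 1`, `N ≥ 1`: `q = (dv θ)^[N] f` satisfies `dv θ q = 0` and has weight `m - N` (`m ≥ N` if `q ≠ 0`);
`f' = f - (1 / N!) h₀^N q` has weight `m` and `(dv θ)^[N] f' = 0` (`dv_pow`, `dv` is a derivation: `dv_mul'` is private in KB.lean, copy it), `f - f'` is a multiple of `h₀`.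
`zero_of`: `X t ^ (m / (w t + 1))` has weight `m`, so it lies in the ideal, evaluate at `y`: `y t ^ _ = 0`.
-/

open scoped Classical
open MvPolynomial

set_option linter.unusedSectionVars false

namespace Pool.Agent.LibTC2.KW

open Pool.Agent.LibPK60 Pool.Agent.LibBH2 Pool.Agent.LibQC8

/-- the derivation as a linear map -/
private noncomputable def BB5b_D {κ : Type} [Field κ] {n : ℕ} (θ : Fin n → MvPolynomial (Fin n) κ) :
    MvPolynomial (Fin n) κ →ₗ[κ] MvPolynomial (Fin n) κ where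
  toFun f := dv θ f
  map_add' f g := by
    unfold dv
    rw [← Finset.sum_add_distrib]
    refine Finset.sum_congr rfl fun i _ => ?_
    rw [map_add, mul_add]
  map_smul' r f := by
    unfold dv
    rw [RingHom.id_apply, Finset.smul_sum]
    refine Finset.sum_congr rfl fun i _ => ?_
    rw [Derivation.map_smul, mul_smul_comm]

private theorem BB5b_mul {κ : Type} [Field κ] {n : ℕ} (x : Fin n → MvPolynomial (Fin n) κ)
    (h f : MvPolynomial (Fin n) κ) : dv x (h * f) = dv x h * f + h * dv x f := by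
  unfold dv
  rw [Finset.sum_mul, Finset.mul_sum, ← Finset.sum_add_distrib]
  refine Finset.sum_congr rfl fun i _ => ?_
  rw [pderiv_mul]
  ring

private theorem BB5b_wt {κ : Type} [Field κ] {n : ℕ} (w : Fin n → ℕ)
    (θ : Fin n → MvPolynomial (Fin n) κ) (hθ : ThW w θ) (N m : ℕ) (f : MvPolynomial (Fin n) κ)
    (hf : ∀ α, coeff α f ≠ 0 → wm w α = m) :
    ∀ α, coeff α ((BB5b_D θ ^ N) f) ≠ 0 → wm w α + N = m := by
  induction N with
  | zero =>
    intro α hα
    rw [pow_zero, Module.End.one_apply] at hα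
    rw [add_zero]
    exact hf α hα
  | succ N ih =>
    intro α hα
    rw [pow_succ', Module.End.mul_apply] at hα
    obtain ⟨β, hβ, hw⟩ := coeff_dv_ne w θ hθ _ α hα
    have h1 := ih β hβ
    omega

private theorem BB5b_nil {κ : Type} [Field κ] {n : ℕ} (w : Fin n → ℕ)
    (θ : Fin n → MvPolynomial (Fin n) κ) (hθ : ThW w θ) (m : ℕ) (f : MvPolynomial (Fin n) κ)
    (hf : ∀ α, coeff α f ≠ 0 → wm w α = m) : (BB5b_D θ ^ (m + 1)) f = 0 := by
  ext α
  rw [coeff_zero]
  by_contra hne
  have h1 := BB5b_wt w θ hθ (m + 1) m f hf α hne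
  omega

private theorem BB5b_pow {κ : Type} [Field κ] {n : ℕ} (θ : Fin n → MvPolynomial (Fin n) κ)
    (h₀ q : MvPolynomial (Fin n) κ) (hh : dv θ h₀ = 1) (hq : dv θ q = 0) (N : ℕ) :
    (BB5b_D θ ^ N) (h₀ ^ N * q) = (N.factorial : κ) • q := by
  induction N with
  | zero =>
    rw [pow_zero, Module.End.one_apply, pow_zero, one_mul, Nat.factorial_zero, Nat.cast_one, one_smul]
  | succ N ih =>
    rw [pow_succ, Module.End.mul_apply]
    have h1 : BB5b_D θ (h₀ ^ (N + 1) * q) = ((N + 1 : ℕ) : κ) • (h₀ ^ N * q) := by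
      show dv θ (h₀ ^ (N + 1) * q) = _
      rw [BB5b_mul, hq, mul_zero, add_zero, dv_pow θ h₀ hh, Nat.add_sub_cancel, smul_eq_C_mul,
        map_natCast]
      ring
    rw [h1, map_smul, ih, smul_smul, Nat.factorial_succ]
    push_cast
    rfl

private theorem BB5b_hom {κ : Type} [Field κ] {n : ℕ} (w : Fin n → ℕ) (a b : ℕ)
    (f g : MvPolynomial (Fin n) κ) (hf : ∀ α, coeff α f ≠ 0 → wm w α = a)
    (hg : ∀ α, coeff α g ≠ 0 → wm w α + a = b) : ∀ α, coeff α (f * g) ≠ 0 → wm w α = b := by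
  intro α hα
  rw [coeff_mul] at hα
  obtain ⟨p, hp, hne⟩ := Finset.exists_ne_zero_of_sum_ne_zero hα
  have h1 := hf p.1 (left_ne_zero_of_mul hne)
  have h2 := hg p.2 (right_ne_zero_of_mul hne)
  rw [← Finset.HasAntidiagonal.mem_antidiagonal.1 hp, wm_add]
  omega

private theorem BB5b_hpow {κ : Type} [Field κ] {n : ℕ} (w : Fin n → ℕ)
    (h : MvPolynomial (Fin n) κ) (hw : ∀ α, coeff α h ≠ 0 → wm w α = 1) (N : ℕ) :
    ∀ α, coeff α (h ^ N) ≠ 0 → wm w α = N := by
  induction N with
  | zero =>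
    intro α hα
    rw [pow_zero, coeff_one] at hα
    have h1 : (0 : Fin n →₀ ℕ) = α := by
      by_contra hne
      exact hα (if_neg hne)
    rw [← h1]
    unfold wm
    simp
  | succ N ih =>
    rw [pow_succ]
    intro α hα
    rw [coeff_mul] at hα
    obtain ⟨p, hp, hne⟩ := Finset.exists_ne_zero_of_sum_ne_zero hα
    have h1 := ih p.1 (left_ne_zero_of_mul hne)
    have h2 := hw p.2 (right_ne_zero_of_mul hne)
    rw [← Finset.HasAntidiagonal.mem_antidiagonal.1 hp, wm_add]
    omega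

theorem mem_slice {κ : Type} [Field κ] [CharZero κ] {n M : ℕ} (g : Fin M → MvPolynomial (Fin n) κ)
    (w : Fin n → ℕ) (θ : Fin n → MvPolynomial (Fin n) κ) (hθ : ThW w θ) (h₀ : MvPolynomial (Fin n) κ)
    (hh : dv θ h₀ = 1) (hw : ∀ α, coeff α h₀ ≠ 0 → wm w α = 1) (m : ℕ)
    (hker : ∀ f : MvPolynomial (Fin n) κ, (∀ α, coeff α f ≠ 0 → wm w α = m) → dv θ f = 0 →
      f ∈ Ideal.span (Set.range g))
    (f : MvPolynomial (Fin n) κ) (hf : ∀ α, coeff α f ≠ 0 → wm w α = m) :
    f ∈ Ideal.span (Set.range (Fin.cons h₀ g : Fin (M + 1) → MvPolynomial (Fin n) κ)) := by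
  have hle : Ideal.span (Set.range g) ≤
      Ideal.span (Set.range (Fin.cons h₀ g : Fin (M + 1) → MvPolynomial (Fin n) κ)) := by
    refine Ideal.span_mono ?_
    rintro _ ⟨i, rfl⟩
    exact ⟨i.succ, by rw [Fin.cons_succ]⟩
  have hh₀ : h₀ ∈ Ideal.span (Set.range (Fin.cons h₀ g : Fin (M + 1) → MvPolynomial (Fin n) κ)) :=
    Ideal.subset_span ⟨0, by rw [Fin.cons_zero]⟩
  have key : ∀ N : ℕ, ∀ f : MvPolynomial (Fin n) κ, (∀ α, coeff α f ≠ 0 → wm w α = m) →
      (BB5b_D θ ^ N) f = 0 →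
      f ∈ Ideal.span (Set.range (Fin.cons h₀ g : Fin (M + 1) → MvPolynomial (Fin n) κ)) := by
    intro N
    induction N with
    | zero =>
      intro f _ h0
      rw [pow_zero, Module.End.one_apply] at h0
      rw [h0]
      exact Ideal.zero_mem _
    | succ N ih =>
      intro f hf h0
      rcases Nat.eq_zero_or_pos N with rfl | hN
      · rw [zero_add, pow_one] at h0
        exact hle (hker f hf h0)
      · have hq : dv θ ((BB5b_D θ ^ N) f) = 0 := by
          rw [pow_succ', Module.End.mul_apply] at h0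
          exact h0
        have hfac : (N.factorial : κ) ≠ 0 := by exact_mod_cast N.factorial_ne_zero
        have hqw := BB5b_wt w θ hθ N m f hf
        have hprod : ∀ α, coeff α (h₀ ^ N * (BB5b_D θ ^ N) f) ≠ 0 → wm w α = m :=
          BB5b_hom w N m _ _ (BB5b_hpow w h₀ hw N) hqw
        have h1 : f - ((N.factorial : κ)⁻¹) • (h₀ ^ N * (BB5b_D θ ^ N) f) ∈
            Ideal.span (Set.range (Fin.cons h₀ g : Fin (M + 1) → MvPolynomial (Fin n) κ)) := by
          refine ih _ ?_ ?_
          · intro α hα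
            rw [coeff_sub, coeff_smul] at hα
            by_cases h2 : coeff α f = 0
            · refine hprod α (fun h3 => hα ?_)
              rw [h2, h3, smul_zero, sub_zero]
            · exact hf α h2
          · rw [map_sub, map_smul, BB5b_pow θ h₀ _ hh hq N, smul_smul, inv_mul_cancel₀ hfac, one_smul,
              sub_self]
        have h2 : ((N.factorial : κ)⁻¹) • (h₀ ^ N * (BB5b_D θ ^ N) f) ∈
            Ideal.span (Set.range (Fin.cons h₀ g : Fin (M + 1) → MvPolynomial (Fin n) κ)) := by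
          rw [smul_eq_C_mul]
          refine Ideal.mul_mem_left _ _ (Ideal.mul_mem_right _ _ ?_)
          obtain ⟨N', rfl⟩ : ∃ N', N = N' + 1 := ⟨N - 1, by omega⟩
          rw [pow_succ]
          exact Ideal.mul_mem_left _ _ hh₀
        have h3 := Ideal.add_mem _ h1 h2
        rw [sub_add_cancel] at h3
        exact h3
  exact key (m + 1) f hf (BB5b_nil w θ hθ m f hf)

theorem zero_of {κ : Type} [Field κ] {n M : ℕ} (g : Fin M → MvPolynomial (Fin n) κ)
    (w : Fin n → ℕ) (m : ℕ) (hm : 0 < m) (hdiv : ∀ t, w t + 1 ∣ m)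
    (hmem : ∀ f : MvPolynomial (Fin n) κ, (∀ α, coeff α f ≠ 0 → wm w α = m) →
      f ∈ Ideal.span (Set.range g))
    (y : Fin n → κ) (hy : ∀ j, eval y (g j) = 0) : y = 0 := by
  funext t
  have hmul : (w t + 1) * (m / (w t + 1)) = m := Nat.mul_div_cancel' (hdiv t)
  have hle : Ideal.span (Set.range g) ≤ RingHom.ker (eval y) := by
    rw [Ideal.span_le]
    rintro _ ⟨j, rfl⟩
    exact hy j
  have h1 : (X t : MvPolynomial (Fin n) κ) ^ (m / (w t + 1)) ∈ Ideal.span (Set.range g) := by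
    refine hmem _ (fun α hα => ?_)
    rw [coeff_X_pow] at hα
    have h2 : Finsupp.single t (m / (w t + 1)) = α := by
      by_contra hne
      exact hα (if_neg hne)
    rw [← h2, wm_single, hmul]
  have h3 : eval y ((X t : MvPolynomial (Fin n) κ) ^ (m / (w t + 1))) = 0 := hle h1
  rw [map_pow, eval_X] at h3
  exact pow_eq_zero_iff (fun h0 => by rw [h0, mul_zero] at hmul; omega) |>.mp h3

end Pool.Agent.LibTC2.KW
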