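import Pool.Agent.LibTC2.KS1

/-!
[TC1 KS2] common zeros. Plan: `f i = Polynomial.C (x i) + ∑ m : Fin (a i).toNat, Polynomial.C (y (ε.symm ⟨i, m⟩)) * X ^ (m + 1)`. It is a quasi-map `IsQ P a f` (`neg` is empty as `a ≥ 0`; `deg`: `natDegree_add_le`, `natDegree_sum_le_of_forall_le`, `natDegree_C_mul_X_pow_le`), `(f i).coeff 0 = x i`, `(f i).coeff (m + 1) = y (ε.symm ⟨i, m⟩)`.
`cmp X f = (cmp X (gen ε x)).map (eval y)` (`Polynomial.mapRingHom`/`mapAlgHom` of the `k`-algebra map `eval y`, `MvPolynomial.aeval` of a composition, `AlgHom.comp_apply`/`comp_aeval`), so its coefficient at `l` is `eval y (kap X ε x l)`, zero for `l = 0` (`kap_zero`, `hx`) and for `1 ≤ l ≤ M` (`hy`, `gs`). Its degree is `≤ (dk P a).toNat = M + 1`: `X.F = ∑ e, monomial e _`, `natDegree_prod_le`, `natDegree_pow_le`, `sum_exp`.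
So `cmp X f = C c * X ^ (M + 1)`: `IsTot X a f` (`Polynomial.ext`). As there is no `Sol`, `Triv a f`: `f i = C (x i) * (1 + C μ * X) ^ (a i).toNat`. The coefficient of `X` for `i₀` is `x i₀ * (a i₀).toNat * μ` (`Polynomial.coeff_X_one`..: e.g. derivative at 0, or `coeff` of `(1 + C μ * X)^N` at `1`) and is `y (ε.symm ⟨i₀, m₀⟩) = 0`, so `μ = 0` (`CharZero`), `f i = C (x i)`, and all `y s = (f i).coeff (m + 1) = 0` with `ε s = ⟨i, m⟩`.
-/

open scoped Classical
open MvPolynomial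

set_option linter.unusedSectionVars false

namespace Pool.Agent.LibTC2.KW

open Pool.Agent.LibPK60 Pool.Agent.LibBH2 Pool.Agent.LibQC8

variable {ι : Type} [Fintype ι] {r : ℕ} {k : Type} [Field k] {P : Tor ι r} {n : ℕ}

private noncomputable def KS2_f {a : ι → ℤ} (ε : Fin n ≃ Un a) (x : ι → k) (y : Fin n → k)
    (i : ι) : Polynomial k :=
  Polynomial.C (x i) + ∑ m : Fin (a i).toNat,
    Polynomial.C (y (ε.symm ⟨i, m⟩)) * Polynomial.X ^ (m.val + 1)

private theorem KS2_map {a : ι → ℤ} (ε : Fin n ≃ Un a) (x : ι → k) (y : Fin n → k) (i : ι) :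
    Polynomial.mapAlgHom (MvPolynomial.aeval y : MvPolynomial (Fin n) k →ₐ[k] k) (gen ε x i) =
      KS2_f ε x y i := by
  rw [Polynomial.coe_mapAlgHom, gen, KS2_f, Polynomial.map_add, Polynomial.map_C,
    Polynomial.map_sum]
  congr 1
  · simp
  · refine Finset.sum_congr rfl fun m _ => ?_
    rw [Polynomial.map_mul, Polynomial.map_C, Polynomial.map_pow, Polynomial.map_X]
    simp

private theorem KS2_coeff (X : Hyp k P) {a : ι → ℤ} (ε : Fin n ≃ Un a) (x : ι → k)
    (y : Fin n → k) (l : ℕ) :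
    (cmp X (KS2_f ε x y)).coeff l = eval y (kap X ε x l) := by
  have h1 : cmp X (KS2_f ε x y) =
      Polynomial.mapAlgHom (MvPolynomial.aeval y : MvPolynomial (Fin n) k →ₐ[k] k)
        (cmp X (gen ε x)) := by
    have h2 : KS2_f ε x y = fun i =>
        Polynomial.mapAlgHom (MvPolynomial.aeval y : MvPolynomial (Fin n) k →ₐ[k] k)
          (gen ε x i) := by
      funext i
      rw [KS2_map]
    rw [h2, cmp, cmp, MvPolynomial.comp_aeval_apply]
  rw [h1, Polynomial.coe_mapAlgHom, Polynomial.coeff_map, kap]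
  rfl

private theorem KS2_coeff_zero {a : ι → ℤ} (ε : Fin n ≃ Un a) (x : ι → k) (y : Fin n → k)
    (i : ι) : (KS2_f ε x y i).coeff 0 = x i := by
  rw [KS2_f, Polynomial.coeff_add, Polynomial.coeff_C_zero, Polynomial.finsetSum_coeff,
    Finset.sum_eq_zero, add_zero]
  intro m _
  rw [Polynomial.coeff_C_mul_X_pow, if_neg (Nat.succ_ne_zero _).symm]

private theorem KS2_coeff_succ {a : ι → ℤ} (ε : Fin n ≃ Un a) (x : ι → k) (y : Fin n → k)
    (i : ι) (m : Fin (a i).toNat) :
    (KS2_f ε x y i).coeff (m.val + 1) = y (ε.symm ⟨i, m⟩) := by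
  rw [KS2_f, Polynomial.coeff_add, Polynomial.coeff_C_succ, zero_add, Polynomial.finsetSum_coeff,
    Finset.sum_eq_single m]
  · rw [Polynomial.coeff_C_mul_X_pow, if_pos rfl]
  · intro m' _ hm'
    rw [Polynomial.coeff_C_mul_X_pow, if_neg]
    intro h
    exact hm' (Fin.ext (by omega))
  · intro h
    exact absurd (Finset.mem_univ m) h

private theorem KS2_deg {a : ι → ℤ} (ε : Fin n ≃ Un a) (x : ι → k) (y : Fin n → k) (i : ι) :
    (KS2_f ε x y i).natDegree ≤ (a i).toNat := by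
  rw [KS2_f]
  refine Polynomial.natDegree_add_le_of_degree_le ?_ ?_
  · rw [Polynomial.natDegree_C]
    exact Nat.zero_le _
  · refine Polynomial.natDegree_sum_le_of_forall_le _ _ fun m _ => ?_
    refine (Polynomial.natDegree_C_mul_X_pow_le _ _).trans ?_
    exact m.isLt

private theorem KS2_cmp_deg (X : Hyp k P) (a : ι → ℤ) (ha : a ∈ Rel P) (h0 : ∀ i, 0 ≤ a i)
    (ε : Fin n ≃ Un a) (x : ι → k) (y : Fin n → k) :
    (cmp X (KS2_f ε x y)).natDegree ≤ (dk P a).toNat := by
  rw [cmp, MvPolynomial.aeval_def, MvPolynomial.eval₂_eq']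
  refine Polynomial.natDegree_sum_le_of_forall_le _ _ fun e he => ?_
  rw [← sum_exp X a ha h0 e he]
  have h1 : (algebraMap k (Polynomial k) (coeff e X.F)) = Polynomial.C (coeff e X.F) := rfl
  rw [h1]
  refine (Polynomial.natDegree_C_mul_le _ _).trans ?_
  refine (Polynomial.natDegree_prod_le _ _).trans ?_
  refine Finset.sum_le_sum fun i _ => ?_
  refine (Polynomial.natDegree_pow_le).trans ?_
  exact Nat.mul_le_mul le_rfl (KS2_deg ε x y i)

private theorem KS2_pow (μ : k) (N : ℕ) :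
    ((1 + Polynomial.C μ * Polynomial.X : Polynomial k) ^ N).coeff 0 = 1 ∧
      ((1 + Polynomial.C μ * Polynomial.X : Polynomial k) ^ N).coeff 1 = (N : k) * μ := by
  induction N with
  | zero => simp [Polynomial.coeff_one]
  | succ N ih =>
    rw [pow_succ, Polynomial.mul_coeff_zero, Polynomial.mul_coeff_one, ih.1, ih.2]
    have h1 : (1 + Polynomial.C μ * Polynomial.X : Polynomial k).coeff 0 = 1 := by simp
    have h2 : (1 + Polynomial.C μ * Polynomial.X : Polynomial k).coeff 1 = μ := by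
      simp [Polynomial.coeff_one]
    rw [h1, h2]
    push_cast
    constructor
    · ring
    · ring

theorem gs_zero [CharZero k] (X : Hyp k P) (a : ι → ℤ) (ha : a ∈ Rel P) (h0 : ∀ i, 0 ≤ a i)
    (ε : Fin n ≃ Un a) (M : ℕ) (hM : (dk P a).toNat = M + 1) (x : ι → k) (hx : aeval x X.F = 0)
    (hns : ¬ ∃ f, Sol X a x f) (i₀ : ι) (m₀ : Fin (a i₀).toNat) (hm₀ : m₀.val = 0)
    (hi₀ : x i₀ ≠ 0) (y : Fin n → k) (hy : ∀ j, eval y (gs X ε M x j) = 0)
    (hy₀ : y (ε.symm ⟨i₀, m₀⟩) = 0) : y = 0 := by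
  have hq : IsQ P a (KS2_f ε x y) :=
    { rel := ha
      neg := fun i hi => absurd (h0 i) (not_le.2 hi)
      deg := KS2_deg ε x y }
  have htot : IsTot X a (KS2_f ε x y) := by
    refine ⟨(cmp X (KS2_f ε x y)).coeff (M + 1), ?_⟩
    rw [hM]
    ext l
    rw [Polynomial.coeff_C_mul_X_pow]
    by_cases hl : l = M + 1
    · rw [if_pos hl, hl]
    · rw [if_neg hl]
      rcases lt_or_gt_of_ne hl with h | h
      · rw [KS2_coeff]
        rcases l with _ | l
        · rw [kap_zero, MvPolynomial.eval_C, hx]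
        · exact hy ⟨l, by omega⟩
      · refine Polynomial.coeff_eq_zero_of_natDegree_lt ?_
        have := KS2_cmp_deg X a ha h0 ε x y
        omega
  have htriv : Triv a (KS2_f ε x y) := by
    by_contra hn
    exact hns ⟨_, ⟨hq, KS2_coeff_zero ε x y, htot, hn⟩⟩
  obtain ⟨μ, hμ⟩ := htriv
  have hμ0 : μ = 0 := by
    have h1 : (KS2_f ε x y i₀).coeff 1 = 0 := by
      have := KS2_coeff_succ ε x y i₀ m₀
      rw [hm₀, hy₀] at this
      exact this
    rw [hμ i₀, KS2_coeff_zero, Polynomial.coeff_C_mul, (KS2_pow μ _).2] at h1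
    have hN : (((a i₀).toNat : ℕ) : k) ≠ 0 := by
      refine Nat.cast_ne_zero.2 ?_
      have := m₀.isLt
      omega
    rcases mul_eq_zero.1 h1 with h | h
    · exact absurd h hi₀
    · rcases mul_eq_zero.1 h with h | h
      · exact absurd h hN
      · exact h
  funext s
  obtain ⟨⟨i, m⟩, hs⟩ : ∃ t, ε.symm t = s := ⟨ε s, ε.symm_apply_apply s⟩
  rw [← hs, ← KS2_coeff_succ ε x y i m, hμ i, hμ0, Polynomial.C_0, zero_mul, add_zero, one_pow,
    mul_one, Polynomial.coeff_C_succ]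
  rfl

end Pool.Agent.LibTC2.KW
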