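import Pool.Agent.LibTC2.BG0

/-!
[TC1 BG1] classes `a ≥ 0` with `a i = dk P a - 1`. Plan. `dk P a = ∑ a i`, all `a i ≥ 0`. `le_dk`: otherwise `a i = dk P a` (`a i ≤ ∑`), all other entries vanish, so `a i • v i = 0` and `v i = 0`;
`P.uniq` for `m = Pi.single i 1` (support `{i}`, `P.single`) and `m = 0` (support `∅`, `P.down`) gives a contradiction. `exists_s`: if no `i` has `a i = dk P a - 1`, any `s`. Otherwise let `s` be one such `i`, and let
`i ≠ s` be another: `a s + a i ≤ dk P a`, so `2 (dk P a - 1) ≤ dk P a`, `dk P a ≤ 2`; `dk P a = 2` or `dk P a = 1`; if `dk P a = 1` then `a = Pi.single i' 1` for some `i'`, against `le_dk`; so `dk P a = 2`, `a s = a i = 1`,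
the others vanish, and `v s + v i = 0`: `pa P m i = - pa P m s`. `weight_pos`: all terms are `≥ 0` (`le_dk`; the harmonic numbers are monotone), the term of `i` is `> 0` (`b i < dk P b - 1`, strictly monotone).
-/

open scoped Classical
open MvPolynomial

set_option linter.unusedSectionVars false

namespace Pool.Agent.LibTC2

open Pool.Agent.LibBH2 Pool.Agent.LibQC8

variable {ι : Type} [Fintype ι] {r : ℕ} {k : Type} [Field k] {P : Tor ι r}

theorem BG1_v_ne (i : ι) : ¬ ∀ j, P.v i j = 0 := by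
  intro hv
  have h1 : sp (Pi.single i 1 : ι → ℕ) ∈ P.C := by
    have : sp (Pi.single i 1 : ι → ℕ) = {i} := by
      ext x
      by_cases hx : x = i
      · subst hx; simp [sp]
      · simp [sp, hx]
    rw [this]; exact P.single i
  have h2 : sp (0 : ι → ℕ) ∈ P.C := by
    have : sp (0 : ι → ℕ) = ∅ := by
      ext x; simp [sp]
    rw [this]; exact P.down _ (P.single i) _ (Finset.empty_subset _)
  have h3 := P.uniq (Pi.single i 1) 0 h1 h2 (by
    intro j
    have e1 : ∑ x, ((Pi.single i 1 : ι → ℕ) x : ℤ) * P.v x j = 0 := by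
      apply Finset.sum_eq_zero
      intro x _
      by_cases hx : x = i
      · subst hx; rw [hv j, mul_zero]
      · simp [hx]
    rw [e1]; simp)
  have h4 := congrFun h3 i
  simp at h4

theorem dk_off {P : Tor ι r} {a : ι → ℤ} (hof : ∀ i, P.g i ≠ 1 → a i = 0) : dk P a = ∑ i, a i := by
  unfold dk
  refine Finset.sum_congr rfl fun i _ => ?_
  by_cases hg : P.g i = 1
  · rw [hg, Nat.cast_one, one_mul]
  · rw [hof i hg, mul_zero]

theorem le_dk_off {P : Tor ι r} {a : ι → ℤ} (hof : ∀ i, P.g i ≠ 1 → a i = 0) (h0 : ∀ i, 0 ≤ a i)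
    (i : ι) : a i ≤ dk P a := by
  rw [dk_off hof]
  exact Finset.single_le_sum (f := a) (fun i _ => h0 i) (Finset.mem_univ i)

theorem dk_nat_off {P : Tor ι r} {a : ι → ℤ} (hof : ∀ i, P.g i ≠ 1 → a i = 0) (h0 : ∀ i, 0 ≤ a i) :
    dk P a = ((∑ i, (a i).toNat : ℕ) : ℤ) := by
  rw [dk_off hof]
  push_cast
  exact Finset.sum_congr rfl fun i _ => (Int.toNat_of_nonneg (h0 i)).symm

theorem BG1_zero (a : ι → ℤ) (h0 : ∀ i, 0 ≤ a i) (hof : ∀ i, P.g i ≠ 1 → a i = 0) (i : ι)
    (h : dk P a ≤ a i) (x : ι) (hx : x ≠ i) : a x = 0 := by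
  have h1 : ∑ y, a y = a i + ∑ y ∈ Finset.univ.erase i, a y :=
    (Finset.add_sum_erase _ _ (Finset.mem_univ i)).symm
  have h2 : a x ≤ ∑ y ∈ Finset.univ.erase i, a y :=
    Finset.single_le_sum (fun y _ => h0 y) (Finset.mem_erase.2 ⟨hx, Finset.mem_univ x⟩)
  have h3 := h0 x
  rw [dk_off hof] at h
  omega

theorem le_dk (a : ι → ℤ) (ha : a ∈ Rel P) (h0 : ∀ i, 0 ≤ a i) (hne : a ≠ 0)
    (hof : ∀ i, P.g i ≠ 1 → a i = 0) (i : ι) :
    a i ≤ dk P a - 1 := by
  by_contra h
  have h1 : dk P a ≤ a i := by omega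
  have h2 := BG1_zero a h0 hof i h1
  have h3 : a i ≠ 0 := by
    intro h4
    apply hne
    funext x
    by_cases hx : x = i
    · rw [hx, h4]; rfl
    · exact h2 x hx
  apply BG1_v_ne (P := P) i
  intro j
  have h5 : ∑ x, a x * P.v x j = 0 := ha j
  have h6 : ∑ x, a x * P.v x j = a i * P.v i j := by
    apply Finset.sum_eq_single i
    · intro x _ hx
      rw [h2 x hx, zero_mul]
    · intro hh; exact absurd (Finset.mem_univ i) hh
  rw [h6] at h5
  exact (mul_eq_zero.1 h5).resolve_left h3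

theorem exists_s (a : ι → ℤ) (ha : a ∈ Rel P) (h0 : ∀ i, 0 ≤ a i) (hne : a ≠ 0)
    (hof : ∀ i, P.g i ≠ 1 → a i = 0) :
    ∃ s : ι, ∀ m : Fin r → ℤ, pa P m s = 0 → ∀ i, a i = dk P a - 1 → pa P m i = 0 := by
  by_cases hex : ∃ s, a s = dk P a - 1
  · obtain ⟨s, hs⟩ := hex
    refine ⟨s, fun m hm i hi => ?_⟩
    by_cases his : i = s
    · rw [his]; exact hm
    have hdk : dk P a = ∑ y, a y := dk_off hof
    have h1 : ∑ y, a y = a s + ∑ y ∈ Finset.univ.erase s, a y :=
      (Finset.add_sum_erase _ _ (Finset.mem_univ s)).symm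
    have hmem : i ∈ Finset.univ.erase s := Finset.mem_erase.2 ⟨his, Finset.mem_univ i⟩
    have h2 : ∑ y ∈ Finset.univ.erase s, a y
        = a i + ∑ y ∈ (Finset.univ.erase s).erase i, a y :=
      (Finset.add_sum_erase _ _ hmem).symm
    have hnn : 0 ≤ ∑ y ∈ (Finset.univ.erase s).erase i, a y :=
      Finset.sum_nonneg fun y _ => h0 y
    have hnz : ∃ x, a x ≠ 0 := by
      by_contra hh
      push_neg at hh
      exact hne (funext hh)
    obtain ⟨x, hx⟩ := hnz
    have hx1 := le_dk (P := P) a ha h0 hne hof x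
    have hx0 := h0 x
    have hd2 : dk P a = 2 := by omega
    have hai : a i = 1 := by omega
    have has : a s = 1 := by omega
    have hz : ∀ y, y ≠ s → y ≠ i → a y = 0 := by
      intro y hys hyi
      have h3 : a y ≤ ∑ y ∈ (Finset.univ.erase s).erase i, a y :=
        Finset.single_le_sum (fun y _ => h0 y)
          (Finset.mem_erase.2 ⟨hyi, Finset.mem_erase.2 ⟨hys, Finset.mem_univ y⟩⟩)
      have h4 := h0 y
      omega
    have hv : ∀ j, P.v s j + P.v i j = 0 := by
      intro j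
      have h5 : ∑ x, a x * P.v x j = 0 := ha j
      have h6 : ∑ y, a y * P.v y j = a s * P.v s j + ∑ y ∈ Finset.univ.erase s, a y * P.v y j :=
        (Finset.add_sum_erase _ _ (Finset.mem_univ s)).symm
      have h7 : ∑ y ∈ Finset.univ.erase s, a y * P.v y j
          = a i * P.v i j + ∑ y ∈ (Finset.univ.erase s).erase i, a y * P.v y j :=
        (Finset.add_sum_erase _ _ hmem).symm
      have h8 : ∑ y ∈ (Finset.univ.erase s).erase i, a y * P.v y j = 0 := by
        apply Finset.sum_eq_zero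
        intro y hy
        have hy1 := (Finset.mem_erase.1 hy).1
        have hy2 := (Finset.mem_erase.1 (Finset.mem_erase.1 hy).2).1
        rw [hz y hy2 hy1, zero_mul]
      rw [h6, h7, h8, hai, has] at h5
      linarith
    have h9 : pa P m s + pa P m i = 0 := by
      unfold pa
      rw [← Finset.sum_add_distrib]
      apply Finset.sum_eq_zero
      intro j _
      rw [← mul_add, hv j, mul_zero]
    rw [hm, zero_add] at h9
    exact h9
  · have hnz : ∃ x, a x ≠ 0 := by
      by_contra hh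
      push_neg at hh
      exact hne (funext hh)
    obtain ⟨x, _⟩ := hnz
    exact ⟨x, fun m _ i hi => absurd ⟨i, hi⟩ hex⟩

theorem BG1_harm_lt {m n : ℕ} (h : m < n) : harmonic m < harmonic n := by
  induction n with
  | zero => omega
  | succ n ih =>
    rw [harmonic_succ]
    have hpos : (0 : ℚ) < ((n + 1 : ℕ) : ℚ)⁻¹ := by positivity
    rcases Nat.lt_succ_iff_lt_or_eq.1 h with h1 | h1
    · have := ih h1
      linarith
    · rw [h1]
      linarith

theorem BG1_harm_le {m n : ℕ} (h : m ≤ n) : harmonic m ≤ harmonic n := by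
  rcases Nat.lt_or_eq_of_le h with h1 | h1
  · exact (BG1_harm_lt h1).le
  · rw [h1]

theorem weight_pos (b : ι → ℤ) (hb : b ∈ Rel P) (h0 : ∀ i, 0 ≤ b i) (hne : b ≠ 0)
    (hof : ∀ i, P.g i ≠ 1 → b i = 0) (D : ι → ℤ)
    (hD : ∀ i, 0 ≤ D i) (i : ι) (hi : b i ≠ dk P b - 1) (hDi : 0 < D i) :
    ∑ i, ((P.g i : ℚ) * harmonic (dk P b - 1).toNat - harmonic (b i).toNat) * (D i : ℚ) ≠ 0 := by
  have hh0 : (0 : ℚ) ≤ harmonic (dk P b - 1).toNat := by
    have := BG1_harm_le (Nat.zero_le (dk P b - 1).toNat)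
    rwa [harmonic_zero] at this
  have hgh : ∀ x, harmonic (dk P b - 1).toNat ≤ (P.g x : ℚ) * harmonic (dk P b - 1).toNat := by
    intro x
    have h1 : (1 : ℚ) ≤ P.g x := by exact_mod_cast P.pos x
    nlinarith
  apply ne_of_gt
  apply Finset.sum_pos'
  · intro x _
    have h1 := le_dk (P := P) b hb h0 hne hof x
    have h5 := hgh x
    have h2 : (b x).toNat ≤ (dk P b - 1).toNat := by
      have := h0 x
      omega
    have h3 := BG1_harm_le h2
    have h4 : (0 : ℚ) ≤ (D x : ℚ) := by exact_mod_cast hD x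
    exact mul_nonneg (by linarith) h4
  · refine ⟨i, Finset.mem_univ i, ?_⟩
    have h1 := le_dk (P := P) b hb h0 hne hof i
    have h5 := hgh i
    have h2 : (b i).toNat < (dk P b - 1).toNat := by
      have := h0 i
      omega
    have h3 := BG1_harm_lt h2
    have h4 : (0 : ℚ) < (D i : ℚ) := by exact_mod_cast hDi
    exact mul_pos (by linarith) h4

end Pool.Agent.LibTC2
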