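import Pool.Agent.LibTC2.B0
import Pool.Agent.LibTC2.BB4
import Pool.Agent.LibTC2.BG1

/-!
[TC1 BB6b] the exponents `T i` of the discriminant. Plan: `W = (M + 1)!` is divisible by `wt ε t + 1 ≤ (a i).toNat ≤ ∑ = M + 1` and by `ds M j = j + 1` (`Nat.dvd_factorial`). `window_w` with `lam t = if (ε t).1 = i then 1 else 0`, `L = 1`:
`∑ j, 1 / ds M j = harmonic M`, `∑ t, lam t / (wt ε t + 1) = harmonic (a i).toNat` (as `sum_harm` in KM.lean). So the window sum is `N * (harmonic M - harmonic (a i).toNat)`, `N > 0`, with `(a i).toNat ≤ M` (`le_dk`): it is `≥ 0`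
(let `T i` be its `toNat`), and it is `0` only if `(a i).toNat = M` (`harmonic` is strictly monotone), that is `a i = dk P a - 1`.
-/

open scoped Classical
open MvPolynomial

set_option linter.unusedSectionVars false

namespace Pool.Agent.LibTC2.KW

open Pool.Agent.LibPK60 Pool.Agent.LibBH2 Pool.Agent.LibQC8

variable {ι : Type} [Fintype ι] {r : ℕ} {k : Type} [Field k] {P : Tor ι r}

private theorem bb6b_harm_mono : StrictMono harmonic := by
  refine strictMono_nat_of_lt_succ fun n => ?_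
  rw [harmonic_succ]
  have : (0 : ℚ) < ((n + 1 : ℕ) : ℚ)⁻¹ := by positivity
  linarith

private theorem bb6b_sum_harm (a : ι → ℤ) {n : ℕ} (ε : Fin n ≃ Un a) (i : ι) :
    ∑ t, (((if (ε t).1 = i then 1 else 0 : ℤ)) : ℚ) / ((wt ε t : ℚ) + 1) = harmonic (a i).toNat := by
  have h1 : ∑ t, (((if (ε t).1 = i then 1 else 0 : ℤ)) : ℚ) / ((wt ε t : ℚ) + 1) =
      ∑ s : Un a, (((if s.1 = i then 1 else 0 : ℤ)) : ℚ) / ((s.2.val : ℚ) + 1) :=
    Fintype.sum_equiv ε _ _ fun t => rfl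
  rw [h1, Fintype.sum_sigma, Finset.sum_eq_single i]
  · unfold harmonic
    rw [Finset.sum_range]
    refine Finset.sum_congr rfl fun m _ => ?_
    simp
  · intro b _ hb
    refine Finset.sum_eq_zero fun m _ => ?_
    simp [hb]
  · intro h
    exact absurd (Finset.mem_univ i) h

theorem exists_T (a : ι → ℤ) (ha : a ∈ Rel P) (h0 : ∀ i, 0 ≤ a i) (hne : a ≠ 0)
    (hof : ∀ i, P.g i ≠ 1 → a i = 0) {M : ℕ}
    (ε : Fin (M + 1) ≃ Un a) (hM : (dk P a).toNat = M + 1) (m0 : ℕ)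
    (h : ∀ m, m0 ≤ m → ∑ t : IxW (wt ε) (ds M) m, (if parW t = true then (-1 : ℤ) else 1) = 0) :
    ∃ (m₁ : ℕ) (T : ι → ℕ), m0 ≤ m₁ ∧
      (∀ i, (T i : ℤ) = ∑ m ∈ Finset.Ico m₁ (m₁ + (M + 1).factorial), ∑ t : IxW (wt ε) (ds M) m,
        (if parW t = true then -1 else 1) *
          (-(∑ s, (t.1.2.2 s : ℤ) * (if (ε s).1 = i then 1 else 0)) - ∑ _j ∈ t.1.2.1, (P.g i : ℤ))) ∧
      ∀ i, T i = 0 → a i = dk P a - 1 := by
  have hdk : dk P a = (M : ℤ) + 1 := by
    have h1 : ((dk P a).toNat : ℤ) = dk P a := by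
      rcases Int.le_total 0 (dk P a) with h2 | h2
      · exact Int.toNat_of_nonneg h2
      · have := Int.toNat_of_nonpos h2
        omega
    rw [← h1, hM]
    push_cast
    ring
  have hle : ∀ i, (a i).toNat ≤ M := by
    intro i
    have h1 := le_dk a ha h0 hne hof i
    have h2 := h0 i
    omega
  have hw : ∀ t, wt ε t + 1 ∣ (M + 1).factorial := by
    intro t
    refine Nat.dvd_factorial (Nat.succ_pos _) ?_
    have h1 : wt ε t < (a (ε t).1).toNat := (ε t).2.isLt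
    have h2 := hle (ε t).1
    omega
  have hd : ∀ j, ds M j ∣ (M + 1).factorial := by
    intro j
    have h1 : ds M j = j.val + 1 := rfl
    rw [h1]
    refine Nat.dvd_factorial (Nat.succ_pos _) ?_
    have := j.isLt
    omega
  obtain ⟨m₁, hm₁, N, hN, hwin⟩ := window_w (wt ε) (ds M) (fun j => Nat.succ_pos _) (M + 1).factorial m0
    (Nat.factorial_pos _) hw hd h
  have h7 : ∑ j : Fin M, 1 / (ds M j : ℚ) = harmonic M := by
    unfold harmonic ds
    rw [Finset.sum_range]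
    refine Finset.sum_congr rfl fun j _ => ?_
    rw [one_div]
  have hkey : ∀ i, ((∑ m ∈ Finset.Ico m₁ (m₁ + (M + 1).factorial), ∑ t : IxW (wt ε) (ds M) m,
        (if parW t = true then -1 else 1) *
          (-(∑ s, (t.1.2.2 s : ℤ) * (if (ε s).1 = i then 1 else 0)) - ∑ _j ∈ t.1.2.1, (P.g i : ℤ)) : ℤ) : ℚ) =
      N * ((P.g i : ℚ) * harmonic M - harmonic (a i).toNat) := by
    intro i
    have h1 := hwin (fun s => if (ε s).1 = i then 1 else 0) (P.g i)
    rw [h7, bb6b_sum_harm a ε i] at h1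
    rw [h1]
    push_cast
    ring
  have hh0 : (0 : ℚ) ≤ harmonic M := by
    have := bb6b_harm_mono.monotone (Nat.zero_le M)
    rwa [harmonic_zero] at this
  have hgh : ∀ i, harmonic M ≤ (P.g i : ℚ) * harmonic M := by
    intro i
    have h1 : (1 : ℚ) ≤ P.g i := by exact_mod_cast P.pos i
    nlinarith
  have hnn : ∀ i, 0 ≤ ∑ m ∈ Finset.Ico m₁ (m₁ + (M + 1).factorial), ∑ t : IxW (wt ε) (ds M) m,
        (if parW t = true then -1 else 1) *
          (-(∑ s, (t.1.2.2 s : ℤ) * (if (ε s).1 = i then 1 else 0)) - ∑ _j ∈ t.1.2.1, (P.g i : ℤ)) := by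
    intro i
    have h1 : (0 : ℚ) ≤ N * ((P.g i : ℚ) * harmonic M - harmonic (a i).toNat) :=
      mul_nonneg hN.le (sub_nonneg.2 ((bb6b_harm_mono.monotone (hle i)).trans (hgh i)))
    rw [← hkey i] at h1
    exact_mod_cast h1
  refine ⟨m₁, fun i => (∑ m ∈ Finset.Ico m₁ (m₁ + (M + 1).factorial), ∑ t : IxW (wt ε) (ds M) m,
        (if parW t = true then -1 else 1) *
          (-(∑ s, (t.1.2.2 s : ℤ) * (if (ε s).1 = i then 1 else 0)) - ∑ _j ∈ t.1.2.1, (P.g i : ℤ))).toNat,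
    hm₁, fun i => Int.toNat_of_nonneg (hnn i), ?_⟩
  intro i hi
  simp only at hi
  have h1 : (∑ m ∈ Finset.Ico m₁ (m₁ + (M + 1).factorial), ∑ t : IxW (wt ε) (ds M) m,
        (if parW t = true then -1 else 1) *
          (-(∑ s, (t.1.2.2 s : ℤ) * (if (ε s).1 = i then 1 else 0)) - ∑ _j ∈ t.1.2.1, (P.g i : ℤ))) = 0 := by
    have h2 := hnn i
    have h3 := Int.toNat_of_nonneg h2
    rw [hi] at h3
    exact h3.symm
  have h2 := hkey i
  rw [h1, Int.cast_zero] at h2
  have h3 : harmonic M = harmonic (a i).toNat := by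
    rcases mul_eq_zero.1 h2.symm with h4 | h4
    · exact absurd h4 hN.ne'
    · have h5 := bb6b_harm_mono.monotone (hle i)
      have h6 := hgh i
      exact le_antisymm (by linarith) h5
  have h4 := bb6b_harm_mono.injective h3
  have h5 := h0 i
  omega

end Pool.Agent.LibTC2.KW
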