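import Pool.Agent.LibTC2.BA2
import Pool.Agent.LibTC2.BA3
import Pool.Agent.LibTC2.BA4
import Pool.Agent.LibTC2.BB1
import Pool.Agent.LibTC2.BB2
import Pool.Agent.LibTC2.BB3
import Pool.Agent.LibTC2.BB5e
import Pool.Agent.LibTC2.BB6a
import Pool.Agent.LibTC2.BB6b

/-!
The discriminant of a class: assembly.
-/

open scoped Classical
open MvPolynomial

set_option linter.unusedSectionVars false

namespace Pool.Agent.LibTC2

namespace KW

open Pool.Agent.LibPK60 Pool.Agent.LibBH2 Pool.Agent.LibQC8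

variable {ι : Type} [Fintype ι] {r : ℕ} {k : Type} [Field k] {P : Tor ι r}

theorem cm_odd (X : Hyp k P) {a : ι → ℤ} {M : ℕ} (ε : Fin (M + 1) ≃ Un a) (m : ℕ) {L : Type}
    [Field L] [Algebra k L] (x : ι → L) : IsOdd parW (CM X ε m x) := CMW_odd _ _ _ _ _ _

theorem cm_sq (X : Hyp k P) {a : ι → ℤ} (ha : a ∈ Rel P) (h0 : ∀ i, 0 ≤ a i) {M : ℕ}
    (ε : Fin (M + 1) ≃ Un a) (hM : (dk P a).toNat = M + 1) (m : ℕ) {L : Type}
    [Field L] [Algebra k L] (x : ι → L) (hx : aeval x X.F = 0) :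
    CM X ε m x * CM X ε m x = 0 := CMW_sq _ _ _ _ _ (sys_gs X a ha h0 ε M hM x hx) m

section
variable (X : Hyp k P) {a : ι → ℤ} (ha : a ∈ Rel P) (h0 : ∀ i, 0 ≤ a i) (hne : a ≠ 0) {M : ℕ}
  (ε : Fin (M + 1) ≃ Un a) (hM : (dk P a).toNat = M + 1)
  (σ : ∀ m, Equiv.Perm (IxW (wt ε) (ds M) m)) (m₁ W : ℕ)
  (hσ : ∀ m ∈ Finset.Ico m₁ (m₁ + W), Sw parW (σ m))

include ha h0 hM hσ in
theorem Dl_uniq {L : Type} [Field L] [Algebra k L] (x : ι → L) (z z' : L)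
    (h : Dl X ε σ m₁ W x z) (h' : Dl X ε σ m₁ W x z') : z = z' := by
  obtain ⟨hx, τ, hτ, rfl⟩ := h
  obtain ⟨-, τ', hτ', rfl⟩ := h'
  refine Finset.prod_congr rfl fun m hm => ?_
  rw [TV_uniq (hσ m hm) (cm_odd X ε m x) (cm_sq X ha h0 ε hM m x hx) (hτ m hm) (hτ' m hm)]

include ha h0 hM hσ in
theorem Dl_ne {L : Type} [Field L] [Algebra k L] (x : ι → L) (z : L)
    (h : Dl X ε σ m₁ W x z) : z ≠ 0 := by
  obtain ⟨hx, τ, hτ, rfl⟩ := h
  refine Finset.prod_ne_zero_iff.2 fun m hm => inv_ne_zero ?_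
  exact TV_ne (hσ m hm) (cm_odd X ε m x) (cm_sq X ha h0 ε hM m x hx) (hτ m hm)

include ha h0 hM hσ in
theorem Dl_scale (T : ι → ℕ)
    (hT : ∀ i, (T i : ℤ) = ∑ m ∈ Finset.Ico m₁ (m₁ + W), ∑ t : IxW (wt ε) (ds M) m,
      (if parW t = true then -1 else 1) *
        (-(∑ s, (t.1.2.2 s : ℤ) * (if (ε s).1 = i then 1 else 0)) - ∑ _j ∈ t.1.2.1, (P.g i : ℤ)))
    {L : Type} [Field L] [Algebra k L] (x l : ι → L) (z : L)
    (h : Dl X ε σ m₁ W x z) (hl : IsT P l) :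
    Dl X ε σ m₁ W (fun i => l i * x i) ((∏ i, l i ^ T i) * z) := by
  obtain ⟨hx, τ, hτ, rfl⟩ := h
  have hmu : ∀ i, mu ε l i ≠ 0 := fun i => hl.1 _
  have hrh : ∀ j, rh P M l j ≠ 0 := fun _ => Finset.prod_ne_zero_iff.2 fun i _ => pow_ne_zero _ (hl.1 i)
  have hpw : ∀ m (t : IxW (wt ε) (ds M) m), pwW (mu ε l) (rh P M l) t ≠ 0 := by
    intro m t
    unfold pwW
    refine inv_ne_zero (mul_ne_zero ?_ ?_)
    · exact Finset.prod_ne_zero_iff.2 fun i _ => pow_ne_zero _ (hmu i)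
    · exact Finset.prod_ne_zero_iff.2 fun i _ => hrh i
  refine ⟨?_, fun m => τ m * ∏ t : IxW (wt ε) (ds M) m,
    if parW t = true then pwW (mu ε l) (rh P M l) t else (pwW (mu ε l) (rh P M l) t)⁻¹, ?_, ?_⟩
  · rw [aeval_scale X hl x, hx, mul_zero]
  · intro m hm
    refine TV_scale (hσ m hm) (cm_odd X ε m x) (cm_sq X ha h0 ε hM m x hx) (hτ m hm)
      (pwW (mu ε l) (rh P M l)) (hpw m) ?_
    intro s t
    rw [CMW_scale (wt ε) (ds M) m (gs X ε M x) (gs X ε M (fun i => l i * x i))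
      (th ε x) (th ε (fun i => l i * x i)) (as M) (mu ε l) (rh P M l) hmu hrh
      (fun q α => gs_scale X ε M x l hl q α) (fun i α => th_scale ε x l hl.1 i α)
      (fun _ _ _ _ => rfl) s t]
  · rw [← scale_id ε l hl.1 m₁ W T hT, ← Finset.prod_mul_distrib]
    refine Finset.prod_congr rfl fun m _ => ?_
    rw [mul_inv, mul_comm]

theorem Dl_map {L L' : Type} [Field L] [Algebra k L] [Field L'] [Algebra k L'] (φ : L →ₐ[k] L')
    (x : ι → L) (z : L) (h : Dl X ε σ m₁ W x z) : Dl X ε σ m₁ W (fun i => φ (x i)) (φ z) := by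
  obtain ⟨hx, τ, hτ, rfl⟩ := h
  refine ⟨?_, fun m => φ (τ m), ?_, ?_⟩
  · have h1 := MvPolynomial.comp_aeval_apply (φ := φ) x X.F
    have h2 : aeval (fun i => φ (x i)) X.F = φ (aeval x X.F) := h1.symm
    rw [h2, hx, map_zero]
  · intro m hm
    rw [CM_map X ε m φ x]
    exact TV_map (φ : L →+* L') (hτ m hm)
  · rw [map_prod]
    exact Finset.prod_congr rfl fun m _ => map_inv₀ φ _

include ha h0 hM hσ hne in
theorem Dl_place [CharZero k] (hm₁ : ∑ j, ds M j + 1 ≤ m₁) (k' K : Type) [Field k'] [IsAlgClosed k'] [Algebra k k']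
    [Field K] [Algebra k K] [Algebra k' K] [IsScalarTower k k' K] (v : Place k' K) (u : ι → K)
    (p : ι → k') (hu : aeval u X.F = 0) (hp : aeval p X.F = 0) (hc : zs p ∈ P.C)
    (hv : ∀ i, v.Zer (u i - algebraMap k' K (p i))) (hns : ¬ ∃ f, Sol (bc X k') a p f) :
    ∃ z z₀, Dl X ε σ m₁ W u z ∧ Dl X ε σ m₁ W p z₀ ∧ v.Zer (z - algebraMap k' K z₀) := by
  have : CharZero k' := charZero_of_injective_algebraMap (algebraMap k k').injective
  have key : ∀ m ∈ Finset.Ico m₁ (m₁ + W), ∃ z z₀, TV parW (σ m) (CM X ε m u) z ∧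
      TV parW (σ m) (CM X ε m p) z₀ ∧ v.Zer (z - algebraMap k' K z₀) := by
    intro m hm
    have hm' : ∑ j, ds M j + 1 ≤ m := hm₁.trans (Finset.mem_Ico.1 hm).1
    have hp' : aeval p (bc X k').F = 0 := by rw [aeval_bc, hp]
    obtain ⟨H, hH, hH1⟩ := ex_at (bc X k') a ha h0 hne ε hM p hp' hc hns m hm'
    rw [CM_bc X ε m k' p] at hH1
    refine TV_place (cm_odd X ε m u) (cm_sq X ha h0 ε hM m u hu) (cm_odd X ε m p)
      (cm_sq X ha h0 ε hM m p hp) hH hH1 v ?_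
    intro s t
    have h1 := CMW_val v (wt ε) (ds M) m (gs (bc X k') ε M u) (gs (bc X k') ε M p) (th ε u) (th ε p)
      (as M) (fun q α => gs_val (bc X k') ε M v _ _ hv q α) (fun i α => th_val ε v _ _ hv i α) s t
    rw [gs_bc X ε M k' u, gs_bc X ε M k' p] at h1
    exact h1
  choose! z z₀ h1 h2 h3 using key
  refine ⟨∏ m ∈ Finset.Ico m₁ (m₁ + W), (z m)⁻¹, ∏ m ∈ Finset.Ico m₁ (m₁ + W), (z₀ m)⁻¹,
    ⟨hu, z, h1, rfl⟩, ⟨hp, z₀, h2, rfl⟩, ?_⟩
  refine Tor.val_prod _ _ _ fun m hm => ?_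
  exact Place.val_inv (h3 m hm)
    (TV_ne (hσ m hm) (cm_odd X ε m p) (cm_sq X ha h0 ε hM m p hp) (h2 m hm))

include ha h0 hM hne in
theorem Dl_ex [CharZero k] (hm₁ : ∑ j, ds M j + 1 ≤ m₁) (L : Type) [Field L] [IsAlgClosed L] [Algebra k L] (x : ι → L)
    (hx : aeval x X.F = 0) (hc : zs x ∈ P.C) (hns : ¬ ∃ f, Sol (bc X L) a x f) :
    ∃ z, Dl X ε σ m₁ W x z := by
  have : CharZero L := charZero_of_injective_algebraMap (algebraMap k L).injective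
  have key : ∀ m ∈ Finset.Ico m₁ (m₁ + W), ∃ z, TV parW (σ m) (CM X ε m x) z := by
    intro m hm
    have hm' : ∑ j, ds M j + 1 ≤ m := hm₁.trans (Finset.mem_Ico.1 hm).1
    have hx' : aeval x (bc X L).F = 0 := by rw [aeval_bc, hx]
    obtain ⟨H, hH, hH1⟩ := ex_at (bc X L) a ha h0 hne ε hM x hx' hc hns m hm'
    rw [CM_bc X ε m L x] at hH1
    exact ⟨_, _, Tor.Hom.mk' (cm_odd X ε m x) (cm_sq X ha h0 ε hM m x hx) hH hH1, rfl⟩
  choose! z h1 using key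
  exact ⟨_, hx, z, h1, rfl⟩

include ha h0 hM hne in
theorem Dl_nosol [CharZero k] (hof : ∀ i, P.g i ≠ 1 → a i = 0) (hm₁ : ∑ j, ds M j + 1 ≤ m₁) {L : Type} [Field L] [Algebra k L]
    (x : ι → L) (z : L) (h : Dl X ε σ m₁ (M + 1).factorial x z) (hc : zs x ∈ P.C) :
    ¬ ∃ f, Sol (bc X L) a x f := by
  have : CharZero L := charZero_of_injective_algebraMap (algebraMap k L).injective
  obtain ⟨hx, τ, hτ, -⟩ := h
  have hW : 0 < (M + 1).factorial := Nat.factorial_pos _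
  obtain ⟨m, hm, hdiv⟩ : ∃ m ∈ Finset.Ico m₁ (m₁ + (M + 1).factorial), (M + 1).factorial ∣ m := by
    refine ⟨((m₁ + (M + 1).factorial - 1) / (M + 1).factorial) * (M + 1).factorial, ?_,
      Dvd.intro_left _ rfl⟩
    rw [Finset.mem_Ico]
    have h1 := Nat.div_add_mod (m₁ + (M + 1).factorial - 1) (M + 1).factorial
    have h2 := Nat.mod_lt (m₁ + (M + 1).factorial - 1) hW
    rw [mul_comm] at h1
    constructor <;> omega
  obtain ⟨H, hH, -⟩ := hτ m hm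
  have hx' : aeval x (bc X L).F = 0 := by rw [aeval_bc, hx]
  rw [← CM_bc X ε m L x] at hH
  refine no_sol (bc X L) a ha h0 hne ε hM x hx' hc m ?_ ?_ hH
  · have h1 := (Finset.mem_Ico.1 hm).1
    omega
  · intro t
    refine dvd_trans ?_ hdiv
    refine Nat.dvd_factorial (Nat.succ_pos _) ?_
    have h1 : (ε t).2.val < (a (ε t).1).toNat := (ε t).2.isLt
    have h2 : (a (ε t).1).toNat ≤ M + 1 := by
      have h3 : a (ε t).1 ≤ dk P a := le_dk_off hof h0 _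
      omega
    show (ε t).2.val + 1 ≤ M + 1
    omega

end

end KW

variable {ι : Type} [Fintype ι] {r : ℕ} {k : Type} [Field k] {P : Tor ι r}

open KW in
theorem exists_disc [IsAlgClosed k] [CharZero k] (X : Hyp k P) (a : ι → ℤ) (ha : a ∈ Rel P)
    (h0 : ∀ i, 0 ≤ a i) (hne : a ≠ 0) (hof : ∀ i, P.g i ≠ 1 → a i = 0) (p : ι → k) (hF : aeval p X.F = 0) (hc : zs p ∈ P.C)
    (hp : ¬ ∃ f, Sol X a p f) : Nonempty (Disc X a) := by
  have hdk1 : 0 < (dk P a).toNat := by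
    obtain ⟨i, hi⟩ := Function.ne_iff.1 hne
    have h1 : a i ≤ dk P a := le_dk_off hof h0 i
    have h2 := h0 i
    simp only [Pi.zero_apply] at hi
    omega
  obtain ⟨M, hM⟩ : ∃ M, (dk P a).toNat = M + 1 := ⟨(dk P a).toNat - 1, by omega⟩
  have hcard : Fintype.card (Un a) = M + 1 := by
    rw [Fintype.card_sigma]
    simp only [Fintype.card_fin]
    have h3 : dk P a = ((∑ i, (a i).toNat : ℕ) : ℤ) := dk_nat_off hof h0
    omega
  let ε : Fin (M + 1) ≃ Un a := (Fintype.equivFinOfCardEq hcard).symm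
  have hsw : ∀ m, ∃ σ : Equiv.Perm (IxW (wt ε) (ds M) m), ∑ j, ds M j + 1 ≤ m → Sw parW σ := by
    intro m
    by_cases hm : ∑ j, ds M j + 1 ≤ m
    · obtain ⟨H, hH, hH1⟩ := ex_at X a ha h0 hne ε hM p hF hc hp m hm
      obtain ⟨σ, hσ⟩ := exists_sw (cm_odd X ε m p) (cm_sq X ha h0 ε hM m p hF)
        (Pool.Agent.LibPK60.Tor.Hom.mk' (cm_odd X ε m p) (cm_sq X ha h0 ε hM m p hF) hH hH1)
      exact ⟨σ, fun _ => hσ⟩
    · exact ⟨Equiv.refl _, fun h => absurd h hm⟩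
  choose σ hσ using hsw
  obtain ⟨m₁, T, hm₁, hT, hpos⟩ := exists_T a ha h0 hne hof ε hM (∑ j, ds M j + 1)
    fun m hm => sum_of_sw (hσ m hm)
  have hσ' : ∀ m ∈ Finset.Ico m₁ (m₁ + (M + 1).factorial), Sw parW (σ m) :=
    fun m hm => hσ m (hm₁.trans (Finset.mem_Ico.1 hm).1)
  exact ⟨{
    T := T
    D := fun L _ _ x z => Dl X ε σ m₁ (M + 1).factorial x z
    uniq := fun L _ _ x z z' => Dl_uniq X ha h0 ε hM σ m₁ _ hσ' x z z'
    ne := fun L _ _ x z => Dl_ne X ha h0 ε hM σ m₁ _ hσ' x z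
    scale := fun L _ _ x l z => Dl_scale X ha h0 ε hM σ m₁ _ hσ' T hT x l z
    map := fun L L' _ _ _ _ φ x z => Dl_map X ε σ m₁ _ φ x z
    place := fun k' K _ _ _ _ _ _ _ v u p => Dl_place X ha h0 hne ε hM σ m₁ _ hσ' hm₁ k' K v u p
    ex := fun L _ _ _ x => Dl_ex X ha h0 hne ε hM σ m₁ _ hm₁ L x
    nosol := fun L _ _ x z => Dl_nosol X ha h0 hne ε hM σ m₁ hof hm₁ x z
    pos := hpos }⟩

end Pool.Agent.LibTC2
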