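import Pool.Agent.LibTC2.BG0

/-!
[TC1 BG8] the degrees of the `D_i` on a curve which meets the torus. Plan: `exists_sp` (P3.lean) for every place `v` gives `p v`, `l v` with `Sp v u (p v) (l v)`; `hasDeg_eq`, `finite_ord` (P5.lean): for a finite set `A` of places outside of which
all `ord (l v i)` are `0`: `D i = ∑ v ∈ A, v.ord (l v i)`. Enlarge `A` so that it contains the places with `v.ord (u.z i) ≠ 0` (finite, `Val8.sum_formula` in LibEnd77/ValC.lean, namespace `Pool.Agent.LibEnd77.Val8`), then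
`∑ v ∈ A, v.ord (u.z i) = 0` and `D i = ∑ v ∈ A, v.ord (l v i * u.z i)`, all terms `≥ 0` since `l v i * u.z i` is regular at `v` (`Place.reg_of_val`) and not zero. Second part: `chi P m u.z` is transcendental, so it has a pole `v`
(`Val8.exists_pole`) [or a zero]: `v.ord (chi P m u.z) = ∑ i, pa P m i * v.ord (u.z i) = ∑ i, pa P m i * v.ord (l v i * u.z i)` since `∏ i, l v i ^ pa P m i = 1` (`IsT`); so some `i` has `pa P m i ≠ 0` and
`v.ord (l v i * u.z i) ≠ 0`, that is `> 0`; put `v` into `A`: `D i > 0`.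
-/

open scoped Classical
open MvPolynomial

set_option linter.unusedSectionVars false

namespace Pool.Agent.LibTC2

open Pool.Agent.LibBH2 Pool.Agent.LibQC8

variable {ι : Type} [Fintype ι] {r : ℕ} {k : Type} [Field k] {P : Tor ι r}

private theorem BG8_ord_prod {K : Type} [Field K] [Algebra k K] (v : Place k K) (s : Finset ι) (f : ι → K)
    (hf : ∀ i, f i ≠ 0) : v.ord (∏ i ∈ s, f i) = ∑ i ∈ s, v.ord (f i) := by
  induction s using Finset.induction_on with
  | empty => rw [Finset.prod_empty, Finset.sum_empty, v.ord_one]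
  | insert a s ha ih =>
    rw [Finset.prod_insert ha, Finset.sum_insert ha, v.ord_mul _ _ (hf a)
      (Finset.prod_ne_zero_iff.2 fun i _ => hf i), ih]

private theorem BG8_ord_chi {K : Type} [Field K] [Algebra k K] (v : Place k K) (m : Fin r → ℤ) (z : ι → K)
    (hz : ∀ i, z i ≠ 0) : v.ord (chi P m z) = ∑ i, pa P m i * v.ord (z i) := by
  rw [chi, BG8_ord_prod v Finset.univ _ (fun i => zpow_ne_zero _ (hz i))]
  exact Finset.sum_congr rfl fun i _ => v.ord_zpow _ _

theorem deg_torus [IsAlgClosed k] (X : Hyp k P) {K : Type} [Field K] [Algebra k K]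
    (hK : IsFunctionField k K) (u : Pt X K) (hu : ∀ i, u.z i ≠ 0) {D : ι → ℤ} (hD : HasDeg u D) :
    (∀ i, 0 ≤ D i) ∧ ∀ m : Fin r → ℤ, Transcendental k (chi P m u.z) →
      ∃ i, pa P m i ≠ 0 ∧ 0 < D i := by
  choose p l h using fun v : Place k K => exists_sp X hK v u
  have hl : ∀ (v : Place k K) (i : ι), l v i ≠ 0 := fun v i => (h v).tor.1 i
  have hfin : Set.Finite (⋃ i : ι, ({v : Place k K | v.ord (l v i) ≠ 0} ∪ {v : Place k K | v.ord (u.z i) ≠ 0})) :=
    Set.finite_iUnion fun i => (finite_ord X hK u p l h i).union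
      (Pool.Agent.LibEnd77.Val8.sum_formula hK (u.z i)).1
  have hnn : ∀ (v : Place k K) (i : ι), 0 ≤ v.ord (l v i * u.z i) := by
    intro v i
    rcases v.reg_of_val ((h v).val i) with h1 | h1
    · exact absurd h1 (mul_ne_zero (hl v i) (hu i))
    · exact h1
  have hsum : ∀ A : Finset (Place k K), hfin.toFinset ⊆ A → ∀ i, D i = ∑ v ∈ A, v.ord (l v i * u.z i) := by
    intro A hA i
    have h1 : D i = ∑ v ∈ A, v.ord (l v i) := by
      refine hasDeg_eq X hK u hD p l h A (fun v hv j => ?_) i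
      by_contra hne
      exact hv (hA (hfin.mem_toFinset.2 (Set.mem_iUnion.2 ⟨j, Or.inl hne⟩)))
    have h2 : ∑ v ∈ A, v.ord (u.z i) = 0 := by
      rw [← (Pool.Agent.LibEnd77.Val8.sum_formula hK (u.z i)).2]
      refine (finsum_eq_sum_of_support_subset _ ?_).symm
      intro v hv
      exact Finset.mem_coe.2 (hA (hfin.mem_toFinset.2 (Set.mem_iUnion.2 ⟨i, Or.inr hv⟩)))
    rw [h1, ← add_zero (∑ v ∈ A, v.ord (l v i)), ← h2, ← Finset.sum_add_distrib]
    exact Finset.sum_congr rfl fun v _ => (v.ord_mul _ _ (hl v i) (hu i)).symm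
  refine ⟨fun i => ?_, fun m hm => ?_⟩
  · rw [hsum _ (Finset.Subset.refl _) i]
    exact Finset.sum_nonneg fun v _ => hnn v i
  · obtain ⟨v, hv⟩ := Pool.Agent.LibEnd77.Val8.exists_pole hK hm
    have h1 : v.ord (chi P m u.z) = ∑ i, pa P m i * v.ord (l v i * u.z i) := by
      have h2 : v.ord (chi P m (l v)) = 0 := by
        have h3 : chi P m (l v) = 1 := (h v).tor.2 m
        rw [h3, v.ord_one]
      rw [BG8_ord_chi v m (l v) (hl v)] at h2
      rw [BG8_ord_chi v m u.z hu, ← zero_add (∑ i, pa P m i * v.ord (u.z i)), ← h2,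
        ← Finset.sum_add_distrib]
      refine Finset.sum_congr rfl fun i _ => ?_
      rw [v.ord_mul _ _ (hl v i) (hu i)]
      ring
    have h2 : ∃ i, pa P m i * v.ord (l v i * u.z i) ≠ 0 := by
      by_contra hcon
      push Not at hcon
      rw [h1, Finset.sum_eq_zero fun i _ => hcon i] at hv
      exact lt_irrefl _ hv
    obtain ⟨i, hi⟩ := h2
    refine ⟨i, left_ne_zero_of_mul hi, ?_⟩
    rw [hsum (insert v hfin.toFinset) (Finset.subset_insert _ _) i]
    refine Finset.sum_pos' (fun w _ => hnn w i) ⟨v, Finset.mem_insert_self _ _, ?_⟩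
    exact lt_of_le_of_ne (hnn v i) (right_ne_zero_of_mul hi).symm

end Pool.Agent.LibTC2
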