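import Pool.Agent.LibTC2.KM

/-!
(T2) On a curve with nonzero weight for `a ≥ 0` there is a point with a nontrivial solution.
-/

open scoped Classical
open MvPolynomial

namespace Pool.Agent.LibTC2

open Pool.Agent.LibBH2 Pool.Agent.LibQC8

variable {ι : Type} [Fintype ι] {r : ℕ} {k : Type} [Field k] {P : Tor ι r}

theorem sol_curve [IsAlgClosed k] [CharZero k] (X : Hyp k P) (a : ι → ℤ) (ha : a ∈ Rel P)
    (h0 : ∀ i, 0 ≤ a i) (hne : a ≠ 0) (hof : ∀ i, P.g i ≠ 1 → a i = 0) {K : Type} [Field K] [Algebra k K]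
    (hK : IsFunctionField k K) (u : Pt X K) (D : ι → ℤ) (hD : HasDeg u D)
    (hn : ∑ i, ((P.g i : ℚ) * harmonic (dk P a - 1).toNat - harmonic (a i).toNat) * (D i : ℚ) ≠ 0) :
    ∃ (v : Place k K) (p : Pt X k) (l : ι → K), Sp v u p l ∧ ∃ f, Sol X a p.z f :=
  KW.main X a ha h0 hne hof hK u D hD hn

end Pool.Agent.LibTC2
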