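import Pool.Agent.LibTC2.BG0

/-!
[TC1 BG2] linear algebra of the fan. Plan: work in `V = Fin r → ℚ` with the vectors `w i = v i`; they span `V` (`P.compl`: every integral vector is a combination). `U = span {w i₁, w s}` has dimension `≤ 2 < r - 1`, so
`V / U` has dimension `≥ 2` and is spanned by the images of the `w i`: there are `i₂, i₃` whose images are linearly independent (`exists_linearIndependent`/a basis contained in a spanning set). Linear forms on `V / U`
with values `(1, 0)`, `(0, 1)` at `w i₂`, `w i₃`, multiplied by a common denominator: `m₁, m₂ : Fin r → ℤ`. For `m'`: `U' = span {w i₁, w s'}`, dimension `≤ 2`. Not both `w i₂, w i₃` are in `U'`: otherwise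
`w i₁, w i₂, w i₃` are in `U'` of dimension `≤ 2`, but they span with `U ∋ w i₁` ... precisely: if `w i₁ = 0`, then `U' = span {w s'}` has dimension `≤ 1`, but `w i₂, w i₃` are independent; if `w i₁ ≠ 0`,
`w i₁, w i₂, w i₃` are linearly independent (independence modulo `U ∋ w i₁`), dimension `≥ 3`. So a linear form vanishes on `U'` and not on one of them.
-/

open scoped Classical
open MvPolynomial

set_option linter.unusedSectionVars false

namespace Pool.Agent.LibTC2

open Pool.Agent.LibBH2 Pool.Agent.LibQC8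

variable {ι : Type} [Fintype ι] {r : ℕ} {k : Type} [Field k] {P : Tor ι r}

/-- the ray as a rational vector -/
private def BG2_w (P : Tor ι r) (i : ι) : Fin r → ℚ := fun j => (P.v i j : ℚ)

private theorem BG2_clear (P : Tor ι r) (f : (Fin r → ℚ) →ₗ[ℚ] ℚ) : ∃ (m : Fin r → ℤ) (N : ℤ), N ≠ 0 ∧
    ∀ i, (pa P m i : ℚ) = N * f (BG2_w P i) := by
  obtain ⟨b, hb⟩ := IsLocalization.exist_integer_multiples_of_finite (nonZeroDivisors ℤ)
    (fun j : Fin r => f (Pi.single j 1))
  choose m hm using hb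
  refine ⟨m, (b : ℤ), nonZeroDivisors.coe_ne_zero b, fun i => ?_⟩
  have hm' : ∀ j, (m j : ℚ) = (b : ℤ) * f (Pi.single j 1) := by
    intro j
    have h1 := hm j
    rw [zsmul_eq_mul] at h1
    rw [← h1]
    rfl
  have hf : f (BG2_w P i) = ∑ j, (P.v i j : ℚ) * f (Pi.single j 1) := by
    have h1 : BG2_w P i = ∑ j, (P.v i j : ℚ) • (Pi.single j (1 : ℚ) : Fin r → ℚ) := by
      funext j'
      rw [Finset.sum_apply]
      simp only [Pi.smul_apply, smul_eq_mul, Pi.single_apply, mul_ite, mul_one, mul_zero]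
      rw [Finset.sum_ite_eq]
      simp [BG2_w]
    rw [h1, map_sum]
    refine Finset.sum_congr rfl fun j _ => ?_
    rw [map_smul, smul_eq_mul]
  rw [hf, Finset.mul_sum]
  unfold pa
  push_cast
  refine Finset.sum_congr rfl fun j _ => ?_
  rw [hm' j]
  ring

private theorem BG2_sep (P : Tor ι r) (U : Submodule ℚ (Fin r → ℚ)) {i : ι} (h : BG2_w P i ∉ U) :
    ∃ m : Fin r → ℤ, pa P m i ≠ 0 ∧ ∀ i', BG2_w P i' ∈ U → pa P m i' = 0 := by
  obtain ⟨f, hf, hU⟩ := Submodule.exists_dual_map_eq_bot_of_notMem h inferInstance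
  obtain ⟨m, N, hN, hm⟩ := BG2_clear P f
  refine ⟨m, ?_, ?_⟩
  · intro h0
    have h1 := hm i
    rw [h0, Int.cast_zero] at h1
    have hN' : (N : ℚ) ≠ 0 := by exact_mod_cast hN
    exact (mul_ne_zero hN' hf) h1.symm
  · intro i' hi'
    have h1 : f (BG2_w P i') ∈ U.map f := Submodule.mem_map_of_mem hi'
    rw [hU, Submodule.mem_bot] at h1
    have h2 := hm i'
    rw [h1, mul_zero] at h2
    exact_mod_cast h2

private theorem BG2_span (P : Tor ι r) (U : Submodule ℚ (Fin r → ℚ)) (h : ∀ i, BG2_w P i ∈ U) : U = ⊤ := by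
  rw [eq_top_iff]
  intro x _
  have h1 : ∀ j : Fin r, (Pi.single j (1 : ℚ) : Fin r → ℚ) ∈ U := by
    intro j
    obtain ⟨m, _, hm⟩ := P.compl (Pi.single j 1)
    have h2 : (Pi.single j (1 : ℚ) : Fin r → ℚ) = ∑ i, (m i : ℚ) • BG2_w P i := by
      funext j'
      rw [Finset.sum_apply]
      simp only [Pi.smul_apply, smul_eq_mul, BG2_w]
      have h3 := hm j'
      have h4 : ((Pi.single j (1 : ℤ) : Fin r → ℤ) j' : ℚ) = (Pi.single j (1 : ℚ) : Fin r → ℚ) j' := by
        rw [Pi.single_apply, Pi.single_apply]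
        split_ifs <;> simp
      rw [← h4, ← h3]
      push_cast
      rfl
    rw [h2]
    exact Submodule.sum_mem _ fun i _ => Submodule.smul_mem _ _ (h i)
  have h5 : x = ∑ j, x j • (Pi.single j (1 : ℚ) : Fin r → ℚ) := by
    funext j'
    rw [Finset.sum_apply]
    simp only [Pi.smul_apply, smul_eq_mul, Pi.single_apply, mul_ite, mul_one, mul_zero]
    rw [Finset.sum_ite_eq]
    simp
  rw [h5]
  exact Submodule.sum_mem _ fun j _ => Submodule.smul_mem _ _ (h1 j)

private theorem BG2_exists (P : Tor ι r) (S : Finset (Fin r → ℚ)) (hS : S.card < r) :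
    ∃ i, BG2_w P i ∉ Submodule.span ℚ (S : Set (Fin r → ℚ)) := by
  by_contra hc
  push Not at hc
  have h1 := BG2_span P _ hc
  have h2 := finrank_span_finset_le_card (R := ℚ) S
  rw [Set.finrank, h1, finrank_top, Module.finrank_fin_fun] at h2
  omega

theorem exists_chars (hr : 4 ≤ r) (P : Tor ι r) (i₁ s s' : ι) :
    ∃ (i₂ i₃ : ι) (m₁ m₂ m' : Fin r → ℤ), pa P m₁ i₁ = 0 ∧ pa P m₁ s = 0 ∧ pa P m₁ i₂ ≠ 0 ∧
      pa P m₁ i₃ = 0 ∧ pa P m₂ i₁ = 0 ∧ pa P m₂ s = 0 ∧ pa P m₂ i₂ = 0 ∧ pa P m₂ i₃ ≠ 0 ∧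
      pa P m' i₁ = 0 ∧ pa P m' s' = 0 ∧ (pa P m' i₂ ≠ 0 ∨ pa P m' i₃ ≠ 0) := by
  obtain ⟨a, ha⟩ : ∃ a, a = BG2_w P i₁ := ⟨_, rfl⟩
  obtain ⟨b, hb⟩ : ∃ b, b = BG2_w P s := ⟨_, rfl⟩
  obtain ⟨b', hb'⟩ : ∃ b', b' = BG2_w P s' := ⟨_, rfl⟩
  obtain ⟨i₂, h2⟩ := BG2_exists P {a, b} (lt_of_le_of_lt (Finset.card_le_two) (by omega))
  obtain ⟨c, hc⟩ : ∃ c, c = BG2_w P i₂ := ⟨_, rfl⟩
  obtain ⟨i₃, h3⟩ := BG2_exists P {a, b, c} (lt_of_le_of_lt (Finset.card_le_three) (by omega))
  obtain ⟨d, hd⟩ : ∃ d, d = BG2_w P i₃ := ⟨_, rfl⟩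
  rw [← hc] at h2
  rw [← hd] at h3
  have hco2 : ((({a, b} : Finset (Fin r → ℚ)) : Set (Fin r → ℚ))) = {a, b} := by
    rw [Finset.coe_insert, Finset.coe_singleton]
  have hco3 : ((({a, b, c} : Finset (Fin r → ℚ)) : Set (Fin r → ℚ))) = {a, b, c} := by
    rw [Finset.coe_insert, Finset.coe_insert, Finset.coe_singleton]
  rw [hco2] at h2
  rw [hco3] at h3
  have hmem3 : ∀ x : Fin r → ℚ, x ∈ ({a, b, c} : Set (Fin r → ℚ)) → x ∈ Submodule.span ℚ {a, b, c} :=
    fun x hx => Submodule.subset_span hx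
  -- `c` is not in the span of `a, b, d`
  have h4 : c ∉ Submodule.span ℚ {a, b, d} := by
    intro hcon
    rw [Submodule.mem_span_insert] at hcon
    obtain ⟨x, z, hz, hxz⟩ := hcon
    rw [Submodule.mem_span_pair] at hz
    obtain ⟨y, t, hyt⟩ := hz
    by_cases ht : t = 0
    · apply h2
      rw [Submodule.mem_span_pair]
      refine ⟨x, y, ?_⟩
      rw [hxz, ← hyt, ht, zero_smul, add_zero]
    · apply h3
      have h5 : d = t⁻¹ • (c - x • a - y • b) := by
        have h6 : t • d = c - x • a - y • b := by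
          rw [hxz, ← hyt]
          abel
        rw [← h6, smul_smul, inv_mul_cancel₀ ht, one_smul]
      rw [h5]
      refine Submodule.smul_mem _ _ (Submodule.sub_mem _ (Submodule.sub_mem _ ?_ ?_) ?_)
      · exact hmem3 c (by simp)
      · exact Submodule.smul_mem _ _ (hmem3 a (by simp))
      · exact Submodule.smul_mem _ _ (hmem3 b (by simp))
  -- one of them is not in the span of `a, b'`
  have h5 : c ∉ Submodule.span ℚ {a, b'} ∨ d ∉ Submodule.span ℚ {a, b'} := by
    by_contra hcon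
    push Not at hcon
    obtain ⟨h6, h7⟩ := hcon
    rw [Submodule.mem_span_pair] at h6 h7
    obtain ⟨x, y, hxy⟩ := h6
    obtain ⟨x', y', hxy'⟩ := h7
    by_cases hy : y = 0
    · apply h2
      rw [Submodule.mem_span_pair]
      refine ⟨x, 0, ?_⟩
      rw [← hxy, hy, zero_smul, zero_smul]
    · apply h3
      have h8 : b' = y⁻¹ • (c - x • a) := by
        have h9 : y • b' = c - x • a := by
          rw [← hxy]
          abel
        rw [← h9, smul_smul, inv_mul_cancel₀ hy, one_smul]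
      rw [← hxy', h8]
      refine Submodule.add_mem _ (Submodule.smul_mem _ _ (hmem3 a (by simp))) (Submodule.smul_mem _ _
        (Submodule.smul_mem _ _ (Submodule.sub_mem _ ?_ ?_)))
      · exact hmem3 c (by simp)
      · exact Submodule.smul_mem _ _ (hmem3 a (by simp))
  have h4' := h4
  rw [hc] at h4
  obtain ⟨m₁, hm₁, hm₁'⟩ := BG2_sep P _ h4
  have h3' := h3
  rw [hd] at h3
  obtain ⟨m₂, hm₂, hm₂'⟩ := BG2_sep P _ h3
  have hm' : ∃ m' : Fin r → ℤ, pa P m' i₁ = 0 ∧ pa P m' s' = 0 ∧ (pa P m' i₂ ≠ 0 ∨ pa P m' i₃ ≠ 0) := by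
    rcases h5 with h5 | h5
    · rw [hc] at h5
      obtain ⟨m', h6, h7⟩ := BG2_sep P _ h5
      refine ⟨m', h7 _ ?_, h7 _ ?_, Or.inl h6⟩
      · rw [← ha]
        exact Submodule.subset_span (by simp)
      · rw [← hb']
        exact Submodule.subset_span (by simp)
    · rw [hd] at h5
      obtain ⟨m', h6, h7⟩ := BG2_sep P _ h5
      refine ⟨m', h7 _ ?_, h7 _ ?_, Or.inr h6⟩
      · rw [← ha]
        exact Submodule.subset_span (by simp)
      · rw [← hb']
        exact Submodule.subset_span (by simp)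
  obtain ⟨m', hm1, hm2, hm3⟩ := hm'
  refine ⟨i₂, i₃, m₁, m₂, m', hm₁' _ ?_, hm₁' _ ?_, hm₁, hm₁' _ ?_, hm₂' _ ?_, hm₂' _ ?_, hm₂' _ ?_, hm₂,
    hm1, hm2, hm3⟩
  · rw [← ha]
    exact Submodule.subset_span (by simp)
  · rw [← hb]
    exact Submodule.subset_span (by simp)
  · rw [← hd]
    exact Submodule.subset_span (by simp)
  · rw [← ha]
    exact Submodule.subset_span (by simp)
  · rw [← hb]
    exact Submodule.subset_span (by simp)
  · rw [← hc]
    exact Submodule.subset_span (by simp)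

end Pool.Agent.LibTC2
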