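import Pool.Agent.LibTC2.BG0

/-!
[TC1 BG3] a point of `X` with nonzero coordinates over a field of transcendence degree two. Plan: `G j = ∑ (e in the support of F with e i₁ = j) monomial (e.erase i₁) (coeff e F)`; `G (e i₁) ≠ 0`, `G (e' i₁) ≠ 0`
(the exponents `e.erase i₁` with `e i₁ = j` fixed are distinct). `k` is infinite, so there is `τ : ι → k`, all `τ i ≠ 0`, with `eval τ (G (e i₁) * G (e' i₁)) ≠ 0` (multiply with `∏ i, X i`; `MvPolynomial.funext`).
`y i₂ = t 0`, `y i₃ = t 1`, `y i = τ i` for the others. For `i ≠ i₁`, `y i` is the image of `z i : MvPolynomial (Fin 2) k` (`X 0`, `X 1`, `C (τ i)`) under the injective `aeval t`; `aeval z (G j)` is not zero since it is mapped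
to `eval τ (G j) ≠ 0` by `X 0 ↦ τ i₂`, `X 1 ↦ τ i₃` (`G j` does not contain the variable `i₁`). So the polynomial `Q = ∑ e, C (coeff e F * ∏ (i ≠ i₁) y i ^ e i) * X ^ (e i₁)` over `Ω` has at least two nonzero coefficients.
A nonzero polynomial over an algebraically closed field all of whose roots are `0` is `c X^n` (e.g. `Polynomial.exists_eq_pow_rootMultiplicity_mul_and_not_dvd`: `Q = X^n * q`, `q` has no root, so it is constant). So there is a root `y i₁ ≠ 0`;
`aeval y F = Q.eval (y i₁) = 0`.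
-/

open scoped Classical
open MvPolynomial

set_option linter.unusedSectionVars false

namespace Pool.Agent.LibTC2

open Pool.Agent.LibBH2 Pool.Agent.LibQC8

variable {ι : Type} [Fintype ι] {r : ℕ} {k : Type} [Field k] {P : Tor ι r}

private theorem bg3_root {Ω : Type} [Field Ω] [IsAlgClosed Ω] (Q : Polynomial Ω) {j j' : ℕ}
    (h : j ≠ j') (hj : Q.coeff j ≠ 0) (hj' : Q.coeff j' ≠ 0) : ∃ ρ : Ω, ρ ≠ 0 ∧ Q.eval ρ = 0 := by
  have hQ : Q ≠ 0 := fun h0 => hj (by rw [h0, Polynomial.coeff_zero])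
  obtain ⟨q, hq, hnd⟩ := Polynomial.exists_eq_pow_rootMultiplicity_mul_and_not_dvd Q hQ 0
  set n := Q.rootMultiplicity 0 with hn
  rw [Polynomial.dvd_iff_isRoot] at hnd
  have hdeg : q.degree ≠ 0 := by
    intro hd
    have hc := Polynomial.eq_C_of_degree_eq_zero hd
    rw [hc, Polynomial.C_0, sub_zero] at hq
    have key : ∀ i, Q.coeff i ≠ 0 → i = n := by
      intro i hi
      by_contra hin
      apply hi
      rw [hq, mul_comm, Polynomial.coeff_C_mul, Polynomial.coeff_X_pow, if_neg hin, mul_zero]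
    exact h ((key j hj).trans (key j' hj').symm)
  obtain ⟨ρ, hρ⟩ := IsAlgClosed.exists_root q hdeg
  refine ⟨ρ, ?_, ?_⟩
  · intro h0
    rw [h0] at hρ
    exact hnd hρ
  · rw [hq, Polynomial.eval_mul, hρ, mul_zero]

/-- the coefficient of `X i₁ ^ j` -/
private noncomputable def bg3_G (F : MvPolynomial ι k) (i₁ : ι) (j : ℕ) : MvPolynomial ι k :=
  ∑ d ∈ F.support.filter (fun d => d i₁ = j), monomial (d.erase i₁) (coeff d F)

private theorem bg3_G_ne {F : MvPolynomial ι k} (i₁ : ι) {e : ι →₀ ℕ} (he : e ∈ F.support) :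
    bg3_G F i₁ (e i₁) ≠ 0 := by
  intro h
  have h1 : coeff (e.erase i₁) (bg3_G F i₁ (e i₁)) = coeff e F := by
    unfold bg3_G
    rw [coeff_sum, Finset.sum_eq_single e]
    · rw [coeff_monomial, if_pos rfl]
    · intro d hd hde
      rw [coeff_monomial, if_neg]
      intro hee
      apply hde
      rw [Finset.mem_filter] at hd
      ext i
      by_cases hi : i = i₁
      · rw [hi]
        exact hd.2
      · have h2 := DFunLike.congr_fun hee i
        rw [Finsupp.erase_ne hi, Finsupp.erase_ne hi] at h2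
        exact h2
    · intro hn
      exact absurd (show e ∈ F.support.filter (fun d => d i₁ = e i₁) from
        Finset.mem_filter.2 ⟨he, rfl⟩) hn
  rw [h, coeff_zero] at h1
  exact (mem_support_iff.1 he) h1.symm

private theorem bg3_mono {Ω : Type} [Field Ω] [Algebra k Ω] (y : ι → Ω) (i₁ : ι) (ρ : Ω)
    (d : ι →₀ ℕ) (c : k) :
    aeval (Function.update y i₁ ρ) (monomial d c) =
      aeval y (monomial (d.erase i₁) c) * ρ ^ d i₁ := by
  rw [aeval_monomial, aeval_monomial,
    ← Finsupp.mul_prod_erase' d i₁ (fun i n => Function.update y i₁ ρ i ^ n)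
      (fun i => pow_zero _), Function.update_self]
  have h : (d.erase i₁).prod (fun i n => Function.update y i₁ ρ i ^ n) =
      (d.erase i₁).prod (fun i n => y i ^ n) := by
    apply Finsupp.prod_congr
    intro i hi
    have h1 : i ≠ i₁ := by
      intro h2
      rw [h2, Finsupp.mem_support_iff, Finsupp.erase_same] at hi
      exact hi rfl
    rw [Function.update_of_ne h1]
  rw [h]
  ring

/-- the polynomial in the variable `i₁` -/
private noncomputable def bg3_Q {Ω : Type} [Field Ω] [Algebra k Ω] (F : MvPolynomial ι k)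
    (y : ι → Ω) (i₁ : ι) : Polynomial Ω :=
  ∑ d ∈ F.support, Polynomial.C (aeval y (monomial (d.erase i₁) (coeff d F))) *
    Polynomial.X ^ d i₁

private theorem bg3_Q_coeff {Ω : Type} [Field Ω] [Algebra k Ω] (F : MvPolynomial ι k)
    (y : ι → Ω) (i₁ : ι) (j : ℕ) : (bg3_Q F y i₁).coeff j = aeval y (bg3_G F i₁ j) := by
  unfold bg3_Q bg3_G
  rw [Polynomial.finsetSum_coeff, map_sum, Finset.sum_filter]
  apply Finset.sum_congr rfl
  intro d _
  rw [Polynomial.coeff_C_mul, Polynomial.coeff_X_pow]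
  by_cases h : d i₁ = j
  · rw [if_pos h, if_pos h.symm, mul_one]
  · rw [if_neg h, if_neg (fun h' => h h'.symm), mul_zero]

private theorem bg3_Q_eval {Ω : Type} [Field Ω] [Algebra k Ω] (F : MvPolynomial ι k)
    (y : ι → Ω) (i₁ : ι) (ρ : Ω) :
    (bg3_Q F y i₁).eval ρ = aeval (Function.update y i₁ ρ) F := by
  conv_rhs => rw [as_sum F]
  unfold bg3_Q
  rw [Polynomial.eval_finsetSum, map_sum]
  apply Finset.sum_congr rfl
  intro d _
  rw [Polynomial.eval_mul, Polynomial.eval_C, Polynomial.eval_pow, Polynomial.eval_X, bg3_mono]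

theorem exists_root [IsAlgClosed k] (X : Hyp k P) (Ω : Type) [Field Ω] [IsAlgClosed Ω]
    [Algebra k Ω] (t : Fin 2 → Ω) (ht : AlgebraicIndependent k t) (e e' : ι →₀ ℕ)
    (he : e ∈ X.F.support) (he' : e' ∈ X.F.support) (i₁ i₂ i₃ : ι) (h12 : i₁ ≠ i₂) (h13 : i₁ ≠ i₃)
    (h23 : i₂ ≠ i₃) (hne : e i₁ ≠ e' i₁) :
    ∃ (y : ι → Ω) (τ : ι → k), (∀ i, y i ≠ 0) ∧ aeval y X.F = 0 ∧ y i₂ = t 0 ∧ y i₃ = t 1 ∧
      ∀ i, i ≠ i₁ → i ≠ i₂ → i ≠ i₃ → y i = algebraMap k Ω (τ i) := by
  have : Infinite k := IsAlgClosed.instInfinite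
  have hG := bg3_G_ne i₁ he
  have hG' := bg3_G_ne i₁ he'
  have hprod : (∏ i : ι, (MvPolynomial.X i : MvPolynomial ι k)) ≠ 0 :=
    Finset.prod_ne_zero_iff.2 fun i _ => MvPolynomial.X_ne_zero i
  obtain ⟨τ, hτ⟩ : ∃ τ : ι → k, eval τ (bg3_G X.F i₁ (e i₁) * bg3_G X.F i₁ (e' i₁) *
      ∏ i : ι, (MvPolynomial.X i : MvPolynomial ι k)) ≠ 0 := by
    by_contra hc
    push Not at hc
    refine mul_ne_zero (mul_ne_zero hG hG') hprod (MvPolynomial.funext fun τ => ?_)
    rw [hc τ, map_zero]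
  rw [map_mul, map_mul, map_prod] at hτ
  have hτ1 : eval τ (bg3_G X.F i₁ (e i₁)) ≠ 0 := fun h => hτ (by rw [h, zero_mul, zero_mul])
  have hτ2 : eval τ (bg3_G X.F i₁ (e' i₁)) ≠ 0 := fun h => hτ (by rw [h, mul_zero, zero_mul])
  have hτ3 : ∀ i, τ i ≠ 0 := by
    intro i h
    apply hτ
    rw [Finset.prod_eq_zero (Finset.mem_univ i) (by rw [eval_X, h]), mul_zero]
  let z : ι → MvPolynomial (Fin 2) k := fun i =>
    if i = i₂ then MvPolynomial.X 0 else if i = i₃ then MvPolynomial.X 1 else C (τ i)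
  let y0 : ι → Ω := fun i => aeval t (z i)
  let σ : Fin 2 → k := ![τ i₂, τ i₃]
  have hz : ∀ i, eval σ (z i) = τ i := by
    intro i
    show eval σ (if i = i₂ then MvPolynomial.X 0 else if i = i₃ then MvPolynomial.X 1 else C (τ i)) = τ i
    by_cases h2 : i = i₂
    · rw [if_pos h2, eval_X, h2]
      rfl
    · rw [if_neg h2]
      by_cases h3 : i = i₃
      · rw [if_pos h3, eval_X, h3]
        rfl
      · rw [if_neg h3, eval_C]
  have hne0 : ∀ G : MvPolynomial ι k, eval τ G ≠ 0 → aeval y0 G ≠ 0 := by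
    intro G hG0 h
    have h1 : aeval y0 G = aeval t (aeval z G) := by
      have : (aeval y0 : MvPolynomial ι k →ₐ[k] Ω) = (aeval t).comp (aeval z) := by
        apply MvPolynomial.algHom_ext
        intro i
        rw [aeval_X, AlgHom.comp_apply, aeval_X]
      rw [this, AlgHom.comp_apply]
    rw [h1] at h
    have h2 : aeval z G = 0 := by
      apply ht
      rw [h, map_zero]
    apply hG0
    have h3 : eval σ (aeval z G) = eval τ G := by
      have : (eval σ).comp (aeval z : MvPolynomial ι k →ₐ[k] MvPolynomial (Fin 2) k).toRingHom =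
          eval τ := by
        apply MvPolynomial.ringHom_ext
        · intro c
          simp
        · intro i
          rw [RingHom.comp_apply, eval_X]
          show eval σ (aeval z (MvPolynomial.X i)) = τ i
          rw [aeval_X, hz]
      rw [← this]
      rfl
    rw [← h3, h2, map_zero]
  obtain ⟨ρ, hρ0, hρ⟩ := bg3_root (bg3_Q X.F y0 i₁) hne
    (by rw [bg3_Q_coeff]; exact hne0 _ hτ1) (by rw [bg3_Q_coeff]; exact hne0 _ hτ2)
  rw [bg3_Q_eval] at hρ
  have hy2 : y0 i₂ = t 0 := by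
    show aeval t (if i₂ = i₂ then MvPolynomial.X 0 else if i₂ = i₃ then MvPolynomial.X 1
      else C (τ i₂)) = t 0
    rw [if_pos rfl, aeval_X]
  have hy3 : y0 i₃ = t 1 := by
    show aeval t (if i₃ = i₂ then MvPolynomial.X 0 else if i₃ = i₃ then MvPolynomial.X 1
      else C (τ i₃)) = t 1
    rw [if_neg h23.symm, if_pos rfl, aeval_X]
  have hyo : ∀ i, i ≠ i₂ → i ≠ i₃ → y0 i = algebraMap k Ω (τ i) := by
    intro i h2 h3
    show aeval t (if i = i₂ then MvPolynomial.X 0 else if i = i₃ then MvPolynomial.X 1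
      else C (τ i)) = algebraMap k Ω (τ i)
    rw [if_neg h2, if_neg h3, aeval_C]
  have ht0 : ∀ j, t j ≠ 0 := fun j => ht.ne_zero j
  refine ⟨Function.update y0 i₁ ρ, τ, ?_, hρ, ?_, ?_, ?_⟩
  · intro i
    by_cases h1 : i = i₁
    · rw [h1, Function.update_self]
      exact hρ0
    · rw [Function.update_of_ne h1]
      by_cases h2 : i = i₂
      · rw [h2, hy2]
        exact ht0 0
      · by_cases h3 : i = i₃
        · rw [h3, hy3]
          exact ht0 1
        · rw [hyo i h2 h3]
          intro h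
          exact hτ3 i ((map_eq_zero (algebraMap k Ω)).1 h)
  · rw [Function.update_of_ne h12.symm, hy2]
  · rw [Function.update_of_ne h13.symm, hy3]
  · intro i h1 h2 h3
    rw [Function.update_of_ne h1, hyo i h2 h3]

end Pool.Agent.LibTC2
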