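import Pool.Agent.LibTC2.BG0

/-!
[TC1 BG4] a field of transcendence degree two. ONLY MATHLIB. Plan. `exists_Om`: `Ω = AlgebraicClosure (FractionRing (MvPolynomial (Fin 2) k))`, `t` the images of the variables;
`Algebra.trdeg`: `IsTranscendenceBasis` (`MvPolynomial.isTranscendenceBasis_X`-like lemmas, `Algebra.IsAlgebraic` towers) and `IsTranscendenceBasis.cardinalMk_eq_trdeg` or similar (`exact?`).
-/

open scoped Classical
open MvPolynomial

set_option linter.unusedSectionVars false

namespace Pool.Agent.LibTC2

theorem exists_Om (k : Type) [Field k] : ∃ (Ω : Type) (_ : Field Ω) (_ : Algebra k Ω) (t : Fin 2 → Ω),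
    IsAlgClosed Ω ∧ AlgebraicIndependent k t ∧ Algebra.trdeg k Ω = 2 := by
  let S := MvPolynomial (Fin 2) k
  let F := FractionRing S
  let Ω := AlgebraicClosure F
  have hinj : Function.Injective (algebraMap S Ω) := by
    rw [IsScalarTower.algebraMap_eq S F Ω]
    exact (algebraMap F Ω).injective.comp (IsFractionRing.injective S F)
  have hF : FaithfulSMul S F := (faithfulSMul_iff_algebraMap_injective S F).2 (IsFractionRing.injective S F)
  refine ⟨Ω, inferInstance, inferInstance, fun i => algebraMap S Ω (X i), inferInstance, ?_, ?_⟩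
  · exact (MvPolynomial.algebraicIndependent_X (Fin 2) k).map' (f := IsScalarTower.toAlgHom k S Ω) hinj
  · have h1 : Algebra.trdeg k S = 2 := by
      rw [MvPolynomial.trdeg_of_isDomain]
      simp
    have h2 : Algebra.trdeg S F = 0 := by
      have : Algebra.IsAlgebraic S F := IsLocalization.isAlgebraic F (nonZeroDivisors S)
      exact trdeg_eq_zero
    have h3 : Algebra.trdeg F Ω = 0 := trdeg_eq_zero
    have h4 : Algebra.trdeg k S + Algebra.trdeg S F = Algebra.trdeg k F := trdeg_add_eq k S
    have h5 : Algebra.trdeg k F + Algebra.trdeg F Ω = Algebra.trdeg k Ω := trdeg_add_eq k F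
    rw [← h5, ← h4, h1, h2, h3, add_zero, add_zero]

end Pool.Agent.LibTC2
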