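import Pool.Agent.LibTC2.BG0

/-!
[TC1 BG4b] monomials in algebraically independent elements. ONLY MATHLIB. Plan. `algInd_pow`: if one of
the two is algebraic over `k(the other)`, then so is `t 0` over `k(t 1)` or conversely; or: `![c t₀^n, c' t₁^n']` generates a subfield over which `t 0, t 1` are algebraic, so a transcendence degree argument
(`AlgebraicIndependent` from a spanning family of the right cardinality: `exists? IsTranscendenceBasis ... trdeg`), or directly: for `n, n' > 0` substitute in polynomials (`MvPolynomial` with exponents scaled by `n, n'`), for negative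
exponents use that `x` may be replaced by `x⁻¹`. `trans_pow`: if `x = c t₀^n t₁^n'` is algebraic over `k`, `n ≠ 0`, then `t₀^n = x c⁻¹ t₁^(-n')` is algebraic over `k(t₁)`, so `t₀` is; contradiction to `ht`.
-/

open scoped Classical
open MvPolynomial

set_option linter.unusedSectionVars false

namespace Pool.Agent.LibTC2

section BG4b

variable {k Ω : Type} [Field k] [Field Ω] [Algebra k Ω]

open scoped IntermediateField.algebraAdjoinAdjoin in
private theorem BG4b_field {t : Fin 2 → Ω} (ht : AlgebraicIndependent k t) {i j : Fin 2} (hij : i ≠ j) :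
    Transcendental (IntermediateField.adjoin k {t j}) (t i) := by
  have h1 := ht.transcendental_adjoin (s := {j}) (i := i) (fun h => hij (Set.mem_singleton_iff.1 h))
  rw [Set.image_singleton] at h1
  intro h2
  exact h1 ((IsFractionRing.isAlgebraic_iff (Algebra.adjoin k {t j})
    (IntermediateField.adjoin k {t j}) Ω).2 h2)

private theorem BG4b_pow {u : Ω} {c : k} (hc : c ≠ 0) {n : ℤ} (hn : n ≠ 0)
    (h : IsAlgebraic k (algebraMap k Ω c * u ^ n)) : IsAlgebraic k u := by
  have h1 : IsAlgebraic k (u ^ n) := by
    have h2 : u ^ n = algebraMap k Ω c⁻¹ * (algebraMap k Ω c * u ^ n) := by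
      rw [← mul_assoc, ← map_mul, inv_mul_cancel₀ hc, map_one, one_mul]
    rw [h2]
    exact (isAlgebraic_algebraMap _).mul h
  obtain ⟨m, hm⟩ := Int.eq_nat_or_neg n
  have hm0 : 0 < m := by omega
  rcases hm with hm | hm
  · rw [hm, zpow_natCast] at h1
    exact h1.of_pow hm0
  · rw [hm, zpow_neg, zpow_natCast, IsAlgebraic.inv_iff] at h1
    exact h1.of_pow hm0

private theorem BG4b_pair {u v : Ω} (hv : Transcendental k v)
    (hu : Transcendental (Algebra.adjoin k {v}) u) : AlgebraicIndependent k ![u, v] := by
  rw [AlgebraicIndependent.iff_transcendental_adjoin_image 0]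
  constructor
  · let _ : Unique {j : Fin 2 // j ≠ 0} :=
      { default := ⟨1, by decide⟩
        uniq := by
          rintro ⟨j, hj⟩
          refine Subtype.ext ?_
          have h1 : (j : ℕ) ≠ 0 := fun h => hj (Fin.ext h)
          have h2 := j.isLt
          refine Fin.ext ?_
          show (j : ℕ) = 1
          omega }
    rw [algebraicIndependent_unique_type_iff]
    exact hv
  · have e : (![u, v] '' {0}ᶜ) = {v} := by
      ext z
      constructor
      · rintro ⟨j, hj, rfl⟩
        have h1 : (j : ℕ) ≠ 0 := fun h => hj (Fin.ext h)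
        have h2 := j.isLt
        have h3 : j = 1 := by
          refine Fin.ext ?_
          show (j : ℕ) = 1
          omega
        rw [h3]
        rfl
      · intro hz
        rw [Set.mem_singleton_iff] at hz
        refine ⟨1, ?_, ?_⟩
        · intro h
          exact absurd (Set.mem_singleton_iff.1 h) (by decide)
        · rw [hz]
          rfl
    rw [e]
    exact hu

private theorem BG4b_tr {t : Fin 2 → Ω} (ht : AlgebraicIndependent k t) {i j : Fin 2} (hij : i ≠ j)
    {c : k} (hc : c ≠ 0) {n : ℤ} (n' : ℤ) (hn : n ≠ 0) :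
    Transcendental k (algebraMap k Ω c * t i ^ n * t j ^ n') := by
  intro hx
  apply BG4b_field ht hij
  have h1 : IsAlgebraic (IntermediateField.adjoin k {t j}) (algebraMap k Ω c * t i ^ n * t j ^ n') :=
    hx.tower_top _
  obtain ⟨T, hT⟩ : ∃ T : IntermediateField.adjoin k {t j},
      algebraMap (IntermediateField.adjoin k {t j}) Ω T = t j :=
    ⟨⟨t j, IntermediateField.mem_adjoin_simple_self k (t j)⟩, rfl⟩
  have hT0 : T ≠ 0 := by
    intro h
    rw [h, map_zero] at hT
    exact ht.ne_zero j hT.symm
  have hc0 : algebraMap k (IntermediateField.adjoin k {t j}) c ≠ 0 := by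
    intro h
    exact hc ((algebraMap k (IntermediateField.adjoin k {t j})).injective (by rw [h, map_zero]))
  have h2 : algebraMap k Ω c * t i ^ n * t j ^ n' =
      algebraMap (IntermediateField.adjoin k {t j}) Ω
        (algebraMap k (IntermediateField.adjoin k {t j}) c * T ^ n') * t i ^ n := by
    rw [map_mul, map_zpow₀, hT, ← IsScalarTower.algebraMap_apply]
    ring
  rw [h2] at h1
  exact BG4b_pow (mul_ne_zero hc0 (zpow_ne_zero _ hT0)) hn h1

end BG4b

theorem algInd_pow {k Ω : Type} [Field k] [Field Ω] [Algebra k Ω] {t : Fin 2 → Ω}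
    (ht : AlgebraicIndependent k t) (c c' : k) (hc : c ≠ 0) (hc' : c' ≠ 0) (n n' : ℤ) (hn : n ≠ 0)
    (hn' : n' ≠ 0) :
    AlgebraicIndependent k ![algebraMap k Ω c * t 0 ^ n, algebraMap k Ω c' * t 1 ^ n'] := by
  have hv : Transcendental k (algebraMap k Ω c' * t 1 ^ n') := fun h =>
    ht.transcendental 1 (BG4b_pow hc' hn' h)
  refine BG4b_pair hv ?_
  have hle : Algebra.adjoin k {algebraMap k Ω c' * t 1 ^ n'} ≤
      (IntermediateField.adjoin k {t 1}).toSubalgebra := by
    rw [Algebra.adjoin_le_iff, Set.singleton_subset_iff]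
    have h1 : t 1 ∈ IntermediateField.adjoin k {t 1} := IntermediateField.mem_adjoin_simple_self k (t 1)
    have h2 : algebraMap k Ω c' ∈ IntermediateField.adjoin k {t 1} :=
      IntermediateField.algebraMap_mem _ c'
    exact mul_mem h2 (zpow_mem h1 n')
  refine Transcendental.of_tower_top_of_subalgebra_le hle ?_
  intro h
  have h3 : IsAlgebraic (IntermediateField.adjoin k {t 1}) (algebraMap k Ω c * t 0 ^ n) := h
  apply BG4b_field ht (i := 0) (j := 1) (by decide)
  have hc0 : algebraMap k (IntermediateField.adjoin k {t 1}) c ≠ 0 := by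
    intro h
    exact hc ((algebraMap k (IntermediateField.adjoin k {t 1})).injective (by rw [h, map_zero]))
  rw [IsScalarTower.algebraMap_apply k (IntermediateField.adjoin k {t 1}) Ω] at h3
  exact BG4b_pow hc0 hn h3

theorem trans_pow {k Ω : Type} [Field k] [Field Ω] [Algebra k Ω] {t : Fin 2 → Ω}
    (ht : AlgebraicIndependent k t) (c : k) (hc : c ≠ 0) (n n' : ℤ) (h : n ≠ 0 ∨ n' ≠ 0) :
    Transcendental k (algebraMap k Ω c * t 0 ^ n * t 1 ^ n') := by
  rcases h with h | h
  · exact BG4b_tr ht (i := 0) (j := 1) (by decide) hc n' h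
  · have h1 := BG4b_tr ht (i := 1) (j := 0) (by decide) hc n h
    have e : algebraMap k Ω c * t 0 ^ n * t 1 ^ n' = algebraMap k Ω c * t 1 ^ n' * t 0 ^ n := by ring
    rw [e]
    exact h1

end Pool.Agent.LibTC2
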