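import Pool.Agent.LibTC2.P2
import Pool.Agent.LibPC60.A3

/-!
[TC1 P3] (MEDIUM) Values of `K`-points at places: existence.

Let `σ = zs z ∈ C`, `n i = v.ord (z i)` for `i ∉ σ`, `n i = 0` for `i ∈ σ`. `star` (P1) for `σ` and `w = ∑ n i v i` gives `m` with
`m i ≥ 0` outside of `σ`, `σ ∪ su m ∈ C`, the same sum; `b = m - n ∈ Rel P`. Let `π` be a uniformizer (`v.exists_uniformizer`),
`l i = π ^ b i` (`isT_rel`). Then `l i * z i` has order `m i ≥ 0` for `i ∉ σ` and is `0` for `i ∈ σ`; so it is regular and has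
a value `p i ∈ k` (`Pool.Agent.LibEnd77.Val8.exists_val hK v`), and `p i = 0` only if
`i ∈ σ` or `m i > 0`: `zs p ⊆ σ ∪ su m`, in `C` by `down`.
exists_sp: `z = u.z`; `aeval p F = 0`: `aeval (l u) F = 0` (`aeval_scale`), and the value of `aeval (l u) F` is `aeval p F`
(`Pool.Agent.LibPC60.zer_aeval`), then `Place.zer_const_iff`.
-/

open scoped Classical
open MvPolynomial

set_option linter.unusedSectionVars false

namespace Pool.Agent.LibTC2

open Pool.Agent.LibBH2 Pool.Agent.LibQC8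

variable {ι : Type} [Fintype ι] {r : ℕ} {k : Type} [Field k] [IsAlgClosed k] {P : Tor ι r}
  {K : Type} [Field K] [Algebra k K]

theorem exists_sp' (hK : IsFunctionField k K) (v : Place k K) (z : ι → K) (hz : zs z ∈ P.C) :
    ∃ (p : ι → k) (l : ι → K), zs p ∈ P.C ∧ IsT P l ∧
      ∀ i, v.Zer (l i * z i - algebraMap k K (p i)) := by
  obtain ⟨t, ht⟩ := v.exists_uniformizer
  have ht0 : t ≠ 0 := by
    intro h
    rw [h, v.ord_zero] at ht
    exact absurd ht (by norm_num)
  have hmem : ∀ i, i ∈ zs z ↔ z i = 0 := fun i => by simp [zs]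
  obtain ⟨m, hm1, hm2, hm3⟩ := star P (zs z) hz
    (fun j => ∑ i, (if i ∈ zs z then (0 : ℤ) else v.ord (z i)) * P.v i j)
  have hrel : (fun i => m i - (if i ∈ zs z then (0 : ℤ) else v.ord (z i))) ∈ Rel P := by
    intro j
    have h := hm3 j
    simp only [sub_mul, Finset.sum_sub_distrib]
    rw [h, sub_self]
  have hT := isT_rel (P := P) (K := K) hrel ht0
  have hord : ∀ i, i ∉ zs z →
      v.ord (t ^ (m i - (if i ∈ zs z then (0 : ℤ) else v.ord (z i))) * z i) = m i := by
    intro i hi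
    have hzi : z i ≠ 0 := fun h => hi ((hmem i).2 h)
    rw [v.ord_mul _ _ (zpow_ne_zero _ ht0) hzi, v.ord_zpow, ht, if_neg hi]
    ring
  have hreg : ∀ i, v.Reg
      (t ^ (m i - (if i ∈ zs z then (0 : ℤ) else v.ord (z i))) * z i) := by
    intro i
    by_cases hi : i ∈ zs z
    · left
      rw [(hmem i).1 hi, mul_zero]
    · right
      rw [hord i hi]
      exact hm1 i hi
  choose p hp using fun i => Pool.Agent.LibEnd77.Val8.exists_val hK v (hreg i)
  refine ⟨p, _, ?_, hT, hp⟩
  refine P.down _ hm2 _ ?_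
  intro i hi
  have hpi : p i = 0 := by simpa [zs] using hi
  rw [Finset.mem_union]
  by_cases hiz : i ∈ zs z
  · exact Or.inl hiz
  · right
    have h1 := hp i
    rw [hpi, map_zero, sub_zero] at h1
    have hzi : z i ≠ 0 := fun h => hiz ((hmem i).2 h)
    rcases h1 with h1 | h1
    · exact absurd h1 (mul_ne_zero (zpow_ne_zero _ ht0) hzi)
    · rw [hord i hiz] at h1
      simp only [su, Finset.mem_filter, Finset.mem_univ, true_and]
      omega

theorem exists_sp (X : Hyp k P) (hK : IsFunctionField k K) (v : Place k K) (u : Pt X K) :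
    ∃ p l, Sp v u p l := by
  obtain ⟨p, l, hp, hl, hv⟩ := exists_sp' (P := P) hK v u.z u.cone
  have h1 : aeval (fun i => l i * u.z i) X.F = 0 := by
    rw [aeval_scale X hl, u.hF, mul_zero]
  have h2 := Pool.Agent.LibPC60.zer_aeval v (fun i => l i * u.z i) p hv X.F
  rw [h1, zero_sub] at h2
  have h3 : v.Zer (algebraMap k K (aeval p X.F)) := by simpa using h2.neg
  exact ⟨⟨p, hp, (v.zer_const_iff _).1 h3⟩, l, hl, hv⟩

end Pool.Agent.LibTC2
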