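import Pool.Agent.LibTC2.P2

/-!
[TC1 P4] (MEDIUM) Values of `K`-points at places: uniqueness.

Let `σ = zs z`, `m i = v.ord (l i * z i)` for `i ∉ σ` (`≥ 0`, as it has a value), `0` on `σ`; `m'` the same with `l'`. `zs p`
contains `σ` and the `i ∉ σ` with `m i > 0`, so `σ ∪ su m ⊆ zs p`, in `C`; the same for `m'`, `p'`. By `ord_rel`
`e i = v.ord (l' i) - v.ord (l i)` is in `Rel P`, `e i = m' i - m i` for `i ∉ σ`. Apply `star_uniq` (for `σ`) to
`x i = m' i` and `x' i = m i` for `i ∉ σ`, `x i = 0`, `x' i = -e i` for `i ∈ σ`: the same sum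
(`∑ (x - x') i v i = ∑ e i v i = 0`), `σ ∪ su x ⊆ zs p'`, `σ ∪ su x' ⊆ σ ∪ zs p = zs p`. So `e = 0`: the orders of `l` and
`l'` agree. `μ i = l' i / l i` is a unit (order 0) with value `c i ≠ 0` (`exists_val` of LibEnd77/ValC.lean, needs `hK`), `IsT P c` (`isT_val`, `isT_mul`,
`isT_inv`), and `l' i z i = μ i (l i z i)` has the value `c i p i`: `p' i = c i * p i` (`Place.val_unique`).
sp_unique: `Quot.sound`.
-/

open scoped Classical
open MvPolynomial

set_option linter.unusedSectionVars false

namespace Pool.Agent.LibTC2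

open Pool.Agent.LibBH2 Pool.Agent.LibQC8

variable {ι : Type} [Fintype ι] {r : ℕ} {k : Type} [Field k] [IsAlgClosed k] {P : Tor ι r}
  {K : Type} [Field K] [Algebra k K]

theorem val_unique' (hK : IsFunctionField k K) (v : Place k K) (z : ι → K) {p p' : ι → k}
    {l l' : ι → K} (hp : zs p ∈ P.C) (hp' : zs p' ∈ P.C) (hl : IsT P l) (hl' : IsT P l')
    (h : ∀ i, v.Zer (l i * z i - algebraMap k K (p i)))
    (h' : ∀ i, v.Zer (l' i * z i - algebraMap k K (p' i))) :
    (∀ i, v.ord (l i) = v.ord (l' i)) ∧ ∃ c : ι → k, IsT P c ∧ ∀ i, p' i = c i * p i := by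
  have hl0 : ∀ i, l i ≠ 0 := hl.1
  have hl0' : ∀ i, l' i ≠ 0 := hl'.1
  -- the zero set of `z` is contained in the zero sets of `p`, `p'`
  have zp : ∀ i, z i = 0 → p i = 0 := fun i hi => by
    have h1 := h i
    rw [hi, mul_zero, zero_sub] at h1
    have h2 := Place.Zer.neg h1
    rw [neg_neg] at h2
    exact (Place.zer_const_iff v (p i)).1 h2
  have zp' : ∀ i, z i = 0 → p' i = 0 := fun i hi => by
    have h1 := h' i
    rw [hi, mul_zero, zero_sub] at h1
    have h2 := Place.Zer.neg h1
    rw [neg_neg] at h2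
    exact (Place.zer_const_iff v (p' i)).1 h2
  set x : ι → ℤ := fun i => if z i = 0 then 0 else v.ord (l' i * z i) with hx
  set x' : ι → ℤ := fun i => if z i = 0 then -(v.ord (l' i) - v.ord (l i)) else
    v.ord (l i * z i) with hx'
  have hd : ∀ i, x i - x' i = v.ord (l' i) - v.ord (l i) := fun i => by
    rw [hx, hx']
    by_cases hz : z i = 0
    · simp [hz]
    · simp only [hz, if_false]
      rw [v.ord_mul _ _ (hl0' i) hz, v.ord_mul _ _ (hl0 i) hz]
      ring
  have e0 : x = x' := by
    apply star_uniq P (zs z)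
    · intro i hi
      have hz : z i ≠ 0 := fun h0 => hi (by simp [zs, h0])
      rw [hx]
      simp only [hz, if_false]
      rcases Place.reg_of_val (h' i) with h1 | h1
      · exact absurd h1 (mul_ne_zero (hl0' i) hz)
      · exact h1
    · intro i hi
      have hz : z i ≠ 0 := fun h0 => hi (by simp [zs, h0])
      rw [hx']
      simp only [hz, if_false]
      rcases Place.reg_of_val (h i) with h1 | h1
      · exact absurd h1 (mul_ne_zero (hl0 i) hz)
      · exact h1
    · refine P.down _ hp' _ ?_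
      intro i hi
      simp only [Finset.mem_union, zs, su, Finset.mem_filter, Finset.mem_univ, true_and] at hi ⊢
      rcases hi with hi | hi
      · exact zp' i hi
      · by_cases hz : z i = 0
        · exact zp' i hz
        · by_contra hne
          exact hi (by rw [hx]; simp only [hz, if_false]; exact Place.ord_eq_zero_of_val (h' i) hne)
    · refine P.down _ hp _ ?_
      intro i hi
      simp only [Finset.mem_union, zs, su, Finset.mem_filter, Finset.mem_univ, true_and] at hi ⊢
      rcases hi with hi | hi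
      · exact zp i hi
      · by_cases hz : z i = 0
        · exact zp i hz
        · by_contra hne
          exact hi (by rw [hx']; simp only [hz, if_false]; exact Place.ord_eq_zero_of_val (h i) hne)
    · intro j
      have h1 : (∑ i, v.ord (l' i) * P.v i j) = 0 := ord_rel v hl' j
      have h2 : (∑ i, v.ord (l i) * P.v i j) = 0 := ord_rel v hl j
      have h3 : ∑ i, x i * P.v i j - ∑ i, x' i * P.v i j = 0 := by
        rw [← Finset.sum_sub_distrib]
        calc ∑ i, (x i * P.v i j - x' i * P.v i j)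
            = ∑ i, (v.ord (l' i) * P.v i j - v.ord (l i) * P.v i j) :=
              Finset.sum_congr rfl fun i _ => by rw [← sub_mul, hd i, sub_mul]
          _ = 0 := by rw [Finset.sum_sub_distrib, h1, h2, sub_zero]
      exact sub_eq_zero.1 h3
  have ho : ∀ i, v.ord (l i) = v.ord (l' i) := fun i => by
    have h1 := hd i
    rw [e0, sub_self] at h1
    linarith
  refine ⟨ho, ?_⟩
  -- the quotients have values
  have hm : ∀ i, ∃ c : k, c ≠ 0 ∧ v.Zer (l' i * (l i)⁻¹ - algebraMap k K c) := fun i => by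
    have hne : l' i * (l i)⁻¹ ≠ 0 := mul_ne_zero (hl0' i) (inv_ne_zero (hl0 i))
    have hord : v.ord (l' i * (l i)⁻¹) = 0 := by
      rw [v.ord_mul _ _ (hl0' i) (inv_ne_zero (hl0 i)), v.ord_inv, ho i]
      ring
    have hreg : v.Reg (l' i * (l i)⁻¹) := Or.inr (by rw [hord])
    obtain ⟨c, hc⟩ := Pool.Agent.LibEnd77.Val8.exists_val hK v hreg
    refine ⟨c, ?_, hc⟩
    rintro rfl
    rw [map_zero, sub_zero] at hc
    rcases hc with hc | hc
    · exact hne hc
    · rw [hord] at hc
      exact lt_irrefl _ hc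
  choose c hc0 hc using hm
  refine ⟨c, isT_val v (isT_mul hl' (isT_inv hl)) c hc0 hc, fun i => ?_⟩
  have h1 := Place.val_mul (hc i) (h i)
  have h2 : l' i * (l i)⁻¹ * (l i * z i) = l' i * z i := by
    have := hl0 i
    field_simp
  rw [h2] at h1
  exact Place.val_unique (h' i) h1

theorem sp_unique (X : Hyp k P) (hK : IsFunctionField k K) (v : Place k K) (u : Pt X K)
    {p p' : Pt X k} {l l' : ι → K} (h : Sp v u p l) (h' : Sp v u p' l') :
    pt p = pt p' ∧ ∀ i, v.ord (l i) = v.ord (l' i) := by
  obtain ⟨h1, c, h2, h3⟩ := val_unique' hK v u.z p.cone p'.cone h.tor h'.tor h.val h'.val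
  refine ⟨?_, h1⟩
  unfold pt
  rw [Quot.sound (r := Eqv X) (a := p) (b := p') ⟨c, h2, h3⟩]

end Pool.Agent.LibTC2
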