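import Pool.Agent.LibTC2.HDefs
import Pool.Agent.LibTC2.P3
import Pool.Agent.LibTC2.P4

/-!
[TC1 P5] (SHORT/MEDIUM) The orders of the local scalings vanish at almost all places; degrees of curves.

finite_ord: compare LibPC60/B6.lean. The set of the places `v` at which some nonzero coordinate `u.z i` has `v.ord ≠ 0` is finite
(`(Pool.Agent.LibEnd77.Val8.sum_formula hK _).1`, finite union over `i`). Outside of it all coordinates are regular, with values `p' i`
(`Pool.Agent.LibEnd77.Val8.exists_val hK v`), nonzero if `u.z i ≠ 0` (order 0: not `Zer`), so `zs p' = zs u.z ∈ C`, and `Sp v u p' 1`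
for the point `p'` (equation: `zer_aeval` as in P3; or avoid it: use `val_unique'` for `u.z`, with `l' = 1`). By
`val_unique'` `v.ord (l v i) = v.ord 1 = 0`.
exists_hasDeg: `choose` by `exists_sp`, `A` = the finite union over `i` of the finite sets.
hasDeg_eq: both sums are sums over the union of the two finite sets (`Finset.sum_subset`) of `v.ord (l v i) = v.ord (l' v i)` (`sp_unique`).
-/

open scoped Classical
open MvPolynomial

set_option linter.unusedSectionVars false

namespace Pool.Agent.LibTC2

open Pool.Agent.LibBH2 Pool.Agent.LibQC8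

variable {ι : Type} [Fintype ι] {r : ℕ} {k : Type} [Field k] [IsAlgClosed k] {P : Tor ι r}
  {K : Type} [Field K] [Algebra k K]

theorem finite_ord (X : Hyp k P) (hK : IsFunctionField k K) (u : Pt X K)
    (p : Place k K → Pt X k) (l : Place k K → ι → K) (h : ∀ v, Sp v u (p v) (l v)) (i : ι) :
    {v : Place k K | v.ord (l v i) ≠ 0}.Finite := by
  have hfin : Set.Finite (⋃ i : ι, {v : Place k K | v.ord (u.z i) ≠ 0}) :=
    Set.finite_iUnion fun i => (Pool.Agent.LibEnd77.Val8.sum_formula hK (u.z i)).1
  refine hfin.subset fun v hv => ?_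
  by_contra hnot
  rw [Set.mem_iUnion] at hnot
  push Not at hnot
  have h0 : ∀ i, v.ord (u.z i) = 0 := by
    intro i
    by_contra h1
    exact hnot i h1
  have hreg : ∀ i, v.Reg (u.z i) := fun i => Or.inr (h0 i).ge
  choose p' hp' using fun i => Pool.Agent.LibEnd77.Val8.exists_val hK v (hreg i)
  have hzs : zs p' = zs u.z := by
    ext j
    simp only [zs, Finset.mem_filter, Finset.mem_univ, true_and]
    constructor
    · intro hj
      by_contra hne
      have h1 := hp' j
      rw [hj, map_zero, sub_zero] at h1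
      rcases h1 with h1 | h1
      · exact hne h1
      · rw [h0 j] at h1
        exact lt_irrefl _ h1
    · intro hj
      have h1 := hp' j
      rw [hj, zero_sub] at h1
      have h2 : v.Zer (algebraMap k K (p' j)) := by
        have := h1.neg
        rwa [neg_neg] at this
      exact (v.zer_const_iff _).1 h2
  have hval : ∀ j, v.Zer ((fun _ : ι => (1 : K)) j * u.z j - algebraMap k K (p' j)) := by
    intro j
    rw [one_mul]
    exact hp' j
  have key := val_unique' hK v u.z (p v).cone (hzs ▸ u.cone) (h v).tor isT_one (h v).val hval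
  refine hv ?_
  show v.ord (l v i) = 0
  rw [key.1 i]
  exact v.ord_one

theorem exists_hasDeg (X : Hyp k P) (hK : IsFunctionField k K) (u : Pt X K) :
    ∃ D, HasDeg u D := by
  choose p l h using fun v : Place k K => exists_sp X hK v u
  have hfin : Set.Finite (⋃ i : ι, {v : Place k K | v.ord (l v i) ≠ 0}) :=
    Set.finite_iUnion fun i => finite_ord X hK u p l h i
  refine ⟨fun i => ∑ v ∈ hfin.toFinset, v.ord (l v i), hfin.toFinset, p, l, h, ?_, fun i => rfl⟩
  intro v hv i
  by_contra hne
  exact hv (hfin.mem_toFinset.2 (Set.mem_iUnion.2 ⟨i, hne⟩))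

theorem hasDeg_eq (X : Hyp k P) (hK : IsFunctionField k K) (u : Pt X K) {D : ι → ℤ}
    (hD : HasDeg u D) (p : Place k K → Pt X k) (l : Place k K → ι → K)
    (h : ∀ v, Sp v u (p v) (l v)) (A : Finset (Place k K))
    (hA : ∀ v, v ∉ A → ∀ i, v.ord (l v i) = 0) (i : ι) : D i = ∑ v ∈ A, v.ord (l v i) := by
  obtain ⟨B, p', l', h', hB, hDB⟩ := hD
  have he : ∀ v : Place k K, v.ord (l' v i) = v.ord (l v i) := fun v =>
    (sp_unique X hK v u (h' v) (h v)).2 i
  rw [hDB i]
  have h1 : ∑ v ∈ B, v.ord (l' v i) = ∑ v ∈ A ∪ B, v.ord (l' v i) :=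
    Finset.sum_subset Finset.subset_union_right fun v _ hv => hB v hv i
  have h2 : ∑ v ∈ A, v.ord (l v i) = ∑ v ∈ A ∪ B, v.ord (l v i) :=
    Finset.sum_subset Finset.subset_union_left fun v _ hv => hA v hv i
  rw [h1, h2]
  exact Finset.sum_congr rfl fun v _ => he v

end Pool.Agent.LibTC2
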