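import Pool.Agent.LibTC2.BG0

/-!
[TC1 BG6] the algebraic closure `kc k c` of `k(c)` in an algebraically closed field `Ω` of transcendence degree two. Plan. `kc_closed`: Mathlib has `IsAlgClosed (algebraicClosure F E)` for `E` algebraically closed (`algebraicClosure.isAlgClosure`
or similar); `kc` has the same elements. `kc_alg`: every element of `kc` is algebraic over `k(c)`; `k(c)` computed inside `kc` is `IntermediateField.adjoin k {⟨c, _⟩}`, mapped onto `adjoin k {c}` by the inclusion.
-/

open scoped Classical
open MvPolynomial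

set_option linter.unusedSectionVars false

namespace Pool.Agent.LibTC2

open Pool.Agent.LibBH2 Pool.Agent.LibQC8

variable {ι : Type} [Fintype ι] {r : ℕ} {k : Type} [Field k] {P : Tor ι r}

theorem mem_kc {Ω : Type} [Field Ω] [Algebra k Ω] (c : Ω) : c ∈ kc k c := by
  unfold kc
  rw [IntermediateField.mem_restrictScalars, mem_algebraicClosure_iff']
  have h : c = algebraMap (IntermediateField.adjoin k {c}) Ω ⟨c, IntermediateField.mem_adjoin_simple_self k c⟩ := rfl
  rw [h]
  exact isIntegral_algebraMap

theorem kc_closed {Ω : Type} [Field Ω] [IsAlgClosed Ω] [Algebra k Ω] (c : Ω) :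
    IsAlgClosed (kc k c) := by
  have h : IsAlgClosed (algebraicClosure (IntermediateField.adjoin k {c}) Ω) :=
    (algebraicClosure.isAlgClosure (IntermediateField.adjoin k {c}) Ω).isAlgClosed
  exact h

theorem kc_alg {Ω : Type} [Field Ω] [Algebra k Ω] (c : Ω) :
    Algebra.IsAlgebraic (IntermediateField.adjoin k {(⟨c, mem_kc c⟩ : kc k c)}) (kc k c) := by
  have hmap : (IntermediateField.adjoin k {(⟨c, mem_kc c⟩ : kc k c)}).map (kc k c).val =
      IntermediateField.adjoin k {c} := by
    rw [IntermediateField.adjoin_map, Set.image_singleton]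
    rfl
  constructor
  intro a
  have ha : IsAlgebraic (IntermediateField.adjoin k {c}) (a : Ω) := by
    have h1 := a.2
    unfold kc at h1
    rw [IntermediateField.mem_restrictScalars, mem_algebraicClosure_iff] at h1
    exact h1
  let f : (IntermediateField.adjoin k {(⟨c, mem_kc c⟩ : kc k c)}) →+*
      (IntermediateField.adjoin k {c}) :=
    ((kc k c).val.toRingHom.comp
      (algebraMap (IntermediateField.adjoin k {(⟨c, mem_kc c⟩ : kc k c)}) (kc k c))).codRestrict
      (IntermediateField.adjoin k {c}) (by
        intro x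
        have : (kc k c).val (x : kc k c) ∈
            (IntermediateField.adjoin k {(⟨c, mem_kc c⟩ : kc k c)}).map (kc k c).val :=
          ⟨(x : kc k c), x.2, rfl⟩
        rw [hmap] at this
        exact this)
  have hf : Function.Surjective f := by
    intro s
    have hs : (s : Ω) ∈ (IntermediateField.adjoin k {(⟨c, mem_kc c⟩ : kc k c)}).map (kc k c).val :=
      hmap.symm ▸ s.2
    obtain ⟨x, hx, hxs⟩ := hs
    refine ⟨⟨x, hx⟩, ?_⟩
    apply Subtype.ext
    exact hxs
  exact IsAlgebraic.of_ringHom_of_comp_eq f ((kc k c).val.toRingHom) (a := a) ha hf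
    (fun x y hxy => Subtype.ext hxy) (by
      ext x
      rfl)

end Pool.Agent.LibTC2
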