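import Pool.Agent.LibTC2.BG6

/-!
[TC1 BG6b] the algebraic closure `kc k c` of `k(c)` in an algebraically closed field `Ω` of transcendence degree two. Plan. `kc_trans`: `Algebra.trdeg k (kc k c) = 1` (`c` is a transcendence basis by `kc_alg`), `trdeg k kc + trdeg kc Ω = trdeg k Ω` (`YY`) gives `trdeg kc Ω = 1`. If both `s j` were algebraic over `kc`, they would be in `kc`
(algebraically closed in `Ω`), so `trdeg k kc ≥ 2`. For `s j` transcendental over `kc`: `{s j}` is a transcendence basis of `Ω` over `kc` (algebraically independent of cardinality `trdeg`, finite), so `Ω` is algebraic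
over `kc(s j)`.
-/

open scoped Classical
open MvPolynomial

set_option linter.unusedSectionVars false

namespace Pool.Agent.LibTC2

open Pool.Agent.LibBH2 Pool.Agent.LibQC8

variable {ι : Type} [Fintype ι] {r : ℕ} {k : Type} [Field k] {P : Tor ι r}

private theorem bg6b_mem {Ω : Type} [Field Ω] [IsAlgClosed Ω] [Algebra k Ω] (c x : Ω)
    (hx : ¬ Transcendental (kc k c) x) : x ∈ kc k c := by
  haveI := kc_closed (k := k) c
  have hx' : IsAlgebraic (kc k c) x := by
    by_contra h
    exact hx h
  have h1 : IsIntegral (kc k c) x := hx'.isIntegral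
  have h2 := IsAlgClosed.degree_eq_one_of_irreducible (kc k c) (minpoly.irreducible h1)
  obtain ⟨y, hy⟩ := minpoly.mem_range_of_degree_eq_one (kc k c) x h2
  rw [← hy]
  exact y.2

open scoped IntermediateField.algebraAdjoinAdjoin in
private theorem bg6b_le {Ω : Type} [Field Ω] [IsAlgClosed Ω] [Algebra k Ω] (c : Ω) :
    Algebra.trdeg k (kc k c) ≤ 1 := by
  have h1 := kc_alg (k := k) c
  have h2 : Algebra.IsAlgebraic (Algebra.adjoin k {(⟨c, mem_kc c⟩ : kc k c)}) (kc k c) := by
    exact Algebra.IsAlgebraic.trans (Algebra.adjoin k {(⟨c, mem_kc c⟩ : kc k c)})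
      (IntermediateField.adjoin k {(⟨c, mem_kc c⟩ : kc k c)}) (kc k c)
  refine (Algebra.IsAlgebraic.trdeg_le_cardinalMk k ({(⟨c, mem_kc c⟩ : kc k c)} : Set (kc k c))).trans ?_
  simp

theorem kc_trans {Ω : Type} [Field Ω] [IsAlgClosed Ω] [Algebra k Ω] (htr : Algebra.trdeg k Ω = 2)
    (c : Ω) (hc : Transcendental k c) (s : Fin 2 → Ω) (hs : AlgebraicIndependent k s) :
    ∃ j, Transcendental (kc k c) (s j) ∧
      Algebra.IsAlgebraic (IntermediateField.adjoin (kc k c) {s j}) Ω := by
  have hle := bg6b_le (k := k) c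
  have hge : 1 ≤ Algebra.trdeg k (kc k c) := by
    have h1 : Algebra.Transcendental k (kc k c) := by
      refine ⟨⟨⟨c, mem_kc c⟩, ?_⟩⟩
      intro h
      apply hc
      exact (isAlgebraic_algebraMap_iff (A := Ω) (algebraMap (kc k c) Ω).injective).2 h
    exact Cardinal.one_le_iff_ne_zero.2 (trdeg_ne_zero_iff.2 h1)
  have hsum : Algebra.trdeg k (kc k c) + Algebra.trdeg (kc k c) Ω = 2 := by
    rw [← htr]
    exact _root_.trdeg_add_eq k (kc k c)
  have hone : Algebra.trdeg k (kc k c) = 1 := le_antisymm hle hge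
  have hΩ : Algebra.trdeg (kc k c) Ω ≤ 1 := by
    rw [hone] at hsum
    have h1 : Algebra.trdeg (kc k c) Ω < Cardinal.aleph0 := by
      refine lt_of_le_of_lt (self_le_add_left _ _ : _ ≤ 1 + Algebra.trdeg (kc k c) Ω) ?_
      rw [hsum]
      exact Cardinal.natCast_lt_aleph0 (n := 2)
    obtain ⟨n, hn⟩ := Cardinal.lt_aleph0.1 h1
    rw [hn] at hsum ⊢
    have h2 : 1 + n = 2 := by exact_mod_cast hsum
    have h3 : n = 1 := by omega
    rw [h3]
    simp
  obtain ⟨j, hj⟩ : ∃ j, Transcendental (kc k c) (s j) := by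
    by_contra hcon
    push Not at hcon
    have hmem : ∀ j, s j ∈ kc k c := fun j => bg6b_mem c (s j) (hcon j)
    have h1 : AlgebraicIndependent k (fun j => (⟨s j, hmem j⟩ : kc k c)) := by
      have h2 : AlgebraicIndependent k ((IsScalarTower.toAlgHom k (kc k c) Ω) ∘
        (fun j => (⟨s j, hmem j⟩ : kc k c))) := hs
      exact AlgebraicIndependent.of_comp _ h2
    have h2 := h1.cardinalMk_le_trdeg
    rw [hone] at h2
    simp at h2
  refine ⟨j, hj, ?_⟩
  have h1 : AlgebraicIndependent (kc k c) (fun _ : Unit => s j) := by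
    rw [algebraicIndependent_unique_type_iff]
    exact hj
  have h2 : IsTranscendenceBasis (kc k c) (fun _ : Unit => s j) :=
    h1.isTranscendenceBasis_of_trdeg_le_of_finite (by simpa using hΩ)
  have h3 := h2.isAlgebraic_field
  have h4 : Set.range (fun _ : Unit => s j) = {s j} := by
    ext x
    simp
  rw [h4] at h3
  exact h3

end Pool.Agent.LibTC2
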