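import Pool.Agent.LibTC2.C4

/-!
[TC1 C14] (MEDIUM) Generic maps of a strictly positive class with a given value at `0`.

Choose `c : ι → k` with `F(c) ≠ 0`, all `c i ≠ 0`, and `(-x i) ^ (b j).toNat * c j ^ (b i).toNat ≠ (-x j) ^ (b i).toNat * c i ^ (b j).toNat` for all `i ≠ j` with
`x i ≠ 0`, `x j ≠ 0`: `k` is infinite, the product of the finitely many nonzero polynomials `F`, `X i`, `C (..) * X j ^ .. - C (..) * X i ^ ..`
(nonzero: two different monomials with nonzero coefficients, the exponents are positive) is nonzero (`MvPolynomial.funext` / `exists_eval_ne_zero`: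
contrapositive of `MvPolynomial.funext`, `IsAlgClosed.instInfinite`). Put `h i = C (c i) * X ^ (b i).toNat + C (x i)`.
Value at `0`: `x` (`0 < b i`). Value at infinity: `c`, all nonzero: `zs = ∅ ∈ C` (`∅ ⊆` any cone: `P.compl 0` gives a cone). Value at `s ≠ 0`: if `h i (s) = 0` then
`x i ≠ 0` and `s ^ (b i).toNat = - x i / c i`; for two such `i ≠ j` raise to the powers `b j`, `b i`: contradiction to the choice of
`c`. So `zs` has at most one element: a cone (`P.single`, `∅`). `x i = 0`: `h i = C (c i) * X ^ (b i).toNat`.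
-/

open scoped Classical
open MvPolynomial

set_option linter.unusedSectionVars false

namespace Pool.Agent.LibTC2

open Pool.Agent.LibBH2 Pool.Agent.LibQC8

variable {ι : Type} [Fintype ι] {r : ℕ} {k : Type} [Field k] [IsAlgClosed k] {P : Tor ι r}
  {K : Type} [Field K] [Algebra k K]

theorem empty_mem (P : Tor ι r) : (∅ : Finset ι) ∈ P.C := by
  obtain ⟨m, hm, _⟩ := P.compl 0
  exact P.down _ hm _ (Finset.empty_subset _)

private noncomputable def C14Q (x : ι → k) (n : ι → ℕ) (i j : ι) : MvPolynomial ι k :=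
  if i ≠ j ∧ x i ≠ 0 ∧ x j ≠ 0 then
    C ((-x i) ^ n j) * X j ^ n i - C ((-x j) ^ n i) * X i ^ n j else 1

private theorem C14Q_ne (x : ι → k) (n : ι → ℕ) (hn : ∀ i, 0 < n i) (i j : ι) :
    C14Q x n i j ≠ 0 := by
  unfold C14Q
  split_ifs with h
  · intro h0
    have h1 := congrArg (MvPolynomial.eval (fun l => if l = j then (1 : k) else 0)) h0
    have h2 : n j ≠ 0 := (hn j).ne'
    simp [h.1, h2, h.2.1] at h1
  · exact one_ne_zero

private theorem C14_exists (F : MvPolynomial ι k) (hF : F ≠ 0) (x : ι → k) (n : ι → ℕ)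
    (hn : ∀ i, 0 < n i) : ∃ c : ι → k, MvPolynomial.eval c F ≠ 0 ∧ (∀ i, c i ≠ 0) ∧
      ∀ i j, i ≠ j → x i ≠ 0 → x j ≠ 0 →
        (-x i) ^ n j * c j ^ n i ≠ (-x j) ^ n i * c i ^ n j := by
  have hG : F * (∏ i, (X i : MvPolynomial ι k)) * ∏ i, ∏ j, C14Q x n i j ≠ 0 := by
    refine mul_ne_zero (mul_ne_zero hF ?_) ?_
    · exact Finset.prod_ne_zero_iff.2 fun i _ => X_ne_zero i
    · exact Finset.prod_ne_zero_iff.2 fun i _ => Finset.prod_ne_zero_iff.2 fun j _ =>
        C14Q_ne x n hn i j
  have hinf : Infinite k := IsAlgClosed.instInfinite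
  have hex : ∃ c : ι → k, MvPolynomial.eval c
      (F * (∏ i, (X i : MvPolynomial ι k)) * ∏ i, ∏ j, C14Q x n i j) ≠ 0 := by
    by_contra hcon
    push Not at hcon
    apply hG
    apply MvPolynomial.funext
    intro c
    rw [hcon c, map_zero]
  obtain ⟨c, hc⟩ := hex
  rw [map_mul, map_mul, map_prod, map_prod] at hc
  have h1 := left_ne_zero_of_mul hc
  have h2 := right_ne_zero_of_mul hc
  have h3 := left_ne_zero_of_mul h1
  have h4 := right_ne_zero_of_mul h1
  refine ⟨c, h3, fun i => ?_, fun i j hij hi hj heq => ?_⟩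
  · have h5 := Finset.prod_ne_zero_iff.1 h4 i (Finset.mem_univ i)
    rwa [eval_X] at h5
  · have h5 := Finset.prod_ne_zero_iff.1 h2 i (Finset.mem_univ i)
    rw [map_prod] at h5
    have h6 := Finset.prod_ne_zero_iff.1 h5 j (Finset.mem_univ j)
    apply h6
    unfold C14Q
    rw [if_pos ⟨hij, hi, hj⟩]
    simp only [map_sub, map_mul, map_pow, eval_C, eval_X]
    rw [heq, sub_self]

theorem exists_gen (X : Hyp k P) {b : ι → ℤ} (hb : b ∈ Rel P) (hpos : ∀ i, 0 < b i)
    (x : ι → k) (hx : zs x ∈ P.C) :
    ∃ h : ι → Polynomial k, IsMap P b h ∧ (∀ i, (h i).coeff 0 = x i) ∧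
      (∀ i, x i = 0 → Polynomial.X ^ (b i).toNat ∣ h i) ∧ aeval (vl b h none) X.F ≠ 0 := by
  have hn : ∀ i, 0 < (b i).toNat := fun i => by
    have := hpos i
    omega
  obtain ⟨c, hcF, hc0, hcp⟩ := C14_exists X.F X.ne x (fun i => (b i).toNat) hn
  set h : ι → Polynomial k := fun i =>
    Polynomial.C (c i) * Polynomial.X ^ (b i).toNat + Polynomial.C (x i) with hh
  have hev : ∀ (s : k) (i : ι), (h i).eval s = c i * s ^ (b i).toNat + x i := by
    intro s i
    simp [hh]
  have hnone : vl b h none = c := by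
    funext i
    have h1 := hn i
    have h2 : ¬ b i < 0 := not_lt.2 (hpos i).le
    simp only [vl, if_neg h2, hh, Polynomial.coeff_add, Polynomial.coeff_C_mul,
      Polynomial.coeff_X_pow, if_true, mul_one]
    rw [Polynomial.coeff_C, if_neg h1.ne', add_zero]
  refine ⟨h, ⟨⟨hb, fun i hi => absurd hi (not_lt.2 (hpos i).le), fun i => ?_⟩, ?_⟩, fun i => ?_,
    fun i hi => ?_, ?_⟩
  · refine (Polynomial.natDegree_add_le _ _).trans (max_le ?_ ?_)
    · exact Polynomial.natDegree_C_mul_X_pow_le _ _
    · rw [Polynomial.natDegree_C]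
      exact Nat.zero_le _
  · intro ζ
    cases ζ with
    | none =>
      rw [hnone]
      have h1 : zs c = ∅ := by
        unfold zs
        rw [Finset.filter_eq_empty_iff]
        intro i _
        exact hc0 i
      rw [h1]
      exact empty_mem P
    | some s =>
      by_cases hs : s = 0
      · have h1 : vl b h (some s) = x := by
          funext i
          show (h i).eval s = x i
          rw [hev, hs, zero_pow (hn i).ne', mul_zero, zero_add]
        rw [h1]
        exact hx
      · have h1 : ∀ i ∈ zs (vl b h (some s)), c i * s ^ (b i).toNat = - x i := by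
          intro i hi
          unfold zs at hi
          have h2 : (h i).eval s = 0 := (Finset.mem_filter.1 hi).2
          rw [hev] at h2
          linear_combination h2
        have h2 : ∀ i ∈ zs (vl b h (some s)), x i ≠ 0 := by
          intro i hi h0
          have h3 := h1 i hi
          rw [h0, neg_zero] at h3
          exact mul_ne_zero (hc0 i) (pow_ne_zero _ hs) h3
        have h3 : ∀ i ∈ zs (vl b h (some s)), ∀ j ∈ zs (vl b h (some s)), i = j := by
          intro i hi j hj
          by_contra hij
          apply hcp i j hij (h2 i hi) (h2 j hj)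
          rw [← h1 i hi, ← h1 j hj]
          simp only [mul_pow, ← pow_mul]
          rw [Nat.mul_comm (b i).toNat (b j).toNat]
          ring
        rcases (zs (vl b h (some s))).eq_empty_or_nonempty with h4 | ⟨i, hi⟩
        · rw [h4]
          exact empty_mem P
        · have h5 : zs (vl b h (some s)) = {i} := by
            ext j
            rw [Finset.mem_singleton]
            exact ⟨fun hj => h3 j hj i hi, fun hj => hj ▸ hi⟩
          rw [h5]
          exact P.single i
  · simp only [hh, Polynomial.coeff_add, Polynomial.coeff_C_mul, Polynomial.coeff_X_pow,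
      Polynomial.coeff_C_zero]
    rw [if_neg (hn i).ne, mul_zero, zero_add]
  · simp only [hh, hi, map_zero, add_zero]
    exact Dvd.intro_left _ rfl
  · rw [hnone]
    have h1 : aeval c X.F = MvPolynomial.eval c X.F := by
      rw [aeval_def, Algebra.algebraMap_self, ← MvPolynomial.eval₂_id]
    rw [h1]
    exact hcF

end Pool.Agent.LibTC2
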