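import Pool.Agent.LibTC2.C13
import Pool.Agent.LibTC2.C14
import Pool.Agent.LibTC2.C15

/-!
[TC1 C16] (MEDIUM) The homomorphism `φ`.

Fix a vector `x` with `zs x = ∅`, `F(x) ≠ 0` (for instance the value at infinity of a map from `exists_gen`; or `F * ∏ X i ≠ 0` has a nonvanishing point).
indep: `b` strictly positive, `g`, `g'` maps of class `b` with `cmp ≠ 0`: both have the class `cl (fcyc X b h)`, `h` from `exists_gen` for `x`: `glue` with the class `0` and
the constant map `f i = C (x i)` (`IsMap P 0 f`, `fcyc X 0 f = 0`: `cmp X f` is the constant `F(x) ≠ 0`), data `GD P 0 b f h g` (rewrite `0 + b = b`),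
`vl 0 f none = x`.
phi0: `S` = the strictly positive classes in `Rel P`, `b0` from `exists_b0`, `φ0 b` = the class of any map of class `b` with `cmp ≠ 0` (exists by
`exists_gen`: `cmp_coeff` shows `cmp ≠ 0`). Additivity: `f` of class `b` from `exists_gen` for `x`, `F(f(∞)) ≠ 0`; `h` of class `b'` from
`exists_gen` for `vl b f none`; `g` of class `b + b'` from `exists_gen`; `glue`. `extend_hom`.
phi1: choose a strictly positive `b = n b0` with `b i + a i > 0` for all `i`; `h` from `exists_gen` for `b` and `vl a f none` (`hf.cone none`): for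
`a i < 0` `vl a f none i = 0`, so `X ^ (b i).toNat ∣ h i` and `-a i ≤ b i`: `X ^ (-a i).toNat ∣ h i`. `g` of class `a + b` from `exists_gen`.
`glue`: `φ (a + b) = cl (fcyc X a f) + φ b`.
-/

open scoped Classical
open MvPolynomial

set_option linter.unusedSectionVars false

namespace Pool.Agent.LibTC2

open Pool.Agent.LibBH2 Pool.Agent.LibQC8

variable {ι : Type} [Fintype ι] {r : ℕ} {k : Type} [Field k] [IsAlgClosed k] {P : Tor ι r}
  {K : Type} [Field K] [Algebra k K]

private theorem c16_ne (X : Hyp k P) {b : ι → ℤ} {h : ι → Polynomial k} (hm : IsMap P b h)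
    (hF : aeval (vl b h none) X.F ≠ 0) : cmp X h ≠ 0 := by
  intro h0
  apply hF
  rw [← cmp_coeff X hm.toIsQ, h0, Polynomial.coeff_zero]

private theorem c16_zs (P : Tor ι r) (k : Type) [Field k] : zs (fun _ : ι => (1 : k)) ∈ P.C := by
  have h : zs (fun _ : ι => (1 : k)) = ∅ := by
    unfold zs
    simp
  rw [h]
  exact empty_mem P

/-- a point of `P` outside `X` -/
private theorem c16_x (X : Hyp k P) : ∃ x : ι → k, zs x ∈ P.C ∧ aeval x X.F ≠ 0 := by
  obtain ⟨b, hb, hpos⟩ := exists_b0 P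
  obtain ⟨h, hm, _, _, hF⟩ := exists_gen X hb hpos (fun _ => (1 : k)) (c16_zs P k)
  exact ⟨vl b h none, hm.cone none, hF⟩

private theorem c16_vl0 (x : ι → k) (ζ : Option k) :
    vl (0 : ι → ℤ) (fun i => Polynomial.C (x i)) ζ = x := by
  cases ζ with
  | none =>
    funext i
    simp [vl]
  | some s =>
    funext i
    simp [vl]

private theorem c16_const (x : ι → k) (hx : zs x ∈ P.C) :
    IsMap P 0 (fun i => Polynomial.C (x i)) where
  rel := (Rel P).zero_mem
  neg := fun i hi => by simp at hi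
  deg := fun i => by simp
  cone := fun ζ => by rw [c16_vl0]; exact hx

theorem indep (X : Hyp k P) {b : ι → ℤ} (hpos : ∀ i, 0 < b i) {g g' : ι → Polynomial k}
    (hg : IsMap P b g) (hg' : IsMap P b g') (h : cmp X g ≠ 0) (h' : cmp X g' ≠ 0) :
    cl (fcyc X b g) = cl (fcyc X b g') := by
  obtain ⟨x, hx, hFx⟩ := c16_x X
  obtain ⟨e, hm, h0, _, hF⟩ := exists_gen X hg.rel hpos x hx
  have key : ∀ g : ι → Polynomial k, IsMap P b g → cmp X g ≠ 0 →
      cl (fcyc X b g) = cl (fcyc X 0 (fun i => Polynomial.C (x i))) + cl (fcyc X b e) := by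
    intro g hg hcg
    have D : GD P 0 b (fun i => Polynomial.C (x i)) e g :=
      { mf := c16_const x hx
        mh := hm
        mg := by rw [zero_add]; exact hg
        b0 := fun i => (hpos i).le
        h0 := fun i => by rw [c16_vl0]; exact h0 i
        dvd := fun i hi => by simp at hi }
    have := glue X D hcg (c16_ne X hm hF) (Or.inl (by rw [c16_vl0]; exact hFx))
    rwa [zero_add] at this
  rw [key g hg h, key g' hg' h']

private theorem c16_big (b0 : ι → ℤ) (hpos : ∀ i, 0 < b0 i) (a : ι → ℤ) :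
    ∃ n : ℕ, 1 ≤ n ∧ ∀ m, n ≤ m → ∀ i, 0 < a i + (m : ℤ) * b0 i := by
  refine ⟨1 + ∑ i, (a i).natAbs, Nat.le_add_right _ _, fun m hm i => ?_⟩
  have h1 : (a i).natAbs ≤ ∑ i, (a i).natAbs :=
    Finset.single_le_sum (f := fun i => (a i).natAbs) (fun _ _ => Nat.zero_le _)
      (Finset.mem_univ i)
  have h2 : (m : ℤ) ≤ (m : ℤ) * b0 i := by
    have := hpos i
    nlinarith [Int.natCast_nonneg m]
  have h3 : (1 + (a i).natAbs : ℕ) ≤ m := by omega
  omega

theorem phi0 (X : Hyp k P) : ∃ φ : Rel P →+ CH X, ∀ b f (hf : IsMap P b f), (∀ i, 0 < b i) →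
    cmp X f ≠ 0 → φ ⟨b, hf.rel⟩ = cl (fcyc X b f) := by
  obtain ⟨x, hx, hFx⟩ := c16_x X
  obtain ⟨b0, hb0, hpos0⟩ := exists_b0 P
  let φ0 : Rel P → CH X := fun b =>
    if h : ∃ f : ι → Polynomial k, IsMap P b.1 f ∧ cmp X f ≠ 0 then
      cl (fcyc X b.1 h.choose) else 0
  have hφ0 : ∀ b f (hf : IsMap P b f), (∀ i, 0 < b i) → cmp X f ≠ 0 →
      φ0 ⟨b, hf.rel⟩ = cl (fcyc X b f) := by
    intro b f hf hpos hc
    have hex : ∃ f : ι → Polynomial k, IsMap P b f ∧ cmp X f ≠ 0 := ⟨f, hf, hc⟩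
    have h1 : φ0 ⟨b, hf.rel⟩ = cl (fcyc X b hex.choose) := dif_pos hex
    rw [h1]
    exact indep X hpos hex.choose_spec.1 hf hex.choose_spec.2 hc
  obtain ⟨φ, hφ⟩ := extend_hom (G := Rel P) (A := CH X) {a : Rel P | ∀ i, 0 < a.1 i}
    (by
      intro a ha b hb i
      have h1 : 0 < a.1 i := ha i
      have h2 : 0 < b.1 i := hb i
      have h3 : (a + b).1 i = a.1 i + b.1 i := rfl
      rw [h3]
      omega) ⟨b0, hb0⟩ hpos0
    (by
      intro a
      obtain ⟨n, _, hn⟩ := c16_big b0 hpos0 a.1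
      refine ⟨n, fun m hm i => ?_⟩
      have h3 : (a + m • (⟨b0, hb0⟩ : Rel P)).1 i = a.1 i + (m : ℤ) * b0 i := by
        simp
      rw [h3]
      exact hn m hm i) φ0
    (by
      intro a ha b hb
      obtain ⟨f, hmf, _, _, hFf⟩ := exists_gen X a.2 ha x hx
      obtain ⟨e, hme, he0, _, hFe⟩ := exists_gen X b.2 hb (vl a.1 f none) (hmf.cone none)
      have hab : ∀ i, 0 < (a.1 + b.1) i := by
        intro i
        have h1 : 0 < a.1 i := ha i
        have h2 : 0 < b.1 i := hb i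
        have h3 : (a.1 + b.1) i = a.1 i + b.1 i := rfl
        rw [h3]
        omega
      obtain ⟨g, hmg, _, _, hFg⟩ := exists_gen X ((Rel P).add_mem a.2 b.2) hab x hx
      have D : GD P a.1 b.1 f e g :=
        { mf := hmf
          mh := hme
          mg := hmg
          b0 := fun i => (hb i).le
          h0 := he0
          dvd := fun i hi => absurd (ha i) (by omega) }
      have h1 := glue X D (c16_ne X hmg hFg) (c16_ne X hme hFe) (Or.inl hFf)
      have e1 : φ0 (a + b) = cl (fcyc X (a.1 + b.1) g) :=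
        hφ0 (a.1 + b.1) g hmg hab (c16_ne X hmg hFg)
      have e2 : φ0 a = cl (fcyc X a.1 f) := hφ0 a.1 f hmf ha (c16_ne X hmf hFf)
      have e3 : φ0 b = cl (fcyc X b.1 e) := hφ0 b.1 e hme hb (c16_ne X hme hFe)
      rw [e1, e2, e3, h1])
  refine ⟨φ, fun b f hf hpos hc => ?_⟩
  rw [hφ ⟨b, hf.rel⟩ hpos]
  exact hφ0 b f hf hpos hc

theorem phi1 (X : Hyp k P) (φ : Rel P →+ CH X) (hφ : ∀ b f (hf : IsMap P b f),
    (∀ i, 0 < b i) → cmp X f ≠ 0 → φ ⟨b, hf.rel⟩ = cl (fcyc X b f))
    (a : ι → ℤ) (f : ι → Polynomial k) (hf : IsMap P a f)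
    (h : aeval (vl a f none) X.F ≠ 0 ∨ cmp X f = 0) : φ ⟨a, hf.rel⟩ = cl (fcyc X a f) := by
  obtain ⟨x, hx, hFx⟩ := c16_x X
  obtain ⟨b0, hb0, hpos0⟩ := exists_b0 P
  obtain ⟨n, hn1, hn⟩ := c16_big b0 hpos0 a
  have hb : n • b0 ∈ Rel P := (Rel P).nsmul_mem hb0 n
  have hbi : ∀ i, (n • b0) i = (n : ℤ) * b0 i := fun i => by simp
  have hbpos : ∀ i, 0 < (n • b0) i := by
    intro i
    rw [hbi]
    have := hpos0 i
    have h2 : (1 : ℤ) ≤ n := by exact_mod_cast hn1
    positivity
  have habpos : ∀ i, 0 < (a + n • b0) i := by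
    intro i
    have h3 : (a + n • b0) i = a i + (n • b0) i := rfl
    rw [h3, hbi]
    exact hn n le_rfl i
  obtain ⟨e, hme, he0, hed, hFe⟩ := exists_gen X hb hbpos (vl a f none) (hf.cone none)
  obtain ⟨g, hmg, _, _, hFg⟩ := exists_gen X ((Rel P).add_mem hf.rel hb) habpos x hx
  have D : GD P a (n • b0) f e g :=
    { mf := hf
      mh := hme
      mg := hmg
      b0 := fun i => (hbpos i).le
      h0 := he0
      dvd := fun i hi => by
        have h1 : vl a f none i = 0 := by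
          simp only [vl]
          rw [if_pos hi]
        refine dvd_trans (pow_dvd_pow _ ?_) (hed i h1)
        have h2 := habpos i
        have h3 : (a + n • b0) i = a i + (n • b0) i := rfl
        rw [h3] at h2
        omega }
  have h1 := glue X D (c16_ne X hmg hFg) (c16_ne X hme hFe) h
  have e1 := hφ _ g hmg habpos (c16_ne X hmg hFg)
  have e2 := hφ _ e hme hbpos (c16_ne X hme hFe)
  have e3 : (⟨a + n • b0, hmg.rel⟩ : Rel P) = ⟨a, hf.rel⟩ + ⟨n • b0, hme.rel⟩ := rfl
  rw [e3, map_add, e2, h1] at e1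
  exact add_right_cancel e1

end Pool.Agent.LibTC2
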