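import Pool.Agent.LibTC2.DDefs

/-!
Row [TC1 D1] (helper25, typed by helper85). First properties of classes which occur.
-/

open scoped Classical
open MvPolynomial

namespace Pool.Agent.LibTC2

open Pool.Agent.LibBH2 Pool.Agent.LibQC8

variable {ι : Type} [Fintype ι] {r : ℕ} {k : Type} [Field k] {P : Tor ι r}

private theorem D1_dec (z : ℤ) : ((z.toNat : ℕ) : ℤ) - (((-z).toNat : ℕ) : ℤ) = z :=
  Int.toNat_sub_toNat_neg z

private theorem D1_rel {a : ι → ℤ} (ha : a ∈ Rel P) (j : Fin r) :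
    ∑ i, (((a i).toNat : ℕ) : ℤ) * P.v i j = ∑ i, (((-a i).toNat : ℕ) : ℤ) * P.v i j := by
  have h : ∑ i, a i * P.v i j = 0 := ha j
  have h2 : ∑ i, (((a i).toNat : ℕ) : ℤ) * P.v i j - ∑ i, (((-a i).toNat : ℕ) : ℤ) * P.v i j
      = ∑ i, a i * P.v i j := by
    rw [← Finset.sum_sub_distrib]
    refine Finset.sum_congr rfl fun i _ => ?_
    rw [← sub_mul, D1_dec]
  rw [h] at h2
  linarith

private theorem D1_neg {a : ι → ℤ} {x : ι → k} (hx : zs x ∈ P.C) (h : Occ a x) :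
    sp (fun i => (-a i).toNat) ∈ P.C := by
  refine P.down _ hx _ ?_
  intro i hi
  simp only [sp, zs, Finset.mem_filter, Finset.mem_univ, true_and] at hi ⊢
  refine h i ?_
  omega

theorem occ_nef {a : ι → ℤ} {x : ι → k} (ha : a ∈ Rel P) (hx : zs x ∈ P.C) (h : Occ a x) : 0 ≤ dk P a := by
  have h1 := P.nef (fun i => (a i).toNat) (fun i => (-a i).toNat) (D1_neg hx h) (D1_rel ha)
  have h3 : dk P a = ∑ i, (P.g i : ℤ) * (((a i).toNat : ℕ) : ℤ) -
      ∑ i, (P.g i : ℤ) * (((-a i).toNat : ℕ) : ℤ) := by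
    rw [dk, ← Finset.sum_sub_distrib]
    exact Finset.sum_congr rfl fun i _ => by rw [← mul_sub, D1_dec (a i)]
  rw [h3]
  linarith

theorem occ_notC {a : ι → ℤ} {x : ι → k} (ha : a ∈ Rel P) (hx : zs x ∈ P.C) (h : Occ a x) (h0 : a ≠ 0) :
    sp (fun i => (a i).toNat) ∉ P.C := by
  intro hc
  have h1 := P.uniq (fun i => (a i).toNat) (fun i => (-a i).toNat) hc (D1_neg hx h) (D1_rel ha)
  apply h0
  funext i
  have h2 : (a i).toNat = (-a i).toNat := congrFun h1 i
  show a i = 0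
  omega

theorem occ_ample {a : ι → ℤ} {x : ι → k} (ha : a ∈ Rel P) (hx : zs x ∈ P.C) (h : Occ a x) (h0 : a ≠ 0) :
    0 < dH P a := by
  have h1 := P.ample (fun i => (a i).toNat) (fun i => (-a i).toNat) (occ_notC ha hx h h0) (D1_neg hx h)
    (D1_rel ha)
  have h3 : dH P a = ∑ i, P.H i * (((a i).toNat : ℕ) : ℤ) - ∑ i, P.H i * (((-a i).toNat : ℕ) : ℤ) := by
    rw [dH, ← Finset.sum_sub_distrib]
    refine Finset.sum_congr rfl fun i _ => ?_
    rw [← mul_sub, D1_dec]
  rw [h3]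
  linarith

theorem occ_card {a : ι → ℤ} {x : ι → k} (ha : a ∈ Rel P) (hx : zs x ∈ P.C) (h : Occ a x) (h0 : a ≠ 0) :
    2 ≤ ∑ i, (a i).toNat := by
  by_contra hlt
  push_neg at hlt
  apply occ_notC ha hx h h0
  by_cases hz : ∀ i, (a i).toNat = 0
  · refine P.down _ hx _ ?_
    intro i hi
    simp only [sp, Finset.mem_filter, Finset.mem_univ, true_and] at hi
    exact absurd (hz i) hi
  · push_neg at hz
    obtain ⟨i, hi⟩ := hz
    refine P.down _ (P.single i) _ ?_
    intro j hj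
    simp only [sp, Finset.mem_filter, Finset.mem_univ, true_and] at hj
    rw [Finset.mem_singleton]
    by_contra hne
    have h2 : (a j).toNat + (a i).toNat ≤ ∑ i, (a i).toNat := by
      have h3 : ∑ t ∈ ({j, i} : Finset ι), (a t).toNat ≤ ∑ i, (a i).toNat :=
        Finset.sum_le_sum_of_subset (Finset.subset_univ _)
      rwa [Finset.sum_pair hne] at h3
    omega

theorem occ_pos {a : ι → ℤ} {x : ι → k} (ha : a ∈ Rel P) (hx : zs x ∈ P.C) (h : Occ a x) (h0 : a ≠ 0) :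
    ∃ i, 0 < a i ∧ x i ≠ 0 := by
  by_contra hno
  push_neg at hno
  apply occ_notC ha hx h h0
  refine P.down _ hx _ ?_
  intro i hi
  simp only [sp, zs, Finset.mem_filter, Finset.mem_univ, true_and] at hi ⊢
  refine hno i ?_
  omega

end Pool.Agent.LibTC2
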