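import Pool.Agent.LibTC2.DDefs

/-!
Row [TC1 D3a] (helper25).  MEDIUM. PLAN: `L = 1 + C μ * X ≠ 0` (its value at 0 is 1).  `cmp X f = ∑_{e ∈ support F} coeff e • ∏_i f i ^ e i` (`MvPolynomial.aeval_def`,
`eval₂_eq'`, or `aeval_eq_sum`-like lemma; or induct).  It is enough to prove for every `e ∈ X.F.support`:
`∏ f i ^ e i = (∏ f' i ^ e i) * L ^ (dk P b).toNat`.  Raise `h.eq i` to the power `e i` and multiply over `i`:
`(∏ f i ^ e i) * L ^ (∑ (-b i).toNat * e i) = (∏ f' i ^ e i) * L ^ (∑ (b i).toNat * e i)`.  By `X.mon e`: `e i = ⟨m, v i⟩ + 1`, and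
`∑ b i * e i = ∑_j m j * (∑ i, b i * v i j) + ∑ b i = dk P b` (`h.rel : b ∈ Rel P`), `0 ≤ dk P b` (`hb`), so
`∑ (b i).toNat * e i = ∑ (-b i).toNat * e i + (dk P b).toNat`; cancel the power of `L` (`mul_right_cancel₀`, `pow_ne_zero`).
-/

open scoped Classical
open MvPolynomial

namespace Pool.Agent.LibTC2

open Pool.Agent.LibBH2 Pool.Agent.LibQC8

variable {ι : Type} [Fintype ι] {r : ℕ} {k : Type} [Field k] {P : Tor ι r}

theorem cmp_rem (X : Hyp k P) {a b : ι → ℤ} {f f' : ι → Polynomial k} {q : Option k} {μ : k}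
    (h : Rem P a f q b f' μ) (hb : 0 ≤ dk P b) :
    cmp X f = cmp X f' * (1 + Polynomial.C μ * Polynomial.X) ^ (dk P b).toNat := by
  have hL : (1 + Polynomial.C μ * Polynomial.X : Polynomial k) ≠ 0 := by
    intro h0
    have h1 := congrArg (Polynomial.eval 0) h0
    simp at h1
  unfold cmp
  rw [aeval_def, aeval_def, eval₂_eq', eval₂_eq', Finset.sum_mul]
  apply Finset.sum_congr rfl
  intro e he
  rw [mul_assoc]
  congr 1
  apply mul_right_cancel₀ (pow_ne_zero (∑ i, (-b i).toNat * e i) hL)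
  have hN : ∑ i, (b i).toNat * e i = (dk P b).toNat + ∑ i, (-b i).toNat * e i := by
    obtain ⟨m, hm⟩ := X.mon e he
    have h1 : ∑ i, b i * (e i : ℤ) = dk P b := by
      have h2 : ∀ i, b i * (e i : ℤ) = (∑ j, m j * (b i * P.v i j)) + (P.g i : ℤ) * b i := by
        intro i
        rw [hm i, mul_add, Finset.mul_sum, mul_comm (b i) (P.g i : ℤ)]
        congr 1
        apply Finset.sum_congr rfl
        intro j _
        ring
      rw [Finset.sum_congr rfl (fun i _ => h2 i), Finset.sum_add_distrib, Finset.sum_comm]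
      have h3 : ∀ j : Fin r, ∑ i, m j * (b i * P.v i j) = 0 := by
        intro j
        rw [← Finset.mul_sum]
        have h4 : ∑ i, b i * P.v i j = 0 := h.rel j
        rw [h4, mul_zero]
      rw [Finset.sum_congr rfl (fun j _ => h3 j), Finset.sum_const_zero, zero_add]
      rfl
    have h5 : ((∑ i, (b i).toNat * e i : ℕ) : ℤ)
        = (((dk P b).toNat + ∑ i, (-b i).toNat * e i : ℕ) : ℤ) := by
      rw [Nat.cast_add, Int.toNat_of_nonneg hb, ← h1, Nat.cast_sum, Nat.cast_sum,
        ← Finset.sum_add_distrib]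
      apply Finset.sum_congr rfl
      intro i _
      push_cast
      rw [← add_mul]
      congr 1
      have := Int.toNat_sub_toNat_neg (b i)
      omega
    exact_mod_cast h5
  have hl : (∏ i, f i ^ e i) *
      (1 + Polynomial.C μ * Polynomial.X) ^ (∑ i, (-b i).toNat * e i)
      = ∏ i, (f i * (1 + Polynomial.C μ * Polynomial.X) ^ (-b i).toNat) ^ e i := by
    rw [← Finset.prod_pow_eq_pow_sum, ← Finset.prod_mul_distrib]
    apply Finset.prod_congr rfl
    intro i _
    rw [mul_pow, ← pow_mul]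
  have hr : (∏ i, f' i ^ e i) *
      (1 + Polynomial.C μ * Polynomial.X) ^ (∑ i, (b i).toNat * e i)
      = ∏ i, (f' i * (1 + Polynomial.C μ * Polynomial.X) ^ (b i).toNat) ^ e i := by
    rw [← Finset.prod_pow_eq_pow_sum, ← Finset.prod_mul_distrib]
    apply Finset.prod_congr rfl
    intro i _
    rw [mul_pow, ← pow_mul]
  rw [hl, Finset.prod_congr rfl (fun i _ => by rw [h.eq i]), ← hr, hN, pow_add, mul_assoc]

end Pool.Agent.LibTC2
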