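import Pool.Agent.LibTC2.CDefs
import Pool.Agent.LibTC2.P2

/-!
[TC1 C2] (MEDIUM) Values of points of the projective line and of quasi-maps at places.

exists_atP: `s = none`: `none`. `s = some s`: if `v.Reg s`: `Pool.Agent.LibEnd77.Val8.exists_val hK v`; otherwise `s ≠ 0`, `v.ord s < 0`, so
`v.Zer s⁻¹` (`Place.ord_inv`). atP_unique: `Place.val_unique`; the mixed case: `s` regular and `v.Zer s⁻¹` contradict
`s * s⁻¹ = 1`.
atP_small: `t * s` with `v.Zer t` and `s` with a value.
val_vl: cases. (some s, some c): `l = 1`; `(G i).eval s = ∑_(j ≤ natDegree) coeff j * s ^ j` (`Polynomial.eval_eq_sum_range`), the value is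
`∑_(j ≤ natDegree (G i)) γ_ij c ^ j = (γ i).eval c` (`γ_ij = 0` for `j > natDegree (G i)`, as then `v.Zer (0 - γ_ij)`:
`Polynomial.eval_eq_sum_range'`). (some s, none): `l i = (s⁻¹) ^ c i` (`isT_rel`), for `c i < 0` `G i = 0` and both sides are zero; for
`n = (c i).toNat`, `c i = n`: `s⁻¹ ^ n * (G i).eval s = ∑_(j ≤ n) coeff j * s⁻¹ ^ (n - j)` has the value of the term `j = n`. (none, none): `l = 1`.
-/

open scoped Classical
open MvPolynomial

set_option linter.unusedSectionVars false

namespace Pool.Agent.LibTC2

open Pool.Agent.LibBH2 Pool.Agent.LibQC8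

variable {ι : Type} [Fintype ι] {r : ℕ} {k : Type} [Field k] {P : Tor ι r}
  {K : Type} [Field K] [Algebra k K]

private theorem c2_val_pow {v : Place k K} {f : K} {c : k} (h : v.Zer (f - algebraMap k K c))
    (n : ℕ) : v.Zer (f ^ n - algebraMap k K (c ^ n)) := by
  induction n with
  | zero =>
    left
    rw [pow_zero, pow_zero, map_one, sub_self]
  | succ n ih =>
    rw [pow_succ, pow_succ]
    exact Place.val_mul ih h

private theorem c2_val_sum {v : Place k K} (A : Finset ℕ) (f : ℕ → K) (c : ℕ → k)
    (h : ∀ j ∈ A, v.Zer (f j - algebraMap k K (c j))) :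
    v.Zer (∑ j ∈ A, f j - algebraMap k K (∑ j ∈ A, c j)) := by
  induction A using Finset.induction_on with
  | empty =>
    left
    rw [Finset.sum_empty, Finset.sum_empty, map_zero, sub_self]
  | insert a A ha ih =>
    rw [Finset.sum_insert ha, Finset.sum_insert ha]
    exact Place.val_add (h a (Finset.mem_insert_self a A))
      (ih fun j hj => h j (Finset.mem_insert_of_mem hj))

private theorem c2_val_eval {v : Place k K} {Φ : Polynomial K} {φ : Polynomial k}
    (hv : CV v Φ φ) {s : K} {c : k} (h : v.Zer (s - algebraMap k K c)) :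
    v.Zer (Φ.eval s - algebraMap k K (φ.eval c)) := by
  have h1 : Φ.natDegree < max Φ.natDegree φ.natDegree + 1 := Nat.lt_succ_of_le (le_max_left _ _)
  have h2 : φ.natDegree < max Φ.natDegree φ.natDegree + 1 := Nat.lt_succ_of_le (le_max_right _ _)
  rw [Polynomial.eval_eq_sum_range' h1, Polynomial.eval_eq_sum_range' h2]
  exact c2_val_sum _ _ _ fun j _ => Place.val_mul (hv j) (c2_val_pow h j)

private theorem c2_not_one {v : Place k K} : ¬ v.Zer (1 : K) := by
  intro h
  have h1 : v.Zer (algebraMap k K 1) := by rw [map_one]; exact h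
  exact one_ne_zero ((v.zer_const_iff 1).1 h1)

theorem exists_atP [IsAlgClosed k] (hK : IsFunctionField k K) (v : Place k K) (s : Option K) :
    ∃ ζ, AtP v s ζ := by
  cases s with
  | none => exact ⟨none, trivial⟩
  | some s =>
    by_cases hs : v.Reg s
    · obtain ⟨c, hc⟩ := Pool.Agent.LibEnd77.Val8.exists_val hK v hs
      exact ⟨some c, hc⟩
    · have h0 : s ≠ 0 := fun h => hs (Or.inl h)
      have h1 : ¬ 0 ≤ v.ord s := fun h => hs (Or.inr h)
      refine ⟨none, h0, Or.inr ?_⟩
      rw [v.ord_inv]
      omega

theorem atP_unique {v : Place k K} {s : Option K} {ζ ξ : Option k} (h : AtP v s ζ)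
    (h' : AtP v s ξ) : ζ = ξ := by
  have key : ∀ {f : K} {c : k}, v.Zer (f - algebraMap k K c) → f ≠ 0 → ¬ v.Zer f⁻¹ := by
    intro f c hf h0 hz
    have h1 := Place.Zer.reg_mul (Place.reg_of_val hf) hz
    rw [mul_inv_cancel₀ h0] at h1
    exact c2_not_one h1
  cases s with
  | none =>
    cases ζ with
    | none =>
      cases ξ with
      | none => rfl
      | some d => exact h'.elim
    | some c => exact h.elim
  | some s =>
    cases ζ with
    | none =>
      cases ξ with
      | none => rfl
      | some d => exact absurd h.2 (key h' h.1)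
    | some c =>
      cases ξ with
      | none => exact absurd h'.2 (key h h'.1)
      | some d => exact congrArg some (Place.val_unique h h')

theorem atP_small {v : Place k K} {t : K} (ht : v.Zer t) {s : Option K} {c : k}
    (h : AtP v s (some c)) : AtP v (s.map (t * ·)) (some 0) := by
  cases s with
  | none => exact h.elim
  | some s =>
    show v.Zer (t * s - algebraMap k K 0)
    rw [map_zero, sub_zero]
    exact ht.mul_reg (Place.reg_of_val h)

theorem val_vl (v : Place k K) {c : ι → ℤ} {G : ι → Polynomial K} {γ : ι → Polynomial k}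
    (hG : IsQ P c G) (hv : ∀ i, CV v (G i) (γ i)) {s : Option K} {ζ : Option k}
    (h : AtP v s ζ) :
    ∃ l : ι → K, IsT P l ∧ ∀ i, v.Zer (l i * vl c G s i - algebraMap k K (vl c γ ζ i)) := by
  cases s with
  | none =>
    cases ζ with
    | some d => exact h.elim
    | none =>
      refine ⟨fun _ => 1, isT_one, fun i => ?_⟩
      simp only [vl, one_mul]
      by_cases hc : c i < 0
      · rw [if_pos hc, if_pos hc, map_zero, sub_zero]
        exact v.zer_zero
      · rw [if_neg hc, if_neg hc]
        exact hv i _
  | some s =>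
    cases ζ with
    | some d =>
      refine ⟨fun _ => 1, isT_one, fun i => ?_⟩
      simp only [vl, one_mul]
      exact c2_val_eval (hv i) h
    | none =>
      obtain ⟨h0, hz⟩ := h
      refine ⟨fun i => s⁻¹ ^ c i, isT_rel hG.rel (inv_ne_zero h0), fun i => ?_⟩
      simp only [vl]
      by_cases hc : c i < 0
      · rw [if_pos hc, hG.neg i hc, Polynomial.eval_zero, mul_zero, map_zero, sub_zero]
        exact v.zer_zero
      · rw [if_neg hc]
        obtain ⟨n, hn⟩ := Int.eq_ofNat_of_zero_le (not_lt.1 hc)
        rw [hn, Int.toNat_natCast, zpow_natCast]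
        have hd : (G i).natDegree < n + 1 := by
          have := hG.deg i
          rw [hn, Int.toNat_natCast] at this
          exact Nat.lt_succ_of_le this
        have e1 : s⁻¹ ^ n * (G i).eval s =
            ∑ j ∈ Finset.range (n + 1), (G i).coeff j * s⁻¹ ^ (n - j) := by
          rw [Polynomial.eval_eq_sum_range' hd, Finset.mul_sum]
          refine Finset.sum_congr rfl fun j hj => ?_
          have hj' : j ≤ n := Nat.lt_succ_iff.1 (Finset.mem_range.1 hj)
          obtain ⟨m, rfl⟩ := Nat.exists_eq_add_of_le hj'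
          rw [Nat.add_sub_cancel_left, pow_add]
          have h1 : s⁻¹ ^ j * s ^ j = 1 := by
            rw [← mul_pow, inv_mul_cancel₀ h0, one_pow]
          calc s⁻¹ ^ j * s⁻¹ ^ m * ((G i).coeff j * s ^ j)
              = (G i).coeff j * s⁻¹ ^ m * (s⁻¹ ^ j * s ^ j) := by ring
            _ = (G i).coeff j * s⁻¹ ^ m := by rw [h1, mul_one]
        have e2 : (γ i).coeff n =
            ∑ j ∈ Finset.range (n + 1), (γ i).coeff j * (0 : k) ^ (n - j) := by
          rw [Finset.sum_eq_single n]
          · rw [Nat.sub_self, pow_zero, mul_one]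
          · intro j hj hjn
            have hj' : j ≤ n := Nat.lt_succ_iff.1 (Finset.mem_range.1 hj)
            rw [zero_pow (by omega), mul_zero]
          · intro hn'
            exact absurd (Finset.mem_range.2 (Nat.lt_succ_self n)) hn'
        rw [e1, e2]
        have hz' : v.Zer (s⁻¹ - algebraMap k K 0) := by rw [map_zero, sub_zero]; exact hz
        exact c2_val_sum _ _ _ fun j _ => Place.val_mul (hv i j) (c2_val_pow hz' _)

end Pool.Agent.LibTC2
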