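import Pool.Agent.LibTC2.CDefs

/-!
[TC1 C3] (SHORT) `CV` is compatible with sums, products, constants, and with `cmp` (induction on the polynomial `X.F` or on a general
`MvPolynomial`, as in LibPC60/A3.lean; `Polynomial.coeff_mul`, finite sums of values by induction).
-/

open scoped Classical
open MvPolynomial

set_option linter.unusedSectionVars false

namespace Pool.Agent.LibTC2

open Pool.Agent.LibBH2 Pool.Agent.LibQC8

variable {ι : Type} [Fintype ι] {r : ℕ} {k : Type} [Field k] {P : Tor ι r}
  {K : Type} [Field K] [Algebra k K]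

private theorem C3_sum {ι' : Type} (v : Place k K) (s : Finset ι') (f : ι' → K) (g : ι' → k)
    (h : ∀ i ∈ s, v.Zer (f i - algebraMap k K (g i))) :
    v.Zer ((∑ i ∈ s, f i) - algebraMap k K (∑ i ∈ s, g i)) := by
  classical
  induction s using Finset.induction_on with
  | empty => simpa using v.zer_zero
  | insert a s ha ih =>
    rw [Finset.sum_insert ha, Finset.sum_insert ha]
    exact Place.val_add (h a (Finset.mem_insert_self a s))
      (ih fun i hi => h i (Finset.mem_insert_of_mem hi))

private theorem C3_const (v : Place k K) (c : k) :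
    v.Zer (algebraMap k K c - algebraMap k K c) := by
  rw [sub_self]
  exact v.zer_zero

theorem CV.add {v : Place k K} {Φ Ψ : Polynomial K} {φ ψ : Polynomial k} (h : CV v Φ φ)
    (h' : CV v Ψ ψ) : CV v (Φ + Ψ) (φ + ψ) := by
  intro j
  rw [Polynomial.coeff_add, Polynomial.coeff_add]
  exact Place.val_add (h j) (h' j)

theorem CV.mul {v : Place k K} {Φ Ψ : Polynomial K} {φ ψ : Polynomial k} (h : CV v Φ φ)
    (h' : CV v Ψ ψ) : CV v (Φ * Ψ) (φ * ψ) := by
  intro j
  rw [Polynomial.coeff_mul, Polynomial.coeff_mul]
  exact C3_sum v _ _ _ fun i _ => Place.val_mul (h i.1) (h' i.2)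

theorem CV.pow {v : Place k K} {Φ : Polynomial K} {φ : Polynomial k} (h : CV v Φ φ) (n : ℕ) :
    CV v (Φ ^ n) (φ ^ n) := by
  induction n with
  | zero =>
    intro j
    rw [pow_zero, pow_zero, Polynomial.coeff_one, Polynomial.coeff_one]
    split_ifs with hj
    · simpa using v.zer_zero
    · simpa using v.zer_zero
  | succ n ih =>
    rw [pow_succ, pow_succ]
    exact ih.mul h

theorem cv_C {v : Place k K} {x : K} {c : k} (h : v.Zer (x - algebraMap k K c)) :
    CV v (Polynomial.C x) (Polynomial.C c) := by
  intro j
  rw [Polynomial.coeff_C, Polynomial.coeff_C]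
  split_ifs with hj
  · exact h
  · simpa using v.zer_zero

theorem cv_X {v : Place k K} : CV v Polynomial.X Polynomial.X := by
  intro j
  rw [Polynomial.coeff_X, Polynomial.coeff_X]
  split_ifs with hj
  · simpa using v.zer_zero
  · simpa using v.zer_zero

theorem cv_map (v : Place k K) (p : Polynomial k) : CV v (p.map (algebraMap k K)) p := by
  intro j
  rw [Polynomial.coeff_map]
  exact C3_const v _

theorem cv_unique {v : Place k K} {Φ : Polynomial K} {φ ψ : Polynomial k} (h : CV v Φ φ)
    (h' : CV v Φ ψ) : φ = ψ := by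
  apply Polynomial.ext
  intro j
  exact Place.val_unique (h j) (h' j)

theorem cv_cmp (X : Hyp k P) (v : Place k K) {G : ι → Polynomial K} {γ : ι → Polynomial k}
    (h : ∀ i, CV v (G i) (γ i)) : CV v (cmp X G) (cmp X γ) := by
  unfold cmp
  generalize X.F = F
  induction F using MvPolynomial.induction_on with
  | C a =>
    have e1 : (aeval G (C a) : Polynomial K) = Polynomial.C (algebraMap k K a) := by
      rw [← MvPolynomial.algebraMap_eq, AlgHom.commutes]
      rfl
    have e2 : (aeval γ (C a) : Polynomial k) = Polynomial.C a := by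
      rw [← MvPolynomial.algebraMap_eq, AlgHom.commutes]
      rfl
    rw [e1, e2]
    exact cv_C (C3_const v a)
  | add p q hp hq =>
    rw [map_add, map_add]
    exact hp.add hq
  | mul_X p i hp =>
    rw [map_mul, map_mul, aeval_X, aeval_X]
    exact hp.mul (h i)

end Pool.Agent.LibTC2
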