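import Pool.Agent.LibTC2.CDefs
import Pool.Agent.LibTC2.P2

/-!
[TC1 C4] (MEDIUM) The polynomial `F ∘ G`, for quasi-maps over an extension field `K` of `k` (`K = k` is a special case).

cmp_eval: evaluation at `s` is a `k`-algebra homomorphism `K[X] → K` (`Polynomial.aeval` restricted; or `MvPolynomial` induction / `map_aeval`).
cmp_map: same for `Polynomial.mapAlgHom`. mon_sum: `∑ e i * c i = ∑ (⟨m, v i⟩ + 1) c i = dk P c` as `c ∈ Rel P`.
cmp_deg, cmp_coeff: `cmp X G = ∑_(e in F.support) C (coeff e) * ∏ i, G i ^ e i` (`aeval_def`, `eval₂_eq'`). For `e` in the support: if some `e i ≠ 0`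
with `c i < 0`, then `G i = 0` (`hG.neg`), the term is zero, and so is the corresponding term of `aeval (vl c G none) F`
(`vl c G none i = 0`). Otherwise `∏ i, G i ^ e i` has degree `≤ ∑ e i * (c i).toNat = dk P c` and its coefficient there is
`∏ i, (G i).coeff (c i).toNat ^ e i` (`Polynomial.coeff_prod_of_natDegree_le`, `coeff_pow_of_natDegree_le` or similar).
If `dk P c < 0` then every term is zero.
isMap_dk: let `x = vl a f (some 0)`; `a i < 0` implies `f i = 0`, so `x i = 0`: the support of `m' i = (-a i).toNat` is contained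
in `zs x ∈ C`. `P.nef` for `m i = (a i).toNat` and `m'`: `∑ (-a i).toNat ≤ ∑ (a i).toNat`.
-/

open scoped Classical
open MvPolynomial

set_option linter.unusedSectionVars false

namespace Pool.Agent.LibTC2

open Pool.Agent.LibBH2 Pool.Agent.LibQC8

variable {ι : Type} [Fintype ι] {r : ℕ} {k : Type} [Field k] {P : Tor ι r}
  {K : Type} [Field K] [Algebra k K]

theorem mon_sum (X : Hyp k P) {c : ι → ℤ} (hc : c ∈ Rel P) {e : ι →₀ ℕ} (he : e ∈ X.F.support) :
    ∑ i, (e i : ℤ) * c i = dk P c := by
  obtain ⟨m, hm⟩ := X.mon e he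
  have hc' : ∀ j, ∑ i, c i * P.v i j = 0 := hc
  have h1 : ∑ i, (e i : ℤ) * c i = ∑ i, (∑ j, m j * P.v i j) * c i + ∑ i, (P.g i : ℤ) * c i := by
    rw [← Finset.sum_add_distrib]
    apply Finset.sum_congr rfl
    intro i _
    rw [hm i]
    ring
  have h2 : ∑ i, (∑ j, m j * P.v i j) * c i = 0 := by
    have : ∑ i, (∑ j, m j * P.v i j) * c i = ∑ j, m j * ∑ i, c i * P.v i j := by
      simp_rw [Finset.sum_mul, Finset.mul_sum]
      rw [Finset.sum_comm]
      apply Finset.sum_congr rfl
      intro j _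
      apply Finset.sum_congr rfl
      intro i _
      ring
    rw [this]
    apply Finset.sum_eq_zero
    intro j _
    rw [hc' j, mul_zero]
  rw [h1, h2, zero_add]
  rfl

theorem cmp_eval (X : Hyp k P) (c : ι → ℤ) (G : ι → Polynomial K) (s : K) :
    (cmp X G).eval s = aeval (vl c G (some s)) X.F := by
  have h := MvPolynomial.comp_aeval_apply (R := k) (f := G)
    ((Polynomial.aeval s : Polynomial K →ₐ[K] K).restrictScalars k) X.F
  simp only [AlgHom.coe_restrictScalars', Polynomial.coe_aeval_eq_eval] at h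
  exact h

theorem cmp_map (X : Hyp k P) {L : Type} [Field L] [Algebra k L] (φ : K →ₐ[k] L)
    (G : ι → Polynomial K) :
    (cmp X G).map (φ : K →+* L) = cmp X (fun i => (G i).map (φ : K →+* L)) := by
  have h := MvPolynomial.comp_aeval_apply (R := k) (f := G) (Polynomial.mapAlgHom φ) X.F
  exact h

private theorem nd_prod (G : ι → Polynomial K) (d : ι → ℕ) (e : ι →₀ ℕ)
    (h : ∀ i, (G i).natDegree ≤ d i) (s : Finset ι) :
    (∏ i ∈ s, G i ^ e i).natDegree ≤ ∑ i ∈ s, d i * e i := by
  refine (Polynomial.natDegree_prod_le _ _).trans ?_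
  apply Finset.sum_le_sum
  intro i _
  refine Polynomial.natDegree_pow_le.trans ?_
  rw [mul_comm]
  exact Nat.mul_le_mul_right _ (h i)

private theorem cf_prod (G : ι → Polynomial K) (d : ι → ℕ) (e : ι →₀ ℕ)
    (h : ∀ i, (G i).natDegree ≤ d i) (s : Finset ι) :
    (∏ i ∈ s, G i ^ e i).coeff (∑ i ∈ s, d i * e i) = ∏ i ∈ s, (G i).coeff (d i) ^ e i := by
  induction s using Finset.induction_on with
  | empty => simp
  | insert a s ha ih =>
    rw [Finset.prod_insert ha, Finset.sum_insert ha, Finset.prod_insert ha]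
    rw [Polynomial.coeff_mul_add_eq_of_natDegree_le, ih]
    · congr 1
      rw [mul_comm]
      exact Polynomial.coeff_pow_of_natDegree_le (h a)
    · refine Polynomial.natDegree_pow_le.trans ?_
      rw [mul_comm]
      exact Nat.mul_le_mul_right _ (h a)
    · exact nd_prod G d e h s

private theorem cmp_eq (X : Hyp k P) (G : ι → Polynomial K) :
    cmp X G = ∑ e ∈ X.F.support, Polynomial.C (algebraMap k K (X.F.coeff e)) * ∏ i, G i ^ e i := by
  unfold cmp
  rw [MvPolynomial.aeval_def, MvPolynomial.eval₂_eq']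
  rfl

private theorem dk_nat {c : ι → ℤ} {e : ι →₀ ℕ} (hs : ∑ i, (e i : ℤ) * c i = dk P c)
    (h : ∀ i, e i = 0 ∨ 0 ≤ c i) : ∑ i, (c i).toNat * e i = (dk P c).toNat := by
  have h1 : ((∑ i, (c i).toNat * e i : ℕ) : ℤ) = dk P c := by
    rw [← hs]
    push_cast
    apply Finset.sum_congr rfl
    intro i _
    rcases h i with h0 | h0
    · rw [h0]; simp
    · rw [Int.toNat_of_nonneg h0, mul_comm]
  rw [← h1, Int.toNat_natCast]

private theorem term_deg (X : Hyp k P) {c : ι → ℤ} {G : ι → Polynomial K} (hG : IsQ P c G)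
    {e : ι →₀ ℕ} (he : e ∈ X.F.support) (a : K) :
    (Polynomial.C a * ∏ i, G i ^ e i).natDegree ≤ (dk P c).toNat ∧
    (Polynomial.C a * ∏ i, G i ^ e i).coeff (dk P c).toNat = a * ∏ i, (vl c G none i) ^ e i := by
  by_cases hex : ∃ i, e i ≠ 0 ∧ c i < 0
  · obtain ⟨i, hi, hci⟩ := hex
    have h1 : ∏ i, G i ^ e i = 0 := by
      apply Finset.prod_eq_zero (Finset.mem_univ i)
      rw [hG.neg i hci]
      exact zero_pow hi
    have h2 : ∏ i, (vl c G none i) ^ e i = 0 := by
      apply Finset.prod_eq_zero (Finset.mem_univ i)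
      have : vl c G none i = 0 := by
        show (if c i < 0 then 0 else (G i).coeff (c i).toNat) = 0
        rw [if_pos hci]
      rw [this]
      exact zero_pow hi
    rw [h1, h2]
    simp
  · push Not at hex
    have hor : ∀ i, e i = 0 ∨ 0 ≤ c i := by
      intro i
      by_cases h0 : e i = 0
      · exact Or.inl h0
      · exact Or.inr (hex i h0)
    have hd := dk_nat (mon_sum X hG.rel he) hor
    constructor
    · refine (Polynomial.natDegree_C_mul_le _ _).trans ?_
      rw [← hd]
      exact nd_prod G (fun i => (c i).toNat) e hG.deg Finset.univ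
    · rw [Polynomial.coeff_C_mul, ← hd]
      have h3 := cf_prod G (fun i => (c i).toNat) e hG.deg Finset.univ
      rw [h3]
      congr 1
      apply Finset.prod_congr rfl
      intro i _
      rcases hor i with h0 | h0
      · rw [h0, pow_zero, pow_zero]
      · congr 1
        show (G i).coeff (c i).toNat = (if c i < 0 then 0 else (G i).coeff (c i).toNat)
        rw [if_neg (not_lt.2 h0)]

theorem cmp_deg (X : Hyp k P) {c : ι → ℤ} {G : ι → Polynomial K} (hG : IsQ P c G) :
    (cmp X G).natDegree ≤ (dk P c).toNat := by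
  rw [cmp_eq]
  apply Polynomial.natDegree_sum_le_of_forall_le
  intro e he
  exact (term_deg X hG he _).1

theorem cmp_coeff (X : Hyp k P) {c : ι → ℤ} {G : ι → Polynomial K} (hG : IsQ P c G) :
    (cmp X G).coeff (dk P c).toNat = aeval (vl c G none) X.F := by
  rw [cmp_eq, Polynomial.finset_sum_coeff, MvPolynomial.aeval_def, MvPolynomial.eval₂_eq']
  apply Finset.sum_congr rfl
  intro e he
  exact (term_deg X hG he _).2

theorem isMap_dk {a : ι → ℤ} {f : ι → Polynomial k} (hf : IsMap P a f) : 0 ≤ dk P a := by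
  have h1 := hf.cone (some 0)
  have h2 : sp (fun i => (-a i).toNat) ∈ P.C := by
    apply P.down _ h1
    intro i hi
    unfold sp at hi
    unfold zs
    rw [Finset.mem_filter] at hi ⊢
    refine ⟨Finset.mem_univ i, ?_⟩
    have hai : a i < 0 := by
      by_contra hcon
      apply hi.2
      rw [Int.toNat_eq_zero]
      omega
    show (f i).eval 0 = 0
    rw [hf.neg i hai, Polynomial.eval_zero]
  have hsplit : ∀ i, a i = ((a i).toNat : ℤ) - ((-a i).toNat : ℤ) := by
    intro i
    omega
  have h3 := P.nef (fun i => (a i).toNat) (fun i => (-a i).toNat) h2 (by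
    intro j
    have h4 : ∑ i, a i * P.v i j = 0 := hf.rel j
    have h5 : ∑ i, ((a i).toNat : ℤ) * P.v i j - ∑ i, ((-a i).toNat : ℤ) * P.v i j = 0 := by
      rw [← Finset.sum_sub_distrib, ← h4]
      apply Finset.sum_congr rfl
      intro i _
      rw [← sub_mul, ← hsplit i]
    linarith)
  have h6 : dk P a = ∑ i, (P.g i : ℤ) * ((a i).toNat : ℤ) - ∑ i, (P.g i : ℤ) * ((-a i).toNat : ℤ) := by
    unfold dk
    rw [← Finset.sum_sub_distrib]
    apply Finset.sum_congr rfl
    intro i _
    rw [← mul_sub, ← hsplit i]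
  rw [h6]
  linarith

end Pool.Agent.LibTC2
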