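import Pool.Agent.LibTC2.P4
import Pool.Agent.LibTC2.P8
import Pool.Agent.LibPC60.A3

/-!
[TC1 P9] (SHORT) Values of points.

sp_of_val: the equation `aeval z₀ F = 0`: `aeval (l * u) F = (∏ l) * aeval u F = 0` (`aeval_scale`), with value `aeval z₀ F`
(`Pool.Agent.LibPC60.zer_aeval`), `Place.zer_const_iff`. Then `p = ⟨z₀, hz, _⟩`, `pz_eq`.
sp_eq: `val_unique'` and `pt_eq_pz`.
-/

open scoped Classical
open MvPolynomial

set_option linter.unusedSectionVars false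

namespace Pool.Agent.LibTC2

open Pool.Agent.LibBH2 Pool.Agent.LibQC8

variable {ι : Type} [Fintype ι] {r : ℕ} {k : Type} [Field k] [IsAlgClosed k] {P : Tor ι r}
  {K : Type} [Field K] [Algebra k K]

theorem sp_of_val (X : Hyp k P) (v : Place k K) (u : Pt X K) {z₀ : ι → k} {l : ι → K}
    (hz : zs z₀ ∈ P.C) (hl : IsT P l)
    (h : ∀ i, v.Zer (l i * u.z i - algebraMap k K (z₀ i))) :
    ∃ p : Pt X k, p.z = z₀ ∧ Sp v u p l ∧ pt p = pz X z₀ := by
  have h1 := Pool.Agent.LibPC60.zer_aeval v (fun i => l i * u.z i) z₀ h X.F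
  rw [aeval_scale X hl u.z, u.hF, mul_zero, zero_sub] at h1
  have h2 : v.Zer (algebraMap k K (aeval z₀ X.F)) := by
    have h3 := h1.neg
    rw [neg_neg] at h3
    exact h3
  have hF : aeval z₀ X.F = 0 := (v.zer_const_iff _).1 h2
  exact ⟨⟨z₀, hz, hF⟩, rfl, ⟨hl, h⟩, (pz_eq X hz hF).symm⟩

theorem sp_eq (X : Hyp k P) (hK : IsFunctionField k K) (v : Place k K) (u : Pt X K)
    {z₀ : ι → k} {l : ι → K} (hz : zs z₀ ∈ P.C) (hl : IsT P l)
    (h : ∀ i, v.Zer (l i * u.z i - algebraMap k K (z₀ i))) {p : Pt X k} {l' : ι → K}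
    (hp : Sp v u p l') : pt p = pz X z₀ := by
  obtain ⟨c, hc, hc'⟩ := (val_unique' hK v u.z hz p.cone hl hp.tor h hp.val).2
  exact pt_eq_pz p hc hc'

end Pool.Agent.LibTC2
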