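import Pool.Agent.LibTC2.DDefs
import Pool.Agent.LibTC2.DCite
import Pool.Agent.LibTC2.D1
import Pool.Agent.LibTC2.D3a

/-!
Row [TC1 D3b] (helper25).  SHORT/MEDIUM. PLAN: `b` occurs at `vl (a - b) f' q` (`h.cone`, `h.occ`), so `0 ≤ dk P b` (`occ_nef`); `a` and `a - b` occur at
`fun i => (f i).coeff 0` (by `IsQ.neg`, `h.at0`: a negative entry gives the polynomial 0), so `0 ≤ dk P a`, `0 ≤ dk P (a - b) = dk P a - dk P b`.
`cmp_rem`: `cmp X f = cmp X f' * L ^ (dk P b).toNat`, `L = 1 + C μ * X ≠ 0`.  `ht`: `cmp X f = C c * X ^ (dk P a).toNat`.  If `c = 0` then `cmp X f = 0`,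
so `cmp X f' = 0` (`mul_eq_zero`, `pow_ne_zero`) and `IsTot X (a - b) f'` with `c = 0`.  If `c ≠ 0`: then `dk P b = 0`: if `μ ≠ 0` and `dk P b > 0`,
`L` divides `X ^ n` up to the constant `c`; evaluate at the root `-μ⁻¹` of `L`: `C c * X ^ n` has the value `c * (-μ⁻¹)^n ≠ 0`, contradiction; if `μ = 0`,
`cmp X f = cmp X f'` has degree `(dk P a).toNat`, but `cmp_deg' X h.isq` gives `≤ (dk P (a - b)).toNat`, so `dk P b ≤ 0`.  Hence
`cmp X f = cmp X f'` and `dk P (a - b) = dk P a`: `IsTot X (a - b) f'`.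
-/

open scoped Classical
open MvPolynomial

namespace Pool.Agent.LibTC2

open Pool.Agent.LibBH2 Pool.Agent.LibQC8

variable {ι : Type} [Fintype ι] {r : ℕ} {k : Type} [Field k] {P : Tor ι r}

theorem tot_rem (X : Hyp k P) {a b : ι → ℤ} {f f' : ι → Polynomial k} {q : Option k} {μ : k}
    (hf : IsQ P a f) (h0 : zs (fun i => (f i).coeff 0) ∈ P.C) (h : Rem P a f q b f' μ) (ht : IsTot X a f) :
    IsTot X (a - b) f' ∧ (cmp X f ≠ 0 → dk P b = 0) ∧ (cmp X f = 0 → cmp X f' = 0) := by
  have hb : 0 ≤ dk P b := occ_nef h.rel h.cone h.occ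
  have hab : 0 ≤ dk P (a - b) := by
    have h0' : zs (fun i => (f' i).coeff 0) ∈ P.C := by
      have : (fun i => (f' i).coeff 0) = fun i => (f i).coeff 0 := funext h.at0
      rw [this]
      exact h0
    refine occ_nef h.isq.rel h0' ?_
    intro i hi
    show (f' i).coeff 0 = 0
    rw [h.isq.neg i hi, Polynomial.coeff_zero]
  have hdk : dk P (a - b) = dk P a - dk P b := by
    unfold dk
    rw [← Finset.sum_sub_distrib]
    exact Finset.sum_congr rfl fun i _ => mul_sub _ _ _
  have hL : (1 + Polynomial.C μ * Polynomial.X : Polynomial k) ≠ 0 := by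
    intro hz
    have := congrArg (fun p : Polynomial k => p.eval 0) hz
    simp at this
  have hc := cmp_rem X h hb
  obtain ⟨c, hcc⟩ := ht
  by_cases hz : c = 0
  · have hf0 : cmp X f = 0 := by rw [hcc, hz]; simp
    have hf1 : cmp X f' = 0 := by
      rw [hf0] at hc
      rcases mul_eq_zero.mp hc.symm with h1 | h1
      · exact h1
      · exact absurd h1 (pow_ne_zero _ hL)
    refine ⟨⟨0, ?_⟩, fun hne => absurd hf0 hne, fun _ => hf1⟩
    rw [hf1]; simp
  · have hne : cmp X f ≠ 0 := by
      rw [hcc]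
      exact mul_ne_zero (by simpa using hz) (pow_ne_zero _ Polynomial.X_ne_zero)
    have hdb : dk P b = 0 := by
      by_contra hd
      have hpos : 0 < dk P b := lt_of_le_of_ne hb (Ne.symm hd)
      have hm : (dk P b).toNat ≠ 0 := by omega
      by_cases hμ : μ = 0
      · have hff : cmp X f = cmp X f' := by
          rw [hc, hμ]; simp
        have hdeg := cmp_deg' X h.isq
        rw [← hff, hcc, Polynomial.natDegree_C_mul_X_pow _ _ hz] at hdeg
        omega
      · have hev := congrArg (fun p : Polynomial k => p.eval (-μ⁻¹)) hc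
        simp only [Polynomial.eval_mul, Polynomial.eval_pow] at hev
        have hr : (1 + Polynomial.C μ * Polynomial.X : Polynomial k).eval (-μ⁻¹) = 0 := by
          simp [hμ]
        rw [hr, zero_pow hm, mul_zero, hcc] at hev
        simp only [Polynomial.eval_mul, Polynomial.eval_C, Polynomial.eval_pow, Polynomial.eval_X] at hev
        rcases mul_eq_zero.mp hev with h1 | h1
        · exact hz h1
        · exact (pow_ne_zero _ (neg_ne_zero.mpr (inv_ne_zero hμ))) h1
    have hff : cmp X f = cmp X f' := by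
      rw [hc, hdb]; simp
    refine ⟨⟨c, ?_⟩, fun _ => hdb, fun h1 => absurd h1 hne⟩
    rw [← hff, hcc, hdk, hdb, sub_zero]

end Pool.Agent.LibTC2
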