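import Pool.Agent.LibTC2.DDefs
import Pool.Agent.LibTC2.DCite
import Pool.Agent.LibTC2.D1

/-!
Row [TC1 D4m] (helper25).  SHORT/MEDIUM. The cycles of maps.  PLAN `fcyc_tot`: `vl a f (some 0) = x.z` (`coeff_zero_eq_eval_zero`), so
`pz X (vl a f (some 0)) = pt x` (`dif_pos`).  `0 ≤ dk P a` by `occ_nef` (`a` occurs at `x.z`).  If `cmp X f = 0`: `fcyc = dk P a • pt x`, `cl` is linear
(`Submodule.Quotient.mk_smul`).  Otherwise `cmp X f = C c * X ^ d`, `c ≠ 0`, `d = (dk P a).toNat`: roots = `d` times `0`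
(`Polynomial.roots_C_mul_X_pow` or `roots_C_mul`, `roots_X_pow`), natDegree `= d`: `fcyc = d • pt x`, and `(d : ℤ) = dk P a`.
PLAN `fcyc_zero`: if `cmp X f = 0` the coefficient `dk P a` is `0`; otherwise `cmp_deg'` gives `natDegree = 0` and a nonzero constant has no roots
(`Polynomial.eq_C_of_natDegree_eq_zero`, `roots_C`), `(dk P a).toNat - natDegree = 0`.
-/

open scoped Classical
open MvPolynomial

namespace Pool.Agent.LibTC2

open Pool.Agent.LibBH2 Pool.Agent.LibQC8

variable {ι : Type} [Fintype ι] {r : ℕ} {k : Type} [Field k] {P : Tor ι r}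

theorem fcyc_tot (X : Hyp k P) {a : ι → ℤ} {f : ι → Polynomial k} (h : IsMap P a f) (x : Pt X k)
    (hx : ∀ i, (f i).coeff 0 = x.z i) (ht : IsTot X a f) :
    cl (fcyc X a f) = ((dk P a : ℤ) : ℚ) • cl (pt x) := by
  have hz : vl a f (some 0) = x.z := by
    funext i
    show (f i).eval 0 = x.z i
    rw [← Polynomial.coeff_zero_eq_eval_zero, hx i]
  have hpz : pz X (vl a f (some 0)) = pt x := by
    have hc : zs (vl a f (some 0)) ∈ P.C ∧ aeval (vl a f (some 0)) X.F = 0 := by
      rw [hz]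
      exact ⟨x.cone, x.hF⟩
    unfold pz
    rw [dif_pos hc]
    congr 1
    rcases x with ⟨z, c, e⟩
    simp only at hz
    subst hz
    rfl
  have hocc : Occ a x.z := by
    intro i hi
    rw [← hx i, h.neg i hi, Polynomial.coeff_zero]
  have hdk : 0 ≤ dk P a := occ_nef h.rel x.cone hocc
  by_cases h0 : cmp X f = 0
  · have h1 : fcyc X a f = ((dk P a : ℤ) : ℚ) • pt x := by
      unfold fcyc
      rw [if_pos h0, hpz]
    rw [h1]
    rfl
  · obtain ⟨c, hc⟩ := ht
    have hc0 : c ≠ 0 := by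
      rintro rfl
      apply h0
      rw [hc, map_zero, zero_mul]
    have h1 : fcyc X a f = (dk P a).toNat • pt x := by
      unfold fcyc
      rw [if_neg h0, hc, Polynomial.roots_C_mul_X_pow hc0, Polynomial.natDegree_C_mul_X_pow _ _ hc0,
        Nat.sub_self, zero_smul, add_zero, Multiset.map_nsmul, Multiset.map_singleton,
        Multiset.sum_nsmul, Multiset.sum_singleton, hpz]
    have h2 : ((dk P a : ℤ) : ℚ) = (((dk P a).toNat : ℕ) : ℚ) := by
      have h3 : ((dk P a).toNat : ℤ) = dk P a := Int.toNat_of_nonneg hdk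
      exact_mod_cast h3.symm
    rw [h1, h2, Nat.cast_smul_eq_nsmul]
    rfl

theorem fcyc_zero (X : Hyp k P) {a : ι → ℤ} {f : ι → Polynomial k} (h : IsMap P a f) (h0 : dk P a = 0) :
    fcyc X a f = 0 := by
  unfold fcyc
  by_cases hc : cmp X f = 0
  · rw [if_pos hc, h0, Int.cast_zero, zero_smul]
  · rw [if_neg hc]
    have hd : (cmp X f).natDegree ≤ (dk P a).toNat := cmp_deg' X h.toIsQ
    have hd0 : (dk P a).toNat = 0 := by rw [h0]; rfl
    rw [hd0] at hd
    have hd1 : (cmp X f).natDegree = 0 := Nat.le_zero.1 hd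
    have hr : (cmp X f).roots = 0 := by
      rw [Polynomial.eq_C_of_natDegree_eq_zero hd1, Polynomial.roots_C]
    rw [hr, hd0, hd1, Multiset.map_zero, Multiset.sum_zero, Nat.sub_self, zero_smul, add_zero]

end Pool.Agent.LibTC2
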