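import Pool.Agent.LibTC2.DDefs
import Pool.Agent.LibTC2.E1

open scoped Classical
open MvPolynomial

namespace Pool.Agent.LibTC2

open Pool.Agent.LibBH2 Pool.Agent.LibQC8

variable {ι : Type} [Fintype ι] {r : ℕ} {k : Type} [Field k] {P : Tor ι r}

theorem fy_coeff_zero {R : Type} [CommRing R] (a : ι → ℤ) (x : ι → R) (y : (Σ i : ι, Fin (a i).toNat) → R) (i : ι) :
    (fy a x y i).coeff 0 = x i := by
  unfold fy
  rw [Polynomial.coeff_add, Polynomial.coeff_C_zero, Polynomial.finsetSum_coeff, Finset.sum_eq_zero, add_zero]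
  intro j _
  rw [Polynomial.coeff_C_mul_X_pow, if_neg (by omega)]

theorem fy_coeff_succ {R : Type} [CommRing R] (a : ι → ℤ) (x : ι → R) (y : (Σ i : ι, Fin (a i).toNat) → R) (i : ι)
    (j : Fin (a i).toNat) : (fy a x y i).coeff ((j : ℕ) + 1) = y ⟨i, j⟩ := by
  unfold fy
  rw [Polynomial.coeff_add, Polynomial.coeff_C_succ, zero_add, Polynomial.finsetSum_coeff,
    Finset.sum_eq_single j]
  · rw [Polynomial.coeff_C_mul_X_pow, if_pos rfl]
  · intro b _ hb
    rw [Polynomial.coeff_C_mul_X_pow, if_neg]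
    intro h
    exact hb (Fin.ext (by omega))
  · intro h
    exact absurd (Finset.mem_univ j) h

private theorem E0_coeff_one (μ : k) (n : ℕ) :
    ((1 + Polynomial.C μ * Polynomial.X : Polynomial k) ^ n).coeff 1 = n * μ := by
  induction n with
  | zero => simp [Polynomial.coeff_one]
  | succ n ih =>
    have h0 : ((1 + Polynomial.C μ * Polynomial.X : Polynomial k) ^ n).coeff 0 = 1 := by
      rw [Polynomial.coeff_zero_eq_eval_zero]
      simp
    rw [pow_succ, mul_add, mul_one, Polynomial.coeff_add, ih, ← mul_assoc]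
    have h1 : ((1 + Polynomial.C μ * Polynomial.X : Polynomial k) ^ n * Polynomial.C μ * Polynomial.X).coeff 1 =
      ((1 + Polynomial.C μ * Polynomial.X : Polynomial k) ^ n * Polynomial.C μ).coeff 0 :=
      Polynomial.coeff_mul_X _ 0
    rw [h1, Polynomial.coeff_mul_C, h0]
    push_cast
    ring

theorem exists_nontriv [IsAlgClosed k] [CharZero k] (a : ι → ℤ) (x : ι → k) (i0 : ι) (ha : 0 < a i0)
    (hx : x i0 ≠ 0) (m : ℕ) (E : Fin m → MvPolynomial (Σ i : ι, Fin (a i).toNat) k)
    (hE : ∀ j, constantCoeff (E j) = 0) (hm : m + 1 < ∑ i, (a i).toNat) :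
    ∃ y : (Σ i : ι, Fin (a i).toNat) → k, (∀ j, MvPolynomial.eval y (E j) = 0) ∧ ¬ Triv a (fy a x y) := by
  let u0 : (Σ i : ι, Fin (a i).toNat) := ⟨i0, ⟨0, by omega⟩⟩
  have hcard : Fintype.card {u : (Σ i : ι, Fin (a i).toNat) // u ≠ u0} + 1 = ∑ i, (a i).toNat := by
    have h1 : Fintype.card (Σ i : ι, Fin (a i).toNat) = ∑ i, (a i).toNat := by
      rw [Fintype.card_sigma]
      exact Finset.sum_congr rfl fun i _ => Fintype.card_fin _
    have h2 : Fintype.card {u : (Σ i : ι, Fin (a i).toNat) // u ≠ u0} =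
        Fintype.card (Σ i : ι, Fin (a i).toNat) - 1 := by
      have := Fintype.card_subtype_compl (fun u : (Σ i : ι, Fin (a i).toNat) => u = u0)
      rw [Fintype.card_subtype_eq] at this
      exact this
    rw [h2, ← h1]
    have : 0 < Fintype.card (Σ i : ι, Fin (a i).toNat) := Fintype.card_pos_iff.2 ⟨u0⟩
    omega
  let g : (Σ i : ι, Fin (a i).toNat) → MvPolynomial {u : (Σ i : ι, Fin (a i).toNat) // u ≠ u0} k :=
    fun u => if h : u ≠ u0 then X ⟨u, h⟩ else 0
  have heval : ∀ (z : {u : (Σ i : ι, Fin (a i).toNat) // u ≠ u0} → k) (p : MvPolynomial (Σ i : ι, Fin (a i).toNat) k),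
      MvPolynomial.eval z (aeval g p) = MvPolynomial.eval (fun u => MvPolynomial.eval z (g u)) p := by
    intro z p
    have h1 : ((MvPolynomial.aeval z : MvPolynomial _ k →ₐ[k] k).comp (aeval g)) =
        MvPolynomial.aeval (fun u => MvPolynomial.eval z (g u)) := by
      apply MvPolynomial.algHom_ext
      intro u
      rw [AlgHom.comp_apply, aeval_X, aeval_X]
      rfl
    have h2 := DFunLike.congr_fun h1 p
    rw [AlgHom.comp_apply] at h2
    exact h2
  obtain ⟨z, hz, hz'⟩ := common_zero m (fun j => aeval g (E j)) (by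
      intro j
      have h1 : constantCoeff (aeval g (E j)) = MvPolynomial.eval (0 : {u : (Σ i : ι, Fin (a i).toNat) // u ≠ u0} → k) (aeval g (E j)) := by
        rw [MvPolynomial.eval_zero]
      rw [h1, heval]
      have h2 : (fun u => MvPolynomial.eval (0 : {u : (Σ i : ι, Fin (a i).toNat) // u ≠ u0} → k) (g u)) = 0 := by
        funext u
        show MvPolynomial.eval (0 : {u : (Σ i : ι, Fin (a i).toNat) // u ≠ u0} → k) (if h : u ≠ u0 then X ⟨u, h⟩ else 0) = 0
        by_cases h : u ≠ u0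
        · rw [dif_pos h, MvPolynomial.eval_X]
          rfl
        · rw [dif_neg h, map_zero]
      rw [h2, MvPolynomial.eval_zero]
      exact hE j) (by omega)
  refine ⟨fun u => MvPolynomial.eval z (g u), fun j => ?_, ?_⟩
  · rw [← heval]
    exact hz' j
  · rintro ⟨μ, hμ⟩
    have hy0 : MvPolynomial.eval z (g u0) = 0 := by
      show MvPolynomial.eval z (if h : u0 ≠ u0 then X ⟨u0, h⟩ else 0) = 0
      rw [dif_neg (by simp), map_zero]
    have hμ0 : μ = 0 := by
      have h1 := congrArg (fun p => Polynomial.coeff p 1) (hμ i0)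
      rw [Polynomial.coeff_C_mul, E0_coeff_one, fy_coeff_zero] at h1
      have h2 := fy_coeff_succ a x (fun u => MvPolynomial.eval z (g u)) i0 ⟨0, by omega⟩
      rw [show ((⟨0, by omega⟩ : Fin (a i0).toNat) : ℕ) + 1 = 1 from rfl] at h2
      rw [h2, show ((⟨i0, ⟨0, by omega⟩⟩ : (Σ i : ι, Fin (a i).toNat))) = u0 from rfl, hy0] at h1
      have h3 : ((a i0).toNat : k) ≠ 0 := by
        rw [Nat.cast_ne_zero]
        omega
      have h4 := h1.symm
      rw [mul_eq_zero, mul_eq_zero] at h4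
      rcases h4 with h4 | h4 | h4
      · exact absurd h4 hx
      · exact absurd h4 h3
      · exact h4
    apply hz
    funext ⟨⟨i, j⟩, hu⟩
    have h1 := congrArg (fun p => Polynomial.coeff p ((j : ℕ) + 1)) (hμ i)
    rw [fy_coeff_succ, hμ0, map_zero, zero_mul, add_zero, one_pow, mul_one, Polynomial.coeff_C_succ] at h1
    have h2 : MvPolynomial.eval z (g ⟨i, j⟩) = z ⟨⟨i, j⟩, hu⟩ := by
      show MvPolynomial.eval z (if h : (⟨i, j⟩ : (Σ i : ι, Fin (a i).toNat)) ≠ u0 then X ⟨⟨i, j⟩, h⟩ else 0) = _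
      rw [dif_pos hu, MvPolynomial.eval_X]
    rw [← h2]
    exact h1

end Pool.Agent.LibTC2
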