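import Pool.Agent.LibTC2.DDefs
import Pool.Agent.LibTC2.DCite
import Pool.Agent.LibTC2.D3b
import Pool.Agent.LibTC2.D5

open scoped Classical
open MvPolynomial

namespace Pool.Agent.LibTC2

open Pool.Agent.LibBH2 Pool.Agent.LibQC8

variable {ι : Type} [Fintype ι] {r : ℕ} {k : Type} [Field k] {P : Tor ι r}

private theorem D6_vl0 (c : ι → ℤ) (f : ι → Polynomial k) : vl c f (some 0) = fun i => (f i).coeff 0 := by
  funext i
  simp only [vl]
  rw [← Polynomial.coeff_zero_eq_eval_zero]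

private theorem D6_occ {c : ι → ℤ} {f : ι → Polynomial k} (h : IsQ P c f) : Occ c (fun i => (f i).coeff 0) := by
  intro i hi
  show (f i).coeff 0 = 0
  rw [h.neg i hi, Polynomial.coeff_zero]

/-- a base point of a quasi-map into `X` whose class vanishes off the rays with `g i = 1` -/
theorem rem_off (X : Hyp k P) {c b : ι → ℤ} {g g' : ι → Polynomial k} {q : Option k} {μ : k}
    (hr : Rem P c g q b g' μ) (w : Pt X k) (hw0 : ∀ i, (g i).coeff 0 = w.z i) (hcmp' : cmp X g' = 0)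
    (hc : ∀ i, P.g i ≠ 1 → c i = 0) :
    aeval (vl (c - b) g' q) X.F = 0 ∧ ∀ i, P.g i ≠ 1 → b i = 0 := by
  have hg'w : (fun i => (g' i).coeff 0) = w.z := by
    funext i
    rw [hr.at0 i, hw0 i]
  have hocc : Occ (c - b) w.z := by
    rw [← hg'w]
    exact D6_occ hr.isq
  have hdk : 0 ≤ dk P (c - b) := occ_nef (x := w.z) hr.isq.rel w.cone hocc
  have hF : aeval (vl (c - b) g' q) X.F = 0 := by
    cases q with
    | none => rw [← cmp_coeff' X hr.isq hdk, hcmp', Polynomial.coeff_zero]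
    | some s => rw [← cmp_eval' X (c - b) g' s, hcmp', Polynomial.eval_zero]
  refine ⟨hF, fun i hi => ?_⟩
  have h1 : ¬ b i < 0 := fun h => X.off k _ hr.cone hF i hi (hr.occ i h)
  have h2 : ¬ (c - b) i < 0 := fun h => X.off k _ w.cone w.hF i hi (hocc i h)
  have h3 := hc i hi
  simp only [Pi.sub_apply] at h2
  omega

private theorem D6_aux [IsAlgClosed k] [CharZero k] (X : Hyp k P) (φ : Rel P →+ CH X)
    (hφ : ∀ a f (h : IsMap P a f), φ ⟨a, h.rel⟩ = cl (fcyc X a f)) (o : CH X) (N : ℤ) (b₀ : ι → ℤ)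
    (hW : ∀ a ∈ Rel P, (∀ i, P.g i ≠ 1 → a i = 0) → (∀ i, 0 ≤ a i) → a ≠ 0 → (dH P a < N ∨ a = b₀) →
      ∃ p : Pt X k, cl (pt p) = o ∧ ∃ f, Sol X a p.z f) :
    ∀ (n : ℕ) (a : ι → ℤ) (ha : a ∈ Rel P) (_ : ∀ i, P.g i ≠ 1 → a i = 0) (x : Pt X k), cl (pt x) = o →
      Occ a x.z → (dH P a).toNat = n → (dH P a < N ∨ a = b₀ ∧ dH P a ≤ N) →
      φ ⟨a, ha⟩ = ((dk P a : ℤ) : ℚ) • o := by
  intro n
  induction n using Nat.strong_induction_on with
  | _ n ih =>
    intro a ha hof x hx hocc hn hN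
    by_cases ha0 : a = 0
    · subst ha0
      have h1 : φ ⟨0, ha⟩ = 0 := map_zero φ
      have h2 : dk P (0 : ι → ℤ) = 0 := by simp [dk]
      rw [h1, h2, Int.cast_zero, zero_smul]
    · obtain ⟨z, hz, f, hf⟩ : ∃ z : Pt X k, cl (pt z) = o ∧ ∃ f, Sol X a z.z f := by
        by_cases hneg : ∃ i, a i < 0
        · exact ⟨x, hx, sol_occ X ha x hocc hof hneg⟩
        · push Not at hneg
          exact hW a ha hof hneg ha0 (hN.imp_right And.left)
      let ψ : Rel P →+ CH X :=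
        { toFun := fun c => ((dk P c.1 : ℤ) : ℚ) • o
          map_zero' := by simp [dk]
          map_add' := fun c c' => by
            have : dk P (c + c').1 = dk P c.1 + dk P c'.1 := by
              simp [dk, mul_add, Finset.sum_add_distrib]
            rw [this, Int.cast_add, add_smul] }
      have key := removal φ ψ a
        (fun c f => IsQ P c f ∧ (∃ w : Pt X k, cl (pt w) = o ∧ ∀ i, (f i).coeff 0 = w.z i) ∧ IsTot X c f ∧
          (cmp X f = 0 → ∀ i, P.g i ≠ 1 → c i = 0))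
        ?_ ?_ ?_ ?_ a f ⟨hf.q, ⟨z, hz, hf.at0⟩, hf.tot, fun _ => hof⟩ (Or.inr ⟨rfl, hf.ntriv⟩) ha
      · exact key
      · rintro c g ⟨h1, ⟨w, hw, hw0⟩, h3, h4⟩
        refine ⟨h1, ?_⟩
        have : (fun i => (g i).coeff 0) = w.z := funext hw0
        rw [this]
        exact w.cone
      · rintro c g ⟨h1, ⟨w, hw, hw0⟩, h3, h4⟩ hm
        rw [hφ c g hm, fcyc_tot X hm w hw0 h3, hw]
        rfl
      · rintro c g q b g' μ ⟨h1, ⟨w, hw, hw0⟩, h3, h4⟩ hr
        have hc : zs (fun i => (g i).coeff 0) ∈ P.C := by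
          have : (fun i => (g i).coeff 0) = w.z := funext hw0
          rw [this]
          exact w.cone
        refine ⟨hr.isq, ⟨w, hw, fun i => by rw [hr.at0 i, hw0 i]⟩, (tot_rem X h1 hc hr h3).1,
          fun h5 i hi => ?_⟩
        have hb : 0 ≤ dk P b := occ_nef hr.rel hr.cone hr.occ
        have h6 : cmp X g = 0 := by rw [cmp_rem X hr hb, h5, zero_mul]
        have h7 := (rem_off X hr w hw0 h5 (h4 h6)).2 i hi
        show c i - b i = 0
        rw [h4 h6 i hi, h7, sub_zero]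
      · rintro c g q b g' μ ⟨h1, ⟨w, hw, hw0⟩, h3, h4⟩ hr hlt
        have hgw : (fun i => (g i).coeff 0) = w.z := funext hw0
        have hc : zs (fun i => (g i).coeff 0) ∈ P.C := by
          rw [hgw]
          exact w.cone
        obtain ⟨t1, t2, t3⟩ := tot_rem X h1 hc hr h3
        show φ ⟨b, hr.rel⟩ = ((dk P b : ℤ) : ℚ) • o
        by_cases hcmp : cmp X g = 0
        · have hcmp' := t3 hcmp
          obtain ⟨hF, hbo⟩ := rem_off X hr w hw0 hcmp' (h4 hcmp)
          have hg'w : (fun i => (g' i).coeff 0) = w.z := by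
            funext i
            rw [hr.at0 i, hw0 i]
          have hvl0 : vl (c - b) g' (some 0) = w.z := by rw [D6_vl0, hg'w]
          have hcl : cl (pt (⟨vl (c - b) g' q, hr.cone, hF⟩ : Pt X k)) = o := by
            have e1 : pz X (vl (c - b) g' q) = pt (⟨vl (c - b) g' q, hr.cone, hF⟩ : Pt X k) := by
              unfold pz
              rw [dif_pos ⟨hr.cone, hF⟩]
            have e2 : pz X (vl (c - b) g' (some 0)) = pt w := by
              rw [hvl0]
              unfold pz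
              rw [dif_pos ⟨w.cone, w.hF⟩]
            rw [← e1, rat_const' X hr.isq hcmp' q (some 0) hr.cone (by rw [hvl0]; exact w.cone), e2, hw]
          have hpos := occ_ample hr.rel hr.cone hr.occ hr.ne
          exact ih (dH P b).toNat (by omega) b hr.rel hbo _ hcl hr.occ rfl (Or.inl (by
            rcases hN with h | h
            · omega
            · omega))
        · rw [t2 hcmp, Int.cast_zero, zero_smul]
          exact phi_zero X φ hφ b hr.rel (t2 hcmp) _ hr.cone hr.occ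

theorem phi_occ [IsAlgClosed k] [CharZero k] (X : Hyp k P) (φ : Rel P →+ CH X)
    (hφ : ∀ a f (h : IsMap P a f), φ ⟨a, h.rel⟩ = cl (fcyc X a f)) (o : CH X)
    (hW : ∀ a ∈ Rel P, (∀ i, P.g i ≠ 1 → a i = 0) → (∀ i, 0 ≤ a i) → a ≠ 0 →
      ∃ p : Pt X k, cl (pt p) = o ∧ ∃ f, Sol X a p.z f)
    (a : ι → ℤ) (ha : a ∈ Rel P) (hof : ∀ i, P.g i ≠ 1 → a i = 0) (x : Pt X k) (hx : cl (pt x) = o)
    (h : Occ a x.z) : φ ⟨a, ha⟩ = ((dk P a : ℤ) : ℚ) • o :=
  D6_aux X φ hφ o (dH P a + 1) a (fun c hc h1 h2 h3 _ => hW c hc h1 h2 h3) _ a ha hof x hx h rfl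
    (Or.inl (by omega))

theorem phi_min [IsAlgClosed k] [CharZero k] (X : Hyp k P) (φ : Rel P →+ CH X)
    (hφ : ∀ a f (h : IsMap P a f), φ ⟨a, h.rel⟩ = cl (fcyc X a f)) (b : ι → ℤ) (hb : b ∈ Rel P)
    (hof : ∀ i, P.g i ≠ 1 → b i = 0) (h0 : ∀ i, 0 ≤ b i)
    (hmin : ∀ c ∈ Rel P, (∀ i, P.g i ≠ 1 → c i = 0) → (∀ i, 0 ≤ c i) → c ≠ 0 → dH P b ≤ dH P c)
    (p : Pt X k) (hp : ∃ f, Sol X b p.z f) : φ ⟨b, hb⟩ = ((dk P b : ℤ) : ℚ) • cl (pt p) := by
  refine D6_aux X φ hφ (cl (pt p)) (dH P b) b ?_ _ b hb hof p rfl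
    (fun i hi => absurd hi (not_lt.mpr (h0 i))) rfl (Or.inr ⟨rfl, le_refl _⟩)
  intro c hc h1 h2 h3 h4
  rcases h4 with h4 | h4
  · exact absurd (hmin c hc h1 h2 h3) (not_le.mpr h4)
  · rw [h4]
    exact ⟨p, rfl, hp⟩

end Pool.Agent.LibTC2
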