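import Pool.Agent.LibTC2.DDefs
import Pool.Agent.LibTC2.D6

/-!
Row [TC1 DMain] (helper25).  SHORT/MEDIUM. PLAN: for `c ∈ Rel P` with `∀ i, 0 ≤ c i`: `φ c = dk P c • o`: if `c = 0` trivial, otherwise `hW c` gives a point `p` of class `o`, `c` occurs at `p.z`
(no negative entries) and `phi_occ`.  `P.compl (fun j => -∑ i, v i j)` gives `m : ι → ℕ`; `b0 i = m i + 1`, `b0 ∈ Rel P`, `1 ≤ b0 i`.  For `a ∈ Rel P` let
`n = ∑ i, (a i).natAbs`: `0 ≤ a i + n * b0 i` for all `i`.  `φ a = φ (a + n • b0) - n • φ b0 = (dk P (a + n b0) - n dk P b0) • o = dk P a • o`.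
-/

open scoped Classical
open MvPolynomial

namespace Pool.Agent.LibTC2

open Pool.Agent.LibBH2 Pool.Agent.LibQC8

variable {ι : Type} [Fintype ι] {r : ℕ} {k : Type} [Field k] {P : Tor ι r}

theorem all_classes [IsAlgClosed k] [CharZero k] (X : Hyp k P) (φ : Rel P →+ CH X)
    (hφ : ∀ a f (h : IsMap P a f), φ ⟨a, h.rel⟩ = cl (fcyc X a f)) (o : CH X)
    (hW : ∀ a ∈ Rel P, (∀ i, P.g i ≠ 1 → a i = 0) → (∀ i, 0 ≤ a i) → a ≠ 0 →
      ∃ p : Pt X k, cl (pt p) = o ∧ ∃ f, Sol X a p.z f) (a : Rel P)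
    (hof : ∀ i, P.g i ≠ 1 → a.1 i = 0)
    (hsp : ∃ m : ι → ℤ, m ∈ Rel P ∧ m ≠ 0 ∧ (∀ i, P.g i = 1 → 1 ≤ m i) ∧ ∀ i, P.g i ≠ 1 → m i = 0) :
    φ a = ((dk P a.1 : ℤ) : ℚ) • o := by
  have hpos : ∀ (c : ι → ℤ) (hc : c ∈ Rel P), (∀ i, P.g i ≠ 1 → c i = 0) → (∀ i, 0 ≤ c i) →
      φ ⟨c, hc⟩ = ((dk P c : ℤ) : ℚ) • o := by
    intro c hc hco h0
    by_cases hne : c = 0
    · subst hne
      have h1 : (⟨0, hc⟩ : Rel P) = 0 := rfl
      rw [h1, map_zero]
      simp [dk]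
    · obtain ⟨p, hp, _⟩ := hW c hc hco h0 hne
      exact phi_occ X φ hφ o hW c hc hco p hp fun i hi => absurd hi (not_lt.mpr (h0 i))
  obtain ⟨m, hm, -, hm1, hm0⟩ := hsp
  set B : Rel P := ⟨m, hm⟩ with hBdef
  have hBo : ∀ i, P.g i ≠ 1 → B.1 i = 0 := by
    intro i hi
    exact hm0 i hi
  set n : ℕ := ∑ i, (a.1 i).natAbs with hn
  have hc : ∀ i, (a + n • B).1 i = a.1 i + n * m i := by
    intro i
    simp [hBdef]
  have hnn : ∀ i, 0 ≤ (a + n • B).1 i := by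
    intro i
    rw [hc]
    by_cases hg : P.g i = 1
    · have h1 : (a.1 i).natAbs ≤ n :=
        Finset.single_le_sum (f := fun i => (a.1 i).natAbs) (fun _ _ => Nat.zero_le _)
          (Finset.mem_univ i)
      have h2 : (n : ℤ) * 1 ≤ n * m i := by
        apply mul_le_mul_of_nonneg_left
        · exact hm1 i hg
        · positivity
      have h4 : -((a.1 i).natAbs : ℤ) ≤ a.1 i := by omega
      have h5 : ((a.1 i).natAbs : ℤ) ≤ n := by exact_mod_cast h1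
      linarith
    · rw [hof i hg, hm0 i hg]
      simp
  have h1 := hpos (a + n • B).1 (a + n • B).2 (fun i hi => by rw [hc, hof i hi, hm0 i hi]; simp) hnn
  have h2 := hpos B.1 B.2 hBo (fun i => by
    change 0 ≤ m i
    by_cases hg : P.g i = 1
    · have := hm1 i hg
      omega
    · rw [hm0 i hg])
  have h3 : φ (a + n • B) = φ a + n • φ B := by rw [map_add, map_nsmul]
  have h4 : dk P (a + n • B).1 = dk P a.1 + n * dk P B.1 := by
    unfold dk
    rw [Finset.mul_sum, ← Finset.sum_add_distrib]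
    refine Finset.sum_congr rfl fun i _ => ?_
    rw [hc i]
    change _ = (P.g i : ℤ) * a.1 i + n * ((P.g i : ℤ) * m i)
    ring
  have h5 : φ (a + n • B) = ((dk P (a + n • B).1 : ℤ) : ℚ) • o := h1
  have h6 : φ B = ((dk P B.1 : ℤ) : ℚ) • o := h2
  rw [h3, h6, h4] at h5
  have h7 : n • (((dk P B.1 : ℤ) : ℚ) • o) = ((n : ℚ) * ((dk P B.1 : ℤ) : ℚ)) • o := by
    rw [mul_smul, Nat.cast_smul_eq_nsmul]
  rw [h7] at h5
  push_cast at h5
  rw [add_smul] at h5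
  exact add_right_cancel h5

end Pool.Agent.LibTC2
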