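import Pool.Agent.LibTC2.N1
import Pool.Agent.LibTC2.D1
import Pool.Agent.LibTC2.C15

/-!
Elimination of the divisors `D_i` with `g i ≠ 1`.
-/

open scoped Classical
open MvPolynomial

set_option linter.unusedSectionVars false

namespace Pool.Agent.LibTC2

open Pool.Agent.LibBH2 Pool.Agent.LibQC8

variable {ι : Type} [Fintype ι] {r : ℕ} {k : Type} [Field k] {P : Tor ι r}

/-- the classes of curves in the divisors `D_i`, `g i ≠ 1` -/
structure Ex (P : Tor ι r) (B : ι → ι → ℤ) : Prop where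
  rel : ∀ i, P.g i ≠ 1 → B i ∈ Rel P
  nn : ∀ i, P.g i ≠ 1 → ∀ j, j ≠ i → 0 ≤ B i j
  dk : ∀ i, P.g i ≠ 1 → dk P (B i) = 0
  pos : ∀ i, P.g i ≠ 1 → 0 < dH P (B i)
  occ : ∀ i, P.g i ≠ 1 → Occ (k := ℚ) (B i) (fun j => if j = i then 0 else 1)

theorem exists_ex [IsAlgClosed k] (hr : 2 ≤ r) (X : Hyp k P) : ∃ B, Ex P B := by
  choose B h1 h2 h3 h4 using exists_star hr P
  have hocc : ∀ i, Occ (k := ℚ) (B i) (fun j => if j = i then 0 else 1) := by
    intro i j hj
    by_cases h : j = i
    · show (if j = i then (0 : ℚ) else 1) = 0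
      rw [if_pos h]
    · exact absurd hj (not_lt.2 (h3 i j h))
  have hcone : ∀ i, zs (fun j => if j = i then (0 : ℚ) else 1) ∈ P.C := by
    intro i
    refine P.down _ (P.single i) _ ?_
    intro j hj
    simp only [zs, Finset.mem_filter, Finset.mem_univ, true_and] at hj
    rw [Finset.mem_singleton]
    by_contra h
    rw [if_neg h] at hj
    exact one_ne_zero hj
  exact ⟨B, fun i _ => h1 i, fun i _ => h3 i, fun i hi => dk_star X i hi (B i) (h1 i) (h3 i) (h4 i),
    fun i _ => occ_ample (h1 i) (hcone i) (hocc i) (h2 i), fun i _ => hocc i⟩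

/-- a nonnegative combination which is nonnegative vanishes -/
theorem ex_zero {B : ι → ι → ℤ} (hB : Ex P B) (S : Finset ι) (hS : ∀ i ∈ S, P.g i ≠ 1) (c : ι → ℚ)
    (hc : ∀ i ∈ S, 0 < c i) (h : ∀ j, 0 ≤ ∑ i ∈ S, c i * (B i j : ℚ)) : S = ∅ := by
  by_contra hne
  obtain ⟨i₀, hi₀⟩ := Finset.nonempty_iff_ne_empty.2 hne
  have h1 : ∑ j, (P.g j : ℚ) * ∑ i ∈ S, c i * (B i j : ℚ) = 0 := by
    have h2 : ∀ i ∈ S, ∑ j, (P.g j : ℚ) * (c i * (B i j : ℚ)) = 0 := by
      intro i hi
      have h3 := hB.dk i (hS i hi)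
      have h4 : ((dk P (B i) : ℤ) : ℚ) = 0 := by rw [h3, Int.cast_zero]
      unfold LibTC2.dk at h4
      push_cast at h4
      have h5 : ∑ j, (P.g j : ℚ) * (c i * (B i j : ℚ)) = c i * ∑ j, (P.g j : ℚ) * (B i j : ℚ) := by
        rw [Finset.mul_sum]
        exact Finset.sum_congr rfl fun j _ => by ring
      rw [h5, h4, mul_zero]
    simp only [Finset.mul_sum]
    rw [Finset.sum_comm]
    refine Finset.sum_eq_zero fun i hi => ?_
    exact h2 i hi
  have h2 : ∀ j, ∑ i ∈ S, c i * (B i j : ℚ) = 0 := by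
    intro j
    have h3 := (Finset.sum_eq_zero_iff_of_nonneg (fun j _ => mul_nonneg (Nat.cast_nonneg (P.g j)) (h j))).1 h1 j
      (Finset.mem_univ j)
    rcases mul_eq_zero.1 h3 with h4 | h4
    · have h5 := P.pos j
      have h6 : P.g j = 0 := by exact_mod_cast h4
      omega
    · exact h4
  have h3 : ∑ j, (P.H j : ℚ) * ∑ i ∈ S, c i * (B i j : ℚ) = 0 :=
    Finset.sum_eq_zero fun j _ => by rw [h2 j, mul_zero]
  have h4 : ∑ j, (P.H j : ℚ) * ∑ i ∈ S, c i * (B i j : ℚ) = ∑ i ∈ S, c i * ((dH P (B i) : ℤ) : ℚ) := by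
    simp only [Finset.mul_sum]
    rw [Finset.sum_comm]
    refine Finset.sum_congr rfl fun i _ => ?_
    unfold dH
    push_cast
    rw [Finset.mul_sum]
    exact Finset.sum_congr rfl fun j _ => by ring
  have h5 : 0 < ∑ i ∈ S, c i * ((dH P (B i) : ℤ) : ℚ) :=
    Finset.sum_pos (fun i hi => mul_pos (hc i hi) (by exact_mod_cast hB.pos i (hS i hi))) ⟨i₀, hi₀⟩
  rw [← h4, h3] at h5
  exact lt_irrefl _ h5

/-- the left kernel of the matrix `B i j`, `g i, g j ≠ 1`, is zero -/
theorem ex_ker {B : ι → ι → ℤ} (hB : Ex P B) (c : ι → ℚ) (hc0 : ∀ i, P.g i = 1 → c i = 0)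
    (h : ∀ j, P.g j ≠ 1 → ∑ i, c i * (B i j : ℚ) = 0) (i : ι) : c i ≤ 0 := by
  set S : Finset ι := Finset.univ.filter fun i => 0 < c i with hS
  have hSg : ∀ i ∈ S, P.g i ≠ 1 := by
    intro i hi hg
    rw [hS, Finset.mem_filter] at hi
    rw [hc0 i hg] at hi
    exact lt_irrefl _ hi.2
  have h1 : S = ∅ := by
    refine ex_zero hB S hSg c (fun i hi => by rw [hS, Finset.mem_filter] at hi; exact hi.2) ?_
    intro j
    by_cases hj : j ∈ S
    · have h2 := h j (hSg j hj)
      have h3 : ∑ i, c i * (B i j : ℚ) = ∑ i ∈ S, c i * (B i j : ℚ) +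
          ∑ i ∈ Finset.univ.filter (fun i => ¬ 0 < c i), c i * (B i j : ℚ) :=
        (Finset.sum_filter_add_sum_filter_not Finset.univ (fun i => 0 < c i) _).symm
      have h4 : ∑ i ∈ Finset.univ.filter (fun i => ¬ 0 < c i), c i * (B i j : ℚ) ≤ 0 := by
        refine Finset.sum_nonpos fun i hi => ?_
        rw [Finset.mem_filter] at hi
        have h5 : c i ≤ 0 := not_lt.1 hi.2
        by_cases hg : P.g i = 1
        · rw [hc0 i hg, zero_mul]
        · have hij : j ≠ i := by
            rintro rfl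
            rw [hS, Finset.mem_filter] at hj
            exact hi.2 hj.2
          have h6 : (0 : ℚ) ≤ B i j := by exact_mod_cast hB.nn i hg j hij
          exact mul_nonpos_of_nonpos_of_nonneg h5 h6
      linarith
    · refine Finset.sum_nonneg fun i hi => ?_
      have hij : j ≠ i := by
        rintro rfl
        exact hj hi
      have h6 : (0 : ℚ) ≤ B i j := by exact_mod_cast hB.nn i (hSg i hi) j hij
      rw [hS, Finset.mem_filter] at hi
      exact mul_nonneg hi.2.le h6
  by_contra hi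
  have h2 : i ∈ S := by
    rw [hS, Finset.mem_filter]
    exact ⟨Finset.mem_univ i, not_le.1 hi⟩
  rw [h1] at h2
  exact absurd h2 (Finset.notMem_empty i)

/-- elimination of the coordinates with `g j ≠ 1` -/
theorem ex_elim {B : ι → ι → ℤ} (hB : Ex P B) (γ : ι → ℤ) :
    ∃ (N : ℕ) (n : ι → ℤ), 0 < N ∧ (∀ i, P.g i = 1 → n i = 0) ∧
      ∀ j, P.g j ≠ 1 → (N : ℤ) * γ j + ∑ i, n i * B i j = 0 := by
  let I := {i : ι // P.g i ≠ 1}
  let A : Matrix I I ℚ := fun i j => (B i.1 j.1 : ℚ)
  have hsum : ∀ (c : I → ℚ) (j : ι), ∑ i, (if h : P.g i ≠ 1 then c ⟨i, h⟩ else 0) * (B i j : ℚ) =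
      ∑ i : I, c i * (B i.1 j : ℚ) := by
    intro c j
    rw [← Finset.sum_filter_add_sum_filter_not Finset.univ (fun i => P.g i ≠ 1)]
    have h1 : ∑ i ∈ Finset.univ.filter (fun i => ¬ P.g i ≠ 1),
        (if h : P.g i ≠ 1 then c ⟨i, h⟩ else 0) * (B i j : ℚ) = 0 := by
      refine Finset.sum_eq_zero fun i hi => ?_
      rw [Finset.mem_filter] at hi
      rw [dif_neg hi.2, zero_mul]
    rw [h1, add_zero]
    rw [← Finset.sum_subtype_eq_sum_filter]
    rw [Finset.subtype_univ]
    refine Finset.sum_congr rfl fun i _ => ?_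
    rw [dif_pos i.2]
  have hdet : A.det ≠ 0 := by
    intro h0
    obtain ⟨c, hc, h1⟩ := Matrix.exists_vecMul_eq_zero_iff.2 h0
    apply hc
    have h2 : ∀ s : ℚ, ∀ i, s * (if h : P.g i ≠ 1 then c ⟨i, h⟩ else 0) ≤ 0 := by
      intro s
      refine ex_ker hB (fun i => s * (if h : P.g i ≠ 1 then c ⟨i, h⟩ else 0)) (fun i hi => ?_) fun j hj => ?_
      · rw [dif_neg (not_not.2 hi), mul_zero]
      · have h3 := congrFun h1 ⟨j, hj⟩
        simp only [Matrix.vecMul, dotProduct, Pi.zero_apply] at h3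
        have h4 := hsum c j
        simp only [mul_assoc]
        rw [← Finset.mul_sum, h4]
        have h5 : ∑ i : I, c i * (B i.1 j : ℚ) = 0 := h3
        rw [h5, mul_zero]
    funext i
    have h3 := h2 1 i.1
    have h4 := h2 (-1) i.1
    rw [dif_pos i.2] at h3 h4
    show c i = 0
    have e : c ⟨i.1, i.2⟩ = c i := rfl
    rw [e] at h3 h4
    linarith
  obtain ⟨c, hc⟩ : ∃ c : I → ℚ, Matrix.vecMul c A = fun j => -(γ j.1 : ℚ) := by
    refine ⟨Matrix.vecMul (fun j => -(γ j.1 : ℚ)) A⁻¹, ?_⟩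
    rw [Matrix.vecMul_vecMul, Matrix.nonsing_inv_mul _ (isUnit_iff_ne_zero.2 hdet), Matrix.vecMul_one]
  let N : ℕ := ∏ i : I, (c i).den
  have hN : 0 < N := Finset.prod_pos fun i _ => (c i).den_pos
  have hint : ∀ i : I, ∃ z : ℤ, (z : ℚ) = N * c i := by
    intro i
    obtain ⟨q, hq⟩ : (c i).den ∣ N := Finset.dvd_prod_of_mem _ (Finset.mem_univ i)
    refine ⟨q * (c i).num, ?_⟩
    have h1 : ((c i).den : ℚ) * c i = (c i).num := Rat.den_mul_eq_num (c i)
    rw [hq]
    push_cast
    rw [← h1]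
    ring
  choose z hz using hint
  refine ⟨N, fun i => if h : P.g i ≠ 1 then z ⟨i, h⟩ else 0, hN, fun i hi => ?_, fun j hj => ?_⟩
  · show (if h : P.g i ≠ 1 then z ⟨i, h⟩ else 0) = 0
    exact dif_neg (not_not.2 hi)
  · have h1 := congrFun hc ⟨j, hj⟩
    have h2 : ∑ i : I, c i * (B i.1 j : ℚ) = -(γ j : ℚ) := h1
    have h3 := hsum (fun i => (z i : ℚ)) j
    have h4 : ∑ i : I, (z i : ℚ) * (B i.1 j : ℚ) = (N : ℚ) * -(γ j : ℚ) := by
      rw [← h2, Finset.mul_sum]
      exact Finset.sum_congr rfl fun i _ => by rw [hz i]; ring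
    have h5 : (((N : ℤ) * γ j + ∑ i, (if h : P.g i ≠ 1 then z ⟨i, h⟩ else 0) * B i j : ℤ) : ℚ) = 0 := by
      push_cast
      have h6 : ∀ i, (((if h : P.g i ≠ 1 then z ⟨i, h⟩ else 0 : ℤ)) : ℚ) =
          (if h : P.g i ≠ 1 then (z ⟨i, h⟩ : ℚ) else 0) := by
        intro i
        split_ifs <;> simp
      simp only [h6]
      rw [h3, h4]
      ring
    exact_mod_cast h5

/-- the rays with `g i = 1` carry a positive relation -/
theorem exists_span {B : ι → ι → ℤ} [Nonempty ι] (hB : Ex P B) :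
    ∃ m : ι → ℤ, m ∈ Rel P ∧ m ≠ 0 ∧ (∀ i, P.g i = 1 → 1 ≤ m i) ∧ ∀ i, P.g i ≠ 1 → m i = 0 := by
  obtain ⟨b, hb, hb0⟩ := exists_b0 P
  obtain ⟨N, n, hN, hn0, hn⟩ := ex_elim hB b
  have hNb : ∀ j, 0 < (N : ℤ) * b j := fun j => mul_pos (by exact_mod_cast hN) (hb0 j)
  have hnn : ∀ i, 0 ≤ n i := by
    set S : Finset ι := Finset.univ.filter fun i => n i < 0 with hS
    have hSg : ∀ i ∈ S, P.g i ≠ 1 := by
      intro i hi hg
      rw [hS, Finset.mem_filter, hn0 i hg] at hi
      exact lt_irrefl _ hi.2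
    have h1 : S = ∅ := by
      refine ex_zero hB S hSg (fun i => -(n i : ℚ)) (fun i hi => ?_) fun j => ?_
      · rw [hS, Finset.mem_filter] at hi
        have : (n i : ℚ) < 0 := by exact_mod_cast hi.2
        linarith
      · by_cases hj : j ∈ S
        · have h2 := hn j (hSg j hj)
          have h3 : ∑ i, n i * B i j = ∑ i ∈ S, n i * B i j +
              ∑ i ∈ Finset.univ.filter (fun i => ¬ n i < 0), n i * B i j :=
            (Finset.sum_filter_add_sum_filter_not Finset.univ (fun i => n i < 0) _).symm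
          have h4 : 0 ≤ ∑ i ∈ Finset.univ.filter (fun i => ¬ n i < 0), n i * B i j := by
            refine Finset.sum_nonneg fun i hi => ?_
            rw [Finset.mem_filter] at hi
            by_cases hg : P.g i = 1
            · rw [hn0 i hg, zero_mul]
            · have hij : j ≠ i := by
                rintro rfl
                rw [hS, Finset.mem_filter] at hj
                exact hi.2 hj.2
              exact mul_nonneg (not_lt.1 hi.2) (hB.nn i hg j hij)
          have h5 : 0 ≤ -∑ i ∈ S, n i * B i j := by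
            have := hNb j
            linarith
          have h6 : ∑ i ∈ S, -(n i : ℚ) * (B i j : ℚ) = ((-∑ i ∈ S, n i * B i j : ℤ) : ℚ) := by
            push_cast
            rw [← Finset.sum_neg_distrib]
            exact Finset.sum_congr rfl fun i _ => by ring
          rw [h6]
          exact_mod_cast h5
        · refine Finset.sum_nonneg fun i hi => ?_
          have hij : j ≠ i := by
            rintro rfl
            exact hj hi
          have h6 : (0 : ℚ) ≤ B i j := by exact_mod_cast hB.nn i (hSg i hi) j hij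
          rw [hS, Finset.mem_filter] at hi
          have h7 : (n i : ℚ) < 0 := by exact_mod_cast hi.2
          exact mul_nonneg (by linarith) h6
    intro i
    by_contra hi
    have h2 : i ∈ S := by
      rw [hS, Finset.mem_filter]
      exact ⟨Finset.mem_univ i, not_le.1 hi⟩
    rw [h1] at h2
    exact absurd h2 (Finset.notMem_empty i)
  have hrel : (fun j => (N : ℤ) * b j + ∑ i, n i * B i j) ∈ Rel P := by
    intro j
    have h1 : ∑ x, b x * P.v x j = 0 := hb j
    have h2 : ∀ i, n i * ∑ x, B i x * P.v x j = 0 := by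
      intro i
      by_cases hg : P.g i = 1
      · rw [hn0 i hg, zero_mul]
      · have : ∑ x, B i x * P.v x j = 0 := hB.rel i hg j
        rw [this, mul_zero]
    have h3 : ∑ x, ((N : ℤ) * b x + ∑ i, n i * B i x) * P.v x j =
        N * ∑ x, b x * P.v x j + ∑ i, n i * ∑ x, B i x * P.v x j := by
      simp only [add_mul, Finset.sum_add_distrib, Finset.mul_sum, Finset.sum_mul]
      congr 1
      · exact Finset.sum_congr rfl fun x _ => by ring
      · rw [Finset.sum_comm]
        exact Finset.sum_congr rfl fun i _ => Finset.sum_congr rfl fun x _ => by ring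
    rw [h3, h1, mul_zero, zero_add]
    exact Finset.sum_eq_zero fun i _ => h2 i
  have hdkm : dk P (fun j => (N : ℤ) * b j + ∑ i, n i * B i j) = N * dk P b := by
    have h2 : ∀ i, n i * ∑ x, (P.g x : ℤ) * B i x = 0 := by
      intro i
      by_cases hg : P.g i = 1
      · rw [hn0 i hg, zero_mul]
      · have : ∑ x, (P.g x : ℤ) * B i x = 0 := hB.dk i hg
        rw [this, mul_zero]
    unfold dk
    have h3 : ∑ x, (P.g x : ℤ) * ((N : ℤ) * b x + ∑ i, n i * B i x) =
        N * ∑ x, (P.g x : ℤ) * b x + ∑ i, n i * ∑ x, (P.g x : ℤ) * B i x := by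
      simp only [mul_add, Finset.sum_add_distrib, Finset.mul_sum]
      congr 1
      · exact Finset.sum_congr rfl fun x _ => by ring
      · rw [Finset.sum_comm]
        exact Finset.sum_congr rfl fun i _ => Finset.sum_congr rfl fun x _ => by ring
    rw [h3, Finset.sum_eq_zero fun i _ => h2 i, add_zero]
  have hdb : 0 < dk P b := by
    unfold dk
    refine Finset.sum_pos (fun j _ => ?_) Finset.univ_nonempty
    exact mul_pos (by exact_mod_cast P.pos j) (hb0 j)
  refine ⟨fun j => (N : ℤ) * b j + ∑ i, n i * B i j, hrel, fun h => ?_, fun j hj => ?_, fun j hj => hn j hj⟩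
  · rw [h] at hdkm
    have h1 : dk P (0 : ι → ℤ) = 0 := by simp [dk]
    rw [h1] at hdkm
    have h2 : 0 < (N : ℤ) * dk P b := mul_pos (by exact_mod_cast hN) hdb
    omega
  · have h1 : 0 ≤ ∑ i, n i * B i j := by
      refine Finset.sum_nonneg fun i _ => ?_
      by_cases hg : P.g i = 1
      · rw [hn0 i hg, zero_mul]
      · have hij : j ≠ i := by
          rintro rfl
          exact hg hj
        exact mul_nonneg (hnn i) (hB.nn i hg j hij)
    have h2 := hNb j
    show 1 ≤ (N : ℤ) * b j + ∑ i, n i * B i j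
    omega

end Pool.Agent.LibTC2
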