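import Pool.Agent.LibTC2.P2

/-!
[TC1 P6] (SHORT) The divisor of a function is zero in `CH`; the degree.

div_rel: copy LibPC60/B8.lean (`Submodule.subset_span ⟨K, inferInstance, inferInstance, u, f, A, p, hK, hf, hA, fun v _ => h v, rfl⟩`).
dg_of_cl: copy LibPC60/Degree.lean. dg_pt, dg_add, dg_smul, dg_zero: `Finsupp.sum` (or `dg = linearCombination ℚ (fun _ => 1)`).
cl_add, cl_smul, cl_zero, cl_sum: `rfl` / `map_sum (Rat X).mkQ`.
-/

open scoped Classical
open MvPolynomial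

set_option linter.unusedSectionVars false

namespace Pool.Agent.LibTC2

open Pool.Agent.LibBH2 Pool.Agent.LibQC8

variable {ι : Type} [Fintype ι] {r : ℕ} {k : Type} [Field k] [IsAlgClosed k] {P : Tor ι r}
  {K : Type} [Field K] [Algebra k K]

theorem div_rel (X : Hyp k P) (hK : IsFunctionField k K) (u : Pt X K)
    (p : Place k K → Pt X k) (h : ∀ v, ∃ l, Sp v u (p v) l) (f : K) (hf : f ≠ 0)
    (A : Finset (Place k K)) (hA : ∀ v, v.ord f ≠ 0 → v ∈ A) :
    ∑ v ∈ A, (v.ord f : ℚ) • cl (pt (p v)) = 0 := by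
  have hmem : (∑ v ∈ A, (v.ord f : ℚ) • pt (p v)) ∈ Rat X :=
    Submodule.subset_span ⟨K, inferInstance, inferInstance, u, f, A, p, hK, hf, hA,
      fun v _ => h v, rfl⟩
  have h1 : (Rat X).mkQ (∑ v ∈ A, (v.ord f : ℚ) • pt (p v)) = 0 := by
    rw [Submodule.mkQ_apply]
    exact (Submodule.Quotient.mk_eq_zero _).2 hmem
  rw [map_sum] at h1
  rw [← h1]
  refine Finset.sum_congr rfl fun v _ => ?_
  rw [map_smul]
  rfl

/-- the degree as a linear map -/
private noncomputable def p6_dgL (X : Hyp k P) : Cyc X →ₗ[ℚ] ℚ :=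
  Finsupp.linearCombination ℚ (fun _ : XPt X => (1 : ℚ))

private theorem p6_dgL_eq {X : Hyp k P} (a : Cyc X) : p6_dgL X a = dg a := by
  unfold p6_dgL dg
  rw [Finsupp.linearCombination_apply]
  simp

private theorem p6_dg_isDiv {X : Hyp k P} (a : Cyc X) (h : IsDiv X a) : dg a = 0 := by
  obtain ⟨K, _, _, u, f, A, p, hK, hf, hA, _, rfl⟩ := h
  have h1 : ∑ v ∈ A, (v.ord f : ℚ) = 0 := by
    obtain ⟨_, h4⟩ := Pool.Agent.LibEnd77.Val8.sum_formula hK f
    rw [finsum_eq_sum_of_support_subset _ (s := A) (by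
      intro v hv
      exact hA v hv)] at h4
    exact_mod_cast h4
  rw [← p6_dgL_eq, map_sum, ← h1]
  refine Finset.sum_congr rfl fun v _ => ?_
  rw [map_smul]
  unfold p6_dgL pt
  rw [Finsupp.linearCombination_single]
  simp

theorem dg_of_cl {X : Hyp k P} (a : Cyc X) (h : cl a = 0) : dg a = 0 := by
  have h1 : a ∈ Rat X := (Submodule.Quotient.mk_eq_zero _).1 h
  have h2 : Rat X ≤ LinearMap.ker (p6_dgL X) := by
    unfold Rat
    rw [Submodule.span_le]
    intro b hb
    rw [SetLike.mem_coe, LinearMap.mem_ker, p6_dgL_eq]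
    exact p6_dg_isDiv b hb
  have h3 := h2 h1
  rw [LinearMap.mem_ker, p6_dgL_eq] at h3
  exact h3

theorem dg_pt {X : Hyp k P} (p : Pt X k) : dg (pt p) = 1 := by
  rw [← p6_dgL_eq]
  unfold p6_dgL pt
  rw [Finsupp.linearCombination_single]
  simp

theorem cl_zero (X : Hyp k P) : cl (0 : Cyc X) = 0 := rfl

theorem cl_add {X : Hyp k P} (a b : Cyc X) : cl (a + b) = cl a + cl b := rfl

theorem cl_smul {X : Hyp k P} (q : ℚ) (a : Cyc X) : cl (q • a) = q • cl a := rfl

theorem cl_nsmul {X : Hyp k P} (n : ℕ) (a : Cyc X) : cl (n • a) = n • cl a := rfl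

theorem cl_msum {X : Hyp k P} {S : Type} (m : Multiset S) (g : S → Cyc X) :
    cl (m.map g).sum = (m.map fun s => cl (g s)).sum := by
  have h := map_multiset_sum (Rat X).mkQ (m.map g)
  rw [Multiset.map_map] at h
  exact h

end Pool.Agent.LibTC2
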