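import Pool.Agent.LibTC2.BC3
import Pool.Agent.LibTC2.DMain
import Pool.Agent.LibTC2.N2
import Pool.Agent.LibTC2.C18
import Pool.Agent.LibTC2.P6

/-!
Calabi-Yau hypersurfaces in toric varieties: every rational curve of the toric variety meets `X` in a multiple of one class.
-/

open scoped Classical
open MvPolynomial

set_option linter.unusedSectionVars false

namespace Pool.Agent.LibTC2

open Pool.Agent.LibBH2 Pool.Agent.LibQC8

variable {ι : Type} [Fintype ι] {r : ℕ} {k : Type} [Field k] {P : Tor ι r}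

/-- from the classes which vanish off the rays with `g i = 1` to all classes -/
theorem ex_all [IsAlgClosed k] [CharZero k] (X : Hyp k P) (φ : Rel P →+ CH X)
    (hφ : ∀ a f (h : IsMap P a f), φ ⟨a, h.rel⟩ = cl (fcyc X a f)) {B : ι → ι → ℤ} (hB : Ex P B)
    (o : CH X)
    (h : ∀ c : Rel P, (∀ i, P.g i ≠ 1 → c.1 i = 0) → φ c = ((dk P c.1 : ℤ) : ℚ) • o) (a : Rel P) :
    φ a = ((dk P a.1 : ℤ) : ℚ) • o := by
  obtain ⟨N, n, hN, hn0, hn⟩ := ex_elim hB a.1
  let β : ι → Rel P := fun i => if h : P.g i ≠ 1 then ⟨B i, hB.rel i h⟩ else 0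
  have hβ : ∀ i, φ (β i) = 0 := by
    intro i
    by_cases hi : P.g i ≠ 1
    · have e : β i = ⟨B i, hB.rel i hi⟩ := dif_pos hi
      rw [e]
      refine phi_zero X φ hφ (B i) (hB.rel i hi) (hB.dk i hi) (fun j => if j = i then 0 else 1) ?_ ?_
      · refine P.down _ (P.single i) _ ?_
        intro j hj
        simp only [zs, Finset.mem_filter, Finset.mem_univ, true_and] at hj
        rw [Finset.mem_singleton]
        by_contra h
        rw [if_neg h] at hj
        exact one_ne_zero hj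
      · intro j hj
        have h1 := hB.occ i hi j hj
        by_cases hji : j = i
        · show (if j = i then (0 : k) else 1) = 0
          rw [if_pos hji]
        · simp only [if_neg hji] at h1
          exact absurd h1 one_ne_zero
    · have e : β i = 0 := dif_neg hi
      rw [e, map_zero]
  have hdβ : ∀ i, dk P (β i).1 = 0 := by
    intro i
    by_cases hi : P.g i ≠ 1
    · have e : β i = ⟨B i, hB.rel i hi⟩ := dif_pos hi
      rw [e]
      exact hB.dk i hi
    · have e : β i = 0 := dif_neg hi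
      rw [e]
      show dk P (0 : ι → ℤ) = 0
      simp [dk]
  have hβj : ∀ i j, n i * (β i).1 j = n i * B i j := by
    intro i j
    by_cases hi : P.g i ≠ 1
    · have e : β i = ⟨B i, hB.rel i hi⟩ := dif_pos hi
      rw [e]
    · rw [hn0 i (not_not.1 hi), zero_mul, zero_mul]
  let c : Rel P := N • a + ∑ i, n i • β i
  have hcj : ∀ j, c.1 j = (N : ℤ) * a.1 j + ∑ i, n i * B i j := by
    intro j
    have h1 : (∑ i, n i • β i : Rel P).1 j = ∑ i, n i * (β i).1 j := by
      rw [AddSubgroup.val_finset_sum, Finset.sum_apply]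
      refine Finset.sum_congr rfl fun i _ => ?_
      simp
    show (N • a + ∑ i, n i • β i : Rel P).1 j = _
    rw [AddSubgroup.coe_add, Pi.add_apply, h1]
    simp only [hβj]
    simp
  have hc := h c fun j hj => by rw [hcj]; exact hn j hj
  have h1 : φ c = (N : ℚ) • φ a := by
    show φ (N • a + ∑ i, n i • β i) = _
    rw [map_add, map_nsmul, map_sum, Finset.sum_eq_zero, add_zero, Nat.cast_smul_eq_nsmul]
    intro i _
    rw [map_zsmul, hβ i, smul_zero]
  have h2 : dk P c.1 = (N : ℤ) * dk P a.1 := by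
    have h3 : dk P c.1 = (N : ℤ) * dk P a.1 + ∑ i, n i * dk P (β i).1 := by
      unfold dk
      simp only [hcj, Finset.mul_sum, mul_add, Finset.sum_add_distrib]
      congr 1
      · exact Finset.sum_congr rfl fun x _ => by ring
      · rw [Finset.sum_comm]
        refine Finset.sum_congr rfl fun i _ => Finset.sum_congr rfl fun x _ => ?_
        rw [← hβj]
        ring
    rw [h3]
    simp only [hdβ, mul_zero, Finset.sum_const_zero, add_zero]
  rw [h1, h2] at hc
  have hN' : (N : ℚ) ≠ 0 := by exact_mod_cast hN.ne'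
  have h4 : (N : ℚ) • φ a = (N : ℚ) • (((dk P a.1 : ℤ) : ℚ) • o) := by
    rw [hc, smul_smul]
    push_cast
    rfl
  exact smul_right_injective _ hN' h4

theorem main_big [IsAlgClosed k] [CharZero k] (hr : 4 ≤ r) (X : Hyp k P)
    (hF : ∃ e ∈ X.F.support, ∃ e' ∈ X.F.support, e ≠ e') :
    (∀ a : Cyc X, cl a = 0 → dg a = 0) ∧
      ∃ o : Cyc X, dg o = 1 ∧ ∀ (a : ι → ℤ) (f : ι → Polynomial k), IsMap P a f →
        cl (fcyc X a f) = ((dk P a : ℤ) : ℚ) • cl o := by
  refine ⟨fun a ha => dg_of_cl a ha, ?_⟩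
  have hne : Nonempty ι := by
    by_contra h
    rw [not_nonempty_iff] at h
    obtain ⟨e, -, e', -, hee⟩ := hF
    exact hee (Subsingleton.elim _ _)
  obtain ⟨φ, hφ⟩ := exists_phi X
  obtain ⟨B, hB⟩ := exists_ex (k := k) (by omega) X
  have hsp := exists_span hB
  -- a minimal class
  obtain ⟨b, hb, hbof, hb0, hbne, hmin⟩ : ∃ b ∈ Rel P, (∀ i, P.g i ≠ 1 → b i = 0) ∧ (∀ i, 0 ≤ b i) ∧
      b ≠ 0 ∧ ∀ c ∈ Rel P, (∀ i, P.g i ≠ 1 → c i = 0) → (∀ i, 0 ≤ c i) → c ≠ 0 → dH P b ≤ dH P c := by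
    have hex : ∃ n : ℕ, ∃ b ∈ Rel P, (∀ i, P.g i ≠ 1 → b i = 0) ∧ (∀ i, 0 ≤ b i) ∧ b ≠ 0 ∧
        (dH P b).toNat = n := by
      obtain ⟨m, hm, hmne, hm1, hm0⟩ := hsp
      refine ⟨_, m, hm, hm0, fun i => ?_, hmne, rfl⟩
      by_cases hg : P.g i = 1
      · have := hm1 i hg
        omega
      · rw [hm0 i hg]
    obtain ⟨b, hb, hbof, hb0, hbne, hbn⟩ := Nat.find_spec hex
    refine ⟨b, hb, hbof, hb0, hbne, fun c hc hcof hc0 hcne => ?_⟩
    have h1 := Nat.find_min' hex ⟨c, hc, hcof, hc0, hcne, rfl⟩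
    have hpos : ∀ c ∈ Rel P, (∀ i, 0 ≤ c i) → c ≠ 0 → 0 < dH P c := fun c hc hc0 hcne =>
      occ_ample (x := fun _ : ι => (1 : k)) hc (zs_ne P _ fun _ => one_ne_zero)
        (fun i hi => absurd hi (not_lt.2 (hc0 i))) hcne
    have h2 := hpos c hc hc0 hcne
    have h3 := hpos b hb hb0 hbne
    omega
  have hdb : ((dk P b : ℤ) : ℚ) ≠ 0 := by
    have h1 : 0 < dk P b := by
      obtain ⟨i, hi⟩ := Function.ne_iff.1 hbne
      have h1 : b i ≤ dk P b := le_dk_off hbof hb0 i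
      have h2 := hb0 i
      simp only [Pi.zero_apply] at hi
      omega
    exact_mod_cast h1.ne'
  have hcls : ∀ p : Pt X k, (∃ f, Sol X b p.z f) →
      cl (pt p) = (((dk P b : ℤ) : ℚ)⁻¹) • φ ⟨b, hb⟩ := by
    intro p hp
    rw [phi_min X φ hφ b hb hbof hb0 hmin p hp, smul_smul, inv_mul_cancel₀ hdb, one_smul]
  have hW : ∀ a ∈ Rel P, (∀ i, P.g i ≠ 1 → a i = 0) → (∀ i, 0 ≤ a i) → a ≠ 0 →
      ∃ p : Pt X k, cl (pt p) = (((dk P b : ℤ) : ℚ)⁻¹) • φ ⟨b, hb⟩ ∧ ∃ f, Sol X a p.z f := by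
    intro a ha hof h0 hne
    obtain ⟨p, h1, h2⟩ := big hr X hF a ha h0 hne hof b hb hb0 hbne hbof
    exact ⟨p, hcls p h2, h1⟩
  obtain ⟨p, hp, -⟩ := hW b hb hbof hb0 hbne
  refine ⟨pt p, dg_pt p, fun a f hf => ?_⟩
  rw [hp, ← hφ a f hf]
  exact ex_all X φ hφ hB _ (fun c hc => all_classes X φ hφ _ hW c hc hsp) ⟨a, hf.rel⟩

end Pool.Agent.LibTC2
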