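import Pool.Agent.LibTC2.CDefs

/-!
[TC1 C1] (MEDIUM) Limits of the zeros of a form on the projective line (pure algebra: one place, one polynomial).

`Φ ≠ 0` (as `φ ≠ 0`: values of `0` are `0`, `Place.val_unique`). `Φ = C c * ∏_(s in roots) (X - C s)`
(`Polynomial.C_leadingCoeff_mul_prod_multiset_X_sub_C hs`). Split the multiset of the roots: `R₁ = {s | ζ (some s) ≠ none}`,
`R₂ = {s | ζ (some s) = none}` (`Multiset.filter_add_not`). `Φ = C c' * Ψ`, `Ψ = ∏_(R₁) (X - C s) * ∏_(R₂) (1 - C s⁻¹ * X)`,
`c' = c * ∏_(R₂) (-s)`. `CV` is compatible with products (`CV v Ψ ψ`, `ψ = ∏_(s in R₁) (X - C (ζ s).get)`; the factors of `R₂` have the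
values `1`, as `v.Zer s⁻¹`); `ψ` is monic of degree `n = card R₁`, so `Ψ.coeff n` has the value `1`, so it is a unit at `v`;
`Φ.coeff n = c' * Ψ.coeff n` has the value `φ.coeff n`, so `c'` has the value `e = φ.coeff n` (`Place.val_div`), so
`CV v Φ (C e * ψ)`, and `φ = C e * ψ` by uniqueness of values; `e ≠ 0`; `φ.roots = R₁.map ζ` (`Polynomial.roots_C_mul`,
`Polynomial.roots_multiset_prod_X_sub_C`), `φ.natDegree = n`. Then `rsum d Φ (θ ∘ ζ) = ∑_(R₁) θ (ζ s) + card R₂ • θ none + (d - natDegree Φ) • θ none`
and `card R₁ + card R₂ = natDegree Φ ≤ d`; `ζ none = none` by `hζ none`.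
-/

open scoped Classical
open MvPolynomial

set_option linter.unusedSectionVars false

namespace Pool.Agent.LibTC2

open Pool.Agent.LibBH2 Pool.Agent.LibQC8

variable {ι : Type} [Fintype ι] {r : ℕ} {k : Type} [Field k] {P : Tor ι r}
  {K : Type} [Field K] [Algebra k K]

private theorem c1_val_sum (v : Place k K) {α : Type} (s : Finset α) (f : α → K) (g : α → k)
    (h : ∀ a ∈ s, v.Zer (f a - algebraMap k K (g a))) :
    v.Zer (∑ a ∈ s, f a - algebraMap k K (∑ a ∈ s, g a)) := by
  induction s using Finset.induction_on with
  | empty => simp [Place.zer_zero]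
  | insert a s ha ih =>
    rw [Finset.sum_insert ha, Finset.sum_insert ha]
    exact Place.val_add (h a (Finset.mem_insert_self a s))
      (ih fun b hb => h b (Finset.mem_insert_of_mem hb))

private theorem c1_mul (v : Place k K) {A B : Polynomial K} {a b : Polynomial k}
    (hA : CV v A a) (hB : CV v B b) : CV v (A * B) (a * b) := by
  intro j
  rw [Polynomial.coeff_mul, Polynomial.coeff_mul]
  exact c1_val_sum v _ _ _ fun x _ => Place.val_mul (hA x.1) (hB x.2)

private theorem c1_one (v : Place k K) : CV v (1 : Polynomial K) (1 : Polynomial k) := by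
  intro j
  rw [Polynomial.coeff_one, Polynomial.coeff_one]
  split_ifs
  · have := v.val_const (1 : k)
    simpa using this
  · simp [Place.zer_zero]

private theorem c1_prod (v : Place k K) (R : Multiset K) (F : K → Polynomial K)
    (G : K → Polynomial k) (h : ∀ s, CV v (F s) (G s)) :
    CV v (R.map F).prod (R.map G).prod := by
  induction R using Multiset.induction_on with
  | empty => simpa using c1_one v
  | cons a R ih =>
    rw [Multiset.map_cons, Multiset.prod_cons, Multiset.map_cons, Multiset.prod_cons]
    exact c1_mul v (h a) ih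

private theorem c1_split {A : Type} [AddCommMonoid A] (g : K → Option k) (θ : Option k → A)
    (R : Multiset K) : ∃ (L : Multiset k) (m : ℕ), Multiset.card R = Multiset.card L + m ∧
      (R.map fun s => match g s with
        | some c => (Polynomial.X - Polynomial.C c : Polynomial k)
        | none => 1).prod = (L.map fun c => Polynomial.X - Polynomial.C c).prod ∧
      (R.map fun s => θ (g s)).sum = (L.map fun c => θ (some c)).sum + m • θ none := by
  induction R using Multiset.induction_on with
  | empty => exact ⟨0, 0, by simp, by simp, by simp⟩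
  | cons a R ih =>
    obtain ⟨L, m, h1, h2, h3⟩ := ih
    cases hg : g a with
    | none =>
      refine ⟨L, m + 1, ?_, ?_, ?_⟩
      · rw [Multiset.card_cons, h1]; ring
      · rw [Multiset.map_cons, Multiset.prod_cons, h2, hg]; simp
      · rw [Multiset.map_cons, Multiset.sum_cons, h3, hg, succ_nsmul]
        abel
    | some c =>
      refine ⟨c ::ₘ L, m, ?_, ?_, ?_⟩
      · rw [Multiset.card_cons, Multiset.card_cons, h1]; ring
      · rw [Multiset.map_cons, Multiset.prod_cons, h2, hg, Multiset.map_cons, Multiset.prod_cons]
      · rw [Multiset.map_cons, Multiset.sum_cons, h3, hg, Multiset.map_cons, Multiset.sum_cons,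
          add_assoc]

theorem rsum_lim {A : Type} [AddCommMonoid A] (v : Place k K) (d : ℕ) (Φ : Polynomial K)
    (φ : Polynomial k) (hd : Φ.natDegree ≤ d) (hs : Multiset.card Φ.roots = Φ.natDegree)
    (hv : CV v Φ φ) (h0 : φ ≠ 0) (ζ : Option K → Option k) (hζ : ∀ s, AtP v s (ζ s))
    (θ : Option k → A) : rsum d Φ (fun s => θ (ζ s)) = rsum d φ θ := by
  have hn : ζ none = none := by
    have h := hζ none
    cases hc : ζ none with
    | none => rfl
    | some c => rw [hc] at h; exact h.elim
  -- the factors
  let F : K → Polynomial K := fun s =>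
    match ζ (some s) with
    | some _ => Polynomial.X - Polynomial.C s
    | none => 1 - Polynomial.C s⁻¹ * Polynomial.X
  let E : K → K := fun s =>
    match ζ (some s) with
    | some _ => 1
    | none => -s
  let G : K → Polynomial k := fun s =>
    match ζ (some s) with
    | some c => Polynomial.X - Polynomial.C c
    | none => 1
  have hFE : ∀ s, (Polynomial.X - Polynomial.C s : Polynomial K) = Polynomial.C (E s) * F s := by
    intro s
    have h := hζ (some s)
    simp only [F, E]
    cases hc : ζ (some s) with
    | some c => simp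
    | none =>
      rw [hc] at h
      have h1 : s ≠ 0 := h.1
      simp only
      rw [mul_sub, mul_one, ← mul_assoc, ← Polynomial.C_mul, neg_mul, mul_inv_cancel₀ h1]
      simp only [Polynomial.C_neg, Polynomial.C_1]
      ring
  have hFG : ∀ s, CV v (F s) (G s) := by
    intro s j
    have h := hζ (some s)
    simp only [F, G]
    cases hc : ζ (some s) with
    | some c =>
      rw [hc] at h
      have h1 : v.Zer (s - algebraMap k K c) := h
      simp only [Polynomial.coeff_sub]
      refine Place.val_sub ?_ ?_
      · rw [Polynomial.coeff_X, Polynomial.coeff_X]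
        split_ifs
        · have := v.val_const (1 : k)
          simpa using this
        · simp [Place.zer_zero]
      · rw [Polynomial.coeff_C, Polynomial.coeff_C]
        split_ifs
        · exact h1
        · simp [Place.zer_zero]
    | none =>
      rw [hc] at h
      have h1 : v.Zer s⁻¹ := h.2
      have h2 := c1_one v j
      simp only [Polynomial.coeff_sub]
      have h3 : v.Zer ((Polynomial.C s⁻¹ * Polynomial.X : Polynomial K).coeff j) := by
        rw [Polynomial.coeff_C_mul, Polynomial.coeff_X]
        split_ifs
        · simpa using h1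
        · simp [Place.zer_zero]
      have h4 := h2.sub h3
      convert h4 using 1
      ring
  obtain ⟨L, m, hL1, hL2, hL3⟩ := c1_split (fun s => ζ (some s)) θ Φ.roots
  have hL2' : (Φ.roots.map G).prod = (L.map fun c => Polynomial.X - Polynomial.C c).prod := hL2
  set ψ : Polynomial k := (L.map fun c => Polynomial.X - Polynomial.C c).prod with hψ
  set Ψ : Polynomial K := (Φ.roots.map F).prod with hΨ
  have hcv : CV v Ψ ψ := by
    have := c1_prod v Φ.roots F G hFG
    rwa [hL2'] at this
  have hfac : Φ = Polynomial.C (Φ.leadingCoeff * (Φ.roots.map E).prod) * Ψ := by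
    conv_lhs => rw [← Polynomial.C_leadingCoeff_mul_prod_multiset_X_sub_C hs]
    rw [Polynomial.C_mul, mul_assoc]
    congr 1
    have h1 : (Φ.roots.map fun a => (Polynomial.X - Polynomial.C a : Polynomial K)) =
        Φ.roots.map fun a => Polynomial.C (E a) * F a :=
      Multiset.map_congr rfl fun a _ => hFE a
    rw [h1, Multiset.prod_map_mul]
    congr 1
    rw [map_multiset_prod, Multiset.map_map]
    rfl
  set c' : K := Φ.leadingCoeff * (Φ.roots.map E).prod with hc'
  have hmon : ψ.Monic := by
    rw [hψ]
    exact Polynomial.monic_multiset_prod_of_monic _ _ fun a _ => Polynomial.monic_X_sub_C a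
  have hdeg : ψ.natDegree = Multiset.card L := by
    rw [hψ, Polynomial.natDegree_multiset_prod_X_sub_C_eq_card]
  have hn1 : ψ.coeff (Multiset.card L) = 1 := by
    rw [← hdeg]; exact hmon.coeff_natDegree
  have hΨn := hcv (Multiset.card L)
  rw [hn1] at hΨn
  have hΨ0 : Ψ.coeff (Multiset.card L) ≠ 0 := Place.ne_zero_of_val hΨn one_ne_zero
  have hcc : v.Zer (c' - algebraMap k K (φ.coeff (Multiset.card L))) := by
    have h1 := Place.val_div (hv (Multiset.card L)) hΨn one_ne_zero
    rw [div_one] at h1
    have h2 : Φ.coeff (Multiset.card L) / Ψ.coeff (Multiset.card L) = c' := by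
      have h3 : Φ.coeff (Multiset.card L) = c' * Ψ.coeff (Multiset.card L) := by
        conv_lhs => rw [hfac]
        rw [Polynomial.coeff_C_mul]
      rw [h3, mul_div_cancel_right₀ _ hΨ0]
    rwa [h2] at h1
  set e : k := φ.coeff (Multiset.card L) with he
  have hφ : φ = Polynomial.C e * ψ := by
    ext j
    apply Place.val_unique (hv j)
    have h1 : Φ.coeff j = c' * Ψ.coeff j := by
      conv_lhs => rw [hfac]
      rw [Polynomial.coeff_C_mul]
    rw [h1, Polynomial.coeff_C_mul]
    exact Place.val_mul hcc (hcv j)
  have he0 : e ≠ 0 := by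
    intro h
    rw [h, Polynomial.C_0, zero_mul] at hφ
    exact h0 hφ
  have hroots : φ.roots = L := by
    rw [hφ, Polynomial.roots_C_mul _ he0, hψ, Polynomial.roots_multiset_prod_X_sub_C]
  have hnat : φ.natDegree = Multiset.card L := by
    rw [hφ, Polynomial.natDegree_C_mul he0, hdeg]
  have hfin : (Φ.roots.map fun s => θ (ζ (some s))).sum + (d - Φ.natDegree) • θ (ζ none) =
      (φ.roots.map fun s => θ (some s)).sum + (d - φ.natDegree) • θ none := by
    rw [hroots, hnat, hn, hL3, add_assoc, ← add_smul]
    congr 2
    omega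
  exact hfin

end Pool.Agent.LibTC2
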