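import Pool.Agent.LibTC2.C2
import Pool.Agent.LibTC2.C4
import Pool.Agent.LibTC2.C6
import Pool.Agent.LibTC2.P9

/-!
[TC1 C10] (MEDIUM) The family `glu` over a function field: points, and their values at `t = 1`.

glu_cone: `t - 1` is transcendental, so it has a zero `v` (`Pool.Agent.LibEnd77.Val8.exists_zero hK`), `v.Zer (t - 1)`. `ζ` with `AtP v s ζ` (`exists_atP`).
`val_vl` for `glu_isQ`, `glu_one`: `l i * vl (a + b) G s i` has the value `vl (a + b) g ζ i`. So
`zs (vl (a + b) G s) ⊆ zs (vl (a + b) g ζ) ∈ C` (the value of `0` is `0`: `Place.zer_const_iff`), `P.down`.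
glu_point: `⟨vl (a + b) G s, glu_cone .., _⟩`, equation by `cmp_eval`, `cmp_coeff`. val_one: `val_vl`, `glu_one`, `D.mg.cone ζ`, `sp_of_val`.
-/

open scoped Classical
open MvPolynomial

set_option linter.unusedSectionVars false

namespace Pool.Agent.LibTC2

open Pool.Agent.LibBH2 Pool.Agent.LibQC8

variable {ι : Type} [Fintype ι] {r : ℕ} {k : Type} [Field k] [IsAlgClosed k] {P : Tor ι r}
  {K : Type} [Field K] [Algebra k K]

variable {a b : ι → ℤ} {f h g : ι → Polynomial k}

private theorem tr_sub_one {t : K} (ht : Transcendental k t) : Transcendental k (t - 1) := by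
  intro h
  apply ht
  have h1 : IsAlgebraic k (1 : K) := isAlgebraic_one
  have := h.add h1
  rwa [sub_add_cancel] at this

theorem glu_cone (D : GD P a b f h g) (hK : IsFunctionField k K) (N : ℕ) {t : K}
    (ht : Transcendental k t) (s : Option K) : zs (vl (a + b) (glu a b f h g N t) s) ∈ P.C := by
  obtain ⟨v, hv0⟩ := Pool.Agent.LibEnd77.Val8.exists_zero hK (tr_sub_one ht)
  have hv : v.Zer (t - 1) := Or.inr hv0
  obtain ⟨ζ, hζ⟩ := exists_atP hK v s
  obtain ⟨l, -, hl⟩ := val_vl v (glu_isQ D N t) (fun i => glu_one D N hv i) hζ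
  refine P.down _ (D.mg.cone ζ) _ ?_
  intro i hi
  simp only [zs, Finset.mem_filter, Finset.mem_univ, true_and] at hi ⊢
  have h1 := hl i
  rw [hi, mul_zero, zero_sub] at h1
  have h2 := h1.neg
  rw [neg_neg] at h2
  exact (Place.zer_const_iff v _).1 h2

theorem glu_point (X : Hyp k P) (D : GD P a b f h g) (hK : IsFunctionField k K) (N : ℕ) {t : K}
    (ht : Transcendental k t) (s : Option K)
    (hs : (∃ x, s = some x ∧ (cmp X (glu a b f h g N t)).eval x = 0) ∨
      (s = none ∧ (cmp X (glu a b f h g N t)).coeff (dk P (a + b)).toNat = 0)) :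
    ∃ u : Pt X K, u.z = vl (a + b) (glu a b f h g N t) s := by
  refine ⟨⟨vl (a + b) (glu a b f h g N t) s, glu_cone D hK N ht s, ?_⟩, rfl⟩
  rcases hs with ⟨x, rfl, hx⟩ | ⟨rfl, hx⟩
  · rw [← cmp_eval X]
    exact hx
  · rw [← cmp_coeff X (glu_isQ D N t)]
    exact hx

theorem val_one (X : Hyp k P) (D : GD P a b f h g) (N : ℕ) {t : K} {v : Place k K}
    (hv : v.Zer (t - 1)) (u : Pt X K) {s : Option K} {ζ : Option k}
    (hu : u.z = vl (a + b) (glu a b f h g N t) s) (hs : AtP v s ζ) :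
    ∃ (p : Pt X k) (l : ι → K), Sp v u p l ∧ pt p = pz X (vl (a + b) g ζ) := by
  obtain ⟨l, hT, hl⟩ := val_vl v (glu_isQ D N t) (fun i => glu_one D N hv i) hs
  obtain ⟨p, -, h1, h2⟩ := sp_of_val X v u (D.mg.cone ζ) hT (fun i => by rw [hu]; exact hl i)
  exact ⟨p, l, h1, h2⟩

end Pool.Agent.LibTC2
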