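import Pool.Agent.LibTC2.C2
import Pool.Agent.LibTC2.C7
import Pool.Agent.LibTC2.P9

/-!
[TC1 C11] (MEDIUM) Values of the points of the family `glu` at `t = 0`.

val_fin: `val_vl` for the class `a + b`, `glu_isQ`, `glu_zero`; `vl (a + b) f (some c) = vl a f (some c)` by definition; `D.mf.cone`; `sp_of_val`.
val_mid: `l i = (s⁻¹) ^ a i = s ^ (- a i)` (`isT_rel`, `D.mf.rel`). `(G i).eval s = ∑_j coeff_j s ^ j`, `glu_coeff`, `j ≤ (a i + b i).toNat`:
`s ^ (j - a i) * coeff_j`: for `j < a i`: `(1 - t) f_ij s ^ (j - a i) → 0`; `j = a i` : `→ f_ij = vl a f none i`; `j > a i`: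
`(1 - t) (t s) ^ (j - a i) h_i(j - a i) → 0`; and `t ^ N s ^ (j - a i) g_ij`: if `j ≤ a i` it tends to `0` (`N > 0`); if `0 < j - a i ≤ b i`:
`= t ^ (N - (j - a i)) (t s) ^ (j - a i) → 0` (`N > b i`). The value is `vl a f none i` (for `a i < 0`: `0`).
val_far: `vl_glt` (for `a`, class `c = a + b`, `glu_isQ`), `val_vl` for `glt_isQ`, `glt_cv` at the point `s.map (t * ·)`, `vl_sh`, multiply by the
constant scaling `(algebraMap (l i))⁻¹` (`isT_map`, `isT_inv`, `isT_mul`), `D.mh.cone`, `sp_of_val`.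
-/

open scoped Classical
open MvPolynomial

set_option linter.unusedSectionVars false

namespace Pool.Agent.LibTC2

open Pool.Agent.LibBH2 Pool.Agent.LibQC8

variable {ι : Type} [Fintype ι] {r : ℕ} {k : Type} [Field k] [IsAlgClosed k] {P : Tor ι r}
  {K : Type} [Field K] [Algebra k K]

variable {a b : ι → ℤ} {f h g : ι → Polynomial k}

private theorem c11_val_sum {v : Place k K} {α : Type} (A : Finset α) (F : α → K) (c : α → k)
    (h : ∀ j ∈ A, v.Zer (F j - algebraMap k K (c j))) :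
    v.Zer (∑ j ∈ A, F j - algebraMap k K (∑ j ∈ A, c j)) := by
  induction A using Finset.induction_on with
  | empty => simpa using Place.val_const (v := v) (0 : k)
  | insert j A hj ih =>
    rw [Finset.sum_insert hj, Finset.sum_insert hj]
    exact Place.val_add (h j (Finset.mem_insert_self j A))
      (ih fun i hi => h i (Finset.mem_insert_of_mem hi))

private theorem c11_zer_pow {v : Place k K} {x : K} (h : v.Zer x) {n : ℕ} (hn : 1 ≤ n) :
    v.Zer (x ^ n) := by
  obtain ⟨m, rfl⟩ := Nat.exists_eq_add_of_le hn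
  rw [pow_add, pow_one]
  exact Place.Zer.mul_reg h (Place.Reg.pow h.reg m)

private theorem c11_reg_one_sub {v : Place k K} {t : K} (hv : v.Zer t) : v.Reg (1 - t) := by
  have h1 : v.Reg (1 : K) := by simpa using Place.reg_const v (1 : k)
  exact Place.Reg.sub h1 hv.reg

theorem val_fin (X : Hyp k P) (D : GD P a b f h g) {N : ℕ} (hN : 1 ≤ N) {t : K}
    {v : Place k K} (hv : v.Zer t) (u : Pt X K) {s : Option K} {c : k}
    (hu : u.z = vl (a + b) (glu a b f h g N t) s) (hs : AtP v s (some c)) :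
    ∃ (p : Pt X k) (l : ι → K), Sp v u p l ∧ pt p = pz X (vl a f (some c)) := by
  obtain ⟨l, hl, h1⟩ := val_vl v (glu_isQ D N t) (fun i => glu_zero D hN hv i) hs
  obtain ⟨p, _, h3, h4⟩ := sp_of_val X v u (z₀ := vl a f (some c)) (l := l) (D.mf.cone (some c))
    hl (fun i => by rw [hu]; exact h1 i)
  exact ⟨p, l, h3, h4⟩

/-- the values of the terms -/
private theorem c11_term (D : GD P a b f h g) {N : ℕ} (hN : ∀ i, b i < N) (hN1 : 1 ≤ N)
    {t : K} {v : Place k K} (hv : v.Zer t) {s : K} (hs0 : s ≠ 0) (hs : v.Zer s⁻¹)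
    (hts : v.Zer (t * s)) (i : ι) (j : ℕ) (hj : j ≤ (a i + b i).toNat) :
    v.Zer (s ^ (-a i) * ((glu a b f h g N t i).coeff j * s ^ j) -
      algebraMap k K (if (j : ℤ) = a i then (f i).coeff j else 0)) := by
  have hF : ∀ c : k, v.Reg (algebraMap k K c) := fun c => Place.reg_const v c
  have h1t := c11_reg_one_sub hv
  have htN : v.Zer (t ^ N) := c11_zer_pow hv hN1
  rw [glu_coeff D N t i j]
  rcases lt_trichotomy (j : ℤ) (a i) with hlt | heq | hgt
  · -- `j < a i`
    rw [if_pos hlt.le, if_neg (ne_of_lt hlt), map_zero, sub_zero]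
    obtain ⟨n, hn⟩ : ∃ n : ℕ, a i = j + (n + 1 : ℕ) := ⟨(a i - j - 1).toNat, by omega⟩
    have e : s ^ (-a i) * (((1 - t) * algebraMap k K ((f i).coeff j) +
        t ^ N * algebraMap k K ((g i).coeff j)) * s ^ j) = s⁻¹ ^ (n + 1) *
        ((1 - t) * algebraMap k K ((f i).coeff j) + t ^ N * algebraMap k K ((g i).coeff j)) := by
      have e1 : s ^ (-a i) = s⁻¹ ^ (n + 1) * (s ^ j)⁻¹ := by
        rw [hn, neg_add, zpow_add₀ hs0, zpow_neg, zpow_neg, zpow_natCast, zpow_natCast, inv_pow,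
          mul_comm]
      rw [e1]
      have e2 : s ^ j ≠ 0 := pow_ne_zero _ hs0
      field_simp
    rw [e]
    exact Place.Zer.mul_reg (c11_zer_pow hs (Nat.le_add_left 1 n))
      (Place.Reg.add (Place.Reg.mul h1t (hF _)) (Place.Reg.mul htN.reg (hF _)))
  · -- `j = a i`
    rw [if_pos heq.le, if_pos heq]
    have e : s ^ (-a i) * (((1 - t) * algebraMap k K ((f i).coeff j) +
        t ^ N * algebraMap k K ((g i).coeff j)) * s ^ j) - algebraMap k K ((f i).coeff j) =
        t ^ N * algebraMap k K ((g i).coeff j) - t * algebraMap k K ((f i).coeff j) := by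
      have e1 : s ^ (-a i) = (s ^ j)⁻¹ := by rw [← heq, zpow_neg, zpow_natCast]
      rw [e1]
      have e2 : s ^ j ≠ 0 := pow_ne_zero _ hs0
      field_simp
      ring
    rw [e]
    exact Place.Zer.sub (Place.Zer.mul_reg htN (hF _)) (Place.Zer.mul_reg hv (hF _))
  · -- `j > a i`
    rw [if_neg (not_le.2 hgt), if_neg (ne_of_gt hgt), map_zero, sub_zero]
    obtain ⟨m, hm⟩ : ∃ m : ℕ, (j : ℤ) = a i + (m + 1 : ℕ) := ⟨((j : ℤ) - a i - 1).toNat, by omega⟩
    have hm1 : ((j : ℤ) - a i).toNat = m + 1 := by omega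
    rw [hm1]
    have e1 : s ^ (-a i) * s ^ j = s ^ (m + 1) := by
      rw [← zpow_natCast s j, ← zpow_add₀ hs0, hm, neg_add_cancel_left, zpow_natCast]
    have e : s ^ (-a i) * (((1 - t) * (t ^ (m + 1) * algebraMap k K ((h i).coeff (m + 1))) +
        t ^ N * algebraMap k K ((g i).coeff j)) * s ^ j) =
        (1 - t) * (t * s) ^ (m + 1) * algebraMap k K ((h i).coeff (m + 1)) +
        t ^ N * s ^ (m + 1) * algebraMap k K ((g i).coeff j) := by
      rw [← e1, mul_pow, ← e1]
      ring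
    rw [e]
    have z1 : v.Zer ((t * s) ^ (m + 1)) := c11_zer_pow hts (Nat.le_add_left 1 m)
    refine Place.Zer.add (Place.Zer.mul_reg (Place.Zer.reg_mul h1t z1) (hF _)) ?_
    by_cases hab : a i + b i < 0
    · rw [D.mg.neg i (by simpa using hab)]
      simp only [Polynomial.coeff_zero, map_zero, mul_zero]
      exact Place.zer_zero v
    · have hmN : m + 1 ≤ N := by
        have := hN i
        omega
      obtain ⟨n, rfl⟩ := Nat.exists_eq_add_of_le hmN
      have e3 : t ^ (m + 1 + n) * s ^ (m + 1) = (t * s) ^ (m + 1) * t ^ n := by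
        rw [pow_add, mul_pow]
        ring
      rw [e3]
      exact Place.Zer.mul_reg (Place.Zer.mul_reg z1 (Place.Reg.pow hv.reg n)) (hF _)

theorem val_mid (X : Hyp k P) (D : GD P a b f h g) {N : ℕ} (hN : ∀ i, b i < N) (hN1 : 1 ≤ N)
    {t : K} {v : Place k K} (hv : v.Zer t) (u : Pt X K) {s : K}
    (hu : u.z = vl (a + b) (glu a b f h g N t) (some s)) (hs : AtP v (some s) none)
    (hts : v.Zer (t * s)) :
    ∃ (p : Pt X k) (l : ι → K), Sp v u p l ∧ pt p = pz X (vl a f none) ∧
      p.z = vl a f none := by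
  obtain ⟨hs0, hs1⟩ : s ≠ 0 ∧ v.Zer s⁻¹ := hs
  have hl : IsT P (fun i => s ^ (-a i)) := isT_rel (a := -a) ((Rel P).neg_mem D.mf.rel) hs0
  have hval : ∀ i, v.Zer (s ^ (-a i) * u.z i - algebraMap k K (vl a f none i)) := fun i => by
    rw [hu]
    have h1 : vl (a + b) (glu a b f h g N t) (some s) i =
        ∑ j ∈ Finset.range ((a i + b i).toNat + 1), (glu a b f h g N t i).coeff j * s ^ j := by
      refine Polynomial.eval_eq_sum_range' (Nat.lt_succ_of_le ?_) s
      have h2 := (glu_isQ D N t).deg i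
      simpa using h2
    rw [h1, Finset.mul_sum]
    have h2 : vl a f none i = ∑ j ∈ Finset.range ((a i + b i).toNat + 1),
        (if (j : ℤ) = a i then (f i).coeff j else 0) := by
      by_cases ha : a i < 0
      · rw [Finset.sum_eq_zero fun j _ => if_neg (by omega)]
        exact if_pos ha
      · have h3 : (if a i < 0 then (0 : k) else (f i).coeff (a i).toNat) =
          (f i).coeff (a i).toNat := if_neg ha
        have h4 : vl a f none i = (f i).coeff (a i).toNat := h3
        rw [h4, Finset.sum_eq_single (a i).toNat]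
        · rw [if_pos (by omega)]
        · intro j _ hj
          exact if_neg (by omega)
        · intro hj
          exfalso
          apply hj
          rw [Finset.mem_range]
          have := D.b0 i
          omega
    rw [h2]
    exact c11_val_sum _ _ _ fun j hj => c11_term D hN hN1 hv hs0 hs1 hts i j
      (Nat.lt_succ_iff.1 (Finset.mem_range.1 hj))
  obtain ⟨p, h2, h3, h4⟩ := sp_of_val X v u (z₀ := vl a f none) (D.mf.cone none) hl hval
  exact ⟨p, _, h3, h4, h2⟩

theorem val_far (X : Hyp k P) (D : GD P a b f h g) {N : ℕ} (hN : ∀ i, b i < N)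
    {t : K} (ht : t ≠ 0) {v : Place k K} (hv : v.Zer t) (u : Pt X K) {s : Option K}
    {ξ : Option k} (hu : u.z = vl (a + b) (glu a b f h g N t) s) (hξ : ξ ≠ some 0)
    (hs : AtP v (s.map (t * ·)) ξ) :
    ∃ (p : Pt X k) (l : ι → K), Sp v u p l ∧ pt p = pz X (vl b h ξ) := by
  obtain ⟨l, hl, h1⟩ := vl_glt D.mf.rel ht (glu_isQ D N t) s
  obtain ⟨l', hl', h2⟩ := val_vl v (glt_isQ a ht (glu_isQ D N t))
    (fun i => glt_cv D hN ht hv i) hs
  obtain ⟨l'', hl'', h3⟩ := vl_sh D hξ
  have hL : IsT P (fun i => (algebraMap k K (l'' i))⁻¹ * (l' i * l i)) :=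
    isT_mul (isT_inv (isT_map (algebraMap k K) hl'')) (isT_mul hl' hl)
  have hval : ∀ i, v.Zer ((algebraMap k K (l'' i))⁻¹ * (l' i * l i) * u.z i -
      algebraMap k K (vl b h ξ i)) := fun i => by
    have h4 := Place.val_mul (Place.val_const (v := v) (l'' i)⁻¹) (h2 i)
    rw [h1 i, h3 i, ← hu, inv_mul_cancel_left₀ (hl''.1 i), map_inv₀] at h4
    have e : (algebraMap k K (l'' i))⁻¹ * (l' i * l i) * u.z i =
        (algebraMap k K (l'' i))⁻¹ * (l' i * (l i * u.z i)) := by ring
    rw [e]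
    exact h4
  obtain ⟨p, _, h5, h6⟩ := sp_of_val X v u (z₀ := vl b h ξ) (D.mh.cone ξ) hL hval
  exact ⟨p, _, h5, h6⟩

end Pool.Agent.LibTC2
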