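import Pool.Agent.LibTC2.CDefs
import Pool.Agent.LibTC2.P2

/-!
[TC1 C5] (MEDIUM) `cmp` and scaling.

Method: two polynomials over `K` are equal if their images in the fraction field `RatFunc K` (or `FractionRing K[X]`, an algebra over `k`) are
equal, and there `aeval_scale` (P2, for the field `RatFunc K`) applies.
cmp_scale: `l = algebraMap ∘ l`, `isT_map`. cmp_glt: `(G i).comp q` is the image of `G i` under the `k`-algebra homomorphism `p ↦ p.comp q`
(`Polynomial.compRingHom`/`Polynomial.aeval q`), so `cmp X (fun i => (G i).comp q) = (cmp X G).comp q`; then `cmp_scale` for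
`l i = t ^ a i` (`isT_rel`), `∏ l i = t ^ dk P a`. cmp_sh: in `RatFunc k`, `x = RatFunc.X`: the image of `sh (a i) (h i)` is
`x ^ a i * image of h i` (for `a i < 0`: `h i = X ^ (-a i).toNat * q`, the quotient `/ₘ` is `q`:
`Polynomial.mul_divByMonic_cancel_left`, `Polynomial.monic_X_pow`), `isT_rel`, `∏ x ^ a i = x ^ dk P a`, `dk P a ≥ 0`.
-/

open scoped Classical
open MvPolynomial

set_option linter.unusedSectionVars false

namespace Pool.Agent.LibTC2

open Pool.Agent.LibBH2 Pool.Agent.LibQC8

variable {ι : Type} [Fintype ι] {r : ℕ} {k : Type} [Field k] {P : Tor ι r}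
  {K : Type} [Field K] [Algebra k K]

private theorem C5_phi (X : Hyp k P) (L : Type) [Field L] [Algebra k L] [Algebra (Polynomial K) L]
    [IsScalarTower k (Polynomial K) L] (f : ι → Polynomial K) :
    algebraMap (Polynomial K) L (cmp X f) =
      aeval (fun i => algebraMap (Polynomial K) L (f i)) X.F := by
  have h := MvPolynomial.comp_aeval_apply (R := k) f
    (IsScalarTower.toAlgHom k (Polynomial K) L) X.F
  exact h

private theorem C5_prod_zpow {L : Type} [Field L] {x : L} (hx : x ≠ 0) (a : ι → ℤ) :
    ∏ i, (x ^ a i) ^ P.g i = x ^ dk P a := by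
  unfold dk
  have key : ∀ s : Finset ι, ∏ i ∈ s, (x ^ a i) ^ P.g i = x ^ (∑ i ∈ s, (P.g i : ℤ) * a i) := by
    intro s
    induction s using Finset.induction_on with
    | empty => simp
    | insert i s hi ih =>
      rw [Finset.prod_insert hi, Finset.sum_insert hi, ih, zpow_add₀ hx, mul_comm (P.g i : ℤ),
        zpow_mul, zpow_natCast]
  exact key Finset.univ

theorem cmp_scale (X : Hyp k P) {l : ι → K} (hl : IsT P l) (G : ι → Polynomial K) :
    cmp X (fun i => Polynomial.C (l i) * G i) = Polynomial.C (∏ i, l i ^ P.g i) * cmp X G := by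
  apply IsFractionRing.injective (Polynomial K) (FractionRing (Polynomial K))
  have h2 : IsT P (fun i => (algebraMap (Polynomial K) (FractionRing (Polynomial K))).comp
      Polynomial.C (l i)) := isT_map _ hl
  have h3 := aeval_scale X h2 (fun i => algebraMap (Polynomial K) (FractionRing (Polynomial K)) (G i))
  rw [C5_phi, map_mul, C5_phi]
  simp only [map_mul, map_prod, map_pow]
  exact h3

theorem cmp_glt (X : Hyp k P) {a : ι → ℤ} (ha : a ∈ Rel P) {t : K} (ht : t ≠ 0)
    (G : ι → Polynomial K) : cmp X (glt a t G) =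
      Polynomial.C (t ^ dk P a) * (cmp X G).comp (Polynomial.C t⁻¹ * Polynomial.X) := by
  have h1 := cmp_scale X (isT_rel (K := K) ha ht)
    (fun i => (G i).comp (Polynomial.C t⁻¹ * Polynomial.X))
  rw [C5_prod_zpow ht] at h1
  have h2 : glt a t G = fun i => Polynomial.C (t ^ a i) * (G i).comp (Polynomial.C t⁻¹ * Polynomial.X) := rfl
  rw [h2, h1]
  congr 1
  have h3 := MvPolynomial.comp_aeval_apply (R := k) G
    ((Polynomial.aeval (Polynomial.C t⁻¹ * Polynomial.X : Polynomial K)).restrictScalars k) X.F
  exact h3.symm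

theorem cmp_sh (X : Hyp k P) {a : ι → ℤ} (ha : a ∈ Rel P) (hd : 0 ≤ dk P a)
    (h : ι → Polynomial k) (hdvd : ∀ i, a i < 0 → Polynomial.X ^ (-a i).toNat ∣ h i) :
    cmp X (fun i => sh (a i) (h i)) = Polynomial.X ^ (dk P a).toNat * cmp X h := by
  apply IsFractionRing.injective (Polynomial k) (FractionRing (Polynomial k))
  set x : FractionRing (Polynomial k) := algebraMap (Polynomial k) _ Polynomial.X with hx
  have hx0 : x ≠ 0 := by
    rw [hx]
    exact (map_ne_zero_iff _ (IsFractionRing.injective (Polynomial k) _)).2 Polynomial.X_ne_zero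
  have hT := isT_rel (K := FractionRing (Polynomial k)) ha hx0
  have h3 := aeval_scale X hT (fun i => algebraMap (Polynomial k) (FractionRing (Polynomial k)) (h i))
  rw [C5_prod_zpow hx0] at h3
  have h4 : ∀ i, algebraMap (Polynomial k) (FractionRing (Polynomial k)) (sh (a i) (h i)) =
      x ^ a i * algebraMap (Polynomial k) (FractionRing (Polynomial k)) (h i) := by
    intro i
    unfold sh
    split_ifs with hi
    · rw [map_mul, map_pow, ← hx]
      congr 1
      rw [← zpow_natCast, Int.toNat_of_nonneg hi]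
    · obtain ⟨q, hq⟩ := hdvd i (not_le.1 hi)
      have hn : a i = -((-a i).toNat : ℤ) := by
        rw [Int.toNat_of_nonneg (by omega)]; ring
      rw [hq, Polynomial.mul_divByMonic_cancel_left _ (Polynomial.monic_X_pow _), map_mul, map_pow,
        ← hx]
      conv_rhs => rw [hn]
      rw [zpow_neg, zpow_natCast, neg_neg, Int.toNat_natCast, ← mul_assoc,
        inv_mul_cancel₀ (pow_ne_zero _ hx0), one_mul]
  rw [C5_phi, map_mul, map_pow, C5_phi, ← hx]
  simp only [h4]
  rw [h3, ← zpow_natCast, Int.toNat_of_nonneg hd]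

end Pool.Agent.LibTC2
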