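import Pool.Agent.LibTC2.C1
import Pool.Agent.LibTC2.C3
import Pool.Agent.LibTC2.C4
import Pool.Agent.LibTC2.C5
import Pool.Agent.LibTC2.C7
import Pool.Agent.LibTC2.C9
import Pool.Agent.LibTC2.C2

/-!
[TC1 C12] (MEDIUM) Sums over the zeros of the family at `t = 0`. Notation `G = glu a b f h g N t`, `Φ = cmp X G`, `d = (dk P (a + b)).toNat`,
`dk P a, dk P b ≥ 0` (`isMap_dk`), `d = (dk P a).toNat + (dk P b).toNat`.

sum_s: `rsum_lim` (C1) for `Φ`, `φ = cmp X f ≠ 0` (`cv_cmp`, `glu_zero`), degree `cmp_deg (glu_isQ ..)`.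
sum_far: `Φ' = cmp X (glt a t G) = C (t ^ dk P a) * Φ.comp (C t⁻¹ * X)` (`cmp_glt`, `D.mf.rel`): `comp_roots`, `rsum_comp` (C9);
`CV v Φ' (cmp X (sh a h))` (`cv_cmp`, `glt_cv`), `cmp X (sh a h) = X ^ (dk P a).toNat * cmp X h` (`cmp_sh`) `≠ 0`; `rsum_lim` for `Φ'`; then `rsum d (X ^ n * φ) θ`
with `n = (dk P a).toNat`, `d = n + m`: roots `n • {0} + φ.roots` (`Polynomial.roots_mul`, `roots_X_pow`), degree `n + natDegree φ`.
-/

open scoped Classical
open MvPolynomial

set_option linter.unusedSectionVars false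

namespace Pool.Agent.LibTC2

open Pool.Agent.LibBH2 Pool.Agent.LibQC8

variable {ι : Type} [Fintype ι] {r : ℕ} {k : Type} [Field k] [IsAlgClosed k] {P : Tor ι r}
  {K : Type} [Field K] [Algebra k K]

variable {a b : ι → ℤ} {f h g : ι → Polynomial k}

theorem sum_s {A : Type} [AddCommMonoid A] (X : Hyp k P) (D : GD P a b f h g) {N : ℕ}
    (hN1 : 1 ≤ N) {t : K} {v : Place k K} (hv : v.Zer t)
    (hs : Multiset.card (cmp X (glu a b f h g N t)).roots =
      (cmp X (glu a b f h g N t)).natDegree) (hcf : cmp X f ≠ 0)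
    (ζ : Option K → Option k) (hζ : ∀ s, AtP v s (ζ s)) (θ : Option k → A) :
    rsum (dk P (a + b)).toNat (cmp X (glu a b f h g N t)) (fun s => θ (ζ s)) =
      rsum (dk P (a + b)).toNat (cmp X f) θ := by
  exact rsum_lim v _ _ _ (cmp_deg X (glu_isQ D N t)) hs
    (cv_cmp X v fun i => glu_zero D hN1 hv i) hcf ζ hζ θ

private theorem C12_rsum_mul {A : Type} [AddCommMonoid A] (n m : ℕ) {φ : Polynomial k} (hφ : φ ≠ 0)
    (θ : Option k → A) :
    rsum (n + m) (Polynomial.X ^ n * φ) θ = n • θ (some 0) + rsum m φ θ := by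
  have hX : (Polynomial.X ^ n : Polynomial k) ≠ 0 := pow_ne_zero _ Polynomial.X_ne_zero
  have h0 : (Polynomial.X ^ n * φ : Polynomial k) ≠ 0 := mul_ne_zero hX hφ
  have hd : (Polynomial.X ^ n * φ : Polynomial k).natDegree = n + φ.natDegree := by
    rw [Polynomial.natDegree_mul hX hφ, Polynomial.natDegree_X_pow]
  have hr : (Polynomial.X ^ n * φ : Polynomial k).roots = Multiset.replicate n 0 + φ.roots := by
    rw [Polynomial.roots_mul h0, Polynomial.roots_X_pow, Multiset.nsmul_singleton]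
  rw [rsum, rsum, hd, hr, Nat.add_sub_add_left, Multiset.map_add, Multiset.sum_add, Multiset.map_replicate,
    Multiset.sum_replicate, add_assoc]

theorem sum_far {A : Type} [AddCommMonoid A] (X : Hyp k P) (D : GD P a b f h g) {N : ℕ}
    (hN : ∀ i, b i < N) {t : K} (ht : t ≠ 0) {v : Place k K} (hv : v.Zer t)
    (hs : Multiset.card (cmp X (glu a b f h g N t)).roots =
      (cmp X (glu a b f h g N t)).natDegree) (hch : cmp X h ≠ 0)
    (ζ : Option K → Option k) (hζ : ∀ s, AtP v s (ζ s)) (θ : Option k → A) :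
    rsum (dk P (a + b)).toNat (cmp X (glu a b f h g N t)) (fun s => θ (ζ (s.map (t * ·)))) =
      (dk P a).toNat • θ (some 0) + rsum (dk P b).toNat (cmp X h) θ := by
  have hda : 0 ≤ dk P a := isMap_dk D.mf
  have hdb : 0 ≤ dk P b := isMap_dk D.mh
  have hab : dk P (a + b) = dk P a + dk P b := by
    simp only [dk, Pi.add_apply, mul_add, Finset.sum_add_distrib]
  have hc : t ^ dk P a ≠ 0 := zpow_ne_zero _ ht
  have hQ : IsQ P (a + b) (glu a b f h g N t) := glu_isQ D N t
  have hcomp := rsum_comp (dk P (a + b)).toNat (cmp X (glu a b f h g N t)) hc ht (fun s => θ (ζ s))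
  rw [← hcomp, ← cmp_glt X D.mf.rel ht]
  have hs' : Multiset.card (cmp X (glt a t (glu a b f h g N t))).roots =
      (cmp X (glt a t (glu a b f h g N t))).natDegree := by
    rw [cmp_glt X D.mf.rel ht]
    exact (comp_roots _ hc ht hs).1
  have hsh : cmp X (fun i => sh (a i) (h i)) = Polynomial.X ^ (dk P a).toNat * cmp X h :=
    cmp_sh X D.mf.rel hda h D.dvd
  have hlim := rsum_lim v (dk P (a + b)).toNat (cmp X (glt a t (glu a b f h g N t)))
    (cmp X (fun i => sh (a i) (h i))) (cmp_deg X (glt_isQ a ht hQ)) hs'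
    (cv_cmp X v fun i => glt_cv D hN ht hv i)
    (by
      rw [hsh]
      exact mul_ne_zero (pow_ne_zero _ Polynomial.X_ne_zero) hch) ζ hζ θ
  rw [hlim, hsh, hab, Int.toNat_add hda hdb]
  exact C12_rsum_mul _ _ hch θ

end Pool.Agent.LibTC2
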