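import Pool.Agent.LibTC2.C4
import Pool.Agent.LibPC60.C17
import Pool.Agent.LibPN22.C3

/-!
[TC1 C8] (MEDIUM) A function field over which the zeros of the family are rational.

`K₀ = RatFunc k`, `t₀ = RatFunc.X` (`Pool.Agent.LibPC60.ratFunc_ff`). `Φ₀ = cmp X (glu a b f h g N t₀)`. Its roots in `AlgebraicClosure K₀` are finitely many:
`Pool.Agent.LibPN22.exists_sub` (for the index type `Fin n` or the subtype of the finset of roots) gives a function field `L`, `i : K₀ →ₐ[k] L`,
`φ : L →ₐ[k] AlgebraicClosure K₀`, and elements of `L` with images the roots. `t = i t₀` is transcendental.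
`cmp X (glu a b f h g N t) = Φ₀.map i` (`cmp_map`; `glu` commutes with `Polynomial.map`: coefficients, `i` fixes `k`). Its image in the closure
is a product of linear factors (`IsAlgClosed.splits`) whose roots are in the image of `φ`; so it splits over `L`
(`Polynomial.Splits` API for `map`, or count: the roots of `(Φ₀.map i).map φ` are the images of roots in `L`:
`Polynomial.roots_map_of_injective_of_card_eq_natDegree`, `Polynomial.count_map_roots`/`rootMultiplicity_map`), and the number of
roots is the degree. (If `Φ₀ = 0` both are zero.)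
-/

open scoped Classical
open MvPolynomial

set_option linter.unusedSectionVars false

namespace Pool.Agent.LibTC2

open Pool.Agent.LibBH2 Pool.Agent.LibQC8

variable {ι : Type} [Fintype ι] {r : ℕ} {k : Type} [Field k] [IsAlgClosed k] {P : Tor ι r}
  {K : Type} [Field K] [Algebra k K]

theorem exists_split (X : Hyp k P) (a b : ι → ℤ) (f h g : ι → Polynomial k) (N : ℕ) :
    ∃ (K : Type) (_ : Field K) (_ : Algebra k K) (t : K), IsFunctionField k K ∧
      Transcendental k t ∧ Multiset.card (cmp X (glu a b f h g N t)).roots =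
        (cmp X (glu a b f h g N t)).natDegree := by
  obtain ⟨hff, htr⟩ := Pool.Agent.LibPC60.ratFunc_ff (k := k)
  obtain ⟨Φ₀, hΦ₀⟩ : ∃ Φ₀, Φ₀ = cmp X (glu a b f h g N (RatFunc.X : RatFunc k)) := ⟨_, rfl⟩
  obtain ⟨L, iF, iA, i, φ, x', hL, hi, hx⟩ := Pool.Agent.LibPN22.exists_sub hff
    (ι := {x // x ∈ (Φ₀.map (algebraMap (RatFunc k) (AlgebraicClosure (RatFunc k)))).roots.toFinset})
    (fun x => (x : AlgebraicClosure (RatFunc k)))
  refine ⟨L, iF, iA, i RatFunc.X, hL, ?_, ?_⟩
  · intro hal
    exact htr ((isAlgebraic_algHom_iff i i.injective).1 hal)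
  · have hC : ∀ c : k, i (RatFunc.C c) = algebraMap k L c := by
      intro c
      rw [← RatFunc.algebraMap_eq_C]
      exact i.commutes c
    have hΦ : cmp X (glu a b f h g N (i (RatFunc.X : RatFunc k))) =
        Φ₀.map (i : RatFunc k →+* L) := by
      rw [hΦ₀, cmp_map]
      congr 1
      funext j
      simp only [glu, Polynomial.map_sum, Polynomial.map_monomial]
      refine Finset.sum_congr rfl fun n _ => ?_
      congr 1
      split_ifs <;> simp [hC]
    have hcomp : (φ : L →+* AlgebraicClosure (RatFunc k)).comp (i : RatFunc k →+* L) =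
        algebraMap (RatFunc k) (AlgebraicClosure (RatFunc k)) := by
      ext y
      exact hi y
    rw [hΦ, ← Polynomial.splits_iff_card_roots]
    refine Polynomial.Splits.of_splits_map (φ : L →+* AlgebraicClosure (RatFunc k)) ?_ ?_
    · exact IsAlgClosed.splits _
    · intro z hz
      rw [Polynomial.map_map, hcomp] at hz
      exact ⟨x' ⟨z, Multiset.mem_toFinset.2 hz⟩, hx ⟨z, Multiset.mem_toFinset.2 hz⟩⟩

end Pool.Agent.LibTC2
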