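import Pool.Agent.LibTC2.SDefs

/-!
Definitions of blocks D and E (helper25): a class occurs at a point, removal of a base point, generic quasi-maps.
-/

open scoped Classical
open MvPolynomial

namespace Pool.Agent.LibTC2

open Pool.Agent.LibBH2 Pool.Agent.LibQC8

variable {ι : Type} [Fintype ι] {r : ℕ} {k : Type} [Field k] {P : Tor ι r}

/-- the class `a` occurs at the point with coordinates `x` -/
def Occ (a : ι → ℤ) (x : ι → k) : Prop := ∀ i, a i < 0 → x i = 0

/-- the degree of a class with respect to the ample class `H` -/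
def dH (P : Tor ι r) (a : ι → ℤ) : ℤ := ∑ i, P.H i * a i

/-- The base point `q` of the quasi-map `f` of class `a` is removed: `f'` is a quasi-map of class `a - b` without a base point
at `q`, equal to `f` up to powers of the linear form `1 + μ s` which vanishes at `q`; `b` occurs at `f'(q)`. -/
structure Rem (P : Tor ι r) (a : ι → ℤ) (f : ι → Polynomial k) (q : Option k) (b : ι → ℤ)
    (f' : ι → Polynomial k) (μ : k) : Prop where
  rel : b ∈ Rel P
  ne : b ≠ 0
  isq : IsQ P (a - b) f'
  at0 : ∀ i, (f' i).coeff 0 = (f i).coeff 0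
  cone : zs (vl (a - b) f' q) ∈ P.C
  occ : Occ b (vl (a - b) f' q)
  eq : ∀ i, f i * (1 + Polynomial.C μ * Polynomial.X) ^ (-b i).toNat =
    f' i * (1 + Polynomial.C μ * Polynomial.X) ^ (b i).toNat

/-- the quasi-map of class `a` with value `x` at `0` and the coefficients `y` in positive degrees -/
noncomputable def fy {R : Type} [CommRing R] (a : ι → ℤ) (x : ι → R) (y : (Σ i : ι, Fin (a i).toNat) → R) :
    ι → Polynomial R :=
  fun i => Polynomial.C (x i) + ∑ j : Fin (a i).toNat, Polynomial.C (y ⟨i, j⟩) * Polynomial.X ^ ((j : ℕ) + 1)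

end Pool.Agent.LibTC2
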