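import Pool.Agent.LibTC2.Defs

/-!
The degrees of the line bundles `O(D_i)` on a curve.
-/

open scoped Classical
open MvPolynomial

namespace Pool.Agent.LibTC2

open Pool.Agent.LibBH2 Pool.Agent.LibQC8

variable {ι : Type} [Fintype ι] {r : ℕ} {k : Type} [Field k] {P : Tor ι r}

/-- `D i` is the degree of the line bundle `O(D_i)` on the curve `u`. -/
def HasDeg {X : Hyp k P} {K : Type} [Field K] [Algebra k K] (u : Pt X K) (D : ι → ℤ) : Prop :=
  ∃ (A : Finset (Place k K)) (p : Place k K → Pt X k) (l : Place k K → ι → K),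
    (∀ v, Sp v u (p v) (l v)) ∧ (∀ v, v ∉ A → ∀ i, v.ord (l v i) = 0) ∧
    ∀ i, D i = ∑ v ∈ A, v.ord (l v i)

end Pool.Agent.LibTC2
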