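import Pool.Agent.LibTC2.KA
import Pool.Agent.LibTC2.KB

/-!
Antiderivative and projection (weighted version of LibPK60/D3).
-/

open scoped Classical
open MvPolynomial

set_option linter.unusedSectionVars false

namespace Pool.Agent.LibTC2.KW

open Pool.Agent.LibPK60

variable {κ : Type} [Field κ] {n M : ℕ}

/-- the constants -/
private noncomputable def d3c (κ : Type) [Field κ] (r : ℕ) : κ := (-1) ^ r / (r.factorial : κ)

private theorem d3c_zero : d3c κ 0 = 1 := by simp [d3c]

private theorem d3c_succ [CharZero κ] (r : ℕ) : d3c κ (r + 1) * ((r + 1 : ℕ) : κ) = -d3c κ r := by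
  unfold d3c
  have h1 : ((r + 1 : ℕ) : κ) ≠ 0 := Nat.cast_ne_zero.mpr (Nat.succ_ne_zero r)
  have h2 : (r.factorial : κ) ≠ 0 := Nat.cast_ne_zero.mpr (Nat.factorial_ne_zero r)
  rw [Nat.factorial_succ, Nat.cast_mul, pow_succ]
  field_simp

/-- the coefficients -/
private noncomputable def d3u (h : MvPolynomial (Fin n) κ) (r : ℕ) : MvPolynomial (Fin n) κ :=
  C (d3c κ r) * h ^ r

private theorem d3u_zero (h : MvPolynomial (Fin n) κ) : d3u h 0 = 1 := by
  simp [d3u, d3c_zero]

private theorem d3u_mul [CharZero κ] (h : MvPolynomial (Fin n) κ) (r : ℕ) :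
    d3u h r * h = -(((r + 1 : ℕ) : MvPolynomial (Fin n) κ) * d3u h (r + 1)) := by
  unfold d3u
  have h1 : C (d3c κ (r + 1)) * ((r + 1 : ℕ) : MvPolynomial (Fin n) κ) = -C (d3c κ r) := by
    have h2 : ((r + 1 : ℕ) : MvPolynomial (Fin n) κ) = C (((r + 1 : ℕ) : κ)) :=
      (map_natCast C (r + 1)).symm
    rw [h2, ← C_mul, d3c_succ, C_neg]
  have h3 : C (d3c κ r) = -(C (d3c κ (r + 1)) * ((r + 1 : ℕ) : MvPolynomial (Fin n) κ)) := by
    rw [h1, neg_neg]
  rw [h3, pow_succ]
  ring

private theorem d3_dx_C_mul (x : Fin n → MvPolynomial (Fin n) κ) (c : κ) (f : MvPolynomial (Fin n) κ) :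
    dv x (C c * f) = C c * dv x f := by
  unfold dv
  rw [Finset.mul_sum]
  refine Finset.sum_congr rfl fun i _ => ?_
  rw [pderiv_C_mul]
  ring

private theorem d3u_dx_zero (x : Fin n → MvPolynomial (Fin n) κ) (h : MvPolynomial (Fin n) κ) (hh : dv x h = 1) :
    dv x (d3u h 0) = 0 := by
  unfold d3u
  rw [d3_dx_C_mul, dv_pow x h hh]
  simp

private theorem d3u_dx_succ [CharZero κ] (x : Fin n → MvPolynomial (Fin n) κ) (h : MvPolynomial (Fin n) κ)
    (hh : dv x h = 1) (r : ℕ) : dv x (d3u h (r + 1)) = -d3u h r := by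
  unfold d3u
  rw [d3_dx_C_mul, dv_pow x h hh, Nat.add_sub_cancel]
  have h1 : C (d3c κ (r + 1)) * ((r + 1 : ℕ) : MvPolynomial (Fin n) κ) = -C (d3c κ r) := by
    have h2 : ((r + 1 : ℕ) : MvPolynomial (Fin n) κ) = C (((r + 1 : ℕ) : κ)) :=
      (map_natCast C (r + 1)).symm
    rw [h2, ← C_mul, d3c_succ, C_neg]
  rw [← mul_assoc, h1]
  ring

private theorem d3_DD_zero (x : Fin n → MvPolynomial (Fin n) κ) (a : Fin M → ℕ) : DW x a (0 : Ch κ n M) = 0 := by
  have h := DW_add x a (0 : Ch κ n M) 0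
  rw [add_zero] at h
  exact left_eq_add.mp h

private theorem d3_DD_neg (x : Fin n → MvPolynomial (Fin n) κ) (a : Fin M → ℕ) (f : Ch κ n M) :
    DW x a (-f) = -DW x a f := by
  have h := DW_add x a f (-f)
  rw [add_neg_cancel, d3_DD_zero] at h
  exact (neg_eq_of_add_eq_zero_right h.symm).symm

private theorem d3_it_zero (x : Fin n → MvPolynomial (Fin n) κ) (a : Fin M → ℕ) (r : ℕ) :
    (DW x a)^[r] (0 : Ch κ n M) = 0 := by
  induction r with
  | zero => rfl
  | succ r ih => rw [Function.iterate_succ_apply', ih, d3_DD_zero]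

private theorem d3_it_add (x : Fin n → MvPolynomial (Fin n) κ) (a : Fin M → ℕ) (r : ℕ) (f f' : Ch κ n M) :
    (DW x a)^[r] (f + f') = (DW x a)^[r] f + (DW x a)^[r] f' := by
  induction r with
  | zero => rfl
  | succ r ih =>
    rw [Function.iterate_succ_apply', ih, DW_add, Function.iterate_succ_apply',
      Function.iterate_succ_apply']

/-- one term -/
private noncomputable def d3t (x : Fin n → MvPolynomial (Fin n) κ) (a : Fin M → ℕ) (u : MvPolynomial (Fin n) κ) (r : ℕ)
    (f : Ch κ n M) : Ch κ n M := fun J => u * (DW x a)^[r] f J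

private theorem d3t_DD (x : Fin n → MvPolynomial (Fin n) κ) (a : Fin M → ℕ) (u : MvPolynomial (Fin n) κ) (r : ℕ)
    (f : Ch κ n M) : DW x a (d3t x a u r f) = d3t x a (dv x u) r f + d3t x a u (r + 1) f := by
  unfold d3t
  rw [DW_mul]
  funext J
  rw [Pi.add_apply, Function.iterate_succ_apply']

/-- the sum of the first terms of the projection -/
private noncomputable def d3P (x : Fin n → MvPolynomial (Fin n) κ) (a : Fin M → ℕ) (h : MvPolynomial (Fin n) κ) (w : ℕ)
    (f : Ch κ n M) : Ch κ n M := ∑ r ∈ Finset.range w, d3t x a (d3u h r) r f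

private theorem d3P_succ (x : Fin n → MvPolynomial (Fin n) κ) (a : Fin M → ℕ) (h : MvPolynomial (Fin n) κ) (w : ℕ)
    (f : Ch κ n M) : d3P x a h (w + 1) f = d3P x a h w f + d3t x a (d3u h w) w f := by
  unfold d3P
  rw [Finset.sum_range_succ]

private theorem d3P_DD [CharZero κ] (x : Fin n → MvPolynomial (Fin n) κ) (a : Fin M → ℕ) (h : MvPolynomial (Fin n) κ)
    (hh : dv x h = 1) (f : Ch κ n M) (w : ℕ) :
    DW x a (d3P x a h (w + 1) f) = d3t x a (d3u h w) (w + 1) f := by
  induction w with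
  | zero =>
    rw [d3P_succ, DW_add, d3t_DD, d3u_dx_zero x h hh]
    have h0 : d3P x a h 0 f = 0 := by simp [d3P]
    have h1 : d3t x a 0 0 f = 0 := by
      funext J
      simp [d3t]
    rw [h0, h1, d3_DD_zero, zero_add, zero_add]
  | succ w ih =>
    rw [d3P_succ, DW_add, ih, d3t_DD, d3u_dx_succ x h hh]
    have h1 : d3t x a (-d3u h w) (w + 1) f = -d3t x a (d3u h w) (w + 1) f := by
      funext J
      simp [d3t]
    rw [h1, add_neg_cancel_left]

private theorem d3t_eq_zero (x : Fin n → MvPolynomial (Fin n) κ) (a : Fin M → ℕ) (u : MvPolynomial (Fin n) κ) (r : ℕ)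
    (f : Ch κ n M) (h : (DW x a)^[r] f = 0) : d3t x a u r f = 0 := by
  funext J
  unfold d3t
  rw [h]
  simp

/-- the projection -/
private noncomputable def d3pi (W : Fin n → ℕ) (x : Fin n → MvPolynomial (Fin n) κ)
    (hx : ThW W x) (a : Fin M → ℕ) (h : MvPolynomial (Fin n) κ)
    (f : Ch κ n M) : Ch κ n M := d3P x a h (Classical.choose (DW_nilp W x hx a f)) f

private theorem d3P_eq (x : Fin n → MvPolynomial (Fin n) κ) (a : Fin M → ℕ) (h : MvPolynomial (Fin n) κ)
    (f : Ch κ n M) (w : ℕ) (hw : ∀ r, w ≤ r → (DW x a)^[r] f = 0) (k : ℕ) :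
    d3P x a h (w + k) f = d3P x a h w f := by
  induction k with
  | zero => rfl
  | succ k ih =>
    rw [← add_assoc, d3P_succ, ih, d3t_eq_zero x a _ _ f (hw _ (Nat.le_add_right w k)), add_zero]

private theorem d3pi_eq (W : Fin n → ℕ) (x : Fin n → MvPolynomial (Fin n) κ)
    (hx : ThW W x) (a : Fin M → ℕ) (h : MvPolynomial (Fin n) κ)
    (f : Ch κ n M) (w : ℕ) (hw : ∀ r, w ≤ r → (DW x a)^[r] f = 0) :
    d3pi W x hx a h f = d3P x a h w f := by
  unfold d3pi
  set w0 := Classical.choose (DW_nilp W x hx a f) with hw0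
  have h0 : ∀ r, w0 ≤ r → (DW x a)^[r] f = 0 := Classical.choose_spec (DW_nilp W x hx a f)
  rcases le_total w w0 with h1 | h1
  · obtain ⟨k, hk⟩ := Nat.exists_eq_add_of_le h1
    rw [hk, d3P_eq x a h f w hw k]
  · obtain ⟨k, hk⟩ := Nat.exists_eq_add_of_le h1
    rw [hk, d3P_eq x a h f w0 h0 k]

/-- the partial sums of the antiderivative -/
private noncomputable def d3A (x : Fin n → MvPolynomial (Fin n) κ) (a : Fin M → ℕ) (h : MvPolynomial (Fin n) κ) (w : ℕ)
    (f : Ch κ n M) : Ch κ n M := ∑ r ∈ Finset.range w, d3t x a (d3u h (r + 1)) r f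

private theorem d3A_DD [CharZero κ] (x : Fin n → MvPolynomial (Fin n) κ) (a : Fin M → ℕ) (h : MvPolynomial (Fin n) κ)
    (hh : dv x h = 1) (f : Ch κ n M) (w : ℕ) :
    DW x a (d3A x a h w f) = d3t x a (d3u h w) w f - f := by
  induction w with
  | zero =>
    have h0 : d3A x a h 0 f = 0 := by simp [d3A]
    rw [h0, d3_DD_zero]
    funext J
    simp [d3t, d3u_zero]
  | succ w ih =>
    have h0 : d3A x a h (w + 1) f = d3A x a h w f + d3t x a (d3u h (w + 1)) w f := by
      unfold d3A
      rw [Finset.sum_range_succ]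
    rw [h0, DW_add, ih, d3t_DD, d3u_dx_succ x h hh]
    have h1 : d3t x a (-d3u h w) w f = -d3t x a (d3u h w) w f := by
      funext J
      simp [d3t]
    rw [h1]
    abel

private theorem d3_it_mul (x : Fin n → MvPolynomial (Fin n) κ) (a : Fin M → ℕ) (h : MvPolynomial (Fin n) κ)
    (hh : dv x h = 1) (f : Ch κ n M) (r : ℕ) :
    (DW x a)^[r] (fun J => h * f J) = fun J => h * (DW x a)^[r] f J +
      (r : MvPolynomial (Fin n) κ) * (DW x a)^[r - 1] f J := by
  induction r with
  | zero =>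
    funext J
    simp
  | succ r ih =>
    rw [Function.iterate_succ_apply', ih]
    have h1 : (fun J => h * (DW x a)^[r] f J +
        (r : MvPolynomial (Fin n) κ) * (DW x a)^[r - 1] f J : Ch κ n M) =
        (fun J => h * (DW x a)^[r] f J) +
          fun J => (r : MvPolynomial (Fin n) κ) * (DW x a)^[r - 1] f J := rfl
    have h2 : dv x (r : MvPolynomial (Fin n) κ) = 0 := by
      have : (r : MvPolynomial (Fin n) κ) = C (r : κ) * h ^ 0 := by
        rw [pow_zero, mul_one]
        exact (map_natCast C r).symm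
      rw [this, d3_dx_C_mul, dv_pow x h hh]
      simp
    rw [h1, DW_add, DW_mul, DW_mul, hh, h2]
    funext J
    rw [Pi.add_apply, Nat.add_sub_cancel]
    rcases Nat.eq_zero_or_pos r with h3 | h3
    · subst h3
      simp
      ring
    · obtain ⟨s, rfl⟩ := Nat.exists_eq_add_of_le' h3
      rw [Nat.add_sub_cancel, ← Function.iterate_succ_apply' (DW x a) s f,
        ← Function.iterate_succ_apply' (DW x a) (s + 1) f]
      push_cast
      ring

theorem exists_antiW [CharZero κ] (W : Fin n → ℕ) (x : Fin n → MvPolynomial (Fin n) κ)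
    (hx : ThW W x) (a : Fin M → ℕ) (h : MvPolynomial (Fin n) κ)
    (hh : dv x h = 1) (b : Ch κ n M) : ∃ b' : Ch κ n M, DW x a b' = b := by
  obtain ⟨w, hw⟩ := DW_nilp W x hx a b
  refine ⟨-d3A x a h w b, ?_⟩
  rw [d3_DD_neg, d3A_DD x a h hh, d3t_eq_zero x a _ _ b (hw w le_rfl), zero_sub, neg_neg]

theorem exists_projW [CharZero κ] (g : Fin M → MvPolynomial (Fin n) κ) (W : Fin n → ℕ) (δ : Fin M → ℕ)
    (x : Fin n → MvPolynomial (Fin n) κ) (a : Fin M → ℕ) (hs : SysW g W δ x a) (h : MvPolynomial (Fin n) κ)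
    (hh : dv x h = 1) :
    ∃ π : Ch κ n M → Ch κ n M, (∀ f f' : Ch κ n M, π (f + f') = π f + π f') ∧
      (∀ f : Ch κ n M, DW x a (π f) = 0) ∧ (∀ f : Ch κ n M, DW x a f = 0 → π f = f) ∧
      (∀ f : Ch κ n M, π (fun J => h * f J) = 0) ∧ ∀ f : Ch κ n M, π (kd g f) = kd g (π f) := by
  have hx : ThW W x := hs.th
  refine ⟨d3pi W x hx a h, ?_, ?_, ?_, ?_, ?_⟩
  · intro f f'
    obtain ⟨w1, hw1⟩ := DW_nilp W x hx a f
    obtain ⟨w2, hw2⟩ := DW_nilp W x hx a f'
    have hw1' : ∀ r, max w1 w2 ≤ r → (DW x a)^[r] f = 0 :=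
      fun r hr => hw1 r ((le_max_left _ _).trans hr)
    have hw2' : ∀ r, max w1 w2 ≤ r → (DW x a)^[r] f' = 0 :=
      fun r hr => hw2 r ((le_max_right _ _).trans hr)
    have hw3 : ∀ r, max w1 w2 ≤ r → (DW x a)^[r] (f + f') = 0 := by
      intro r hr
      rw [d3_it_add, hw1' r hr, hw2' r hr, add_zero]
    rw [d3pi_eq W x hx a h f _ hw1', d3pi_eq W x hx a h f' _ hw2', d3pi_eq W x hx a h (f + f') _ hw3]
    unfold d3P
    rw [← Finset.sum_add_distrib]
    refine Finset.sum_congr rfl fun r _ => ?_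
    funext J
    unfold d3t
    rw [d3_it_add, Pi.add_apply, Pi.add_apply, mul_add]
  · intro f
    obtain ⟨w, hw⟩ := DW_nilp W x hx a f
    rw [d3pi_eq W x hx a h f (w + 1) (fun r hr => hw r ((Nat.le_succ w).trans hr)), d3P_DD x a h hh]
    exact d3t_eq_zero x a _ _ f (hw _ (Nat.le_succ w))
  · intro f hf
    have hw : ∀ r, 1 ≤ r → (DW x a)^[r] f = 0 := by
      intro r hr
      obtain ⟨s, rfl⟩ := Nat.exists_eq_add_of_le' hr
      rw [Function.iterate_succ_apply, hf, d3_it_zero]
    rw [d3pi_eq W x hx a h f 1 hw]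
    unfold d3P
    rw [Finset.sum_range_one]
    funext J
    unfold d3t
    rw [d3u_zero, one_mul]
    rfl
  · intro f
    obtain ⟨w, hw⟩ := DW_nilp W x hx a f
    have hw' : ∀ r, w + 1 ≤ r → (DW x a)^[r] (fun J => h * f J) = 0 := by
      intro r hr
      rw [d3_it_mul x a h hh]
      funext J
      rw [hw r (by omega), hw (r - 1) (by omega)]
      simp
    rw [d3pi_eq W x hx a h _ (w + 1) hw']
    have key : ∀ v : ℕ, d3P x a h v (fun J => h * f J) =
        fun J => -((v : MvPolynomial (Fin n) κ) * (d3u h v * (DW x a)^[v - 1] f J)) := by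
      intro v
      induction v with
      | zero =>
        funext J
        simp [d3P]
      | succ v ih =>
        rw [d3P_succ, ih]
        funext J
        rw [Pi.add_apply]
        unfold d3t
        rw [d3_it_mul x a h hh, Nat.add_sub_cancel]
        have h1 := d3u_mul h v
        have h2 : d3u h v * (h * (DW x a)^[v] f J) =
            -(((v + 1 : ℕ) : MvPolynomial (Fin n) κ) * (d3u h (v + 1) * (DW x a)^[v] f J)) := by
          rw [← mul_assoc, h1]
          ring
        rw [mul_add, h2]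
        ring
    rw [key]
    funext J
    rw [Nat.add_sub_cancel, hw w le_rfl]
    simp
  · intro f
    obtain ⟨w, hw⟩ := DW_nilp W x hx a f
    have hit : ∀ r, (DW x a)^[r] (kd g f) = kd g ((DW x a)^[r] f) := by
      intro r
      induction r with
      | zero => rfl
      | succ r ih =>
        rw [Function.iterate_succ_apply', ih, DW_kd g W δ x a hs, Function.iterate_succ_apply']
    have hw' : ∀ r, w ≤ r → (DW x a)^[r] (kd g f) = 0 := by
      intro r hr
      rw [hit, hw r hr, kd_zero]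
    rw [d3pi_eq W x hx a h f w hw, d3pi_eq W x hx a h (kd g f) w hw']
    have key : ∀ v : ℕ, d3P x a h v (kd g f) = kd g (d3P x a h v f) := by
      intro v
      induction v with
      | zero =>
        have h0 : ∀ f : Ch κ n M, d3P x a h 0 f = 0 := by
          intro f
          simp [d3P]
        rw [h0, h0, kd_zero]
      | succ v ih =>
        rw [d3P_succ, d3P_succ, kd_add, ih]
        congr 1
        unfold d3t
        rw [hit]
        exact (kd_smul g (d3u h v) ((DW x a)^[v] f)).symm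
    exact key w

end Pool.Agent.LibTC2.KW
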