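import Pool.Agent.LibTC2.KB

/-!
Homogeneous components of chains (weighted version of LibPK60/D4).
-/

open scoped Classical
open MvPolynomial

set_option linter.unusedSectionVars false

namespace Pool.Agent.LibTC2.KW

open Pool.Agent.LibPK60

variable {κ : Type} [Field κ] {n M : ℕ}

/-- the homogeneous component of a chain -/
private noncomputable def D4c (w : Fin n → ℕ) (δ : Fin M → ℕ) (d : ℕ) (f : Ch κ n M) : Ch κ n M :=
  fun J => ∑ α ∈ (f J).support.filter (fun α => wm w α + ∑ j ∈ J, δ j = d),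
    monomial α (coeff α (f J))

private theorem D4c_coeff (w : Fin n → ℕ) (δ : Fin M → ℕ) (d : ℕ) (f : Ch κ n M)
    (J : Finset (Fin M)) (α : Fin n →₀ ℕ) :
    coeff α (D4c w δ d f J) = if wm w α + ∑ j ∈ J, δ j = d then coeff α (f J) else 0 := by
  unfold D4c
  rw [coeff_sum]
  by_cases h : wm w α + ∑ j ∈ J, δ j = d
  · rw [if_pos h]
    by_cases h0 : coeff α (f J) = 0
    · rw [h0]
      refine Finset.sum_eq_zero fun β hβ => ?_
      rw [coeff_monomial, if_neg]
      rintro rfl
      exact (mem_support_iff.1 (Finset.mem_filter.1 hβ).1) h0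
    · rw [Finset.sum_eq_single α]
      · rw [coeff_monomial, if_pos rfl]
      · intro β _ hne
        rw [coeff_monomial, if_neg hne]
      · intro hn
        exact absurd (Finset.mem_filter.2 ⟨mem_support_iff.2 h0, h⟩) hn
  · rw [if_neg h]
    refine Finset.sum_eq_zero fun β hβ => ?_
    rw [coeff_monomial, if_neg]
    rintro rfl
    exact h (Finset.mem_filter.1 hβ).2

private theorem D4_kd (g : Fin M → MvPolynomial (Fin n) κ) (w : Fin n → ℕ) (δ : Fin M → ℕ)
    (hg : ∀ j α, coeff α (g j) ≠ 0 → wm w α = δ j) (d : ℕ) (f : Ch κ n M) (J : Finset (Fin M))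
    (α : Fin n →₀ ℕ) :
    coeff α (kd g (D4c w δ d f) J) =
      if wm w α + ∑ j ∈ J, δ j = d then coeff α (kd g f J) else 0 := by
  have key : ∀ j ∈ Jᶜ, coeff α (g j * D4c w δ d f (insert j J)) =
      if wm w α + ∑ j ∈ J, δ j = d then coeff α (g j * f (insert j J)) else 0 := by
    intro j hj
    have hjJ : j ∉ J := Finset.mem_compl.1 hj
    rw [coeff_mul, coeff_mul]
    have e1 : ∀ x ∈ Finset.HasAntidiagonal.antidiagonal α,
        coeff x.1 (g j) * coeff x.2 (D4c w δ d f (insert j J)) =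
          if wm w α + ∑ j ∈ J, δ j = d then coeff x.1 (g j) * coeff x.2 (f (insert j J))
          else 0 := by
      intro x hx
      have hx' := Finset.HasAntidiagonal.mem_antidiagonal.1 hx
      by_cases h0 : coeff x.1 (g j) = 0
      · rw [h0]
        simp
      · have h2 := hg j x.1 h0
        rw [D4c_coeff, Finset.sum_insert hjJ, ← hx', wm_add, h2]
        have e : wm w x.2 + (δ j + ∑ j ∈ J, δ j) = δ j + wm w x.2 + ∑ j ∈ J, δ j := by
          ring
        rw [e]
        split_ifs <;> simp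
    rw [Finset.sum_congr rfl e1]
    split_ifs
    · rfl
    · simp
  unfold kd
  rw [coeff_sum, coeff_sum]
  have e2 : ∀ j ∈ Jᶜ, coeff α (sg j J • (g j • D4c w δ d f (insert j J))) =
      if wm w α + ∑ j ∈ J, δ j = d then coeff α (sg j J • (g j • f (insert j J))) else 0 := by
    intro j hj
    rw [smul_eq_mul, smul_eq_mul, coeff_smul, coeff_smul, key j hj]
    split_ifs <;> simp
  rw [Finset.sum_congr rfl e2]
  split_ifs
  · rfl
  · simp

private theorem D4_dv (w : Fin n → ℕ) (δ : Fin M → ℕ) (x : Fin n → MvPolynomial (Fin n) κ)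
    (hx : ThW w x) (d : ℕ) (f : Ch κ n M) (J : Finset (Fin M)) (α : Fin n →₀ ℕ) :
    coeff α (dv x (D4c w δ d f J)) =
      if wm w α + ∑ j ∈ J, δ j + 1 = d then coeff α (dv x (f J)) else 0 := by
  unfold dv
  rw [coeff_sum, coeff_sum]
  have e2 : ∀ i ∈ (Finset.univ : Finset (Fin n)), coeff α (x i * pderiv i (D4c w δ d f J)) =
      if wm w α + ∑ j ∈ J, δ j + 1 = d then coeff α (x i * pderiv i (f J)) else 0 := by
    intro i _
    rw [coeff_mul, coeff_mul]
    have e3 : ∀ p ∈ Finset.HasAntidiagonal.antidiagonal α,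
        coeff p.1 (x i) * coeff p.2 (pderiv i (D4c w δ d f J)) =
          if wm w α + ∑ j ∈ J, δ j + 1 = d then coeff p.1 (x i) * coeff p.2 (pderiv i (f J))
          else 0 := by
      intro p hp
      have hp' := Finset.HasAntidiagonal.mem_antidiagonal.1 hp
      by_cases h0 : coeff p.1 (x i) = 0
      · rw [h0]
        simp
      · have h2 := hx i p.1 h0
        rw [coeff_pderiv, coeff_pderiv, D4c_coeff, wm_add, wm_single, ← hp', wm_add, h2]
        have e : wm w p.2 + (w i + 1) * 1 + ∑ j ∈ J, δ j =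
            w i + wm w p.2 + ∑ j ∈ J, δ j + 1 := by
          ring
        rw [e]
        split_ifs <;> simp
    rw [Finset.sum_congr rfl e3]
    split_ifs
    · rfl
    · simp
  rw [Finset.sum_congr rfl e2]
  split_ifs
  · rfl
  · simp

private theorem D4_DD (g : Fin M → MvPolynomial (Fin n) κ) (w : Fin n → ℕ) (δ : Fin M → ℕ) (x : Fin n → MvPolynomial (Fin n) κ)
    (a : Fin M → ℕ) (hs : SysW g w δ x a) (d : ℕ) (f : Ch κ n M) (J : Finset (Fin M))
    (α : Fin n →₀ ℕ) :
    coeff α (DW x a (D4c w δ d f) J) =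
      if wm w α + ∑ j ∈ J, δ j + 1 = d then coeff α (DW x a f J) else 0 := by
  have key : ∀ i j : Fin M, coeff α (if i.val + 1 = j.val ∧ i ∈ J ∧ j ∉ J then
      (a j : MvPolynomial (Fin n) κ) * D4c w δ d f (insert j (J.erase i)) else 0) =
      if wm w α + ∑ j ∈ J, δ j + 1 = d then coeff α (if i.val + 1 = j.val ∧ i ∈ J ∧ j ∉ J then
      (a j : MvPolynomial (Fin n) κ) * f (insert j (J.erase i)) else 0) else 0 := by
    intro i j
    by_cases h : i.val + 1 = j.val ∧ i ∈ J ∧ j ∉ J
    · rw [if_pos h, if_pos h]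
      obtain ⟨h1, h2, h3⟩ := h
      by_cases ha : a j = 0
      · rw [ha]
        simp
      · have h4 := hs.deg i j h1 ha
        have h5 : ∑ l ∈ insert j (J.erase i), δ l = ∑ l ∈ J, δ l + 1 := by
          rw [Finset.sum_insert (fun h => h3 (Finset.mem_of_mem_erase h))]
          have := Finset.add_sum_erase J δ h2
          omega
        have h6 : ∀ p : MvPolynomial (Fin n) κ,
            coeff α ((a j : MvPolynomial (Fin n) κ) * p) = (a j : κ) * coeff α p := by
          intro p
          rw [← map_natCast (C : κ →+* MvPolynomial (Fin n) κ), coeff_C_mul]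
        rw [h6, h6, D4c_coeff, h5, ← add_assoc]
        split_ifs <;> simp
    · rw [if_neg h, if_neg h]
      simp
  unfold DW
  rw [coeff_add, coeff_add, D4_dv w δ x hs.th, coeff_sum, coeff_sum]
  have e1 : ∀ i ∈ (Finset.univ : Finset (Fin M)), coeff α (∑ j : Fin M,
      if i.val + 1 = j.val ∧ i ∈ J ∧ j ∉ J then
      (a j : MvPolynomial (Fin n) κ) * D4c w δ d f (insert j (J.erase i)) else 0) =
      if wm w α + ∑ j ∈ J, δ j + 1 = d then coeff α (∑ j : Fin M,
      if i.val + 1 = j.val ∧ i ∈ J ∧ j ∉ J then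
      (a j : MvPolynomial (Fin n) κ) * f (insert j (J.erase i)) else 0) else 0 := by
    intro i _
    rw [coeff_sum, coeff_sum, Finset.sum_congr rfl fun j _ => key i j]
    split_ifs
    · rfl
    · simp
  rw [Finset.sum_congr rfl e1]
  split_ifs
  · rfl
  · simp

theorem exists_compW (g : Fin M → MvPolynomial (Fin n) κ) (w : Fin n → ℕ) (δ : Fin M → ℕ) (x : Fin n → MvPolynomial (Fin n) κ)
    (a : Fin M → ℕ) (hs : SysW g w δ x a) (d : ℕ) (f : Ch κ n M) :
    ∃ f' : Ch κ n M, GrW w δ d f' ∧ (GrW w δ d (kd g f) → kd g f' = kd g f) ∧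
      ((∀ J α, coeff α (DW x a f J) ≠ 0 → wm w α + ∑ j ∈ J, δ j + 1 = d) →
        DW x a f' = DW x a f) := by
  refine ⟨D4c w δ d f, ?_, ?_, ?_⟩
  · intro J α h
    rw [D4c_coeff] at h
    by_contra h2
    rw [if_neg h2] at h
    exact h rfl
  · intro h
    funext J
    ext α
    rw [D4_kd g w δ hs.hom]
    split_ifs with h2
    · rfl
    · by_contra h3
      exact h2 (h J α (fun h4 => h3 h4.symm))
  · intro h
    funext J
    ext α
    rw [D4_DD g w δ x a hs]
    split_ifs with h2
    · rfl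
    · by_contra h3
      exact h2 (h J α (fun h4 => h3 h4.symm))

end Pool.Agent.LibTC2.KW
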