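import Pool.Agent.LibTC2.K0

/-!
The matrix of the differential of the cone and the torus (weighted version of LibPK60/M4).
-/

open scoped Classical
open MvPolynomial

set_option linter.unusedSectionVars false

namespace Pool.Agent.LibTC2.KW

open Pool.Agent.LibPK60

variable {κ : Type} [Field κ] {n M : ℕ}

/-- the basic chain -/
private noncomputable def M4b (κ : Type) [Field κ] {n M : ℕ} (J : Finset (Fin M))
    (α : Fin n →₀ ℕ) : Ch κ n M :=
  fun J' => if J' = J then monomial α 1 else 0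

private noncomputable def M4s (μ : Fin n → κ) (ρ : Fin M → κ) (J : Finset (Fin M))
    (α : Fin n →₀ ℕ) : κ :=
  (∏ i, μ i ^ α i) * ∏ j ∈ J, ρ j

private theorem M4_prod_ne (μ : Fin n → κ) (hμ : ∀ i, μ i ≠ 0) (α : Fin n →₀ ℕ) :
    (∏ i, μ i ^ α i) ≠ 0 :=
  Finset.prod_ne_zero_iff.2 fun i _ => pow_ne_zero _ (hμ i)

private theorem M4_prod_add (μ : Fin n → κ) (α β : Fin n →₀ ℕ) :
    (∏ i, μ i ^ (α + β : Fin n →₀ ℕ) i) = (∏ i, μ i ^ α i) * ∏ i, μ i ^ β i := by
  rw [← Finset.prod_mul_distrib]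
  refine Finset.prod_congr rfl fun i _ => ?_
  rw [Finsupp.add_apply, pow_add]

private theorem M4_rho_ne (ρ : Fin M → κ) (hρ : ∀ j, ρ j ≠ 0) (J : Finset (Fin M)) :
    (∏ j ∈ J, ρ j) ≠ 0 :=
  Finset.prod_ne_zero_iff.2 fun i _ => hρ i

private theorem M4_kd (g g' : Fin M → MvPolynomial (Fin n) κ) (μ : Fin n → κ) (ρ : Fin M → κ)
    (hμ : ∀ i, μ i ≠ 0) (hρ : ∀ j, ρ j ≠ 0)
    (hg : ∀ j α, coeff α (g' j) = ρ j * (∏ i, μ i ^ α i)⁻¹ * coeff α (g j))
    (J J' : Finset (Fin M)) (α α' : Fin n →₀ ℕ) :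
    (M4s μ ρ J' α')⁻¹ * coeff α' (kd g (M4b κ J α) J') * M4s μ ρ J α =
      coeff α' (kd g' (M4b κ J α) J') := by
  unfold kd
  rw [coeff_sum, coeff_sum, Finset.mul_sum, Finset.sum_mul]
  refine Finset.sum_congr rfl fun j hj => ?_
  have hjJ : j ∉ J' := Finset.mem_compl.1 hj
  rw [smul_eq_mul, smul_eq_mul, coeff_smul, coeff_smul, zsmul_eq_mul, zsmul_eq_mul]
  by_cases h : insert j J' = J
  · have h1 : (M4b κ J α : Ch κ n M) (insert j J') = monomial α 1 := by
      unfold M4b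
      rw [if_pos h]
    rw [h1, coeff_mul_monomial', coeff_mul_monomial']
    by_cases h2 : α ≤ α'
    · rw [if_pos h2, if_pos h2, hg, ← h]
      unfold M4s
      rw [Finset.prod_insert hjJ]
      have h3 : (∏ i, μ i ^ α' i) = (∏ i, μ i ^ (α' - α : Fin n →₀ ℕ) i) * ∏ i, μ i ^ α i := by
        rw [← M4_prod_add, tsub_add_cancel_of_le h2]
      have n1 := M4_prod_ne μ hμ (α' - α)
      have n2 := M4_prod_ne μ hμ α
      have n3 := M4_rho_ne ρ hρ J'
      rw [h3]
      field_simp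
    · rw [if_neg h2, if_neg h2]
      simp
  · have h1 : (M4b κ J α : Ch κ n M) (insert j J') = 0 := by
      unfold M4b
      rw [if_neg h]
    rw [h1]
    simp

private theorem M4_dv (x x' : Fin n → MvPolynomial (Fin n) κ) (μ : Fin n → κ) (ρ : Fin M → κ)
    (hμ : ∀ i, μ i ≠ 0) (hρ : ∀ j, ρ j ≠ 0)
    (hx : ∀ i α, coeff α (x' i) = μ i * (∏ k, μ k ^ α k)⁻¹ * coeff α (x i))
    (J J' : Finset (Fin M)) (α α' : Fin n →₀ ℕ) :
    (M4s μ ρ J' α')⁻¹ * coeff α' (dv x ((M4b κ J α : Ch κ n M) J')) * M4s μ ρ J α =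
      coeff α' (dv x' ((M4b κ J α : Ch κ n M) J')) := by
  unfold dv
  rw [coeff_sum, coeff_sum, Finset.mul_sum, Finset.sum_mul]
  refine Finset.sum_congr rfl fun i _ => ?_
  by_cases h : J' = J
  · have h1 : (M4b κ J α : Ch κ n M) J' = monomial α 1 := by
      unfold M4b
      rw [if_pos h]
    rw [h1, pderiv_monomial, coeff_mul_monomial', coeff_mul_monomial']
    by_cases h2 : α - Finsupp.single i 1 ≤ α'
    · rw [if_pos h2, if_pos h2, hx, h]
      by_cases h0 : α i = 0
      · rw [h0]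
        simp
      · have h4 : α = (α - Finsupp.single i 1) + Finsupp.single i 1 := by
          refine (tsub_add_cancel_of_le ?_).symm
          rw [Finsupp.single_le_iff]
          omega
        have h3 : (∏ i', μ i' ^ (Finsupp.single i 1 : Fin n →₀ ℕ) i') = μ i := by
          rw [Finset.prod_eq_single i]
          · simp
          · intro b _ hb
            rw [Finsupp.single_apply, if_neg (Ne.symm hb), pow_zero]
          · intro h
            exact absurd (Finset.mem_univ i) h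
        have h5 : (∏ k, μ k ^ α k) = (∏ k, μ k ^ (α - Finsupp.single i 1 : Fin n →₀ ℕ) k) * μ i := by
          conv_lhs => rw [h4]
          rw [M4_prod_add, h3]
        have h6 : (∏ k, μ k ^ α' k) = (∏ k, μ k ^ (α' - (α - Finsupp.single i 1) : Fin n →₀ ℕ) k) *
            ∏ k, μ k ^ (α - Finsupp.single i 1 : Fin n →₀ ℕ) k := by
          rw [← M4_prod_add, tsub_add_cancel_of_le h2]
        unfold M4s
        rw [h5, h6]
        have n1 := M4_prod_ne μ hμ (α - Finsupp.single i 1)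
        have n2 := M4_prod_ne μ hμ (α' - (α - Finsupp.single i 1))
        have n3 := M4_rho_ne ρ hρ J
        have n4 := hμ i
        field_simp
    · rw [if_neg h2, if_neg h2]
      simp
  · have h1 : (M4b κ J α : Ch κ n M) J' = 0 := by
      unfold M4b
      rw [if_neg h]
    rw [h1]
    simp

private theorem M4_DD (x x' : Fin n → MvPolynomial (Fin n) κ) (a : Fin M → ℕ) (μ : Fin n → κ)
    (ρ : Fin M → κ) (hμ : ∀ i, μ i ≠ 0) (hρ : ∀ j, ρ j ≠ 0)
    (hx : ∀ i α, coeff α (x' i) = μ i * (∏ k, μ k ^ α k)⁻¹ * coeff α (x i))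
    (hρl : ∀ i j : Fin M, i.val + 1 = j.val → a j ≠ 0 → ρ i = ρ j)
    (J J' : Finset (Fin M)) (α α' : Fin n →₀ ℕ) :
    (M4s μ ρ J' α')⁻¹ * coeff α' (DW x a (M4b κ J α) J') * M4s μ ρ J α =
      coeff α' (DW x' a (M4b κ J α) J') := by
  unfold DW
  rw [coeff_add, coeff_add, mul_add, add_mul, M4_dv x x' μ ρ hμ hρ hx J J' α α']
  congr 1
  rw [coeff_sum, Finset.mul_sum, Finset.sum_mul]
  refine Finset.sum_congr rfl fun i _ => ?_
  rw [coeff_sum, Finset.mul_sum, Finset.sum_mul]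
  refine Finset.sum_congr rfl fun j _ => ?_
  by_cases h : i.val + 1 = j.val ∧ i ∈ J' ∧ j ∉ J'
  · rw [if_pos h]
    obtain ⟨h1, h2, h3⟩ := h
    have h6 : ∀ p : MvPolynomial (Fin n) κ,
        coeff α' ((a j : MvPolynomial (Fin n) κ) * p) = (a j : κ) * coeff α' p := by
      intro p
      rw [← map_natCast (C : κ →+* MvPolynomial (Fin n) κ), coeff_C_mul]
    rw [h6]
    by_cases ha : a j = 0
    · rw [ha]
      simp
    · by_cases h4 : insert j (J'.erase i) = J
      · have h5 : (M4b κ J α : Ch κ n M) (insert j (J'.erase i)) = monomial α 1 := by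
          unfold M4b
          rw [if_pos h4]
        rw [h5, coeff_monomial]
        by_cases h7 : α = α'
        · rw [if_pos h7, ← h4, h7]
          unfold M4s
          rw [Finset.prod_insert (fun h => h3 (Finset.mem_of_mem_erase h)),
            ← Finset.mul_prod_erase J' ρ h2, hρl i j h1 ha]
          have n2 := M4_prod_ne μ hμ α'
          have n3 := M4_rho_ne ρ hρ (J'.erase i)
          have n4 := hρ j
          field_simp
        · rw [if_neg h7]
          simp
      · have h5 : (M4b κ J α : Ch κ n M) (insert j (J'.erase i)) = 0 := by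
          unfold M4b
          rw [if_neg h4]
        rw [h5]
        simp
  · rw [if_neg h]
    simp

private theorem M4_kd_zero (g : Fin M → MvPolynomial (Fin n) κ) :
    kd g (0 : Ch κ n M) = 0 := by
  funext J
  simp [kd]

private theorem M4_DD_zero (x : Fin n → MvPolynomial (Fin n) κ) (a : Fin M → ℕ) : DW x a (0 : Ch κ n M) = 0 := by
  funext J
  simp [DW, dv]

private theorem M4_bas_same (w : Fin n → ℕ) (δ : Fin M → ℕ) (d : ℕ) (b : Bool)
    (J : Finset (Fin M)) (α : Fin n →₀ ℕ)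
    (h : wm w α + ∑ j ∈ J, δ j + (if b = true then 1 else 0) = d) :
    basW κ (⟨(b, J, α), h⟩ : IxW w δ d) b = M4b κ J α := by
  funext J'
  simp [basW, M4b]

private theorem M4_bas_ne (w : Fin n → ℕ) (δ : Fin M → ℕ) (d : ℕ) (b b' : Bool) (hb : b' ≠ b)
    (J : Finset (Fin M)) (α : Fin n →₀ ℕ)
    (h : wm w α + ∑ j ∈ J, δ j + (if b = true then 1 else 0) = d) :
    basW κ (⟨(b, J, α), h⟩ : IxW w δ d) b' = 0 := by
  funext J'
  simp [basW, hb]

theorem CMW_scale (w : Fin n → ℕ) (δ : Fin M → ℕ) (d : ℕ) (g g' : Fin M → MvPolynomial (Fin n) κ)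
    (x x' : Fin n → MvPolynomial (Fin n) κ) (a : Fin M → ℕ) (μ : Fin n → κ) (ρ : Fin M → κ)
    (hμ : ∀ i, μ i ≠ 0) (hρ : ∀ j, ρ j ≠ 0)
    (hg : ∀ j α, coeff α (g' j) = ρ j * (∏ i, μ i ^ α i)⁻¹ * coeff α (g j))
    (hx : ∀ i α, coeff α (x' i) = μ i * (∏ k, μ k ^ α k)⁻¹ * coeff α (x i))
    (hρl : ∀ i j : Fin M, i.val + 1 = j.val → a j ≠ 0 → ρ i = ρ j) (s t : IxW w δ d) :
    pwW μ ρ s * CMW w δ d g x a s t * (pwW μ ρ t)⁻¹ = CMW w δ d g' x' a s t := by
  obtain ⟨⟨b', J', α'⟩, hs⟩ := s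
  obtain ⟨⟨b, J, α⟩, ht⟩ := t
  have hk := M4_kd g g' μ ρ hμ hρ hg J J' α α'
  have hd := M4_DD x x' a μ ρ hμ hρ hx hρl J J' α α'
  unfold M4s at hk hd
  unfold CMW cdW pwW
  cases b' <;> cases b
  · simp only [Bool.false_eq_true, if_false, inv_inv]
    rw [M4_bas_same]
    exact hk
  · simp only [Bool.false_eq_true, if_false]
    rw [M4_bas_ne w δ d true false (by decide), M4_kd_zero, M4_kd_zero]
    simp
  · simp only [if_true, Bool.false_eq_true, if_false, inv_inv]
    rw [M4_bas_same, M4_bas_ne w δ d false true (by decide), M4_kd_zero, M4_kd_zero, sub_zero,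
      sub_zero]
    exact hd
  · simp only [if_true, inv_inv]
    rw [M4_bas_same, M4_bas_ne w δ d true false (by decide), M4_DD_zero, M4_DD_zero, zero_sub,
      zero_sub, Pi.neg_apply, Pi.neg_apply, coeff_neg, coeff_neg, ← hk]
    ring

end Pool.Agent.LibTC2.KW
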