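import Pool.Agent.LibTC2.KB
import Pool.Agent.LibPK60.K5
import Pool.Agent.LibPK60.K7

/-!
Polynomials of large weight lie in the ideal of weighted homogeneous polynomials without common zeros.
-/

open scoped Classical
open MvPolynomial

set_option linter.unusedSectionVars false

namespace Pool.Agent.LibTC2.KW

open Pool.Agent.LibPK60

variable {κ : Type} [Field κ] {n M : ℕ}

/-- the exponents multiplied by `w + 1` -/
private noncomputable def sc (w : Fin n → ℕ) (α : Fin n →₀ ℕ) : Fin n →₀ ℕ :=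
  Finsupp.equivFunOnFinite.symm (fun i => (w i + 1) * α i)

private theorem sc_apply (w : Fin n → ℕ) (α : Fin n →₀ ℕ) (i : Fin n) :
    sc w α i = (w i + 1) * α i := rfl

private theorem sc_le (w : Fin n → ℕ) (α β : Fin n →₀ ℕ) : sc w α ≤ sc w β ↔ α ≤ β := by
  rw [Finsupp.le_def, Finsupp.le_def]
  refine forall_congr' fun i => ?_
  rw [sc_apply, sc_apply]
  exact Nat.mul_le_mul_left_iff (Nat.succ_pos _)

private theorem sc_inj (w : Fin n → ℕ) : Function.Injective (sc w) := fun α β h =>
  le_antisymm ((sc_le w α β).1 h.le) ((sc_le w β α).1 h.ge)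

private theorem sc_sub (w : Fin n → ℕ) (α β : Fin n →₀ ℕ) :
    sc w (α - β) = sc w α - sc w β := by
  ext i
  rw [sc_apply, Finsupp.tsub_apply, Finsupp.tsub_apply, sc_apply, sc_apply, Nat.mul_sub]

/-- the substitution of `Y_i ^ (w_i + 1)` for `y_i` -/
private noncomputable def sb (w : Fin n → ℕ) : MvPolynomial (Fin n) κ →ₐ[κ] MvPolynomial (Fin n) κ :=
  aeval fun i => (MvPolynomial.X i : MvPolynomial (Fin n) κ) ^ (w i + 1)

private theorem sb_monomial (w : Fin n → ℕ) (α : Fin n →₀ ℕ) (c : κ) :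
    sb w (monomial α c) = monomial (sc w α) c := by
  unfold sb
  rw [aeval_monomial, monomial_eq (s := sc w α), MvPolynomial.algebraMap_eq]
  congr 1
  rw [Finsupp.prod_fintype _ _ (fun i => pow_zero _), Finsupp.prod_fintype _ _ (fun i => pow_zero _)]
  refine Finset.prod_congr rfl fun i _ => ?_
  rw [← pow_mul, sc_apply]

/-- the projection back -/
private noncomputable def pj (w : Fin n → ℕ) (q : MvPolynomial (Fin n) κ) :
    MvPolynomial (Fin n) κ :=
  ∑ α ∈ q.support.preimage (sc w) (sc_inj w).injOn, monomial α (coeff (sc w α) q)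

private theorem coeff_pj (w : Fin n → ℕ) (q : MvPolynomial (Fin n) κ) (α : Fin n →₀ ℕ) :
    coeff α (pj w q) = coeff (sc w α) q := by
  unfold pj
  rw [coeff_sum]
  by_cases h : coeff (sc w α) q = 0
  · rw [h]
    refine Finset.sum_eq_zero fun β _ => ?_
    rw [coeff_monomial]
    split_ifs with h1
    · rw [h1, h]
    · rfl
  · rw [Finset.sum_eq_single α]
    · rw [coeff_monomial, if_pos rfl]
    · intro β _ hne
      rw [coeff_monomial, if_neg hne]
    · intro hn
      exact absurd (Finset.mem_preimage.2 (mem_support_iff.2 h)) hn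

private theorem pj_add (w : Fin n → ℕ) (p q : MvPolynomial (Fin n) κ) :
    pj w (p + q) = pj w p + pj w q := by
  ext α
  rw [coeff_pj, coeff_add, coeff_add, coeff_pj, coeff_pj]

private theorem pj_zero (w : Fin n → ℕ) : pj w (0 : MvPolynomial (Fin n) κ) = 0 := by
  ext α
  rw [coeff_pj, coeff_zero, coeff_zero]

private theorem pj_sum (w : Fin n → ℕ) {I : Type} (A : Finset I) (p : I → MvPolynomial (Fin n) κ) :
    pj w (∑ i ∈ A, p i) = ∑ i ∈ A, pj w (p i) := by
  ext α
  rw [coeff_pj, coeff_sum, coeff_sum]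
  exact Finset.sum_congr rfl fun i _ => (coeff_pj w (p i) α).symm

private theorem pj_sb_mul (w : Fin n → ℕ) (p q : MvPolynomial (Fin n) κ) :
    pj w (sb w p * q) = p * pj w q := by
  induction p using MvPolynomial.induction_on' with
  | monomial β c =>
    ext α
    rw [coeff_pj, sb_monomial, coeff_monomial_mul', coeff_monomial_mul']
    by_cases h : β ≤ α
    · rw [if_pos ((sc_le w β α).2 h), if_pos h, coeff_pj, sc_sub]
    · rw [if_neg (fun h1 => h ((sc_le w β α).1 h1)), if_neg h]
  | add p₁ p₂ h₁ h₂ => rw [map_add, add_mul, add_mul, pj_add, h₁, h₂]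

private theorem pj_sb (w : Fin n → ℕ) (p : MvPolynomial (Fin n) κ) : pj w (sb w p) = p := by
  ext α
  rw [coeff_pj]
  induction p using MvPolynomial.induction_on' with
  | monomial β c =>
    rw [sb_monomial, coeff_monomial, coeff_monomial]
    by_cases h : β = α
    · rw [if_pos h, if_pos (by rw [h])]
    · rw [if_neg h, if_neg (fun h1 => h (sc_inj w h1))]
  | add p₁ p₂ h₁ h₂ => rw [map_add, coeff_add, coeff_add, h₁, h₂]

private theorem sb_hom (w : Fin n → ℕ) (d : ℕ) (f : MvPolynomial (Fin n) κ)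
    (hf : ∀ α, coeff α f ≠ 0 → wm w α = d) : (sb w f).IsHomogeneous d := by
  rw [f.as_sum, map_sum]
  refine IsHomogeneous.sum _ _ _ fun α hα => ?_
  rw [sb_monomial]
  refine isHomogeneous_monomial _ ?_
  rw [Finsupp.degree_eq_sum]
  exact hf α (mem_support_iff.1 hα)

theorem top_memW [IsAlgClosed κ] {n : ℕ} (w : Fin (n + 1) → ℕ)
    (g : Fin (n + 1) → MvPolynomial (Fin (n + 1)) κ) (δ : Fin (n + 1) → ℕ)
    (hom : ∀ j α, coeff α (g j) ≠ 0 → wm w α = δ j)
    (hz : ∀ y : Fin (n + 1) → κ, (∀ j, eval y (g j) = 0) → y = 0)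
    (d : ℕ) (hd : ∑ j, δ j ≤ d) (f : MvPolynomial (Fin (n + 1)) κ)
    (hf : ∀ α, coeff α f ≠ 0 → wm w α = d) : f ∈ Ideal.span (Set.range g) := by
  have hacy : Acy (fun j => sb w (g j)) (MvPolynomial (Fin (n + 1)) κ) 1 := by
    refine acy_forms _ fun Y hY => ?_
    have h1 : (fun i => Y i ^ (w i + 1)) = (0 : Fin (n + 1) → κ) := by
      refine hz _ fun j => ?_
      have h2 := hY j
      have h3 : eval Y (sb w (g j)) = eval (fun i => Y i ^ (w i + 1)) (g j) := by
        unfold sb
        rw [← coe_aeval_eq_eval, ← coe_aeval_eq_eval]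
        change (aeval Y) ((aeval _) (g j)) = aeval _ (g j)
        rw [← AlgHom.comp_apply, comp_aeval]
        congr 2
        funext i
        rw [map_pow, aeval_X]
      rw [← h3, h2]
    funext i
    have h2 := congrFun h1 i
    exact pow_eq_zero_iff (Nat.succ_ne_zero (w i)) |>.1 h2
  have h1 := top_mem (fun j => sb w (g j)) δ (fun j => sb_hom w (δ j) (g j) (hom j)) hacy d hd
    (sb w f) (sb_hom w d f hf)
  obtain ⟨c, hc⟩ := Ideal.mem_span_range_iff_exists_fun.1 h1
  refine Ideal.mem_span_range_iff_exists_fun.2 ⟨fun j => pj w (c j), ?_⟩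
  have h2 := congrArg (pj w) hc
  rw [pj_sb, pj_sum] at h2
  rw [← h2]
  refine Finset.sum_congr rfl fun j _ => ?_
  rw [mul_comm (c j), pj_sb_mul, mul_comm]

end Pool.Agent.LibTC2.KW
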