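import Pool.Agent.LibPK60.K1
import Pool.Agent.LibTC2.K0

/-!
Cycles modulo a further form (weighted version of LibPK60/K8).
-/

open scoped Classical
open MvPolynomial

set_option linter.unusedSectionVars false

namespace Pool.Agent.LibTC2.KW

open Pool.Agent.LibPK60

variable {κ : Type} [Field κ] {n M : ℕ}

private theorem k8_univ {S Q : Type} [CommRing S] [AddCommGroup Q] [Module S Q] {M : ℕ}
    (g : Fin M → S) (f : Finset (Fin M) → Q) (J : Finset (Fin M)) :
    kd g f J = ∑ j, if j ∈ J then 0 else sg j J • (g j • f (insert j J)) := by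
  have h1 : kd g f J = ∑ j ∈ Jᶜ, if j ∈ J then 0 else sg j J • (g j • f (insert j J)) := by
    refine Finset.sum_congr rfl fun j hj => ?_
    rw [if_neg (Finset.mem_compl.1 hj)]
  rw [h1]
  refine Finset.sum_subset (Finset.subset_univ _) fun j _ hj => ?_
  rw [Finset.mem_compl, not_not] at hj
  rw [if_pos hj]

/-- the preimage under `Fin.succ` -/
private noncomputable def k8pre {n : ℕ} (J : Finset (Fin (n + 1))) : Finset (Fin n) :=
  Finset.univ.filter fun j => j.succ ∈ J

private theorem k8_mem {n : ℕ} (J : Finset (Fin (n + 1))) (j : Fin n) :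
    j ∈ k8pre J ↔ j.succ ∈ J := by
  simp only [k8pre, Finset.mem_filter, Finset.mem_univ, true_and]

private theorem k8_insert {n : ℕ} (J : Finset (Fin (n + 1))) (j : Fin n) :
    k8pre (insert j.succ J) = insert j (k8pre J) := by
  ext i
  rw [k8_mem, Finset.mem_insert, Finset.mem_insert, k8_mem, Fin.succ_inj]

private theorem k8_map {n : ℕ} (J : Finset (Fin n)) : k8pre (J.map (Fin.succEmb n)) = J := by
  ext i
  rw [k8_mem]
  exact Finset.mem_map' (Fin.succEmb n)

private theorem k8_zero {n : ℕ} (J : Finset (Fin n)) : (0 : Fin (n + 1)) ∉ J.map (Fin.succEmb n) := by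
  intro h
  obtain ⟨i, _, hi⟩ := Finset.mem_map.1 h
  exact Fin.succ_ne_zero i hi

private theorem k8_mapinsert {n : ℕ} (J : Finset (Fin n)) (j : Fin n) :
    (insert j J).map (Fin.succEmb n) = insert j.succ (J.map (Fin.succEmb n)) :=
  Finset.map_insert (Fin.succEmb n) j J

private theorem k8_sg {n : ℕ} (J : Finset (Fin (n + 1))) (hJ : (0 : Fin (n + 1)) ∉ J) (j : Fin n) :
    sg j.succ J = sg j (k8pre J) := by
  have h1 : (J.filter fun i => i < j.succ) =
      ((k8pre J).filter fun i => i < j).map (Fin.succEmb n) := by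
    ext i
    rw [Finset.mem_filter, Finset.mem_map]
    constructor
    · rintro ⟨hi, hlt⟩
      have hi0 : i ≠ 0 := fun h => hJ (h ▸ hi)
      obtain ⟨k, rfl⟩ := Fin.exists_succ_eq.2 hi0
      exact ⟨k, Finset.mem_filter.2 ⟨(k8_mem J k).2 hi, Fin.succ_lt_succ_iff.1 hlt⟩, rfl⟩
    · rintro ⟨k, hk, rfl⟩
      rw [Finset.mem_filter, k8_mem] at hk
      exact ⟨hk.1, Fin.succ_lt_succ_iff.2 hk.2⟩
  unfold sg
  rw [h1, Finset.card_map]

private theorem k8_sg0 {n : ℕ} (J : Finset (Fin (n + 1))) : sg (0 : Fin (n + 1)) J = 1 := by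
  unfold sg
  rw [Finset.filter_false_of_mem (fun i _ => Fin.not_lt_zero i), Finset.card_empty, pow_zero]

theorem ker_decompW {n : ℕ} (w : Fin (n + 1) → ℕ) (g : Fin n → MvPolynomial (Fin (n + 1)) κ)
    (h : MvPolynomial (Fin (n + 1)) κ) (δ : Fin n → ℕ) (d : ℕ)
    (hacy : Acy (Fin.cons h g : Fin (n + 1) → MvPolynomial (Fin (n + 1)) κ)
      (MvPolynomial (Fin (n + 1)) κ) 1)
    (htop : ∀ f : MvPolynomial (Fin (n + 1)) κ, (∀ α, coeff α f ≠ 0 → wm w α = d) →
      f ∈ Ideal.span (Set.range (Fin.cons h g : Fin (n + 1) → MvPolynomial (Fin (n + 1)) κ)))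
    (f : Ch κ (n + 1) n) (hf : kd g f = 0) (hgr : GrW w δ d f) :
    ∃ u v : Ch κ (n + 1) n, f = kd g u + fun J => h * v J := by
  -- the part at `∅`
  have hhom : ∀ α, coeff α (f ∅) ≠ 0 → wm w α = d := by
    intro α hα
    have h1 := hgr ∅ α hα
    rwa [Finset.sum_empty, add_zero] at h1
  obtain ⟨c, hc⟩ := Ideal.mem_span_range_iff_exists_fun.1 (htop _ hhom)
  rw [Fin.sum_univ_succ] at hc
  simp only [Fin.cons_zero, Fin.cons_succ] at hc
  -- the other part
  obtain ⟨f₁, hf₁⟩ : ∃ f₁ : Ch κ (n + 1) n, ∀ J, f₁ J = if J = ∅ then 0 else f J :=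
    ⟨_, fun J => rfl⟩
  have hf₁d : ∀ J, kd g f₁ J = 0 := by
    intro J
    have h1 : kd g f₁ J = kd g f J := by
      refine Finset.sum_congr rfl fun j _ => ?_
      rw [hf₁, if_neg (Finset.insert_ne_empty j J)]
    rw [h1, hf]
    rfl
  obtain ⟨fp, hfp⟩ : ∃ fp : Finset (Fin (n + 1)) → MvPolynomial (Fin (n + 1)) κ,
      ∀ J, fp J = if (0 : Fin (n + 1)) ∈ J then 0 else f₁ (k8pre J) := ⟨_, fun J => rfl⟩
  have hfpd : kd (Fin.cons h g : Fin (n + 1) → MvPolynomial (Fin (n + 1)) κ) fp = 0 := by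
    funext J
    rw [k8_univ, Fin.sum_univ_succ]
    by_cases hJ : (0 : Fin (n + 1)) ∈ J
    · rw [if_pos hJ, zero_add]
      refine Finset.sum_eq_zero fun j _ => ?_
      rw [hfp, if_pos (Finset.mem_insert_of_mem hJ), smul_zero, smul_zero, ite_self]
    · rw [if_neg hJ, hfp, if_pos (Finset.mem_insert_self _ _), smul_zero, smul_zero, zero_add]
      rw [Pi.zero_apply]
      refine Eq.trans ?_ ((k8_univ g f₁ (k8pre J)).symm.trans (hf₁d (k8pre J)))
      refine Finset.sum_congr rfl fun j _ => ?_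
      have h0 : (0 : Fin (n + 1)) ∉ insert j.succ J := by
        rw [Finset.mem_insert, not_or]
        exact ⟨(Fin.succ_ne_zero j).symm, hJ⟩
      rw [k8_sg J hJ, hfp, if_neg h0, k8_insert, Fin.cons_succ]
      by_cases hj : j.succ ∈ J
      · rw [if_pos hj, if_pos ((k8_mem J j).2 hj)]
      · rw [if_neg hj, if_neg (fun h => hj ((k8_mem J j).1 h))]
  obtain ⟨F, _, hF⟩ := hacy fp hfpd (fun J hJ => by
    have h1 : J = ∅ := Finset.card_eq_zero.1 (Nat.lt_one_iff.1 hJ)
    rw [hfp, h1, if_neg (Finset.notMem_empty _)]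
    have h2 : k8pre (∅ : Finset (Fin (n + 1))) = ∅ := by
      ext i
      rw [k8_mem]
      simp
    rw [h2, hf₁, if_pos rfl])
  obtain ⟨u₀, hu₀⟩ : ∃ u₀ : Ch κ (n + 1) n, ∀ J, u₀ J = ∑ j, if J = {j} then c j.succ else 0 :=
    ⟨_, fun J => rfl⟩
  obtain ⟨v₀, hv₀⟩ : ∃ v₀ : Ch κ (n + 1) n, ∀ J, v₀ J = if J = ∅ then c 0 else 0 :=
    ⟨_, fun J => rfl⟩
  refine ⟨(fun J => F (J.map (Fin.succEmb n))) + u₀,
    fun J => F (insert 0 (J.map (Fin.succEmb n))) + v₀ J, ?_⟩
  rw [kd_add]
  funext J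
  rw [Pi.add_apply, Pi.add_apply]
  have e1 : f₁ J = kd g (fun J => F (J.map (Fin.succEmb n))) J +
      h * F (insert 0 (J.map (Fin.succEmb n))) := by
    have h1 := congrFun hF (J.map (Fin.succEmb n))
    rw [hfp, if_neg (k8_zero J), k8_map, k8_univ, Fin.sum_univ_succ, if_neg (k8_zero J), k8_sg0,
      one_smul, Fin.cons_zero, smul_eq_mul] at h1
    rw [← h1, k8_univ, add_comm (h * _)]
    congr 1
    refine Finset.sum_congr rfl fun j _ => ?_
    rw [k8_sg _ (k8_zero J), k8_map, Fin.cons_succ, k8_mapinsert]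
    by_cases hj : j ∈ J
    · rw [if_pos hj, if_pos]
      rw [← k8_mem, k8_map]
      exact hj
    · rw [if_neg hj, if_neg]
      rw [← k8_mem, k8_map]
      exact hj
  have e2 : f J - f₁ J = kd g u₀ J + h * v₀ J := by
    by_cases hJ : J = ∅
    · subst hJ
      rw [hf₁, if_pos rfl, sub_zero, hv₀, if_pos rfl, ← hc, add_comm (c 0 * h), mul_comm h (c 0),
        k8_univ]
      congr 1
      refine Finset.sum_congr rfl fun j _ => ?_
      have h1 : sg j (∅ : Finset (Fin n)) = 1 := by
        unfold sg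
        rw [Finset.filter_empty, Finset.card_empty, pow_zero]
      have h2 : u₀ (insert j ∅) = c j.succ := by
        rw [hu₀, Finset.sum_eq_single j]
        · rw [if_pos]
          rfl
        · intro k _ hk
          rw [if_neg]
          intro h3
          have h4 : j ∈ ({k} : Finset (Fin n)) := h3 ▸ Finset.mem_insert_self j ∅
          exact hk (Finset.mem_singleton.1 h4).symm
        · intro h3
          exact absurd (Finset.mem_univ j) h3
      rw [if_neg (Finset.notMem_empty j), h1, one_smul, h2, smul_eq_mul, mul_comm]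
    · rw [hf₁, if_neg hJ, sub_self, hv₀, if_neg hJ, mul_zero, add_zero]
      symm
      refine Finset.sum_eq_zero fun j hj => ?_
      have h2 : u₀ (insert j J) = 0 := by
        rw [hu₀]
        refine Finset.sum_eq_zero fun k _ => ?_
        rw [if_neg]
        intro h3
        have h4 : (insert j J).card = 1 := by rw [h3, Finset.card_singleton]
        rw [Finset.card_insert_of_notMem (Finset.mem_compl.1 hj)] at h4
        exact hJ (Finset.card_eq_zero.1 (by omega))
      rw [h2, smul_zero, smul_zero]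
  show f J = _ + h * (F (insert 0 (J.map (Fin.succEmb n))) + v₀ J)
  linear_combination e1 + e2

end Pool.Agent.LibTC2.KW
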