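import Pool.Agent.LibTC2.KS0

/-!
[TC1 KS3] the system and the torus. Plan: `σ : MvPolynomial (Fin n) K →ₐ[K] MvPolynomial (Fin n) K`, `X t ↦ C (mu ε l t) * X t`; `coeff α (σ p) = (∏ i, mu ε l i ^ α i) * coeff α p` (`MvPolynomial.induction_on'`, monomials). `Polynomial.map σ (gen ε x' i) = C (C (l i)) * gen ε x i` for `x' i = l i * x i` (`mu ε l (ε.symm ⟨i, m⟩) = l i`).
So `Polynomial.map σ (cmp X (gen ε x')) = aeval (fun i => C (C (l i)) * gen ε x i) X.F = C (C (∏ i, l i)) * cmp X (gen ε x)`: monomial by monomial (`as_sum`, `aeval_monomial`, `mul_pow`, `Finset.prod_mul_distrib`), `∏ i, l i ^ e i = ∏ i, l i` for `e ∈ X.F.support`, because `e i = (∑ j, m j * P.v i j) + 1` (`X.mon`) and `∏ i, l i ^ (∑ j, m j * P.v i j) = 1` (`IsT`, exponents in `ℤ`, `zpow_add₀`, `zpow_natCast`).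
Hence `(∏ i, mu i ^ α i) * coeff α (kap x' l) = (∏ i, l i) * coeff α (kap x l)`. `th_scale`: two cases (`th` is a number times `C (x i)` or times `X s` with `mu s = mu t`); coefficients: `coeff_C`, `coeff_X'`, `coeff_C_mul`/`map_natCast`.
-/

open scoped Classical
open MvPolynomial

set_option linter.unusedSectionVars false

namespace Pool.Agent.LibTC2.KW

open Pool.Agent.LibPK60 Pool.Agent.LibBH2 Pool.Agent.LibQC8

variable {ι : Type} [Fintype ι] {r : ℕ} {k : Type} [Field k] {P : Tor ι r} {n : ℕ}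
  {K : Type} [Field K] [Algebra k K]

private noncomputable def sg (μ : Fin n → K) : MvPolynomial (Fin n) K →ₐ[K] MvPolynomial (Fin n) K :=
  aeval fun t => C (μ t) * MvPolynomial.X t

private theorem sg_C (μ : Fin n → K) (c : K) : sg μ (C c) = C c := by
  simp [sg]

private theorem sg_X (μ : Fin n → K) (t : Fin n) :
    sg μ (MvPolynomial.X t) = C (μ t) * MvPolynomial.X t := by
  simp [sg]

private theorem sg_coeff (μ : Fin n → K) (p : MvPolynomial (Fin n) K) (α : Fin n →₀ ℕ) :
    coeff α (sg μ p) = (∏ i, μ i ^ α i) * coeff α p := by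
  refine MvPolynomial.induction_on' p ?_ ?_
  · intro β c
    have h1 : sg μ (monomial β c) = monomial β ((∏ i, μ i ^ β i) * c) := by
      rw [sg, aeval_monomial, monomial_eq (s := β) (a := (∏ i, μ i ^ β i) * c)]
      rw [Finsupp.prod_fintype _ _ (fun i => pow_zero _), Finsupp.prod_fintype _ _ (fun i => pow_zero _)]
      simp only [mul_pow, Finset.prod_mul_distrib]
      rw [map_mul, map_prod]
      simp only [map_pow, algebraMap_eq]
      ring
    rw [h1, coeff_monomial, coeff_monomial]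
    by_cases h : β = α
    · rw [if_pos h, if_pos h, h]
    · rw [if_neg h, if_neg h, mul_zero]
  · intro p q hp hq
    rw [map_add, coeff_add, coeff_add, hp, hq, mul_add]

private theorem cmp_eq (X : Hyp k P) (f : ι → Polynomial (MvPolynomial (Fin n) K)) :
    cmp X f = ∑ e ∈ X.F.support,
      Polynomial.C (C (algebraMap k K (coeff e X.F))) * ∏ i, f i ^ e i := by
  unfold cmp
  rw [aeval_def, eval₂_eq']
  rfl

private theorem map_gen {a : ι → ℤ} (ε : Fin n ≃ Un a) (x l : ι → K) (i : ι) :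
    Polynomial.map (sg (mu ε l) : MvPolynomial (Fin n) K →+* MvPolynomial (Fin n) K)
      (gen ε (fun i => l i * x i) i) = Polynomial.C (C (l i)) * gen ε x i := by
  unfold gen
  rw [Polynomial.map_add, Polynomial.map_C, Polynomial.map_sum, mul_add, Finset.mul_sum]
  congr 1
  · rw [RingHom.coe_coe, sg_C, ← Polynomial.C_mul, ← C_mul]
  · refine Finset.sum_congr rfl fun m _ => ?_
    rw [Polynomial.map_mul, Polynomial.map_C, Polynomial.map_pow, Polynomial.map_X,
      RingHom.coe_coe, sg_X, Polynomial.C_mul, ← mul_assoc]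
    have h1 : mu ε l (ε.symm ⟨i, m⟩) = l i := by
      unfold mu
      rw [Equiv.apply_symm_apply]
    rw [h1]

private theorem prod_l (X : Hyp k P) {l : ι → K} (hl : IsT P l) {e : ι →₀ ℕ}
    (he : e ∈ X.F.support) : ∏ i, l i ^ e i = ∏ i, l i ^ P.g i := by
  obtain ⟨m, hm⟩ := X.mon e he
  have h1 : ∀ i, l i ^ e i = l i ^ (∑ j, m j * P.v i j) * l i ^ P.g i := fun i => by
    rw [← zpow_natCast, hm i, zpow_add₀ (hl.1 i), zpow_natCast]
  rw [Finset.prod_congr rfl fun i _ => h1 i, Finset.prod_mul_distrib, hl.2 m, one_mul]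

private theorem map_cmp (X : Hyp k P) {a : ι → ℤ} (ε : Fin n ≃ Un a) (x l : ι → K)
    (hl : IsT P l) :
    Polynomial.map (sg (mu ε l) : MvPolynomial (Fin n) K →+* MvPolynomial (Fin n) K)
      (cmp X (gen ε (fun i => l i * x i))) = Polynomial.C (C (∏ i, l i ^ P.g i)) * cmp X (gen ε x) := by
  rw [cmp_eq, cmp_eq, Polynomial.map_sum, Finset.mul_sum]
  refine Finset.sum_congr rfl fun e he => ?_
  rw [Polynomial.map_mul, Polynomial.map_C, RingHom.coe_coe, sg_C, Polynomial.map_prod]
  have h1 : ∀ i, Polynomial.map (sg (mu ε l) : MvPolynomial (Fin n) K →+* MvPolynomial (Fin n) K)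
      (gen ε (fun i => l i * x i) i ^ e i) =
      Polynomial.C (C (l i ^ e i)) * gen ε x i ^ e i := fun i => by
    rw [Polynomial.map_pow, map_gen, mul_pow, C_pow, Polynomial.C_pow]
  rw [Finset.prod_congr rfl fun i _ => h1 i, Finset.prod_mul_distrib, ← prod_l X hl he]
  have h2 : (Polynomial.C (C (∏ i, l i ^ e i)) : Polynomial (MvPolynomial (Fin n) K)) =
      ∏ i, Polynomial.C (C (l i ^ e i)) := by
    rw [map_prod, map_prod]
  rw [h2]
  ring

theorem gs_scale (X : Hyp k P) {a : ι → ℤ} (ε : Fin n ≃ Un a) (M : ℕ) (x l : ι → K)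
    (hl : IsT P l) (j : Fin M) (α : Fin n →₀ ℕ) :
    coeff α (gs X ε M (fun i => l i * x i) j) =
      rh P M l j * (∏ i, mu ε l i ^ α i)⁻¹ * coeff α (gs X ε M x j) := by
  have h1 := congrArg (fun q => coeff α (Polynomial.coeff q (j.val + 1))) (map_cmp X ε x l hl)
  simp only [Polynomial.coeff_map, Polynomial.coeff_C_mul, coeff_C_mul, RingHom.coe_coe] at h1
  rw [sg_coeff] at h1
  have h2 : (∏ i, mu ε l i ^ α i) ≠ 0 :=
    Finset.prod_ne_zero_iff.2 fun i _ => pow_ne_zero _ (hl.1 _)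
  unfold gs kap rh
  rw [mul_right_comm, ← h1]
  field_simp

theorem th_scale {a : ι → ℤ} (ε : Fin n ≃ Un a) (x l : ι → K) (hl : ∀ i, l i ≠ 0) (t : Fin n)
    (α : Fin n →₀ ℕ) :
    coeff α (th ε (fun i => l i * x i) t) =
      mu ε l t * (∏ i, mu ε l i ^ α i)⁻¹ * coeff α (th ε x t) := by
  unfold th
  have hN : ∀ N : ℕ, (N : MvPolynomial (Fin n) K) = C (N : K) := fun N => by simp
  rw [hN, coeff_C_mul, coeff_C_mul]
  by_cases h0 : (ε t).2.val = 0
  · rw [if_pos h0, if_pos h0, coeff_C, coeff_C]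
    by_cases hα : 0 = α
    · subst hα
      rw [if_pos rfl, if_pos rfl]
      simp only [Finsupp.coe_zero, Pi.zero_apply, pow_zero, Finset.prod_const_one, inv_one, mul_one]
      unfold mu
      ring
    · rw [if_neg hα, if_neg hα, mul_zero, mul_zero]
  · rw [if_neg h0, if_neg h0]
    obtain ⟨s, hs⟩ : ∃ s, s = ε.symm ⟨(ε t).1, ⟨(ε t).2.val - 1,
      lt_of_le_of_lt (Nat.sub_le _ _) (ε t).2.isLt⟩⟩ := ⟨_, rfl⟩
    rw [← hs, coeff_X]
    by_cases hα : Finsupp.single s 1 = α
    · rw [if_pos hα]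
      have h1 : (∏ i, mu ε l i ^ α i) = mu ε l s := by
        rw [← hα, Finset.prod_eq_single s]
        · simp
        · intro i _ hi
          rw [Finsupp.single_apply, if_neg (Ne.symm hi), pow_zero]
        · intro h
          exact absurd (Finset.mem_univ s) h
      have h2 : mu ε l s = mu ε l t := by
        unfold mu
        rw [hs, Equiv.apply_symm_apply]
      have h3 : mu ε l t ≠ 0 := hl _
      rw [h1, h2, mul_inv_cancel₀ h3, one_mul]
    · rw [if_neg hα, mul_zero, mul_zero]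

end Pool.Agent.LibTC2.KW
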