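import Pool.Agent.LibTC2.KS0

/-!
[TC1 KS4] values of the coefficients. Plan: the predicate `V p p₀ : ∀ l α, v.Zer (coeff α (p.coeff l) - algebraMap k K (coeff α (p₀.coeff l)))` for `p : Polynomial (MvPolynomial (Fin n) K)`, `p₀ : Polynomial (MvPolynomial (Fin n) k)` is closed under `+`, `*` (`Polynomial.coeff_mul`, `MvPolynomial.coeff_mul`, finite sums), and holds for the images of `c : k` and for `gen ε x i`, `gen ε x₀ i`;
the lemmas on places are in LibBH2/Place.lean (`Place.val_add`, `Place.val_mul`, `Place.zer_zero`, ..), the same argument for `MvPolynomial` is in LibTC2/KI.lean (`Val.add`, `Val.mul`, `val_fsum`). Then `MvPolynomial.induction_on X.F` for `cmp`. `th_val`: `th` is a natural number times `C (x i)` or `X s`.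
-/

open scoped Classical
open MvPolynomial

set_option linter.unusedSectionVars false

namespace Pool.Agent.LibTC2.KW

open Pool.Agent.LibPK60 Pool.Agent.LibBH2 Pool.Agent.LibQC8

variable {ι : Type} [Fintype ι] {r : ℕ} {k : Type} [Field k] {P : Tor ι r} {n : ℕ}
  {K : Type} [Field K] [Algebra k K]

private def Val (v : Place k K) (p : MvPolynomial (Fin n) K) (p₀ : MvPolynomial (Fin n) k) :
    Prop := ∀ α, v.Zer (coeff α p - algebraMap k K (coeff α p₀))

private theorem Val.zero (v : Place k K) : Val (n := n) v 0 0 := by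
  intro α
  rw [coeff_zero, coeff_zero, map_zero, sub_zero]
  exact v.zer_zero

private theorem Val.add {v : Place k K} {p q : MvPolynomial (Fin n) K}
    {p₀ q₀ : MvPolynomial (Fin n) k} (h : Val v p p₀) (h' : Val v q q₀) :
    Val v (p + q) (p₀ + q₀) := by
  intro α
  rw [coeff_add, coeff_add]
  exact Place.val_add (h α) (h' α)

private theorem Val.sum {v : Place k K} {J : Type} (s : Finset J)
    (p : J → MvPolynomial (Fin n) K) (p₀ : J → MvPolynomial (Fin n) k)
    (h : ∀ i ∈ s, Val v (p i) (p₀ i)) : Val v (∑ i ∈ s, p i) (∑ i ∈ s, p₀ i) := by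
  induction s using Finset.induction_on with
  | empty =>
    rw [Finset.sum_empty, Finset.sum_empty]
    exact Val.zero v
  | insert a s ha ih =>
    rw [Finset.sum_insert ha, Finset.sum_insert ha]
    exact (h a (Finset.mem_insert_self _ _)).add
      (ih fun i hi => h i (Finset.mem_insert_of_mem hi))

private theorem val_fsum {v : Place k K} {J : Type} (s : Finset J) (f : J → K) (f₀ : J → k)
    (h : ∀ i ∈ s, v.Zer (f i - algebraMap k K (f₀ i))) :
    v.Zer (∑ i ∈ s, f i - algebraMap k K (∑ i ∈ s, f₀ i)) := by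
  induction s using Finset.induction_on with
  | empty =>
    rw [Finset.sum_empty, Finset.sum_empty, map_zero, sub_zero]
    exact v.zer_zero
  | insert a s ha ih =>
    rw [Finset.sum_insert ha, Finset.sum_insert ha]
    exact Place.val_add (h a (Finset.mem_insert_self _ _))
      (ih fun i hi => h i (Finset.mem_insert_of_mem hi))

private theorem Val.mul {v : Place k K} {p q : MvPolynomial (Fin n) K}
    {p₀ q₀ : MvPolynomial (Fin n) k} (h : Val v p p₀) (h' : Val v q q₀) :
    Val v (p * q) (p₀ * q₀) := by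
  intro α
  rw [coeff_mul, coeff_mul]
  exact val_fsum _ _ _ fun x _ => Place.val_mul (h _) (h' _)

private theorem Val.C {v : Place k K} {x : K} {c : k} (h : v.Zer (x - algebraMap k K c)) :
    Val (n := n) v (MvPolynomial.C x) (MvPolynomial.C c) := by
  intro α
  rw [coeff_C, coeff_C]
  split_ifs
  · exact h
  · rw [map_zero, sub_zero]
    exact v.zer_zero

private theorem Val.X {v : Place k K} (t : Fin n) :
    Val v (MvPolynomial.X t : MvPolynomial (Fin n) K) (MvPolynomial.X t) := by
  intro α
  rw [coeff_X', coeff_X']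
  split_ifs
  · rw [map_one, sub_self]
    exact v.zer_zero
  · rw [map_zero, sub_zero]
    exact v.zer_zero

private theorem Val.nat {v : Place k K} (m : ℕ) :
    Val v (m : MvPolynomial (Fin n) K) (m : MvPolynomial (Fin n) k) := by
  have h := Val.C (n := n) (v := v) (x := (m : K)) (c := (m : k)) (by
    rw [map_natCast, sub_self]
    exact v.zer_zero)
  rwa [map_natCast, map_natCast] at h

private def VP (v : Place k K) (p : Polynomial (MvPolynomial (Fin n) K))
    (p₀ : Polynomial (MvPolynomial (Fin n) k)) : Prop := ∀ l, Val v (p.coeff l) (p₀.coeff l)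

private theorem VP.add {v : Place k K} {p q : Polynomial (MvPolynomial (Fin n) K)}
    {p₀ q₀ : Polynomial (MvPolynomial (Fin n) k)} (h : VP v p p₀) (h' : VP v q q₀) :
    VP v (p + q) (p₀ + q₀) := by
  intro l
  rw [Polynomial.coeff_add, Polynomial.coeff_add]
  exact (h l).add (h' l)

private theorem VP.mul {v : Place k K} {p q : Polynomial (MvPolynomial (Fin n) K)}
    {p₀ q₀ : Polynomial (MvPolynomial (Fin n) k)} (h : VP v p p₀) (h' : VP v q q₀) :
    VP v (p * q) (p₀ * q₀) := by
  intro l
  rw [Polynomial.coeff_mul, Polynomial.coeff_mul]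
  exact Val.sum _ _ _ fun x _ => (h _).mul (h' _)

private theorem VP.C {v : Place k K} {x : MvPolynomial (Fin n) K} {c : MvPolynomial (Fin n) k}
    (h : Val v x c) : VP v (Polynomial.C x) (Polynomial.C c) := by
  intro l
  rw [Polynomial.coeff_C, Polynomial.coeff_C]
  split_ifs
  · exact h
  · exact Val.zero v

private theorem VP.Xpow {v : Place k K} (m : ℕ) :
    VP v (Polynomial.X ^ m : Polynomial (MvPolynomial (Fin n) K)) (Polynomial.X ^ m) := by
  intro l
  rw [Polynomial.coeff_X_pow, Polynomial.coeff_X_pow]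
  split_ifs
  · have h := Val.C (n := n) (v := v) (x := (1 : K)) (c := (1 : k)) (by
      rw [map_one, sub_self]
      exact v.zer_zero)
    rwa [map_one, map_one] at h
  · exact Val.zero v

private theorem VP.sum {v : Place k K} {J : Type} (s : Finset J)
    (p : J → Polynomial (MvPolynomial (Fin n) K)) (p₀ : J → Polynomial (MvPolynomial (Fin n) k))
    (h : ∀ i ∈ s, VP v (p i) (p₀ i)) : VP v (∑ i ∈ s, p i) (∑ i ∈ s, p₀ i) := by
  induction s using Finset.induction_on with
  | empty =>
    rw [Finset.sum_empty, Finset.sum_empty]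
    intro l
    rw [Polynomial.coeff_zero, Polynomial.coeff_zero]
    exact Val.zero v
  | insert a s ha ih =>
    rw [Finset.sum_insert ha, Finset.sum_insert ha]
    exact (h a (Finset.mem_insert_self _ _)).add
      (ih fun i hi => h i (Finset.mem_insert_of_mem hi))

private theorem vp_gen {a : ι → ℤ} (ε : Fin n ≃ Un a) {v : Place k K} {x : ι → K}
    {x₀ : ι → k} (hx : ∀ i, v.Zer (x i - algebraMap k K (x₀ i))) (i : ι) :
    VP v (gen ε x i) (gen ε x₀ i) :=
  (VP.C (Val.C (hx i))).add
    (VP.sum _ _ _ fun m _ => (VP.C (Val.X _)).mul (VP.Xpow _))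

private theorem vp_aeval {a : ι → ℤ} (ε : Fin n ≃ Un a) {v : Place k K} {x : ι → K}
    {x₀ : ι → k} (hx : ∀ i, v.Zer (x i - algebraMap k K (x₀ i))) (G : MvPolynomial ι k) :
    VP v (MvPolynomial.aeval (gen ε x) G) (MvPolynomial.aeval (gen ε x₀) G) := by
  induction G using MvPolynomial.induction_on with
  | C c =>
    rw [aeval_C, aeval_C, Polynomial.algebraMap_apply, Polynomial.algebraMap_apply,
      MvPolynomial.algebraMap_apply, MvPolynomial.algebraMap_apply]
    exact VP.C (Val.C (by
      rw [Algebra.algebraMap_self, RingHom.id_apply, sub_self]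
      exact v.zer_zero))
  | add p q hp hq =>
    rw [map_add, map_add]
    exact hp.add hq
  | mul_X p i hp =>
    rw [map_mul, map_mul, aeval_X, aeval_X]
    exact hp.mul (vp_gen ε hx i)

theorem gs_val (X : Hyp k P) {a : ι → ℤ} (ε : Fin n ≃ Un a) (M : ℕ) (v : Place k K) (x : ι → K)
    (x₀ : ι → k) (hx : ∀ i, v.Zer (x i - algebraMap k K (x₀ i))) (j : Fin M) (α : Fin n →₀ ℕ) :
    v.Zer (coeff α (gs X ε M x j) - algebraMap k K (coeff α (gs X ε M x₀ j))) :=
  vp_aeval ε hx X.F (j.val + 1) α

theorem th_val {a : ι → ℤ} (ε : Fin n ≃ Un a) (v : Place k K) (x : ι → K) (x₀ : ι → k)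
    (hx : ∀ i, v.Zer (x i - algebraMap k K (x₀ i))) (t : Fin n) (α : Fin n →₀ ℕ) :
    v.Zer (coeff α (th ε x t) - algebraMap k K (coeff α (th ε x₀ t))) := by
  have h : Val v (th ε x t) (th ε x₀ t) := by
    unfold th
    refine (Val.nat _).mul ?_
    split_ifs
    · exact Val.C (hx _)
    · exact Val.X _
  exact h α

end Pool.Agent.LibTC2.KW
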