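import Pool.Agent.LibTC2.SDefs

/-!
[TC1 P1] (MEDIUM) The star of a cone.

Conventions: `P.compl`, `P.uniq` say that every lattice point `w` has exactly one reduced expression `w = ∑ m i v i`,
`m i ≥ 0`, with support `sp m` in `C`. Here: relative to a cone `σ`, the coefficients `m i`, `i ∈ σ`, may be negative.

star: let `s = ∑_(i in σ) v i`. For every `C ∈ ℕ` let `m_C : ι → ℕ` be the reduced expression of `w + C s`. By Dickson's lemma
(`Pi` well quasi order: `Set.PartiallyWellOrderedOn`/`WellQuasiOrderedLE` for `ι → ℕ`: for the sequence `C ↦ m_C` there are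
`C < C'` with `m_C ≤ m_C'`). Then `m_C' - m_C ≥ 0` has support contained in `sp m_C'`, so in `C` (`down`), and
`∑ (m_C' - m_C) i v i = (C' - C) s = ∑ (C' - C) 1_σ(i) v i`, and `(C' - C) 1_σ` has support `σ ∈ C`: by `uniq`
`m_C' = m_C + (C' - C) 1_σ`. So `σ ⊆ sp m_C' ∈ C`; the answer is `m i = m_C' i - C' 1_σ(i)`: nonnegative outside of `σ`,
`σ ∪ {m ≠ 0} ⊆ sp m_C'` (outside of `σ`: `m i = m_C' i`), so in `C` by `down`.

star_uniq: choose `C ∈ ℕ` with `m i + C ≥ 0`, `m' i + C ≥ 0` for `i ∈ σ`; `m + C 1_σ`, `m' + C 1_σ` are `≥ 0` (use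
`Int.toNat`), with support contained in `σ ∪ {m ≠ 0}`, resp. `σ ∪ {m' ≠ 0}`: both in `C`, same sum: equal by `uniq`.

star_ample, star_nef: choose `C` larger (`m i + C ≥ 1` for `i ∈ σ`): then `sp (m + C 1_σ) = σ ∪ {m ≠ 0}` is not in `C`
and `P.ample` (resp. `P.nef`) applies to `m + C 1_σ`, `m' + C 1_σ`; subtract `C ∑_σ H i`.
-/

open scoped Classical
open MvPolynomial

set_option linter.unusedSectionVars false

namespace Pool.Agent.LibTC2

open Pool.Agent.LibBH2 Pool.Agent.LibQC8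

variable {ι : Type} [Fintype ι] {r : ℕ} (P : Tor ι r)

/-- the support of an integral vector -/
noncomputable def su {ι : Type} [Fintype ι] (m : ι → ℤ) : Finset ι :=
  Finset.univ.filter fun i => m i ≠ 0

private theorem sum_ind (σ : Finset ι) (c : ℤ) (v : ι → ℤ) :
    ∑ i, (if i ∈ σ then c else 0) * v i = c * ∑ i ∈ σ, v i := by
  rw [Finset.mul_sum, ← Finset.sum_filter_add_sum_filter_not Finset.univ (fun i => i ∈ σ)]
  have h1 : ∑ i ∈ Finset.univ.filter (fun i => i ∈ σ), (if i ∈ σ then c else 0) * v i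
      = ∑ i ∈ σ, c * v i := by
    have : Finset.univ.filter (fun i => i ∈ σ) = σ := by ext i; simp
    rw [this]
    exact Finset.sum_congr rfl fun i hi => by rw [if_pos hi]
  have h2 : ∑ i ∈ Finset.univ.filter (fun i => i ∉ σ), (if i ∈ σ then c else 0) * v i = 0 := by
    refine Finset.sum_eq_zero fun i hi => ?_
    rw [Finset.mem_filter] at hi
    rw [if_neg hi.2, zero_mul]
  rw [h1, h2, add_zero]

private theorem mem_sp {m : ι → ℕ} {i : ι} : i ∈ sp m ↔ m i ≠ 0 := by simp [sp]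

private theorem mem_su {m : ι → ℤ} {i : ι} : i ∈ su m ↔ m i ≠ 0 := by simp [su]

/-- lifting: `m + c 1_σ` is a vector of natural numbers -/
private theorem lift_nat (σ : Finset ι) (m : ι → ℤ) (h : ∀ i ∉ σ, 0 ≤ m i) :
    ∃ c0 : ℕ, ∀ c : ℕ, c0 ≤ c → ∃ n : ι → ℕ,
      (∀ i, (n i : ℤ) = m i + if i ∈ σ then (c : ℤ) else 0) ∧ sp n = σ ∪ su m := by
  refine ⟨∑ i, (m i).natAbs + 1, fun c hc => ⟨fun i => (m i + if i ∈ σ then (c : ℤ) else 0).toNat, ?_, ?_⟩⟩
  · intro i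
    have hb : (m i).natAbs ≤ ∑ i, (m i).natAbs :=
      Finset.single_le_sum (f := fun i => (m i).natAbs) (fun _ _ => Nat.zero_le _) (Finset.mem_univ i)
    by_cases hi : i ∈ σ
    · simp only [hi, if_true]
      rw [Int.toNat_of_nonneg]
      omega
    · simp only [hi, if_false, add_zero]
      rw [Int.toNat_of_nonneg (h i hi)]
  · ext i
    have hb : (m i).natAbs ≤ ∑ i, (m i).natAbs :=
      Finset.single_le_sum (f := fun i => (m i).natAbs) (fun _ _ => Nat.zero_le _) (Finset.mem_univ i)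
    rw [mem_sp, Finset.mem_union, mem_su]
    by_cases hi : i ∈ σ
    · simp only [hi, if_true, true_or, iff_true]
      omega
    · have := h i hi
      simp only [hi, if_false, add_zero, false_or]
      omega

private theorem sum_lift (σ : Finset ι) (m : ι → ℤ) (c : ℕ) (n : ι → ℕ) (v : ι → ℤ)
    (hn : ∀ i, (n i : ℤ) = m i + if i ∈ σ then (c : ℤ) else 0) :
    ∑ i, (n i : ℤ) * v i = ∑ i, m i * v i + c * ∑ i ∈ σ, v i := by
  rw [← sum_ind σ (c : ℤ) v, ← Finset.sum_add_distrib]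
  exact Finset.sum_congr rfl fun i _ => by rw [hn i, add_mul]

theorem star (σ : Finset ι) (hσ : σ ∈ P.C) (w : Fin r → ℤ) :
    ∃ m : ι → ℤ, (∀ i ∉ σ, 0 ≤ m i) ∧ σ ∪ su m ∈ P.C ∧ ∀ j, ∑ i, m i * P.v i j = w j := by
  have hex : ∀ c : ℕ, ∃ m : ι → ℕ, sp m ∈ P.C ∧
      ∀ j, ∑ i, (m i : ℤ) * P.v i j = w j + (c : ℤ) * ∑ i ∈ σ, P.v i j := fun c =>
    P.compl (fun j => w j + (c : ℤ) * ∑ i ∈ σ, P.v i j)
  choose f hf1 hf2 using hex
  obtain ⟨c, c', hlt, hle⟩ := wellQuasiOrdered_le f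
  have hle' : ∀ i, f c i ≤ f c' i := fun i => hle i
  have hg : sp (fun i => f c' i - f c i) ∈ P.C := P.down _ (hf1 c') _ (by
    intro i hi
    rw [mem_sp] at hi ⊢
    omega)
  have hu : sp (fun i => if i ∈ σ then c' - c else 0) ∈ P.C := P.down _ hσ _ (by
    intro i hi
    rw [mem_sp] at hi
    by_contra hn
    exact hi (if_neg hn))
  have key := P.uniq _ _ hg hu (by
    intro j
    have e1 : ∑ i, ((f c' i - f c i : ℕ) : ℤ) * P.v i j
        = ∑ i, (f c' i : ℤ) * P.v i j - ∑ i, (f c i : ℤ) * P.v i j := by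
      rw [← Finset.sum_sub_distrib]
      refine Finset.sum_congr rfl fun i _ => ?_
      rw [Nat.cast_sub (hle' i), sub_mul]
    have e2 : ∑ i, ((if i ∈ σ then c' - c else 0 : ℕ) : ℤ) * P.v i j
        = ((c' : ℤ) - c) * ∑ i ∈ σ, P.v i j := by
      rw [← sum_ind σ ((c' : ℤ) - c) (fun i => P.v i j)]
      refine Finset.sum_congr rfl fun i _ => ?_
      split_ifs
      · rw [Nat.cast_sub hlt.le]
      · simp
    rw [e1, e2, hf2, hf2]
    ring)
  have key' : ∀ i, f c' i - f c i = if i ∈ σ then c' - c else 0 := fun i => congrFun key i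
  have hsub : σ ⊆ sp (f c') := by
    intro i hi
    have := key' i
    rw [if_pos hi] at this
    rw [mem_sp]
    omega
  refine ⟨fun i => (f c' i : ℤ) - (if i ∈ σ then (c' : ℤ) else 0), ?_, ?_, ?_⟩
  · intro i hi
    simp only [if_neg hi, sub_zero]
    exact Int.natCast_nonneg _
  · refine P.down _ (hf1 c') _ (Finset.union_subset hsub ?_)
    intro i hi
    rw [mem_su] at hi
    by_cases h : i ∈ σ
    · exact hsub h
    · rw [mem_sp]
      intro h0
      apply hi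
      simp [h, h0]
  · intro j
    have : ∑ i, ((f c' i : ℤ) - (if i ∈ σ then (c' : ℤ) else 0)) * P.v i j
        = ∑ i, (f c' i : ℤ) * P.v i j - ∑ i, (if i ∈ σ then (c' : ℤ) else 0) * P.v i j := by
      rw [← Finset.sum_sub_distrib]
      exact Finset.sum_congr rfl fun i _ => by rw [sub_mul]
    rw [this, sum_ind σ (c' : ℤ) (fun i => P.v i j), hf2]
    ring

theorem star_uniq (σ : Finset ι) (m m' : ι → ℤ) (h : ∀ i ∉ σ, 0 ≤ m i)
    (h' : ∀ i ∉ σ, 0 ≤ m' i) (hc : σ ∪ su m ∈ P.C) (hc' : σ ∪ su m' ∈ P.C)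
    (he : ∀ j, ∑ i, m i * P.v i j = ∑ i, m' i * P.v i j) : m = m' := by
  obtain ⟨c1, hc1⟩ := lift_nat σ m h
  obtain ⟨c2, hc2⟩ := lift_nat σ m' h'
  obtain ⟨n, hn, hns⟩ := hc1 (c1 + c2) (by omega)
  obtain ⟨n', hn', hns'⟩ := hc2 (c1 + c2) (by omega)
  have := P.uniq n n' (by rw [hns]; exact hc) (by rw [hns']; exact hc') (fun j => by
    rw [sum_lift σ m _ n (fun i => P.v i j) hn, sum_lift σ m' _ n' (fun i => P.v i j) hn', he j])
  funext i
  have h1 := hn i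
  have h2 := hn' i
  rw [this] at h1
  omega

theorem star_ample (σ : Finset ι) (m m' : ι → ℤ) (h : ∀ i ∉ σ, 0 ≤ m i)
    (h' : ∀ i ∉ σ, 0 ≤ m' i) (hc : σ ∪ su m ∉ P.C) (hc' : σ ∪ su m' ∈ P.C)
    (he : ∀ j, ∑ i, m i * P.v i j = ∑ i, m' i * P.v i j) :
    ∑ i, P.H i * m' i < ∑ i, P.H i * m i := by
  obtain ⟨c1, hc1⟩ := lift_nat σ m h
  obtain ⟨c2, hc2⟩ := lift_nat σ m' h'
  obtain ⟨n, hn, hns⟩ := hc1 (c1 + c2) (by omega)
  obtain ⟨n', hn', hns'⟩ := hc2 (c1 + c2) (by omega)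
  have := P.ample n n' (by rw [hns]; exact hc) (by rw [hns']; exact hc') (fun j => by
    rw [sum_lift σ m _ n (fun i => P.v i j) hn, sum_lift σ m' _ n' (fun i => P.v i j) hn', he j])
  have e1 : ∑ i, P.H i * (n i : ℤ) = ∑ i, P.H i * m i + ((c1 + c2 : ℕ) : ℤ) * ∑ i ∈ σ, P.H i := by
    have := sum_lift σ m _ n P.H hn
    simpa only [mul_comm (P.H _)] using this
  have e2 : ∑ i, P.H i * (n' i : ℤ) = ∑ i, P.H i * m' i + ((c1 + c2 : ℕ) : ℤ) * ∑ i ∈ σ, P.H i := by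
    have := sum_lift σ m' _ n' P.H hn'
    simpa only [mul_comm (P.H _)] using this
  rw [e1, e2] at this
  linarith

theorem star_nef (σ : Finset ι) (m m' : ι → ℤ) (h : ∀ i ∉ σ, 0 ≤ m i)
    (h' : ∀ i ∉ σ, 0 ≤ m' i) (hc' : σ ∪ su m' ∈ P.C)
    (he : ∀ j, ∑ i, m i * P.v i j = ∑ i, m' i * P.v i j) :
    ∑ i, (P.g i : ℤ) * m' i ≤ ∑ i, (P.g i : ℤ) * m i := by
  obtain ⟨c1, hc1⟩ := lift_nat σ m h
  obtain ⟨c2, hc2⟩ := lift_nat σ m' h'
  obtain ⟨n, hn, hns⟩ := hc1 (c1 + c2) (by omega)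
  obtain ⟨n', hn', hns'⟩ := hc2 (c1 + c2) (by omega)
  have := P.nef n n' (by rw [hns']; exact hc') (fun j => by
    rw [sum_lift σ m _ n (fun i => P.v i j) hn, sum_lift σ m' _ n' (fun i => P.v i j) hn', he j])
  have e1 : ∑ i, (P.g i : ℤ) * (n i : ℤ) = ∑ i, (P.g i : ℤ) * m i +
      ((c1 + c2 : ℕ) : ℤ) * ∑ i ∈ σ, (P.g i : ℤ) := by
    have := sum_lift σ m _ n (fun i => (P.g i : ℤ)) hn
    simpa only [mul_comm ((P.g _ : ℕ) : ℤ)] using this
  have e2 : ∑ i, (P.g i : ℤ) * (n' i : ℤ) = ∑ i, (P.g i : ℤ) * m' i +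
      ((c1 + c2 : ℕ) : ℤ) * ∑ i ∈ σ, (P.g i : ℤ) := by
    have := sum_lift σ m' _ n' (fun i => (P.g i : ℤ)) hn'
    simpa only [mul_comm ((P.g _ : ℕ) : ℤ)] using this
  rw [e1, e2] at this
  linarith

end Pool.Agent.LibTC2
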