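import Pool.Agent.LibTC2.C4
import Pool.Agent.LibTC2.P1

/-!
The divisors `D_i` with `g i ≠ 1`: classes of curves in `D_i` of degree zero.
-/

open scoped Classical
open MvPolynomial

set_option linter.unusedSectionVars false

namespace Pool.Agent.LibTC2

open Pool.Agent.LibBH2 Pool.Agent.LibQC8

variable {ι : Type} [Fintype ι] {r : ℕ} {k : Type} [Field k] {P : Tor ι r}

theorem exists_star (hr : 2 ≤ r) (P : Tor ι r) (i : ι) :
    ∃ b ∈ Rel P, b ≠ 0 ∧ (∀ j, j ≠ i → 0 ≤ b j) ∧ ∀ j, j ≠ i → b j ≠ 0 → ({i, j} : Finset ι) ∈ P.C := by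
  obtain ⟨w, hw⟩ : ∃ w : Fin r → ℤ, ∀ c : ℤ, ¬ ∀ j, c * P.v i j = w j := by
    let j0 : Fin r := ⟨0, by omega⟩
    let j1 : Fin r := ⟨1, by omega⟩
    have hj : j0 ≠ j1 := fun h => by
      have := congrArg Fin.val h
      simp [j0, j1] at this
    by_cases h0 : ∃ c : ℤ, ∀ j, c * P.v i j = (Pi.single j0 1 : Fin r → ℤ) j
    · obtain ⟨c, hc⟩ := h0
      refine ⟨Pi.single j1 1, fun d hd => ?_⟩
      have h1 := hc j0
      have h2 := hc j1
      have h3 := hd j1
      rw [Pi.single_eq_same] at h1 h3
      rw [Pi.single_eq_of_ne hj.symm] at h2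
      rcases mul_eq_zero.1 h2 with h4 | h4
      · rw [h4, zero_mul] at h1
        exact zero_ne_one h1
      · rw [h4, mul_zero] at h3
        exact zero_ne_one h3
    · exact ⟨Pi.single j0 1, fun c hc => h0 ⟨c, hc⟩⟩
  obtain ⟨m, h1, h2, h3⟩ := star P {i} (P.single i) w
  obtain ⟨m', h1', h2', h3'⟩ := star P {i} (P.single i) (fun j => -w j)
  refine ⟨fun j => m j + m' j, fun j => ?_, fun h => ?_, fun j hj => ?_, fun j hj hb => ?_⟩
  · simp only [add_mul, Finset.sum_add_distrib]
    rw [h3 j, h3' j]
    ring
  · apply hw (m i)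
    intro j
    rw [← h3 j, Finset.sum_eq_single i]
    · intro x _ hx
      have h4 := congrFun h x
      have h5 := h1 x (by simpa using hx)
      have h6 := h1' x (by simpa using hx)
      simp only [Pi.zero_apply] at h4
      have h7 : m x = 0 := by omega
      rw [h7, zero_mul]
    · intro hh
      exact absurd (Finset.mem_univ i) hh
  · exact add_nonneg (h1 j (by simpa using hj)) (h1' j (by simpa using hj))
  · by_cases hm : m j = 0
    · have hm' : m' j ≠ 0 := fun h => hb (by show m j + m' j = 0; rw [hm, h, add_zero])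
      refine P.down _ h2' _ ?_
      intro x hx
      rw [Finset.mem_insert, Finset.mem_singleton] at hx
      rw [Finset.mem_union, Finset.mem_singleton]
      rcases hx with hx | hx
      · exact Or.inl hx
      · right
        rw [hx]
        simp [su, hm']
    · refine P.down _ h2 _ ?_
      intro x hx
      rw [Finset.mem_insert, Finset.mem_singleton] at hx
      rw [Finset.mem_union, Finset.mem_singleton]
      rcases hx with hx | hx
      · exact Or.inl hx
      · right
        rw [hx]
        simp [su, hm]

/-- a form of positive degree has a zero -/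
theorem exists_zero_cmp [IsAlgClosed k] (X : Hyp k P) {b : ι → ℤ} {f : ι → Polynomial k}
    (hf : IsMap P b f) (hd : 0 < dk P b) : ∃ ζ, aeval (vl b f ζ) X.F = 0 := by
  by_cases h0 : cmp X f = 0
  · exact ⟨some 0, by rw [← cmp_eval X b f 0, h0, Polynomial.eval_zero]⟩
  · by_cases h1 : (cmp X f).natDegree < (dk P b).toNat
    · exact ⟨none, by rw [← cmp_coeff X hf.toIsQ]; exact Polynomial.coeff_eq_zero_of_natDegree_lt h1⟩
    · have h2 := cmp_deg X hf.toIsQ
      have h3 : (cmp X f).degree ≠ 0 := by
        intro h
        have h4 := Polynomial.natDegree_eq_zero_iff_degree_le_zero.2 h.le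
        omega
      obtain ⟨s, hs⟩ := IsAlgClosed.exists_root (cmp X f) h3
      exact ⟨some s, by rw [← cmp_eval X b f s]; exact hs⟩

theorem dk_star [IsAlgClosed k] (X : Hyp k P) (i : ι) (hg : P.g i ≠ 1) (b : ι → ℤ) (hb : b ∈ Rel P)
    (h0 : ∀ j, j ≠ i → 0 ≤ b j) (hC : ∀ j, j ≠ i → b j ≠ 0 → ({i, j} : Finset ι) ∈ P.C) :
    dk P b = 0 := by
  have hinf : Infinite k := IsAlgClosed.instInfinite
  let e : (Σ j : ι, Fin (b j).toNat) ↪ k :=
    (Fintype.equivFin _).toEmbedding.trans (Fin.valEmbedding.trans (Infinite.natEmbedding k))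
  let f : ι → Polynomial k := fun j => if j = i then 0 else
    ∏ l : Fin (b j).toNat, (Polynomial.X - Polynomial.C (e ⟨j, l⟩))
  have fi : f i = 0 := by simp [f]
  have fj : ∀ j, j ≠ i → f j = ∏ l : Fin (b j).toNat, (Polynomial.X - Polynomial.C (e ⟨j, l⟩)) := by
    intro j hj
    simp [f, hj]
  have hmon : ∀ j, j ≠ i → (f j).Monic ∧ (f j).natDegree = (b j).toNat := by
    intro j hj
    rw [fj j hj]
    refine ⟨Polynomial.monic_prod_of_monic _ _ fun l _ => Polynomial.monic_X_sub_C _, ?_⟩
    rw [Polynomial.natDegree_prod_of_monic _ _ fun l _ => Polynomial.monic_X_sub_C _]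
    simp
  have hvi : ∀ ζ, vl b f ζ i = 0 := by
    intro ζ
    rcases ζ with _ | s
    · show (if b i < 0 then 0 else (f i).coeff (b i).toNat) = 0
      rw [fi]
      simp
    · show (f i).eval s = 0
      rw [fi, Polynomial.eval_zero]
  have hf : IsMap P b f := by
    refine ⟨⟨hb, fun j hj => ?_, fun j => ?_⟩, fun ζ => ?_⟩
    · by_cases hji : j = i
      · rw [hji, fi]
      · exact absurd hj (not_lt.2 (h0 j hji))
    · by_cases hji : j = i
      · rw [hji, fi]
        simp
      · exact (hmon j hji).2.le
    · rcases ζ with _ | s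
      · refine P.down _ (P.single i) _ ?_
        intro j hj
        rw [Finset.mem_singleton]
        by_contra hji
        simp only [zs, Finset.mem_filter, Finset.mem_univ, true_and] at hj
        have h1 : vl b f none j = 1 := by
          show (if b j < 0 then 0 else (f j).coeff (b j).toNat) = 1
          rw [if_neg (not_lt.2 (h0 j hji)), ← (hmon j hji).2]
          exact (hmon j hji).1
        rw [h1] at hj
        exact one_ne_zero hj
      · have key : ∀ j, j ≠ i → (f j).eval s = 0 → ∃ l : Fin (b j).toNat, e ⟨j, l⟩ = s := by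
          intro j hj h1
          rw [fj j hj, Polynomial.eval_prod, Finset.prod_eq_zero_iff] at h1
          obtain ⟨l, -, h2⟩ := h1
          refine ⟨l, ?_⟩
          simp only [Polynomial.eval_sub, Polynomial.eval_X, Polynomial.eval_C] at h2
          exact (sub_eq_zero.1 h2).symm
        by_cases hex : ∃ j, j ≠ i ∧ (f j).eval s = 0
        · obtain ⟨j, hj, h1⟩ := hex
          obtain ⟨l, hl⟩ := key j hj h1
          have hbj : b j ≠ 0 := by
            intro h
            have := l.isLt
            omega
          refine P.down _ (hC j hj hbj) _ ?_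
          intro x hx
          simp only [zs, Finset.mem_filter, Finset.mem_univ, true_and] at hx
          rw [Finset.mem_insert, Finset.mem_singleton]
          by_cases hxi : x = i
          · exact Or.inl hxi
          · right
            obtain ⟨l', hl'⟩ := key x hxi hx
            have h2 := e.injective (hl'.trans hl.symm)
            exact congrArg Sigma.fst h2
        · refine P.down _ (P.single i) _ ?_
          intro j hj
          rw [Finset.mem_singleton]
          by_contra hji
          simp only [zs, Finset.mem_filter, Finset.mem_univ, true_and] at hj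
          exact hex ⟨j, hji, hj⟩
  by_contra hd
  have h1 := isMap_dk hf
  obtain ⟨ζ, hζ⟩ := exists_zero_cmp X hf (by omega)
  exact X.off k _ (hf.cone ζ) hζ i hg (hvi ζ)

end Pool.Agent.LibTC2
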